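import Mathlib

open Representation

namespace Pool.Agent.KFV

section General

variable {F : Type*} [Field F]
variable {G V W : Type*} [Group G] [AddCommGroup V] [Module F V] [AddCommGroup W] [Module F W]

/-- `ρ` is isomorphic to a direct summand of `τ`. -/
def IsSummand (ρ : Representation F G V) (τ : Representation F G W) : Prop :=
  ∃ (i : IntertwiningMap ρ τ) (p : IntertwiningMap τ ρ), p.comp i = IntertwiningMap.id ρ

/-- `ρ` is indecomposable: it is not zero and it is not the direct sum of two nonzero
subrepresentations. -/
def Indec (ρ : Representation F G V) : Prop :=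
  Nontrivial V ∧ ∀ A B : Subrepresentation ρ, IsCompl A B → A = ⊥ ∨ B = ⊥

/-- `ρ` is a direct summand of the representation induced from its restriction to `Q`. -/
def RelProj (ρ : Representation F G V) (Q : Subgroup G) : Prop :=
  IsSummand ρ (ind Q.subtype (ρ.comp Q.subtype))

/-- `(Q, σ)` is a vertex-source pair of `ρ`: the subgroup `Q` is minimal such that `ρ` is a direct
summand of the representation induced from the restriction of `ρ` to `Q`, and `σ` is an
indecomposable representation of `Q` such that `ρ` is a direct summand of the representation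
induced from `σ`. -/
structure IsVertexSource (ρ : Representation F G V) (Q : Subgroup G) (σ : Representation F Q W) :
    Prop where
  vertex : Minimal (RelProj ρ) Q
  indec : Indec σ
  source : IsSummand ρ (ind Q.subtype σ)

/-- Equivalence of the pairs `(P, σ)` and `(P', σ')`: an isomorphism `φ : P ≃* P'` with
`σ ≅ Res_φ σ'`. -/
def PairEquiv {P P' : Type*} [Group P] [Group P'] (σ : Representation F P V)
    (σ' : Representation F P' W) : Prop :=
  ∃ φ : P ≃* P', Nonempty (σ.Equiv (σ'.comp φ.toMonoidHom))

/-- The sum over the cosets `x R` of `R` in `G` of `τ x ∘ θ ∘ σ x⁻¹`; for an `R`-equivariant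
map `θ` this is the relative trace of `θ` from `R` to `G`. -/
noncomputable def relTr (σ : Representation F G V) (τ : Representation F G W) (R : Subgroup G)
    (θ : V →ₗ[F] W) : V →ₗ[F] W :=
  ∑ᶠ x : G ⧸ R, τ x.out ∘ₗ θ ∘ₗ σ x.out⁻¹

/-- Equivariance, spelled out. -/
def Eqv (σ : Representation F G V) (τ : Representation F G W) (θ : V →ₗ[F] W) : Prop :=
  ∀ g, θ ∘ₗ σ g = τ g ∘ₗ θ

/-- The span of all relative traces from proper subgroups. -/
def trI (σ : Representation F G V) (τ : Representation F G W) : Submodule F (V →ₗ[F] W) :=
  Submodule.span F {f | ∃ R : Subgroup G, R ≠ ⊤ ∧ ∃ θ : V →ₗ[F] W,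
    (∀ r ∈ R, θ ∘ₗ σ r = τ r ∘ₗ θ) ∧ f = relTr σ τ R θ}

/-- `u` commutes, up to relative traces from proper subgroups, with all the maps that are
equivariant up to an automorphism of the group. -/
def Central (σ : Representation F G V) (u : V →ₗ[F] V) : Prop :=
  ∀ φ : G ≃* G, ∀ θ : V →ₗ[F] V, Eqv σ (σ.comp φ.toMonoidHom) θ →
    u ∘ₗ θ - θ ∘ₗ u ∈ trI σ (σ.comp φ.toMonoidHom)

/-- The local condition satisfied by the sources of simple modules. -/
structure LocCond (σ : Representation F G V) : Prop where
  indec : Indec σ
  not_mem : LinearMap.id ∉ trI σ σ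
  scalar : ∀ u : V →ₗ[F] V, Eqv σ σ u → Central σ u → ∃ c : F, u - c • LinearMap.id ∈ trI σ σ

end General

section Model

variable {F : Type*} [Field F] [CharP F 2]
variable {V W : Type*} [AddCommGroup V] [Module F V] [AddCommGroup W] [Module F W]

/-- The Klein four group. -/
abbrev K4 : Type := Multiplicative (ZMod 2 × ZMod 2)

/-- The map of a pencil `(X, Y)` attached to an element of the Klein four group. -/
def pen (X Y : V →ₗ[F] W) (k : K4) : V →ₗ[F] W :=
  ZMod.castHom (dvd_refl 2) F (Multiplicative.toAdd k).1 • X +
    ZMod.castHom (dvd_refl 2) F (Multiplicative.toAdd k).2 • Y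

/-- The representation of the Klein four group on `V × W` attached to a pair of linear maps
`X, Y : V → W`: the two generators act by `(v, w) ↦ (v, w + X v)` and `(v, w) ↦ (v, w + Y v)`. -/
def pencilRep (X Y : V →ₗ[F] W) : Representation F K4 (V × W) where
  toFun k := LinearMap.id + LinearMap.inr F V W ∘ₗ pen X Y k ∘ₗ LinearMap.fst F V W
  map_one' := by
    ext v <;> simp [pen]
  map_mul' := by
    intro k l
    ext v <;> simp [pen, add_smul] <;> abel

/-- The two-dimensional representation in which the generators act by the matrices
`(1 1; 0 1)` and `(1 ω; 0 1)`. -/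
def natRep (ω : F) : Representation F K4 (F × F) :=
  pencilRep LinearMap.id (ω • LinearMap.id)

/-- The representation of dimension `2 n + 1` attached to the pair of maps `F^(n+1) → F^n` which
forget the first and the last coordinate. -/
def zigRep (F : Type*) [Field F] [CharP F 2] (n : ℕ) :
    Representation F K4 ((Fin (n + 1) → F) × (Fin n → F)) :=
  pencilRep (LinearMap.funLeft F F Fin.succ) (LinearMap.funLeft F F Fin.castSucc)

end Model

end Pool.Agent.KFV
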