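import Mathlib
import Pool.Agent.KFV.Defs

open Representation

namespace Pool.Agent.KFV

variable {F : Type*} [Field F]
variable {G V W : Type*} [Group G] [AddCommGroup V] [Module F V] [AddCommGroup W] [Module F W]

namespace HIG

variable (Q : Subgroup G) (σ : Representation F Q W)

/-- The relation defining the induced representation. -/
lemma mk_rel (q : Q) (h : G) (a : W) :
    IndV.mk Q.subtype σ (q * h) (σ q a) = IndV.mk Q.subtype σ h a := by
  have := Coinvariants.mk_self_apply (Representation.tprod ((leftRegular F G).comp Q.subtype) σ) q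
    (TensorProduct.mk F _ _ (MonoidAlgebra.single h 1) a)
  simpa using this

/-- The linear map on the induced space with given values. -/
noncomputable def lft (f : G → W →ₗ[F] V)
    (hf : ∀ (q : Q) (h : G) (a : W), f (q * h) (σ q a) = f h a) :
    IndV Q.subtype σ →ₗ[F] V :=
  Coinvariants.lift _
    (TensorProduct.lift <| (Finsupp.lift _ _ _ f) ∘ₗ
      (MonoidAlgebra.coeffLinearEquiv F).toLinearMap)
    fun g ↦ by
      ext h x
      simp [hf]

lemma lft_mk (f : G → W →ₗ[F] V)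
    (hf : ∀ (q : Q) (h : G) (a : W), f (q * h) (σ q a) = f h a) (h : G) (a : W) :
    lft Q σ f hf (IndV.mk Q.subtype σ h a) = f h a := by
  simp [lft]

lemma ind_mk' (g h : G) (a : W) :
    ind Q.subtype σ g (IndV.mk Q.subtype σ h a) = IndV.mk Q.subtype σ (h * g⁻¹) a :=
  ind_mk _ _ _ _ _

lemma apply_out {M : Type*} (f : G → M) (hf : ∀ (x : G) (q : Q), f (x * q) = f x) (x : G) :
    f (QuotientGroup.mk (s := Q) x).out = f x := by
  obtain ⟨q, hq⟩ := QuotientGroup.mk_out_eq_mul Q x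
  rw [hq, hf]

open Classical in
/-- The component at the coset `Q`. -/
noncomputable def prc : IndV Q.subtype σ →ₗ[F] W :=
  lft Q σ (fun h => if hh : h ∈ Q then σ (⟨h, hh⟩⁻¹ : Q) else 0) (by
    intro q h a
    by_cases hh : h ∈ Q
    · have h1 : (q : G) * h ∈ Q := Q.mul_mem q.2 hh
      have h2 : (⟨(q : G) * h, h1⟩ : Q) = q * ⟨h, hh⟩ := rfl
      rw [dif_pos h1, dif_pos hh, h2, mul_inv_rev, map_mul]
      simp [← Module.End.mul_apply, mul_assoc, ← map_mul]
    · have h1 : ¬ (q : G) * h ∈ Q := fun h3 => hh ((Q.mul_mem_cancel_left q.2).1 h3)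
      rw [dif_neg h1, dif_neg hh]
      simp)

lemma prc_mem (h : G) (hh : h ∈ Q) (a : W) :
    prc Q σ (IndV.mk Q.subtype σ h a) = σ (⟨h, hh⟩⁻¹ : Q) a := by
  rw [prc, lft_mk, dif_pos hh]

lemma prc_not_mem (h : G) (hh : h ∉ Q) (a : W) :
    prc Q σ (IndV.mk Q.subtype σ h a) = 0 := by
  rw [prc, lft_mk, dif_neg hh]
  rfl

lemma prc_eqv (q : Q) (z : IndV Q.subtype σ) :
    prc Q σ (ind Q.subtype σ q z) = σ q (prc Q σ z) := by
  have : (prc Q σ) ∘ₗ (ind Q.subtype σ q) = (σ q) ∘ₗ (prc Q σ) := by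
    apply IndV.hom_ext
    intro h
    apply LinearMap.ext
    intro a
    simp only [LinearMap.comp_apply]
    have e1 : ind Q.subtype σ q (Coinvariants.mk _ (TensorProduct.mk F _ _ (MonoidAlgebra.single h 1) a))
      = IndV.mk Q.subtype σ (h * (q : G)⁻¹) a := ind_mk' Q σ q h a
    rw [e1]
    change _ = σ q (prc Q σ (IndV.mk Q.subtype σ h a))
    by_cases hh : h ∈ Q
    · have h1 : h * (q : G)⁻¹ ∈ Q := Q.mul_mem hh (Q.inv_mem q.2)
      rw [prc_mem Q σ _ h1, prc_mem Q σ _ hh, ← Module.End.mul_apply, ← map_mul]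
      congr 2
      ext
      simp
    · have h1 : h * (q : G)⁻¹ ∉ Q := fun h3 => hh ((Q.mul_mem_cancel_right (Q.inv_mem q.2)).1 h3)
      rw [prc_not_mem Q σ _ h1, prc_not_mem Q σ _ hh, map_zero]
  exact LinearMap.congr_fun this z

/-- The decomposition of the induced space. -/
lemma decomp [Finite G] (z : IndV Q.subtype σ) :
    ∑ᶠ x : G ⧸ Q, ind Q.subtype σ x.out
      (IndV.mk Q.subtype σ 1 (prc Q σ (ind Q.subtype σ x.out⁻¹ z))) = z := by
  classical
  have : Fintype (G ⧸ Q) := Fintype.ofFinite _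
  have : (∑ x : G ⧸ Q, (ind Q.subtype σ x.out) ∘ₗ (IndV.mk Q.subtype σ 1) ∘ₗ (prc Q σ) ∘ₗ
      (ind Q.subtype σ x.out⁻¹)) = LinearMap.id := by
    apply IndV.hom_ext
    intro h
    apply LinearMap.ext
    intro a
    change (∑ x : G ⧸ Q, (ind Q.subtype σ x.out) ∘ₗ (IndV.mk Q.subtype σ 1) ∘ₗ (prc Q σ) ∘ₗ
      (ind Q.subtype σ x.out⁻¹)) (IndV.mk Q.subtype σ h a) = IndV.mk Q.subtype σ h a
    rw [LinearMap.sum_apply]
    have key : ∀ x : G ⧸ Q, ((ind Q.subtype σ x.out) ∘ₗ (IndV.mk Q.subtype σ 1) ∘ₗ (prc Q σ) ∘ₗ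
      (ind Q.subtype σ x.out⁻¹)) (IndV.mk Q.subtype σ h a) =
        IndV.mk Q.subtype σ x.out⁻¹ (prc Q σ (IndV.mk Q.subtype σ (h * x.out) a)) := by
      intro x
      change ind Q.subtype σ x.out (IndV.mk Q.subtype σ 1 (prc Q σ
        (ind Q.subtype σ x.out⁻¹ (IndV.mk Q.subtype σ h a)))) = _
      rw [ind_mk', ind_mk', inv_inv, one_mul]
    rw [Finset.sum_congr rfl (fun x _ => key x)]
    rw [Finset.sum_eq_single (QuotientGroup.mk (s := Q) h⁻¹)]
    · obtain ⟨q, hq⟩ := QuotientGroup.mk_out_eq_mul Q h⁻¹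
      rw [hq, mul_inv_cancel_left, prc_mem Q σ _ q.2, mul_inv_rev, inv_inv]
      exact mk_rel Q σ q⁻¹ h a
    · intro x _ hx
      rw [prc_not_mem, map_zero]
      intro hm
      apply hx
      rw [← QuotientGroup.out_eq' x, eq_comm, QuotientGroup.eq, inv_inv]
      exact hm
    · intro hm
      exact absurd (Finset.mem_univ _) hm
  rw [finsum_eq_sum_of_fintype]
  have h2 := LinearMap.congr_fun this z
  rw [LinearMap.sum_apply] at h2
  exact h2

lemma relTr_apply [Finite G] (ρ : Representation F G V) (τ : Representation F G W) (θ : V →ₗ[F] W)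
    (v : V) : relTr ρ τ Q θ v = ∑ᶠ x : G ⧸ Q, τ x.out (θ (ρ x.out⁻¹ v)) := by
  classical
  have : Fintype (G ⧸ Q) := Fintype.ofFinite _
  rw [relTr, finsum_eq_sum_of_fintype, finsum_eq_sum_of_fintype, LinearMap.sum_apply]
  rfl

/-- The inclusion attached to an equivariant map. -/
noncomputable def inc [Finite G] (ρ : Representation F G V) (β : V →ₗ[F] W) :
    V →ₗ[F] IndV Q.subtype σ :=
  ∑ᶠ x : G ⧸ Q, (IndV.mk Q.subtype σ x.out⁻¹) ∘ₗ β ∘ₗ (ρ x.out⁻¹)

lemma inc_apply [Finite G] (ρ : Representation F G V) (β : V →ₗ[F] W) (v : V) :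
    inc Q σ ρ β v = ∑ᶠ x : G ⧸ Q, IndV.mk Q.subtype σ x.out⁻¹ (β (ρ x.out⁻¹ v)) := by
  classical
  have : Fintype (G ⧸ Q) := Fintype.ofFinite _
  rw [inc, finsum_eq_sum_of_fintype, finsum_eq_sum_of_fintype, LinearMap.sum_apply]
  rfl

lemma inc_eqv [Finite G] (ρ : Representation F G V) (β : V →ₗ[F] W)
    (hβ : Eqv (ρ.comp Q.subtype) σ β) (g : G) (v : V) :
    inc Q σ ρ β (ρ g v) = ind Q.subtype σ g (inc Q σ ρ β v) := by
  classical
  have : Fintype (G ⧸ Q) := Fintype.ofFinite _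
  rw [inc_apply, inc_apply, finsum_eq_sum_of_fintype, finsum_eq_sum_of_fintype, map_sum]
  set f : G → IndV Q.subtype σ := fun x => IndV.mk Q.subtype σ x⁻¹ (β (ρ x⁻¹ (ρ g v))) with hf
  have hfq : ∀ (x : G) (q : Q), f (x * q) = f x := by
    intro x q
    have h1 : β (ρ (q : G)⁻¹ (ρ x⁻¹ (ρ g v))) = σ q⁻¹ (β (ρ x⁻¹ (ρ g v))) :=
      LinearMap.congr_fun (hβ q⁻¹) _
    simp only [hf]
    rw [mul_inv_rev, map_mul, Module.End.mul_apply, h1]
    exact mk_rel Q σ q⁻¹ x⁻¹ _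
  have h2 : ∑ x : G ⧸ Q, f x.out = ∑ x : G ⧸ Q, f (g • x).out :=
    (Equiv.sum_comp (MulAction.toPerm g) (fun x : G ⧸ Q => f x.out)).symm
  refine h2.trans ?_
  refine Finset.sum_congr rfl (fun x _ => ?_)
  have h3 : g • x = QuotientGroup.mk (s := Q) (g * x.out) := by
    conv_lhs => rw [← QuotientGroup.out_eq' x]
    rfl
  rw [h3, apply_out Q f hfq, ind_mk']
  simp only [hf]
  rw [mul_inv_rev, ← Module.End.mul_apply, ← map_mul]
  simp [mul_assoc]

end HIG

/-- Higman's criterion with sources. -/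
theorem isSummand_ind_iff [Finite G] (ρ : Representation F G V) (Q : Subgroup G)
    (σ : Representation F Q W) :
    IsSummand ρ (ind Q.subtype σ) ↔ ∃ (α : W →ₗ[F] V) (β : V →ₗ[F] W),
      Eqv σ (ρ.comp Q.subtype) α ∧ Eqv (ρ.comp Q.subtype) σ β ∧
        relTr ρ ρ Q (α ∘ₗ β) = LinearMap.id := by
  classical
  have : Fintype (G ⧸ Q) := Fintype.ofFinite _
  constructor
  · rintro ⟨i, p, hpi⟩
    have hp : ∀ g z, p.toLinearMap (ind Q.subtype σ g z) = ρ g (p.toLinearMap z) :=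
      fun g z => LinearMap.congr_fun (p.isIntertwining' g) z
    have hi : ∀ g v, i.toLinearMap (ρ g v) = ind Q.subtype σ g (i.toLinearMap v) :=
      fun g v => LinearMap.congr_fun (i.isIntertwining' g) v
    refine ⟨p.toLinearMap ∘ₗ IndV.mk Q.subtype σ 1, HIG.prc Q σ ∘ₗ i.toLinearMap, ?_, ?_, ?_⟩
    · intro q
      apply LinearMap.ext
      intro a
      have h1 : IndV.mk Q.subtype σ 1 (σ q a) = IndV.mk Q.subtype σ (1 * (q : G)⁻¹) a := by
        have := HIG.mk_rel Q σ q (q : G)⁻¹ a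
        rw [mul_inv_cancel] at this
        rw [this, one_mul]
      change p.toLinearMap (IndV.mk Q.subtype σ 1 (σ q a)) =
        ρ q (p.toLinearMap (IndV.mk Q.subtype σ 1 a))
      rw [h1, ← HIG.ind_mk', hp]
    · intro q
      apply LinearMap.ext
      intro v
      change HIG.prc Q σ (i.toLinearMap (ρ q v)) = σ q (HIG.prc Q σ (i.toLinearMap v))
      rw [hi, HIG.prc_eqv]
    · apply LinearMap.ext
      intro v
      rw [HIG.relTr_apply]
      have h1 : p.toLinearMap (i.toLinearMap v) = v := by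
        have := congrArg (fun f : IntertwiningMap ρ ρ => f.toLinearMap v) hpi
        exact this
      have h2 := congrArg p.toLinearMap (HIG.decomp Q σ (i.toLinearMap v))
      rw [h1, finsum_eq_sum_of_fintype, map_sum] at h2
      rw [finsum_eq_sum_of_fintype]
      refine Eq.trans (Finset.sum_congr rfl (fun x _ => ?_)) h2
      rw [hp, ← hi]
      rfl
  · rintro ⟨α, β, hα, hβ, h⟩
    have hα' : ∀ (q : Q) (h : G) (a : W), (ρ (q * h)⁻¹ ∘ₗ α) (σ q a) = (ρ h⁻¹ ∘ₗ α) a := by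
      intro q h a
      have h1 : α (σ q a) = ρ q (α a) := LinearMap.congr_fun (hα q) a
      rw [LinearMap.comp_apply, LinearMap.comp_apply, h1, ← Module.End.mul_apply, ← map_mul]
      simp
    refine ⟨⟨HIG.inc Q σ ρ β, fun g => LinearMap.ext fun v => HIG.inc_eqv Q σ ρ β hβ g v⟩,
      ⟨HIG.lft Q σ (fun h => ρ h⁻¹ ∘ₗ α) hα', fun g => ?_⟩, ?_⟩
    · apply IndV.hom_ext
      intro h
      apply LinearMap.ext
      intro a
      change HIG.lft Q σ (fun h => ρ h⁻¹ ∘ₗ α) hα' (ind Q.subtype σ g (IndV.mk Q.subtype σ h a)) =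
        ρ g (HIG.lft Q σ (fun h => ρ h⁻¹ ∘ₗ α) hα' (IndV.mk Q.subtype σ h a))
      rw [HIG.ind_mk', HIG.lft_mk, HIG.lft_mk]
      simp
    · apply IntertwiningMap.ext
      apply LinearMap.ext
      intro v
      change HIG.lft Q σ (fun h => ρ h⁻¹ ∘ₗ α) hα' (HIG.inc Q σ ρ β v) = v
      rw [HIG.inc_apply, finsum_eq_sum_of_fintype, map_sum]
      have h2 := LinearMap.congr_fun h v
      rw [HIG.relTr_apply, finsum_eq_sum_of_fintype] at h2
      refine Eq.trans (Finset.sum_congr rfl (fun x _ => ?_)) h2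
      rw [HIG.lft_mk]
      simp

end Pool.Agent.KFV
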