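import Mathlib
import Pool.Agent.KFV.Defs

open Representation

namespace Pool.Agent.KFV

variable {F : Type*} [Field F]
variable {G V W X : Type*} [Group G] [AddCommGroup V] [Module F V] [AddCommGroup W] [Module F W]
  [AddCommGroup X] [Module F X]

/-- the conjugate of `θ` -/
private def TT (σ : Representation F G V) (τ : Representation F G W) (θ : V →ₗ[F] W) (g : G) :
    V →ₗ[F] W := τ g ∘ₗ θ ∘ₗ σ g⁻¹

private theorem TT_mul (σ : Representation F G V) (τ : Representation F G W) (θ : V →ₗ[F] W)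
    (g h : G) : TT σ τ θ (g * h) = τ g ∘ₗ TT σ τ θ h ∘ₗ σ g⁻¹ := by
  unfold TT
  rw [mul_inv_rev, map_mul, map_mul]
  rfl

private theorem TT_mem (σ : Representation F G V) (τ : Representation F G W) (R : Subgroup G)
    (θ : V →ₗ[F] W) (hθ : ∀ r ∈ R, θ ∘ₗ σ r = τ r ∘ₗ θ) (r : G) (hr : r ∈ R) :
    TT σ τ θ r = θ := by
  unfold TT
  rw [hθ _ (R.inv_mem hr), ← LinearMap.comp_assoc]
  have : τ r ∘ₗ τ r⁻¹ = LinearMap.id := by
    rw [← Module.End.mul_eq_comp, ← map_mul, mul_inv_cancel, map_one]; rfl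
  rw [this, LinearMap.id_comp]

private theorem TT_congr (σ : Representation F G V) (τ : Representation F G W) (R : Subgroup G)
    (θ : V →ₗ[F] W) (hθ : ∀ r ∈ R, θ ∘ₗ σ r = τ r ∘ₗ θ) (g h : G) (hgh : (g : G ⧸ R) = h) :
    TT σ τ θ g = TT σ τ θ h := by
  have h1 : g⁻¹ * h ∈ R := QuotientGroup.eq.1 hgh
  have h2 : h = g * (g⁻¹ * h) := by group
  rw [h2, TT_mul, TT_mem σ τ R θ hθ _ h1]
  rfl

/-- The relative trace can be computed with any section. -/
theorem relTr_eq_section (σ : Representation F G V) (τ : Representation F G W) (R : Subgroup G)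
    (θ : V →ₗ[F] W) (hθ : ∀ r ∈ R, θ ∘ₗ σ r = τ r ∘ₗ θ) (s : G ⧸ R → G)
    (hs : ∀ x, (s x : G ⧸ R) = x) :
    relTr σ τ R θ = ∑ᶠ x : G ⧸ R, τ (s x) ∘ₗ θ ∘ₗ σ (s x)⁻¹ := by
  unfold relTr
  refine finsum_congr (fun x => ?_)
  refine TT_congr σ τ R θ hθ x.out (s x) ?_
  rw [hs, QuotientGroup.out_eq']

private theorem comp_finsum [Finite G] (R : Subgroup G) (f : G ⧸ R → V →ₗ[F] W) (g : W →ₗ[F] X) :
    g ∘ₗ (∑ᶠ x, f x) = ∑ᶠ x, g ∘ₗ f x := by
  have : Fintype (G ⧸ R) := Fintype.ofFinite _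
  rw [finsum_eq_sum_of_fintype, finsum_eq_sum_of_fintype]
  ext v
  simp [LinearMap.sum_apply]

private theorem finsum_comp' [Finite G] (R : Subgroup G) (f : G ⧸ R → V →ₗ[F] W) (g : X →ₗ[F] V) :
    (∑ᶠ x, f x) ∘ₗ g = ∑ᶠ x, f x ∘ₗ g := by
  have : Fintype (G ⧸ R) := Fintype.ofFinite _
  rw [finsum_eq_sum_of_fintype, finsum_eq_sum_of_fintype]
  ext v
  simp [LinearMap.sum_apply]

/-- The relative trace of an `R`-equivariant map is `G`-equivariant. -/
theorem relTr_eqv [Finite G] (σ : Representation F G V) (τ : Representation F G W)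
    (R : Subgroup G) (θ : V →ₗ[F] W) (hθ : ∀ r ∈ R, θ ∘ₗ σ r = τ r ∘ₗ θ) :
    Eqv σ τ (relTr σ τ R θ) := by
  intro g
  have h1 : τ g ∘ₗ relTr σ τ R θ ∘ₗ σ g⁻¹ = relTr σ τ R θ := by
    have h0 := relTr_eq_section σ τ R θ hθ (fun x => g * (g⁻¹ • x).out) (fun x => by
      rw [← smul_eq_mul, MulAction.Quotient.coe_smul_out, smul_inv_smul])
    conv_rhs => rw [h0]
    unfold relTr
    rw [finsum_comp', comp_finsum]
    have h2 : ∀ x : G ⧸ R, τ (g * (g⁻¹ • x).out) ∘ₗ θ ∘ₗ σ (g * (g⁻¹ • x).out)⁻¹ =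
        (fun y : G ⧸ R => τ g ∘ₗ (τ y.out ∘ₗ θ ∘ₗ σ y.out⁻¹) ∘ₗ σ g⁻¹) (g⁻¹ • x) := by
      intro x
      exact TT_mul σ τ θ g (g⁻¹ • x).out
    rw [finsum_congr h2]
    exact (finsum_comp_equiv (MulAction.toPerm (g⁻¹) : Equiv.Perm (G ⧸ R))).symm
  have h3 : σ g⁻¹ ∘ₗ σ g = LinearMap.id := by
    rw [← Module.End.mul_eq_comp, ← map_mul, inv_mul_cancel, map_one]; rfl
  calc relTr σ τ R θ ∘ₗ σ g = (τ g ∘ₗ relTr σ τ R θ ∘ₗ σ g⁻¹) ∘ₗ σ g := by rw [h1]
    _ = τ g ∘ₗ relTr σ τ R θ ∘ₗ (σ g⁻¹ ∘ₗ σ g) := by rfl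
    _ = τ g ∘ₗ relTr σ τ R θ := by rw [h3, LinearMap.comp_id]

theorem comp_relTr [Finite G] (σ : Representation F G V) (τ : Representation F G W)
    (υ : Representation F G X) (R : Subgroup G) (θ : V →ₗ[F] W) (g : W →ₗ[F] X)
    (hg : Eqv τ υ g) : g ∘ₗ relTr σ τ R θ = relTr σ υ R (g ∘ₗ θ) := by
  unfold relTr
  rw [comp_finsum]
  refine finsum_congr (fun x => ?_)
  rw [← LinearMap.comp_assoc, hg]
  rfl

theorem relTr_comp [Finite G] (υ : Representation F G X) (σ : Representation F G V)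
    (τ : Representation F G W) (R : Subgroup G) (θ : V →ₗ[F] W) (f : X →ₗ[F] V)
    (hf : Eqv υ σ f) : relTr σ τ R θ ∘ₗ f = relTr υ τ R (θ ∘ₗ f) := by
  unfold relTr
  rw [finsum_comp']
  refine finsum_congr (fun x => ?_)
  rw [LinearMap.comp_assoc, LinearMap.comp_assoc, ← hf]
  rfl

theorem relTr_add [Finite G] (σ : Representation F G V) (τ : Representation F G W)
    (R : Subgroup G) (θ θ' : V →ₗ[F] W) :
    relTr σ τ R (θ + θ') = relTr σ τ R θ + relTr σ τ R θ' := by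
  unfold relTr
  have : Fintype (G ⧸ R) := Fintype.ofFinite _
  rw [finsum_eq_sum_of_fintype, finsum_eq_sum_of_fintype, finsum_eq_sum_of_fintype,
    ← Finset.sum_add_distrib]
  refine Finset.sum_congr rfl (fun x _ => ?_)
  rw [LinearMap.add_comp, LinearMap.comp_add]

theorem relTr_smul [Finite G] (σ : Representation F G V) (τ : Representation F G W)
    (R : Subgroup G) (c : F) (θ : V →ₗ[F] W) :
    relTr σ τ R (c • θ) = c • relTr σ τ R θ := by
  unfold relTr
  have : Fintype (G ⧸ R) := Fintype.ofFinite _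
  rw [finsum_eq_sum_of_fintype, finsum_eq_sum_of_fintype, Finset.smul_sum]
  refine Finset.sum_congr rfl (fun x _ => ?_)
  rw [LinearMap.smul_comp, LinearMap.comp_smul]

/-- Transitivity of the relative trace (use `Subgroup.quotientEquivProdOfLE'`). -/
theorem relTr_trans [Finite G] (σ : Representation F G V) (τ : Representation F G W)
    (Q : Subgroup G) (R : Subgroup Q) (θ : V →ₗ[F] W)
    (hθ : ∀ r ∈ R, θ ∘ₗ (σ.comp Q.subtype) r = (τ.comp Q.subtype) r ∘ₗ θ) :
    relTr σ τ Q (relTr (σ.comp Q.subtype) (τ.comp Q.subtype) R θ) =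
      relTr σ τ (R.map Q.subtype) θ := by
  have hθ' : ∀ r ∈ R.map Q.subtype, θ ∘ₗ σ r = τ r ∘ₗ θ := by
    rintro _ ⟨r, hr, rfl⟩
    exact hθ r hr
  have : Fintype (G ⧸ Q) := Fintype.ofFinite _
  have : Fintype (Q ⧸ R) := Fintype.ofFinite _
  have : Fintype (G ⧸ R.map Q.subtype) := Fintype.ofFinite _
  have e1 : relTr σ τ Q (relTr (σ.comp Q.subtype) (τ.comp Q.subtype) R θ) =
      ∑ p : (G ⧸ Q) × (Q ⧸ R), TT σ τ θ (p.1.out * (p.2.out : Q)) := by
    rw [Fintype.sum_prod_type]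
    unfold relTr
    rw [finsum_eq_sum_of_fintype]
    refine Finset.sum_congr rfl (fun x _ => ?_)
    rw [finsum_comp', comp_finsum, finsum_eq_sum_of_fintype]
    refine Finset.sum_congr rfl (fun y _ => ?_)
    rw [TT_mul]
    rfl
  have e2 : relTr σ τ (R.map Q.subtype) θ = ∑ z : G ⧸ R.map Q.subtype, TT σ τ θ z.out := by
    unfold relTr
    rw [finsum_eq_sum_of_fintype]
    rfl
  rw [e1, e2]
  have hle : R.map Q.subtype ≤ Q := Subgroup.map_subtype_le R
  refine Fintype.sum_bijective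
    (fun p : (G ⧸ Q) × (Q ⧸ R) => ((p.1.out * (p.2.out : Q) : G) : G ⧸ R.map Q.subtype))
    ⟨?_, ?_⟩ _ _ (fun p => ?_)
  · rintro ⟨x, y⟩ ⟨x', y'⟩ h
    have h1 := QuotientGroup.eq.1 h
    simp only at h1
    have h2 : x = x' := by
      rw [← QuotientGroup.out_eq' x, ← QuotientGroup.out_eq' x']
      apply QuotientGroup.eq.2
      have h3 := hle h1
      have h4 : (x.out)⁻¹ * x'.out = (y.out : Q) * ((x.out * ((y.out : Q) : G))⁻¹ *
        (x'.out * ((y'.out : Q) : G))) * ((y'.out : Q) : G)⁻¹ := by group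
      rw [h4]
      exact Q.mul_mem (Q.mul_mem (y.out : Q).2 h3) (Q.inv_mem (y'.out : Q).2)
    subst h2
    have h3 : y = y' := by
      rw [← QuotientGroup.out_eq' y, ← QuotientGroup.out_eq' y']
      apply QuotientGroup.eq.2
      obtain ⟨r, hr, hr2⟩ := h1
      have h4 : (y.out)⁻¹ * y'.out = r := by
        apply Subtype.ext
        have h5 : ((r : Q) : G) = (x.out * ((y.out : Q) : G))⁻¹ * (x.out * ((y'.out : Q) : G)) := hr2
        rw [h5]
        push_cast
        group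
      rw [h4]
      exact hr
    rw [h3]
  · intro z
    obtain ⟨g, rfl⟩ := QuotientGroup.mk_surjective z
    have hq : ((g : G ⧸ Q).out)⁻¹ * g ∈ Q := by
      apply QuotientGroup.eq.1
      rw [QuotientGroup.out_eq']
    refine ⟨((g : G ⧸ Q), ((⟨_, hq⟩ : Q) : Q ⧸ R)), ?_⟩
    apply QuotientGroup.eq.2
    have h1 : (((⟨_, hq⟩ : Q) : Q ⧸ R).out)⁻¹ * (⟨_, hq⟩ : Q) ∈ R := by
      apply QuotientGroup.eq.1
      rw [QuotientGroup.out_eq']
    refine ⟨_, h1, ?_⟩
    simp only [Subgroup.coe_subtype, Subgroup.coe_mul, Subgroup.coe_inv]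
    group
  · refine TT_congr σ τ (R.map Q.subtype) θ hθ' _ _ ?_
    rw [QuotientGroup.out_eq']

private theorem Eqv.zero' (σ : Representation F G V) (τ : Representation F G W) :
    Eqv σ τ (0 : V →ₗ[F] W) := by
  intro g; rw [LinearMap.zero_comp, LinearMap.comp_zero]

theorem eqv_of_mem_trI [Finite G] (σ : Representation F G V) (τ : Representation F G W)
    (f : V →ₗ[F] W) (hf : f ∈ trI σ τ) : Eqv σ τ f := by
  unfold trI at hf
  induction hf using Submodule.span_induction with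
  | mem f h =>
    obtain ⟨R, _, θ, hθ, rfl⟩ := h
    exact relTr_eqv σ τ R θ hθ
  | zero => exact Eqv.zero' σ τ
  | add f g _ _ hf hg =>
    intro a
    rw [LinearMap.add_comp, LinearMap.comp_add, hf a, hg a]
  | smul c f _ hf =>
    intro a
    rw [LinearMap.smul_comp, LinearMap.comp_smul, hf a]

theorem comp_mem_trI [Finite G] (σ : Representation F G V) (τ : Representation F G W)
    (υ : Representation F G X) (f : V →ₗ[F] W) (g : W →ₗ[F] X) (hg : Eqv τ υ g)
    (hf : f ∈ trI σ τ) : g ∘ₗ f ∈ trI σ υ := by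
  unfold trI at hf
  induction hf using Submodule.span_induction with
  | mem f h =>
    obtain ⟨R, hR, θ, hθ, rfl⟩ := h
    refine Submodule.subset_span ⟨R, hR, g ∘ₗ θ, fun r hr => ?_, comp_relTr σ τ υ R θ g hg⟩
    rw [LinearMap.comp_assoc, hθ r hr, ← LinearMap.comp_assoc, hg, LinearMap.comp_assoc]
  | zero => rw [LinearMap.comp_zero]; exact Submodule.zero_mem _
  | add f f' _ _ hf hf' => rw [LinearMap.comp_add]; exact Submodule.add_mem _ hf hf'
  | smul c f _ hf => rw [LinearMap.comp_smul]; exact Submodule.smul_mem _ _ hf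

theorem mem_trI_comp [Finite G] (υ : Representation F G X) (σ : Representation F G V)
    (τ : Representation F G W) (g : V →ₗ[F] W) (f : X →ₗ[F] V) (hf : Eqv υ σ f)
    (hg : g ∈ trI σ τ) : g ∘ₗ f ∈ trI υ τ := by
  unfold trI at hg
  induction hg using Submodule.span_induction with
  | mem g h =>
    obtain ⟨R, hR, θ, hθ, rfl⟩ := h
    refine Submodule.subset_span ⟨R, hR, θ ∘ₗ f, fun r hr => ?_, relTr_comp υ σ τ R θ f hf⟩
    rw [LinearMap.comp_assoc, hf, ← LinearMap.comp_assoc, hθ r hr, LinearMap.comp_assoc]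
  | zero => rw [LinearMap.zero_comp]; exact Submodule.zero_mem _
  | add f f' _ _ hf hf' => rw [LinearMap.add_comp]; exact Submodule.add_mem _ hf hf'
  | smul c f _ hf => rw [LinearMap.smul_comp]; exact Submodule.smul_mem _ _ hf

end Pool.Agent.KFV
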