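import Mathlib
import Pool.Agent.KFV.Defs
import Pool.Agent.KFV.HIG
import Pool.Agent.KFV.TRA

open Representation

namespace Pool.Agent.KFV

theorem triv_bot_or_top {F G : Type*} [Field F] [Group G]
    (A : Subrepresentation (Representation.trivial F G F)) : A = ⊥ ∨ A = ⊤ := by
  rcases eq_bot_or_eq_top (A.toSubmodule : Ideal F) with h | h
  · left
    apply Subrepresentation.toSubmodule_injective
    exact h
  · right
    apply Subrepresentation.toSubmodule_injective
    exact h

theorem triv_bot_ne_top {F G : Type*} [Field F] [Group G] :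
    (⊥ : Subrepresentation (Representation.trivial F G F)) ≠ ⊤ := by
  intro h
  have h2 : (⊥ : Submodule F F) = ⊤ := congrArg Subrepresentation.toSubmodule h
  exact bot_ne_top h2

theorem triv_irreducible (F G : Type*) [Field F] [Group G] :
    (Representation.trivial F G F).IsIrreducible :=
  { exists_pair_ne := ⟨⊥, ⊤, triv_bot_ne_top⟩
    eq_bot_or_eq_top := triv_bot_or_top }

theorem triv_indec (F G : Type*) [Field F] [Group G] :
    Indec (Representation.trivial F G F) := by
  refine ⟨inferInstance, fun A B h => ?_⟩
  rcases triv_bot_or_top A with hA | hA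
  · exact Or.inl hA
  · right
    have h1 := h.inf_eq_bot
    rw [hA, top_inf_eq] at h1
    exact h1

theorem triv_relTr {F G : Type*} [Field F] [Group G] [Finite G] (R : Subgroup G)
    (θ : F →ₗ[F] F) :
    relTr (Representation.trivial F G F) (Representation.trivial F G F) R θ
      = (R.index : F) • θ := by
  have h : ∀ x : G ⧸ R, (Representation.trivial F G F) x.out ∘ₗ θ ∘ₗ
      (Representation.trivial F G F) x.out⁻¹ = θ := by
    intro x
    ext
    simp
  unfold relTr
  simp only [h]
  have := Fintype.ofFinite (G ⧸ R)
  rw [finsum_eq_sum_of_fintype, Finset.sum_const, Finset.card_univ, ← Nat.card_eq_fintype_card,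
    Nat.cast_smul_eq_nsmul]
  rfl

theorem index_even {R : Subgroup K4} (h : R ≠ ⊤) : 2 ∣ R.index := by
  have h1 : R.index ∣ 4 := by
    have h2 := R.index_dvd_card
    have h3 : Nat.card K4 = 4 := by
      simp [K4, Nat.card_eq_fintype_card]
    rwa [h3] at h2
  have h4 : R.index ≠ 1 := fun h5 => h (Subgroup.index_eq_one.1 h5)
  have h6 : R.index ≤ 4 := Nat.le_of_dvd (by norm_num) h1
  interval_cases hR : R.index <;> omega

/-- The trivial representation of the Klein four group is simple and self-dual with vertex the
whole group and trivial source.  (The relative trace from a proper subgroup is multiplication by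
its even index.) -/
theorem exists_trivial (F : Type*) [Field F] [CharP F 2] :
    (Representation.trivial F K4 F).IsIrreducible ∧
    Nonempty ((Representation.trivial F K4 F).dual.Equiv (Representation.trivial F K4 F)) ∧
    IsVertexSource (Representation.trivial F K4 F) (⊤ : Subgroup K4)
      (Representation.trivial F (⊤ : Subgroup K4) F) := by
  have hid : relTr (Representation.trivial F K4 F) (Representation.trivial F K4 F)
      (⊤ : Subgroup K4) ((LinearMap.id : F →ₗ[F] F) ∘ₗ LinearMap.id) = LinearMap.id := by
    rw [triv_relTr, Subgroup.index_top, Nat.cast_one, one_smul]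
    rfl
  refine ⟨triv_irreducible F K4, ?_, ?_, triv_indec F _, ?_⟩
  · refine ⟨Representation.Equiv.mk (LinearMap.ringLmapEquivSelf F F F) ?_⟩
    intro g
    ext
    simp
    rfl
  · refine ⟨?_, ?_⟩
    · rw [RelProj, isSummand_ind_iff]
      refine ⟨LinearMap.id, LinearMap.id, ?_, ?_, hid⟩
      · intro g; rfl
      · intro g; rfl
    · intro R hR _
      by_contra hne
      have hR' : R ≠ ⊤ := fun h => hne (h ▸ le_rfl)
      rw [RelProj, isSummand_ind_iff] at hR
      obtain ⟨α, β, _, _, h⟩ := hR
      rw [triv_relTr] at h
      have h0 : (R.index : F) = 0 := (CharP.cast_eq_zero_iff F 2 _).2 (index_even hR')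
      rw [h0, zero_smul] at h
      have h1 := LinearMap.congr_fun h 1
      simp at h1
  · rw [isSummand_ind_iff]
    refine ⟨LinearMap.id, LinearMap.id, ?_, ?_, hid⟩
    · intro g; rfl
    · intro g; rfl

end Pool.Agent.KFV
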