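import Mathlib
import Pool.Agent.KFV.Defs

open Representation

namespace Pool.Agent.KFV

variable {F : Type*} [Field F]
variable {G V W : Type*} [Group G] [AddCommGroup V] [Module F V] [AddCommGroup W] [Module F W]

theorem fit_isCompl {σ : Representation F G V} (A B : Subrepresentation σ)
    (h : IsCompl A.toSubmodule B.toSubmodule) : IsCompl A B := by
  constructor
  · rw [disjoint_iff]
    exact Subrepresentation.toSubmodule_injective h.inf_eq_bot
  · rw [codisjoint_iff]
    exact Subrepresentation.toSubmodule_injective h.sup_eq_top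

theorem fit_pow {σ : Representation F G V} {θ : Module.End F V} (hθ : Eqv σ σ θ) (n : ℕ) :
    Eqv σ σ (θ ^ n) := by
  intro g
  have h0 : θ * σ g = σ g * θ := hθ g
  have : Commute θ (σ g) := h0
  exact this.pow_left n

/-- Fitting's lemma: for large `n` the space is the direct sum of the subrepresentations
`ker θ^n` and `range θ^n`. -/
theorem Indec.bijective_or_nilpotent [FiniteDimensional F V] {σ : Representation F G V}
    (h : Indec σ) (θ : Module.End F V) (hθ : Eqv σ σ θ) :
    Function.Bijective θ ∨ IsNilpotent θ := by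
  obtain ⟨n, hn, hn1⟩ := ((LinearMap.eventually_isCompl_ker_pow_range_pow θ).and
    (Filter.eventually_ge_atTop 1)).exists
  have hp := fit_pow hθ n
  let A : Subrepresentation σ := ⟨LinearMap.ker (θ ^ n), fun g v hv => by
    have h1 : (θ ^ n) v = 0 := hv
    have h2 : (θ ^ n) (σ g v) = σ g ((θ ^ n) v) := LinearMap.congr_fun (hp g) v
    change (θ ^ n) (σ g v) = 0
    rw [h2, h1, map_zero]⟩
  let B : Subrepresentation σ := ⟨LinearMap.range (θ ^ n), fun g v hv => by
    obtain ⟨w, rfl⟩ := hv
    exact ⟨σ g w, LinearMap.congr_fun (hp g) w⟩⟩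
  rcases h.2 A B (fit_isCompl A B hn) with h1 | h1
  · left
    have h2 : LinearMap.ker (θ ^ n) = ⊥ := congrArg Subrepresentation.toSubmodule h1
    have h3 : Function.Injective θ := by
      rw [← LinearMap.ker_eq_bot, eq_bot_iff, ← h2]
      intro v hv
      have h4 : θ v = 0 := hv
      obtain ⟨k, rfl⟩ := Nat.exists_eq_add_of_le' hn1
      change (θ ^ (k + 1)) v = 0
      rw [pow_succ, Module.End.mul_apply, h4, map_zero]
    exact ⟨h3, LinearMap.surjective_of_injective h3⟩
  · right
    have h2 : LinearMap.range (θ ^ n) = ⊥ := congrArg Subrepresentation.toSubmodule h1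
    exact ⟨n, LinearMap.range_eq_bot.1 h2⟩

/-- The inverse of an equivariant isomorphism is equivariant. -/
theorem fit_symm {σ : Representation F G V} {τ : Representation F G W} (e : V ≃ₗ[F] W)
    (he : Eqv σ τ e.toLinearMap) : Eqv τ σ e.symm.toLinearMap := by
  intro g
  ext w
  obtain ⟨u, rfl⟩ := e.surjective w
  simp only [LinearMap.comp_apply, LinearEquiv.coe_coe, LinearEquiv.symm_apply_apply]
  rw [LinearEquiv.symm_apply_eq]
  exact (LinearMap.congr_fun (he g) u).symm

theorem fit_add [FiniteDimensional F V] {σ : Representation F G V} (h : Indec σ)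
    {α β : V →ₗ[F] V} (hα : Eqv σ σ α) (hβ : Eqv σ σ β) (hα' : ¬ Function.Bijective α)
    (hβ' : ¬ Function.Bijective β) : ¬ Function.Bijective (α + β) := by
  intro hu
  have hadd : Eqv σ σ (α + β) := by
    intro g
    rw [LinearMap.add_comp, LinearMap.comp_add, hα g, hβ g]
  set e := LinearEquiv.ofBijective (α + β) hu with he
  have hes : Eqv σ σ e.symm.toLinearMap := fit_symm e hadd
  have h1 : Eqv σ σ (e.symm.toLinearMap ∘ₗ α) := by
    intro g
    rw [LinearMap.comp_assoc, hα g, ← LinearMap.comp_assoc, hes g, LinearMap.comp_assoc]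
  have h2 : ¬ Function.Bijective (e.symm.toLinearMap ∘ₗ α) := by
    intro hb
    apply hα'
    have h3 : (α : V → V) = e ∘ (e.symm.toLinearMap ∘ₗ α) := by
      funext v
      simp
    rw [h3]
    exact e.bijective.comp hb
  have h3 : IsNilpotent (e.symm.toLinearMap ∘ₗ α : Module.End F V) :=
    (Indec.bijective_or_nilpotent h _ h1).resolve_left h2
  have h4 : IsUnit (1 - (e.symm.toLinearMap ∘ₗ α) : Module.End F V) := h3.isUnit_one_sub
  have h5 : (1 - (e.symm.toLinearMap ∘ₗ α) : Module.End F V) = e.symm.toLinearMap ∘ₗ β := by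
    ext v
    have h6 : e.symm (α v + β v) = v := by
      have : α v + β v = e v := rfl
      rw [this, LinearEquiv.symm_apply_apply]
    rw [map_add] at h6
    change v - e.symm (α v) = e.symm (β v)
    nth_rewrite 1 [← h6]
    abel
  rw [h5, Module.End.isUnit_iff] at h4
  apply hβ'
  have h7 : (β : V → V) = e ∘ (e.symm.toLinearMap ∘ₗ β) := by
    funext v
    simp
  rw [h7]
  exact e.bijective.comp h4

/-- The equivariant maps which are not bijective form a submodule. -/
theorem Indec.exists_nonunits [FiniteDimensional F V] {σ : Representation F G V}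
    (h : Indec σ) : ∃ N : Submodule F (V →ₗ[F] V), ∀ θ : V →ₗ[F] V,
      θ ∈ N ↔ (Eqv σ σ θ ∧ ¬ Function.Bijective θ) := by
  haveI := h.1
  have hz : Eqv σ σ (0 : V →ₗ[F] V) ∧ ¬ Function.Bijective (0 : V →ₗ[F] V) := by
    refine ⟨fun g => by rw [LinearMap.zero_comp, LinearMap.comp_zero], fun hb => ?_⟩
    obtain ⟨v, hv⟩ := exists_ne (0 : V)
    exact hv (hb.1 (by simp))
  refine ⟨{ carrier := {θ | Eqv σ σ θ ∧ ¬ Function.Bijective θ}
            add_mem' := ?_
            zero_mem' := hz
            smul_mem' := ?_ }, fun θ => Iff.rfl⟩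
  · rintro α β ⟨hα, hα'⟩ ⟨hβ, hβ'⟩
    refine ⟨fun g => ?_, fit_add h hα hβ hα' hβ'⟩
    rw [LinearMap.add_comp, LinearMap.comp_add, hα g, hβ g]
  · rintro c θ ⟨hθ, hθ'⟩
    by_cases hc : c = 0
    · rw [hc, zero_smul]
      exact hz
    · refine ⟨fun g => ?_, fun hb => hθ' ?_⟩
      · rw [LinearMap.smul_comp, LinearMap.comp_smul, hθ g]
      · constructor
        · intro v w hvw
          apply hb.1
          rw [LinearMap.smul_apply, LinearMap.smul_apply, hvw]
        · intro w
          obtain ⟨v, hv⟩ := hb.2 (c • w)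
          refine ⟨v, ?_⟩
          rw [LinearMap.smul_apply] at hv
          exact smul_right_injective V hc hv

/-- A nonzero direct summand of an indecomposable representation is everything. -/
theorem Indec.retract {σ : Representation F G V} {τ : Representation F G W} [Nontrivial V]
    (h : Indec τ) (a : V →ₗ[F] W) (b : W →ₗ[F] V) (ha : Eqv σ τ a) (hb : Eqv τ σ b)
    (hab : b ∘ₗ a = LinearMap.id) : Function.Bijective a := by
  have hba : ∀ v, b (a v) = v := fun v => LinearMap.congr_fun hab v
  let A : Subrepresentation τ := ⟨LinearMap.ker b, fun g v hv => by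
    have h1 : b v = 0 := hv
    have h2 : b (τ g v) = σ g (b v) := LinearMap.congr_fun (hb g) v
    change b (τ g v) = 0
    rw [h2, h1, map_zero]⟩
  let B : Subrepresentation τ := ⟨LinearMap.range a, fun g v hv => by
    obtain ⟨w, rfl⟩ := hv
    exact ⟨σ g w, LinearMap.congr_fun (ha g) w⟩⟩
  have hAB : IsCompl A B := by
    apply fit_isCompl
    change IsCompl (LinearMap.ker b) (LinearMap.range a)
    constructor
    · rw [disjoint_iff, eq_bot_iff]
      rintro _ ⟨hv, ⟨v, rfl⟩⟩
      have h1 : b (a v) = 0 := hv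
      rw [hba] at h1
      rw [h1, map_zero]
      exact Submodule.zero_mem _
    · rw [codisjoint_iff, eq_top_iff]
      rintro w -
      refine Submodule.mem_sup.2 ⟨w - a (b w), ?_, a (b w), ⟨_, rfl⟩, by abel⟩
      rw [LinearMap.mem_ker, map_sub, hba, sub_self]
  refine ⟨Function.LeftInverse.injective hba, ?_⟩
  rcases h.2 A B hAB with h1 | h1
  · have h2 : LinearMap.ker b = ⊥ := congrArg Subrepresentation.toSubmodule h1
    have h3 := LinearMap.ker_eq_bot.1 h2
    intro w
    exact ⟨b w, h3 (hba (b w))⟩
  · exfalso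
    have h2 : LinearMap.range a = ⊥ := congrArg Subrepresentation.toSubmodule h1
    have h3 := LinearMap.range_eq_bot.1 h2
    obtain ⟨v, hv⟩ := exists_ne (0 : V)
    apply hv
    rw [← hba v, h3]
    simp

end Pool.Agent.KFV
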