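import Mathlib
import Pool.Agent.KFV.Defs
import Pool.Agent.KFV.HIG
import Pool.Agent.KFV.TRA

open Representation

namespace Pool.Agent.KFV

variable {F : Type*} [Field F]
variable {G V : Type*} [Group G] [AddCommGroup V] [Module F V]

/-- Schur's lemma for equivariant linear maps. -/
theorem npv_schur [IsAlgClosed F] [FiniteDimensional F V] (ρ : Representation F G V)
    (hρ : ρ.IsIrreducible) (f : V →ₗ[F] V) (hf : Eqv ρ ρ f) :
    ∃ c : F, f = c • LinearMap.id := by
  haveI := hρ
  obtain ⟨c, hc⟩ := (IsIrreducible.algebraMap_intertwiningMap_bijective_of_isAlgClosed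
    (ρ := ρ)).2 (⟨f, hf⟩ : IntertwiningMap ρ ρ)
  refine ⟨c, ?_⟩
  have := congrArg IntertwiningMap.toLinearMap hc
  rw [IntertwiningMap.algebraMap_apply] at this
  exact this.symm

/-- Traces to `G` of relative traces from proper subgroups of the vertex vanish.  Proof: by
linearity and `relTr_trans` the element is a trace from a subgroup `R' < Q` of an `R'`-equivariant
`θ`; it is a scalar by Schur's lemma (`algebraMap_intertwiningMap_bijective_of_isAlgClosed`), and
if the scalar is not zero then `ρ` is relatively `R'`-projective (`isSummand_ind_iff` with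
`α = id`, `β` a multiple of `θ`), against the minimality of `Q`. -/
theorem relTr_eq_zero_of_mem_trI [IsAlgClosed F] [FiniteDimensional F V] [Finite G]
    (ρ : Representation F G V) (hρ : ρ.IsIrreducible) (Q : Subgroup G)
    (hQ : Minimal (RelProj ρ) Q) (c : V →ₗ[F] V)
    (hc : c ∈ trI (ρ.comp Q.subtype) (ρ.comp Q.subtype)) : relTr ρ ρ Q c = 0 := by
  induction hc using Submodule.span_induction with
  | zero =>
    have h1 := relTr_smul ρ ρ Q (0 : F) (0 : V →ₗ[F] V)
    rwa [zero_smul, zero_smul] at h1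
  | add x y _ _ hx hy => rw [relTr_add, hx, hy, add_zero]
  | smul a x _ hx => rw [relTr_smul, hx, smul_zero]
  | mem x hx =>
    obtain ⟨R, hR, θ, hθ, rfl⟩ := hx
    rw [relTr_trans ρ ρ Q R θ hθ]
    set R' : Subgroup G := R.map Q.subtype with hR'
    have hle : R' ≤ Q := Subgroup.map_subtype_le R
    have hθ' : ∀ r ∈ R', θ ∘ₗ ρ r = ρ r ∘ₗ θ := by
      rintro _ ⟨r, hr, rfl⟩
      exact hθ r hr
    obtain ⟨a, ha⟩ := npv_schur ρ hρ _ (relTr_eqv ρ ρ R' θ hθ')
    by_cases h0 : a = 0
    · rw [ha, h0, zero_smul]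
    · exfalso
      have hproj : RelProj ρ R' := by
        unfold RelProj
        rw [isSummand_ind_iff]
        refine ⟨LinearMap.id, a⁻¹ • θ, fun g => rfl, fun g => ?_, ?_⟩
        · rw [LinearMap.smul_comp, LinearMap.comp_smul]
          congr 1
          exact hθ' g g.2
        · rw [LinearMap.id_comp, relTr_smul, ha, smul_smul, inv_mul_cancel₀ h0, one_smul]
      have h1 : Q ≤ R' := hQ.2 hproj hle
      apply hR
      rw [eq_top_iff]
      rintro ⟨q, hq⟩ -
      obtain ⟨r, hr, hrq⟩ := h1 hq
      have h2 : r = ⟨q, hq⟩ := Subtype.ext hrq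
      rw [← h2]
      exact hr

end Pool.Agent.KFV
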