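import Mathlib
import Pool.Agent.KFV.Defs
import Pool.Agent.KFV.TRA

open Representation

namespace Pool.Agent.KFV

variable {F : Type*} [Field F]
variable {P V W : Type*} [Group P] [AddCommGroup V] [Module F V] [AddCommGroup W] [Module F W]

/-- The sum over one orbit is the relative trace from the stabiliser. -/
theorem orb_sum_orbit [Finite P] {Ω : Type*} [Finite Ω] [MulAction P Ω]
    (σ : Representation F P V) (τ : Representation F P W) (f : Ω → V →ₗ[F] W)
    (hf : ∀ (p : P) (ω : Ω), f (p • ω) = τ p ∘ₗ f ω ∘ₗ σ p⁻¹) (ω₀ : Ω) :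
    ∑ᶠ ω : MulAction.orbit P ω₀, f ω = relTr σ τ (MulAction.stabilizer P ω₀) (f ω₀) := by
  rw [relTr]
  rw [← finsum_comp_equiv (MulAction.orbitEquivQuotientStabilizer P ω₀).symm]
  apply finsum_congr
  intro x
  rw [← hf]
  congr 1
  have h := MulAction.orbitEquivQuotientStabilizer_symm_apply P ω₀ x.out
  have hx : ((x.out : P) : P ⧸ MulAction.stabilizer P ω₀) = x := Quotient.out_eq' x
  rw [hx] at h
  exact h

/-- Sum of an equivariant function over a finite `P`-set.  Proof:
`MulAction.selfEquivSigmaOrbitsQuotientStabilizer` writes the sum as a sum over the orbits `o` of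
the relative trace from the stabiliser of `o.out` of `f o.out`; it is in `trI` if the stabiliser is
a proper subgroup, and equal to `f o.out` otherwise. -/
theorem orbit_sum_mem [Finite P] {Ω : Type*} [Finite Ω] [MulAction P Ω]
    (σ : Representation F P V) (τ : Representation F P W) (f : Ω → V →ₗ[F] W)
    (hf : ∀ (p : P) (ω : Ω), f (p • ω) = τ p ∘ₗ f ω ∘ₗ σ p⁻¹)
    (N : Submodule F (V →ₗ[F] W)) (hN : trI σ τ ≤ N)
    (hfix : ∀ ω : Ω, (∀ p : P, p • ω = ω) → f ω ∈ N) : ∑ᶠ ω, f ω ∈ N := by
  classical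
  have hfin : Fintype Ω := Fintype.ofFinite Ω
  rw [finsum_eq_sum_of_fintype]
  have hfib := Finset.sum_fiberwise (Finset.univ : Finset Ω)
    (fun ω => (Quotient.mk'' ω : MulAction.orbitRel.Quotient P Ω)) f
  rw [← hfib]
  apply Submodule.sum_mem
  intro o _
  obtain ⟨ω₀, rfl⟩ := Quotient.exists_rep o
  have hset : ∀ ω : Ω, ω ∈ (Finset.univ : Finset Ω).filter
      (fun ω => (Quotient.mk'' ω : MulAction.orbitRel.Quotient P Ω) = ⟦ω₀⟧) ↔
        ω ∈ MulAction.orbit P ω₀ := by
    intro ω
    rw [Finset.mem_filter]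
    simp only [Finset.mem_univ, true_and]
    rw [← MulAction.orbitRel_apply]
    exact Quotient.eq''
  rw [Finset.sum_subtype _ hset f]
  have hs : ∑ a : {x // x ∈ MulAction.orbit P ω₀}, f a
      = relTr σ τ (MulAction.stabilizer P ω₀) (f ω₀) := by
    rw [← orb_sum_orbit σ τ f hf ω₀, finsum_eq_sum_of_fintype]
  rw [hs]
  by_cases htop : MulAction.stabilizer P ω₀ = ⊤
  · have hfixed : ∀ p : P, p • ω₀ = ω₀ := by
      intro p
      have : p ∈ MulAction.stabilizer P ω₀ := by rw [htop]; trivial
      exact this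
    have hone : relTr σ τ (MulAction.stabilizer P ω₀) (f ω₀) = f ω₀ := by
      rw [← orb_sum_orbit σ τ f hf ω₀]
      have hu : Unique (MulAction.orbit P ω₀) :=
        { default := ⟨ω₀, MulAction.mem_orbit_self ω₀⟩
          uniq := by
            rintro ⟨x, p, rfl⟩
            exact Subtype.ext (hfixed p) }
      rw [finsum_unique]
      have : ((default : MulAction.orbit P ω₀) : Ω) = ω₀ := by
        obtain ⟨x, p, hp⟩ := (default : MulAction.orbit P ω₀)
        exact hp.symm.trans (hfixed p)
      rw [this]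
    rw [hone]
    exact hfix ω₀ hfixed
  · apply hN
    apply Submodule.subset_span
    refine ⟨MulAction.stabilizer P ω₀, htop, f ω₀, ?_, rfl⟩
    intro r hr
    have h1 := hf r ω₀
    rw [MulAction.mem_stabilizer_iff.1 hr] at h1
    conv_lhs => rw [h1]
    rw [LinearMap.comp_assoc, LinearMap.comp_assoc, ← Module.End.mul_eq_comp (σ r⁻¹), ← map_mul,
      inv_mul_cancel, map_one]
    rfl

end Pool.Agent.KFV
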