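import Mathlib
import Pool.Agent.KFV.Defs
import Pool.Agent.KFV.HIG
import Pool.Agent.KFV.TRA
import Pool.Agent.KFV.ORB
import Pool.Agent.KFV.FIT
import Pool.Agent.KFV.NPV

open Representation

namespace Pool.Agent.KFV

variable {F : Type*} [Field F]
variable {G V W : Type*} [Group G] [AddCommGroup V] [Module F V] [AddCommGroup W] [Module F W]

/-- The data given by Higman's criterion for the source. -/
theorem source_data [Finite G] (ρ : Representation F G V) (Q : Subgroup G)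
    (σ : Representation F Q W) (h : IsVertexSource ρ Q σ) :
    ∃ (α : W →ₗ[F] V) (β : V →ₗ[F] W),
      Eqv σ (ρ.comp Q.subtype) α ∧ Eqv (ρ.comp Q.subtype) σ β ∧
        relTr ρ ρ Q (α ∘ₗ β) = LinearMap.id :=
  (isSummand_ind_iff ρ Q σ).1 h.source

theorem Eqv.comp {X Y Z : Type*} [AddCommGroup X] [Module F X] [AddCommGroup Y] [Module F Y]
    [AddCommGroup Z] [Module F Z] {σ : Representation F G X} {τ : Representation F G Y}
    {υ : Representation F G Z} {f : X →ₗ[F] Y} {g : Y →ₗ[F] Z} (hg : Eqv τ υ g)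
    (hf : Eqv σ τ f) : Eqv σ υ (g ∘ₗ f) := fun x => by
  rw [LinearMap.comp_assoc, hf x, ← LinearMap.comp_assoc, hg x, LinearMap.comp_assoc]

theorem nontrivial_of_irreducible (ρ : Representation F G V) (hρ : ρ.IsIrreducible) :
    Nontrivial V := by
  by_contra hV
  rw [not_nontrivial_iff_subsingleton] at hV
  obtain ⟨x, y, hxy⟩ := hρ.exists_pair_ne
  apply hxy
  ext v
  rw [Subsingleton.elim v 0]
  exact ⟨fun _ => zero_mem _, fun _ => zero_mem _⟩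

theorem source_not_mem [IsAlgClosed F] [FiniteDimensional F V] [Finite G]
    (ρ : Representation F G V) (hρ : ρ.IsIrreducible) (Q : Subgroup G)
    (σ : Representation F Q W) (h : IsVertexSource ρ Q σ) : LinearMap.id ∉ trI σ σ := by
  intro hid
  obtain ⟨α, β, hα, hβ, htr⟩ := source_data ρ Q σ h
  have h1 : β ∈ trI (ρ.comp Q.subtype) σ := by
    have := mem_trI_comp (ρ.comp Q.subtype) σ σ LinearMap.id β hβ hid
    rwa [LinearMap.id_comp] at this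
  have h2 : α ∘ₗ β ∈ trI (ρ.comp Q.subtype) (ρ.comp Q.subtype) :=
    comp_mem_trI _ _ _ _ _ hα h1
  have h3 := relTr_eq_zero_of_mem_trI ρ hρ Q h.vertex _ h2
  rw [htr] at h3
  have := nontrivial_of_irreducible ρ hρ
  obtain ⟨v, hv⟩ := exists_ne (0 : V)
  exact hv (by simpa using congrArg (fun f => f v) h3)

theorem rep_not_mem [IsAlgClosed F] [FiniteDimensional F V] [Finite G]
    (ρ : Representation F G V) (hρ : ρ.IsIrreducible) (Q : Subgroup G)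
    (σ : Representation F Q W) (h : IsVertexSource ρ Q σ) :
    LinearMap.id ∉ trI (ρ.comp Q.subtype) (ρ.comp Q.subtype) := by
  intro hid
  obtain ⟨α, β, hα, hβ, htr⟩ := source_data ρ Q σ h
  have h2 : α ∘ₗ β ∈ trI (ρ.comp Q.subtype) (ρ.comp Q.subtype) := by
    have := comp_mem_trI _ _ (ρ.comp Q.subtype) _ (α ∘ₗ β) (hα.comp hβ) hid
    rwa [LinearMap.comp_id] at this
  have h3 := relTr_eq_zero_of_mem_trI ρ hρ Q h.vertex _ h2
  rw [htr] at h3
  have := nontrivial_of_irreducible ρ hρ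
  obtain ⟨v, hv⟩ := exists_ne (0 : V)
  exact hv (by simpa using congrArg (fun f => f v) h3)

/-- A fixed point of `Q` on `G ⧸ Q₂` conjugates `Q` into `Q₂`. -/
theorem fixed_coset {Q Q₂ : Subgroup G} (x : G ⧸ Q₂) (hx : ∀ q : Q, q • x = x) (q : Q) :
    x.out⁻¹ * (q : G) * x.out ∈ Q₂ := by
  have h1 : ((q : G) * x.out : G ⧸ Q₂) = (x.out : G ⧸ Q₂) := by
    have h2 := hx q
    have h3 : (x.out : G ⧸ Q₂) = x := Quotient.out_eq' x
    rw [h3]
    conv_rhs => rw [← h2]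
    conv_rhs => rw [← h3]
    rfl
  have h4 := QuotientGroup.eq.1 h1.symm
  simpa [mul_assoc] using h4


theorem conj_mem_of_finite [Finite G] {Q : Subgroup G} (g : G) (hg : ∀ q : Q, g⁻¹ * (q : G) * g ∈ Q)
    (q : Q) : g * (q : G) * g⁻¹ ∈ Q := by
  have hinj : Function.Injective (fun p : Q => (⟨g⁻¹ * (p : G) * g, hg p⟩ : Q)) := by
    intro p p' hpp
    have h1 : g⁻¹ * (p : G) * g = g⁻¹ * (p' : G) * g := congrArg Subtype.val hpp
    exact Subtype.ext (mul_left_cancel (mul_right_cancel h1))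
  obtain ⟨p, hp⟩ := (Finite.injective_iff_surjective.1 hinj) q
  have h2 : g⁻¹ * (p : G) * g = (q : G) := congrArg Subtype.val hp
  rw [← h2]
  have h3 : g * (g⁻¹ * (p : G) * g) * g⁻¹ = p := by group
  rw [h3]
  exact p.2

/-- The conjugate of a `Q`-equivariant map depends on the coset only. -/
theorem conj_out (ρ : Representation F G V) (Q : Subgroup G) (c : V →ₗ[F] V)
    (hc : Eqv (ρ.comp Q.subtype) (ρ.comp Q.subtype) c) (g : G) (x : G ⧸ Q)
    (h : (g : G ⧸ Q) = x) : ρ x.out ∘ₗ c ∘ₗ ρ x.out⁻¹ = ρ g ∘ₗ c ∘ₗ ρ g⁻¹ := by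
  have h1 : (g : G ⧸ Q) = (x.out : G ⧸ Q) := by
    rw [h]; exact (Quotient.out_eq' x).symm
  have h2 : g⁻¹ * x.out ∈ Q := QuotientGroup.eq.1 h1
  have h3 := hc ⟨g⁻¹ * x.out, h2⟩
  have h4 : x.out = g * (g⁻¹ * x.out) := by group
  set q : G := g⁻¹ * x.out with hq
  have h3' : c ∘ₗ ρ q = ρ q ∘ₗ c := h3
  have h5 : x.out⁻¹ = q⁻¹ * g⁻¹ := by rw [h4]; group
  rw [h5, h4]
  have e1 : ρ (g * q) = ρ g ∘ₗ ρ q := by rw [map_mul]; rfl
  have e2 : ρ (q⁻¹ * g⁻¹) = ρ q⁻¹ ∘ₗ ρ g⁻¹ := by rw [map_mul]; rfl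
  rw [e1, e2]
  have e3 : c ∘ₗ ρ q⁻¹ ∘ₗ ρ g⁻¹ = (c ∘ₗ ρ q⁻¹) ∘ₗ ρ g⁻¹ := rfl
  have e4 : ρ q ∘ₗ (c ∘ₗ ρ q⁻¹) = c := by
    rw [← LinearMap.comp_assoc, ← h3', LinearMap.comp_assoc]
    have : ρ q ∘ₗ ρ q⁻¹ = LinearMap.id := by
      have := map_mul ρ q q⁻¹
      rw [mul_inv_cancel, map_one] at this
      exact this.symm
    rw [this, LinearMap.comp_id]
  rw [e3, LinearMap.comp_assoc, ← LinearMap.comp_assoc (ρ g⁻¹) (c ∘ₗ ρ q⁻¹) (ρ q), e4]

theorem conj_smul (ρ : Representation F G V) (Q Q₂ : Subgroup G) (c : V →ₗ[F] V)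
    (hc : Eqv (ρ.comp Q₂.subtype) (ρ.comp Q₂.subtype) c) (p : Q) (x : G ⧸ Q₂) :
    ρ (p • x).out ∘ₗ c ∘ₗ ρ (p • x).out⁻¹ =
      (ρ.comp Q.subtype) p ∘ₗ (ρ x.out ∘ₗ c ∘ₗ ρ x.out⁻¹) ∘ₗ (ρ.comp Q.subtype) p⁻¹ := by
  have h : (((p : G) * x.out : G) : G ⧸ Q₂) = p • x := by
    have h3 : (x.out : G ⧸ Q₂) = x := Quotient.out_eq' x
    conv_rhs => rw [← h3]
    rfl
  rw [conj_out ρ Q₂ c hc _ _ h, mul_inv_rev, map_mul, map_mul]
  rfl


/-- The algebra of the `Q`-equivariant endomorphisms. -/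
def endAlg (ρ : Representation F G V) (Q : Subgroup G) : Subalgebra F (Module.End F V) :=
  Subalgebra.centralizer F (Set.range fun q : Q => ρ q)

theorem mem_endAlg (ρ : Representation F G V) (Q : Subgroup G) (c : Module.End F V) :
    c ∈ endAlg ρ Q ↔ Eqv (ρ.comp Q.subtype) (ρ.comp Q.subtype) c := by
  unfold endAlg
  rw [Subalgebra.mem_centralizer_iff]
  constructor
  · intro h q
    exact (h _ ⟨q, rfl⟩).symm
  · rintro h _ ⟨q, rfl⟩
    exact (h q).symm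

/-- An element all of whose left multiples are nilpotent is in the Jacobson radical. -/
theorem mem_jacobson_of_nilpotent {R : Type*} [Ring R] (x : R) (h : ∀ y : R, IsNilpotent (y * x)) :
    x ∈ Ideal.jacobson (⊥ : Ideal R) := by
  rw [Ideal.mem_jacobson_iff]
  intro y
  have h1 : IsUnit (1 + y * x) := (h y).isUnit_one_add
  obtain ⟨u, hu⟩ := h1
  refine ⟨(↑u⁻¹ : R), ?_⟩
  have h2 : (↑u⁻¹ : R) * (1 + y * x) = 1 := by rw [← hu]; exact Units.inv_mul u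
  rw [Submodule.mem_bot]
  have h3 : (↑u⁻¹ : R) * y * x + (↑u⁻¹ : R) - 1 = (↑u⁻¹ : R) * (1 + y * x) - 1 := by
    rw [mul_add, mul_one, mul_assoc]; abel
  rw [h3, h2, sub_self]

theorem comm_of_conj (ρ : Representation F G V) (g : G) (A : V →ₗ[F] V)
    (h : A = ρ g ∘ₗ A ∘ₗ ρ g⁻¹) : A ∘ₗ ρ g = ρ g ∘ₗ A := by
  conv_lhs => rw [h]
  have h1 : ρ g⁻¹ ∘ₗ ρ g = LinearMap.id := by
    have := map_mul ρ g⁻¹ g
    rw [inv_mul_cancel, map_one] at this
    exact this.symm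
  rw [LinearMap.comp_assoc, LinearMap.comp_assoc, h1, LinearMap.comp_id]

theorem isNilpotent_conj {R : Type*} [Ring R] (A B z : R) (hBA : B * A = 1)
    (hz : IsNilpotent z) : IsNilpotent (A * z * B) := by
  obtain ⟨k, hk⟩ := hz
  refine ⟨k + 1, ?_⟩
  have h : ∀ m : ℕ, (A * z * B) ^ (m + 1) = A * z ^ (m + 1) * B := by
    intro m
    induction m with
    | zero => simp
    | succ m ih =>
      rw [pow_succ, ih, pow_succ z (m + 1)]
      calc A * z ^ (m + 1) * B * (A * z * B) = A * z ^ (m + 1) * (B * A) * z * B := by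
            simp only [mul_assoc]
        _ = A * (z ^ (m + 1) * z) * B := by rw [hBA]; simp only [mul_assoc, one_mul]
  rw [h, pow_succ, hk]
  simp

theorem source_split [IsAlgClosed F] [FiniteDimensional F V] [FiniteDimensional F W] [Finite G]
    (ρ : Representation F G V) (hρ : ρ.IsIrreducible) (Q : Subgroup G)
    (σ : Representation F Q W) (h : IsVertexSource ρ Q σ) :
    ∃ (α : W →ₗ[F] V) (β : V →ₗ[F] W), Eqv σ (ρ.comp Q.subtype) α ∧
      Eqv (ρ.comp Q.subtype) σ β ∧ β ∘ₗ α = LinearMap.id := by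
  by_contra hcon
  obtain ⟨α, β, hα, hβ, htr⟩ := source_data ρ Q σ h
  -- no composite is bijective
  have hnb : ∀ (a : W →ₗ[F] V) (b : V →ₗ[F] W), Eqv σ (ρ.comp Q.subtype) a →
      Eqv (ρ.comp Q.subtype) σ b → ¬ Function.Bijective (b ∘ₗ a) := by
    intro a b ha hb hbij
    apply hcon
    set e := LinearEquiv.ofBijective (b ∘ₗ a) hbij with he
    have hE : Eqv σ σ (b ∘ₗ a) := hb.comp ha
    refine ⟨a, e.symm.toLinearMap ∘ₗ b, ha, ?_, ?_⟩
    · have hE' : Eqv σ σ e.symm.toLinearMap := by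
        intro q
        ext w
        apply e.injective
        have h1 := congrArg (fun f => f (e.symm w)) (hE q)
        simp only [LinearMap.comp_apply] at h1 ⊢
        have h2 : ∀ v, e v = b (a v) := fun v => rfl
        simp only [LinearEquiv.coe_coe, LinearEquiv.apply_symm_apply]
        rw [h2, h1, ← h2, LinearEquiv.apply_symm_apply]
      exact hE'.comp hb
    · ext w
      have h2 : ∀ v, e v = b (a v) := fun v => rfl
      simp only [LinearMap.comp_apply, LinearEquiv.coe_coe, LinearMap.id_apply]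
      rw [← h2, LinearEquiv.symm_apply_apply]
  -- nilpotency
  have hnil : ∀ y : Module.End F V, Eqv (ρ.comp Q.subtype) (ρ.comp Q.subtype) y →
      IsNilpotent (y * (α ∘ₗ β : Module.End F V)) := by
    intro y hy
    have h1 : Eqv σ σ (β ∘ₗ (y ∘ₗ α)) := hβ.comp (Eqv.comp hy hα)
    rcases h.indec.bijective_or_nilpotent (β ∘ₗ (y ∘ₗ α)) h1 with h2 | ⟨k, hk⟩
    · exact absurd h2 (hnb _ _ (Eqv.comp hy hα) hβ)
    · refine ⟨k + 1, ?_⟩
      have h3 : ∀ m : ℕ, (y * (α ∘ₗ β : Module.End F V)) ^ (m + 1) =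
          (y ∘ₗ α) ∘ₗ ((β ∘ₗ (y ∘ₗ α) : Module.End F W) ^ m) ∘ₗ β := by
        intro m
        induction m with
        | zero => ext v; simp
        | succ m ih =>
          rw [pow_succ, ih, pow_succ]
          ext v
          simp
      rw [h3, hk]
      ext v
      simp
  have hfixnil : ∀ x : G ⧸ Q, (∀ p : Q, p • x = x) →
      ∃ (he : (ρ x.out ∘ₗ (α ∘ₗ β) ∘ₗ ρ x.out⁻¹ : Module.End F V) ∈ endAlg ρ Q),
        (⟨_, he⟩ : endAlg ρ Q) ∈ Ideal.jacobson (⊥ : Ideal (endAlg ρ Q)) := by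
    intro x hx
    have hin := fixed_coset (Q := Q) (Q₂ := Q) x hx
    have hout := conj_mem_of_finite x.out hin
    have hc : Eqv (ρ.comp Q.subtype) (ρ.comp Q.subtype) (α ∘ₗ β) := hα.comp hβ
    have he : (ρ x.out ∘ₗ (α ∘ₗ β) ∘ₗ ρ x.out⁻¹ : Module.End F V) ∈ endAlg ρ Q := by
      rw [mem_endAlg]
      intro p
      have h1 := conj_smul ρ Q Q (α ∘ₗ β) hc p x
      rw [hx p] at h1
      exact comm_of_conj (ρ.comp Q.subtype) p _ h1
    refine ⟨he, mem_jacobson_of_nilpotent _ ?_⟩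
    rintro ⟨y, hy⟩
    rw [mem_endAlg] at hy
    set g : G := x.out with hg
    have hgg : (ρ g⁻¹ : Module.End F V) * ρ g = 1 := by
      rw [← map_mul, inv_mul_cancel, map_one]
    have hgg' : (ρ g : Module.End F V) * ρ g⁻¹ = 1 := by
      rw [← map_mul, mul_inv_cancel, map_one]
    have hy' : Eqv (ρ.comp Q.subtype) (ρ.comp Q.subtype) ((ρ g⁻¹ * y * ρ g : Module.End F V)) := by
      intro q
      have h1 := hy ⟨g * (q : G) * g⁻¹, hout q⟩
      have h2 : y * ρ (g * (q : G) * g⁻¹) = ρ (g * (q : G) * g⁻¹) * y := h1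
      have h3 : (ρ g⁻¹ * y * ρ g : Module.End F V) * ρ (q : G) = ρ (q : G) * (ρ g⁻¹ * y * ρ g) := by
        have h4 : (ρ g : Module.End F V) * ρ (q : G) = ρ (g * (q : G) * g⁻¹) * ρ g := by
          rw [← map_mul, ← map_mul]; congr 1; group
        have h5 : (ρ g⁻¹ : Module.End F V) * ρ (g * (q : G) * g⁻¹) = ρ (q : G) * ρ g⁻¹ := by
          rw [← map_mul, ← map_mul]; congr 1; group
        calc (ρ g⁻¹ * y * ρ g : Module.End F V) * ρ (q : G) = ρ g⁻¹ * y * (ρ g * ρ (q : G)) := by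
              simp only [mul_assoc]
          _ = ρ g⁻¹ * (y * ρ (g * (q : G) * g⁻¹)) * ρ g := by rw [h4]; simp only [mul_assoc]
          _ = (ρ g⁻¹ * ρ (g * (q : G) * g⁻¹)) * y * ρ g := by rw [h2]; simp only [mul_assoc]
          _ = _ := by rw [h5]; simp only [mul_assoc]
      exact h3
    have h6 : (y * (ρ g * (α ∘ₗ β : Module.End F V) * ρ g⁻¹)) =
        ρ g * ((ρ g⁻¹ * y * ρ g) * (α ∘ₗ β : Module.End F V)) * ρ g⁻¹ := by
      calc (y * (ρ g * (α ∘ₗ β : Module.End F V) * ρ g⁻¹)) =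
          1 * y * (ρ g * (α ∘ₗ β : Module.End F V) * ρ g⁻¹) := by rw [one_mul]
        _ = _ := by rw [← hgg']; simp only [mul_assoc]
    have h7 := isNilpotent_conj (ρ g) (ρ g⁻¹) _ hgg (hnil _ hy')
    rw [← h6] at h7
    obtain ⟨k, hk⟩ := h7
    refine ⟨k, Subtype.ext ?_⟩
    exact hk
  -- the submodule spanned by the traces and the Jacobson radical
  set J : Submodule F (Module.End F V) :=
    ((Ideal.jacobson (⊥ : Ideal (endAlg ρ Q))).restrictScalars F).map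
      (endAlg ρ Q).val.toLinearMap with hJ
  have hsum := orbit_sum_mem (ρ.comp Q.subtype) (ρ.comp Q.subtype)
    (fun x : G ⧸ Q => ρ x.out ∘ₗ (α ∘ₗ β) ∘ₗ ρ x.out⁻¹)
    (fun p x => conj_smul ρ Q Q (α ∘ₗ β) (hα.comp hβ) p x)
    (trI (ρ.comp Q.subtype) (ρ.comp Q.subtype) ⊔ J) le_sup_left (by
      intro x hx
      obtain ⟨he, hj⟩ := hfixnil x hx
      exact Submodule.mem_sup_right ⟨_, hj, rfl⟩)
  have h1 : (LinearMap.id : V →ₗ[F] V) ∈ trI (ρ.comp Q.subtype) (ρ.comp Q.subtype) ⊔ J := by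
    rw [← htr]; exact hsum
  obtain ⟨t, ht, j, hj, htj⟩ := Submodule.mem_sup.1 h1
  obtain ⟨j', hj', rfl⟩ := hj
  have h2 : j' ∈ Ideal.jacobson (⊥ : Ideal (endAlg ρ Q)) := hj'
  rw [Ideal.mem_jacobson_iff] at h2
  obtain ⟨z, hz⟩ := h2 (-1)
  rw [Submodule.mem_bot] at hz
  have h4 : t = 1 - (j' : Module.End F V) := eq_sub_of_add_eq htj
  have h5 : (z : Module.End F V) ∘ₗ t = LinearMap.id := by
    have h6 : (z : Module.End F V) * (-1) * (j' : Module.End F V) + (z : Module.End F V) - 1 = 0 :=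
      congrArg Subtype.val hz
    have h7 : (z : Module.End F V) * (1 - (j' : Module.End F V)) = 1 := by
      have h8 : (z : Module.End F V) * (-1) * (j' : Module.End F V) + (z : Module.End F V) - 1 =
          (z : Module.End F V) * (1 - (j' : Module.End F V)) - 1 := by
        rw [mul_sub, mul_one, mul_neg_one, neg_mul]; abel
      rw [h8] at h6
      exact sub_eq_zero.1 h6
    rw [h4]
    exact h7
  apply rep_not_mem ρ hρ Q σ h
  rw [← h5]
  exact comp_mem_trI _ _ _ _ _ ((mem_endAlg ρ Q _).1 z.2) ht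


theorem schur [IsAlgClosed F] [FiniteDimensional F V] (ρ : Representation F G V)
    (hρ : ρ.IsIrreducible) (θ : V →ₗ[F] V) (hθ : Eqv ρ ρ θ) :
    ∃ c : F, θ = c • LinearMap.id := by
  have := hρ
  have hs := IsIrreducible.algebraMap_intertwiningMap_bijective_of_isAlgClosed (ρ := ρ)
  obtain ⟨c, hc⟩ := hs.surjective ⟨θ, hθ⟩
  refine ⟨c, ?_⟩
  have h1 := congrArg IntertwiningMap.toLinearMap hc
  rw [IntertwiningMap.algebraMap_apply] at h1
  exact h1.symm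

/-- The local condition for the source of a simple module. -/
theorem source_locCond [IsAlgClosed F] [FiniteDimensional F V] [FiniteDimensional F W] [Finite G]
    (ρ : Representation F G V) (hρ : ρ.IsIrreducible) (Q : Subgroup G)
    (σ : Representation F Q W) (h : IsVertexSource ρ Q σ) : LocCond σ := by
  refine ⟨h.indec, source_not_mem ρ hρ Q σ h, ?_⟩
  intro u hu hcen
  obtain ⟨α, β, hα, hβ, htr⟩ := source_data ρ Q σ h
  obtain ⟨α₁, β₁, hα₁, hβ₁, h₁⟩ := source_split ρ hρ Q σ h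
  have hc : Eqv (ρ.comp Q.subtype) (ρ.comp Q.subtype) (α ∘ₗ β) := hα.comp hβ
  have hcu : Eqv (ρ.comp Q.subtype) (ρ.comp Q.subtype) (α ∘ₗ u ∘ₗ β) := hα.comp (hu.comp hβ)
  obtain ⟨c, hcs⟩ : ∃ c : F, relTr ρ ρ Q (α ∘ₗ u ∘ₗ β) = c • LinearMap.id :=
    schur ρ hρ _ (relTr_eqv ρ ρ Q _ (fun r hr => hcu ⟨r, hr⟩))
  set f : G ⧸ Q → (W →ₗ[F] V) := fun x =>
    (ρ x.out ∘ₗ (α ∘ₗ u ∘ₗ β) ∘ₗ ρ x.out⁻¹) ∘ₗ α₁ -
      (ρ x.out ∘ₗ (α ∘ₗ β) ∘ₗ ρ x.out⁻¹) ∘ₗ α₁ ∘ₗ u with hf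
  have hsum : ∑ᶠ x, f x = c • α₁ - α₁ ∘ₗ u := by
    have e1 : ∑ᶠ x, f x = relTr ρ ρ Q (α ∘ₗ u ∘ₗ β) ∘ₗ α₁ -
        relTr ρ ρ Q (α ∘ₗ β) ∘ₗ α₁ ∘ₗ u := by
      classical
      have := Fintype.ofFinite (G ⧸ Q)
      unfold relTr
      rw [finsum_eq_sum_of_fintype, finsum_eq_sum_of_fintype, finsum_eq_sum_of_fintype]
      ext w
      simp only [hf, LinearMap.sum_apply, LinearMap.sub_apply, LinearMap.comp_apply,
        Finset.sum_sub_distrib]
    rw [e1, hcs, htr]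
    ext w
    simp
  have hmem : ∑ᶠ x, f x ∈ trI σ (ρ.comp Q.subtype) := by
    apply orbit_sum_mem σ (ρ.comp Q.subtype) f _ (trI σ (ρ.comp Q.subtype)) le_rfl
    · -- fixed points
      intro x hx
      have hin := fixed_coset (Q := Q) (Q₂ := Q) x hx
      have hout := conj_mem_of_finite x.out hin
      set g : G := x.out with hg
      let ψ : Q ≃* Q :=
        { toFun := fun q => ⟨g⁻¹ * (q : G) * g, hin q⟩
          invFun := fun q => ⟨g * (q : G) * g⁻¹, hout q⟩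
          left_inv := fun q => Subtype.ext (by simp only; group)
          right_inv := fun q => Subtype.ext (by simp only; group)
          map_mul' := fun q q' => Subtype.ext (by
            simp only [Subgroup.coe_mul]; group) }
      have hψ : ∀ q : Q, ((ψ q : Q) : G) = g⁻¹ * (q : G) * g := fun q => rfl
      have hθ : Eqv σ (σ.comp ψ.toMonoidHom) (β ∘ₗ ρ g⁻¹ ∘ₗ α₁) := by
        intro q
        have e1 : α₁ ∘ₗ σ q = ρ (q : G) ∘ₗ α₁ := hα₁ q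
        have e2 : β ∘ₗ ρ (g⁻¹ * (q : G) * g) = σ (ψ q) ∘ₗ β := hβ (ψ q)
        have e3 : ρ g⁻¹ ∘ₗ ρ (q : G) = ρ (g⁻¹ * (q : G) * g) ∘ₗ ρ g⁻¹ := by
          have : ρ g⁻¹ * ρ (q : G) = ρ (g⁻¹ * (q : G) * g) * ρ g⁻¹ := by
            rw [← map_mul, ← map_mul]; congr 1; group
          exact this
        calc (β ∘ₗ ρ g⁻¹ ∘ₗ α₁) ∘ₗ σ q = β ∘ₗ ρ g⁻¹ ∘ₗ (α₁ ∘ₗ σ q) := rfl
          _ = β ∘ₗ (ρ g⁻¹ ∘ₗ ρ (q : G)) ∘ₗ α₁ := by rw [e1]; rfl
          _ = (β ∘ₗ ρ (g⁻¹ * (q : G) * g)) ∘ₗ ρ g⁻¹ ∘ₗ α₁ := by rw [e3]; rfl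
          _ = σ (ψ q) ∘ₗ (β ∘ₗ ρ g⁻¹ ∘ₗ α₁) := by rw [e2]; rfl
      have hb : Eqv (σ.comp ψ.toMonoidHom) (ρ.comp Q.subtype) (ρ g ∘ₗ α) := by
        intro q
        have e1 : α ∘ₗ σ (ψ q) = ρ (g⁻¹ * (q : G) * g) ∘ₗ α := hα (ψ q)
        have e3 : ρ g ∘ₗ ρ (g⁻¹ * (q : G) * g) = ρ (q : G) ∘ₗ ρ g := by
          have : ρ g * ρ (g⁻¹ * (q : G) * g) = ρ (q : G) * ρ g := by
            rw [← map_mul, ← map_mul]; congr 1; group
          exact this
        calc (ρ g ∘ₗ α) ∘ₗ σ (ψ q) = ρ g ∘ₗ (α ∘ₗ σ (ψ q)) := rfl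
          _ = (ρ g ∘ₗ ρ (g⁻¹ * (q : G) * g)) ∘ₗ α := by rw [e1]; rfl
          _ = ρ (q : G) ∘ₗ (ρ g ∘ₗ α) := by rw [e3]; rfl
      have h2 := comp_mem_trI _ _ _ _ _ hb (hcen ψ _ hθ)
      have h3 : f x = (ρ g ∘ₗ α) ∘ₗ
          (u ∘ₗ (β ∘ₗ ρ g⁻¹ ∘ₗ α₁) - (β ∘ₗ ρ g⁻¹ ∘ₗ α₁) ∘ₗ u) := by
        rw [LinearMap.comp_sub]
        rfl
      rw [h3]
      exact h2
    · -- equivariance
      intro p x
      have e1 := conj_smul ρ Q Q _ hc p x
      have e2 := conj_smul ρ Q Q _ hcu p x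
      have e3 : (ρ.comp Q.subtype) p⁻¹ ∘ₗ α₁ = α₁ ∘ₗ σ p⁻¹ := (hα₁ p⁻¹).symm
      have e4 : u ∘ₗ σ p⁻¹ = σ p⁻¹ ∘ₗ u := hu p⁻¹
      simp only [hf]
      rw [e1, e2]
      generalize (ρ x.out ∘ₗ (α ∘ₗ u ∘ₗ β) ∘ₗ ρ x.out⁻¹) = K1
      generalize (ρ x.out ∘ₗ (α ∘ₗ β) ∘ₗ ρ x.out⁻¹) = K2
      ext w
      have e5 : ∀ w, (ρ.comp Q.subtype) p⁻¹ (α₁ w) = α₁ (σ p⁻¹ w) := fun w =>
        congrArg (fun f => f w) e3
      have e6 : ∀ w, u (σ p⁻¹ w) = σ p⁻¹ (u w) := fun w => congrArg (fun f => f w) e4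
      simp only [LinearMap.comp_apply, LinearMap.sub_apply, map_sub, e5, e6]
  have h4 := comp_mem_trI _ _ _ _ _ hβ₁ hmem
  rw [hsum, LinearMap.comp_sub, LinearMap.comp_smul, h₁, ← LinearMap.comp_assoc, h₁,
    LinearMap.id_comp] at h4
  refine ⟨c, ?_⟩
  have h5 := neg_mem h4
  rwa [neg_sub] at h5

end Pool.Agent.KFV
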