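import Mathlib
import Pool.Agent.KFV.Defs
import Pool.Agent.KFV.HIG
import Pool.Agent.KFV.TRA
import Pool.Agent.KFV.ORB
import Pool.Agent.KFV.FIT
import Pool.Agent.KFV.MAI

open Representation

namespace Pool.Agent.KFV

variable {F : Type*} [Field F]
variable {G V W : Type*} [Group G] [AddCommGroup V] [Module F V] [AddCommGroup W] [Module F W]

theorem uni_apply_comp {H U : Type*} [Group H] [AddCommGroup U] [Module F U]
    (τ : Representation F H U) (g h : H) : τ g ∘ₗ τ h = τ (g * h) := by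
  rw [map_mul]; rfl

theorem uni_inv_comp {H U : Type*} [Group H] [AddCommGroup U] [Module F U]
    (τ : Representation F H U) (g : H) : τ g⁻¹ ∘ₗ τ g = LinearMap.id := by
  have h : τ g⁻¹ * τ g = 1 := by rw [← map_mul, inv_mul_cancel, map_one]
  exact h

theorem uni_comp_inv {H U : Type*} [Group H] [AddCommGroup U] [Module F U]
    (τ : Representation F H U) (g : H) : τ g ∘ₗ τ g⁻¹ = LinearMap.id := by
  have h : τ g * τ g⁻¹ = 1 := by rw [← map_mul, mul_inv_cancel, map_one]
  exact h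

/-- Uniqueness of the source, in the form needed below. -/
theorem uniq [Finite G] {L₁ L₂ : Type*} [AddCommGroup L₁] [Module F L₁] [AddCommGroup L₂]
    [Module F L₂] [FiniteDimensional F L₁] (ρ : Representation F G V) (Q₁ Q₂ : Subgroup G)
    (σ₁ : Representation F Q₁ L₁) (σ₂ : Representation F Q₂ L₂) (hind : Indec σ₁)
    (hid : LinearMap.id ∉ trI σ₁ σ₁)
    (α₁ : L₁ →ₗ[F] V) (β₁ : V →ₗ[F] L₁) (hα₁ : Eqv σ₁ (ρ.comp Q₁.subtype) α₁)
    (hβ₁ : Eqv (ρ.comp Q₁.subtype) σ₁ β₁) (h₁ : β₁ ∘ₗ α₁ = LinearMap.id)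
    (α₂ : L₂ →ₗ[F] V) (β₂ : V →ₗ[F] L₂) (hα₂ : Eqv σ₂ (ρ.comp Q₂.subtype) α₂)
    (hβ₂ : Eqv (ρ.comp Q₂.subtype) σ₂ β₂) (h₂ : relTr ρ ρ Q₂ (α₂ ∘ₗ β₂) = LinearMap.id) :
    ∃ (g : G) (hg : ∀ q : Q₁, g⁻¹ * (q : G) * g ∈ Q₂) (a : L₁ →ₗ[F] L₂) (b : L₂ →ₗ[F] L₁),
      (∀ q : Q₁, a ∘ₗ σ₁ q = σ₂ ⟨g⁻¹ * (q : G) * g, hg q⟩ ∘ₗ a) ∧
      (∀ q : Q₁, b ∘ₗ σ₂ ⟨g⁻¹ * (q : G) * g, hg q⟩ = σ₁ q ∘ₗ b) ∧ b ∘ₗ a = LinearMap.id := by
  classical
  have a1 : ∀ (q : Q₁) (v : L₁), α₁ (σ₁ q v) = ρ (q : G) (α₁ v) := fun q v =>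
    LinearMap.congr_fun (hα₁ q) v
  have b1 : ∀ (q : Q₁) (v : V), β₁ (ρ (q : G) v) = σ₁ q (β₁ v) := fun q v =>
    LinearMap.congr_fun (hβ₁ q) v
  have a2 : ∀ (q : Q₂) (v : L₂), α₂ (σ₂ q v) = ρ (q : G) (α₂ v) := fun q v =>
    LinearMap.congr_fun (hα₂ q) v
  have b2 : ∀ (q : Q₂) (v : V), β₂ (ρ (q : G) v) = σ₂ q (β₂ v) := fun q v =>
    LinearMap.congr_fun (hβ₂ q) v
  have mulρ : ∀ (g h : G) (v : V), ρ (g * h) v = ρ g (ρ h v) := fun g h v => by
    rw [map_mul]; rfl
  set A : G ⧸ Q₂ → (V →ₗ[F] V) := fun x => ρ x.out ∘ₗ (α₂ ∘ₗ β₂) ∘ₗ ρ x.out⁻¹ with hAdef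
  have hA : ∀ g : G, ∀ v : V, A (g : G ⧸ Q₂) v = ρ g (α₂ (β₂ (ρ g⁻¹ v))) := by
    intro g v
    obtain ⟨r, hr⟩ := QuotientGroup.mk_out_eq_mul Q₂ g
    rw [hAdef]
    simp only [LinearMap.comp_apply]
    rw [hr, mul_inv_rev, mulρ, mulρ]
    congr 1
    have e1 : ((r : G)⁻¹) = (((r⁻¹ : Q₂)) : G) := rfl
    rw [e1, b2, a2, ← mulρ]
    simp
  set f : G ⧸ Q₂ → (L₁ →ₗ[F] L₁) := fun x => β₁ ∘ₗ A x ∘ₗ α₁ with hfdef
  have hsum : ∑ᶠ x, f x = LinearMap.id := by
    have h3 : relTr ρ ρ Q₂ (α₂ ∘ₗ β₂) = ∑ᶠ x, A x := rfl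
    rw [h3] at h₂
    have : Fintype (G ⧸ Q₂) := Fintype.ofFinite _
    rw [finsum_eq_sum_of_fintype] at h₂ ⊢
    rw [← h₁]
    ext v
    rw [LinearMap.sum_apply]
    simp only [hfdef, LinearMap.comp_apply]
    rw [← map_sum, ← LinearMap.sum_apply, h₂]
    rfl
  obtain ⟨N, hN⟩ := hind.exists_nonunits
  have hidN : LinearMap.id ∉ N := by
    intro h
    exact ((hN _).mp h).2 Function.bijective_id
  have htr : trI σ₁ σ₁ ≤ N := by
    intro θ hθ
    rw [hN]
    have he := eqv_of_mem_trI σ₁ σ₁ θ hθ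
    refine ⟨he, ?_⟩
    intro hb
    apply hid
    set E := LinearEquiv.ofBijective θ hb with hE
    have h4 : Eqv σ₁ σ₁ E.symm.toLinearMap := by
      intro q
      ext v
      obtain ⟨w, rfl⟩ := E.surjective v
      have h5 : σ₁ q (E w) = E (σ₁ q w) := (LinearMap.congr_fun (he q) w).symm
      show E.symm (σ₁ q (E w)) = σ₁ q (E.symm (E w))
      rw [h5, E.symm_apply_apply, E.symm_apply_apply]
    have h6 := comp_mem_trI σ₁ σ₁ σ₁ θ E.symm.toLinearMap h4 hθ
    have h7 : E.symm.toLinearMap ∘ₗ θ = LinearMap.id := by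
      ext v
      show E.symm (E v) = v
      exact E.symm_apply_apply v
    rwa [h7] at h6
  have hf : ∀ (p : Q₁) (x : G ⧸ Q₂), f (p • x) = σ₁ p ∘ₗ f x ∘ₗ σ₁ p⁻¹ := by
    intro p x
    obtain ⟨g, rfl⟩ := QuotientGroup.mk_surjective x
    have e1 : p • (g : G ⧸ Q₂) = (((p : G) * g : G) : G ⧸ Q₂) := rfl
    rw [e1]
    ext v
    simp only [hfdef, LinearMap.comp_apply]
    rw [hA, hA, a1, mul_inv_rev, mulρ, mulρ, b1]
    rfl
  have hex : ∃ x : G ⧸ Q₂, (∀ p : Q₁, p • x = x) ∧ f x ∉ N := by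
    by_contra hcon
    push Not at hcon
    have := orbit_sum_mem σ₁ σ₁ f hf N htr (fun x hx => hcon x hx)
    rw [hsum] at this
    exact hidN this
  obtain ⟨x, hx, hxN⟩ := hex
  obtain ⟨g, rfl⟩ := QuotientGroup.mk_surjective x
  have hg : ∀ q : Q₁, g⁻¹ * (q : G) * g ∈ Q₂ := by
    intro q
    have h8 := hx q
    have e1 : q • (g : G ⧸ Q₂) = (((q : G) * g : G) : G ⧸ Q₂) := rfl
    rw [e1] at h8
    have h9 := QuotientGroup.eq.mp h8.symm
    rwa [← mul_assoc] at h9
  have hfe : Eqv σ₁ σ₁ (f g) := by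
    intro q
    have h8 := hf q (g : G ⧸ Q₂)
    rw [hx q] at h8
    conv_lhs => rw [h8]
    rw [LinearMap.comp_assoc, LinearMap.comp_assoc, uni_inv_comp, LinearMap.comp_id]
  have hbij : Function.Bijective (f (g : G ⧸ Q₂)) := by
    by_contra hb
    exact hxN ((hN _).mpr ⟨hfe, hb⟩)
  set E := LinearEquiv.ofBijective (f (g : G ⧸ Q₂)) hbij with hE
  have hEe : ∀ (q : Q₁) (v : L₁), E.symm (σ₁ q v) = σ₁ q (E.symm v) := by
    intro q v
    obtain ⟨w, rfl⟩ := E.surjective v
    have h5 : σ₁ q (E w) = E (σ₁ q w) := (LinearMap.congr_fun (hfe q) w).symm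
    rw [h5, E.symm_apply_apply, E.symm_apply_apply]
  refine ⟨g, hg, β₂ ∘ₗ ρ g⁻¹ ∘ₗ α₁, E.symm.toLinearMap ∘ₗ β₁ ∘ₗ ρ g ∘ₗ α₂, ?_, ?_, ?_⟩
  · intro q
    ext v
    show β₂ (ρ g⁻¹ (α₁ (σ₁ q v))) = σ₂ ⟨g⁻¹ * (q : G) * g, hg q⟩ (β₂ (ρ g⁻¹ (α₁ v)))
    rw [a1, ← b2, ← mulρ, ← mulρ]
    congr 3
    simp [mul_assoc]
  · intro q
    ext v
    show E.symm (β₁ (ρ g (α₂ (σ₂ ⟨g⁻¹ * (q : G) * g, hg q⟩ v)))) =
      σ₁ q (E.symm (β₁ (ρ g (α₂ v))))
    rw [a2, ← hEe, ← b1, ← mulρ, ← mulρ]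
    congr 4
    simp [mul_assoc]
  · ext v
    show E.symm (β₁ (ρ g (α₂ (β₂ (ρ g⁻¹ (α₁ v)))))) = v
    have h9 : β₁ (ρ g (α₂ (β₂ (ρ g⁻¹ (α₁ v))))) = E v := by
      show _ = β₁ (A (g : G ⧸ Q₂) (α₁ v))
      rw [hA]
    rw [h9, E.symm_apply_apply]

theorem uni_isCompl_toSubmodule {H U : Type*} [Group H] [AddCommGroup U] [Module F U]
    {τ : Representation F H U} {A B : Subrepresentation τ} (h : IsCompl A B) :
    IsCompl A.toSubmodule B.toSubmodule := by
  constructor
  · rw [disjoint_iff]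
    have := disjoint_iff.mp h.disjoint
    exact congrArg Subrepresentation.toSubmodule this
  · rw [codisjoint_iff]
    have := codisjoint_iff.mp h.codisjoint
    exact congrArg Subrepresentation.toSubmodule this

theorem uni_isCompl_of_toSubmodule {H U : Type*} [Group H] [AddCommGroup U] [Module F U]
    {τ : Representation F H U} {A B : Subrepresentation τ}
    (h : IsCompl A.toSubmodule B.toSubmodule) : IsCompl A B := by
  constructor
  · rw [disjoint_iff]
    have := disjoint_iff.mp h.disjoint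
    exact Subrepresentation.toSubmodule_injective this
  · rw [codisjoint_iff]
    have := codisjoint_iff.mp h.codisjoint
    exact Subrepresentation.toSubmodule_injective this

/-- The dual of an indecomposable representation. -/
theorem uni_indec_dual {H U : Type*} [Group H] [AddCommGroup U] [Module F U]
    [FiniteDimensional F U] {τ : Representation F H U} (h : Indec τ) : Indec τ.dual := by
  obtain ⟨hn, hi⟩ := h
  refine ⟨?_, ?_⟩
  · have h1 : 0 < Module.finrank F U := Module.finrank_pos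
    apply Module.nontrivial_of_finrank_pos (R := F)
    rwa [Subspace.dual_finrank_eq]
  · intro A B hAB
    have hc := uni_isCompl_toSubmodule hAB
    -- the annihilators in `U`
    have key : ∀ A : Subrepresentation τ.dual, ∃ A' : Subrepresentation τ,
        A'.toSubmodule = A.toSubmodule.dualCoannihilator := by
      intro A
      refine ⟨⟨A.toSubmodule.dualCoannihilator, ?_⟩, rfl⟩
      intro g w hw
      rw [Submodule.mem_dualCoannihilator] at hw ⊢
      intro f hf
      have h1 := A.apply_mem_toSubmodule g⁻¹ hf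
      have h2 := hw _ h1
      have h3 : (τ.dual g⁻¹ f) w = f (τ g w) := by
        rw [Representation.dual_apply, inv_inv]
        rfl
      rwa [h3] at h2
    obtain ⟨A', hA'⟩ := key A
    obtain ⟨B', hB'⟩ := key B
    have hinf : A.toSubmodule.dualCoannihilator ⊓ B.toSubmodule.dualCoannihilator = ⊥ := by
      rw [← Submodule.dualCoannihilator_sup_eq, codisjoint_iff.mp hc.codisjoint]
      exact Submodule.dualCoannihilator_top
    have hsup : A.toSubmodule.dualCoannihilator ⊔ B.toSubmodule.dualCoannihilator = ⊤ := by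
      have h2 : (A.toSubmodule.dualCoannihilator ⊔ B.toSubmodule.dualCoannihilator).dualAnnihilator
          = (⊤ : Submodule F U).dualAnnihilator := by
        rw [Submodule.dualAnnihilator_sup_eq, Subspace.dualCoannihilator_dualAnnihilator_eq,
          Subspace.dualCoannihilator_dualAnnihilator_eq, disjoint_iff.mp hc.disjoint,
          Submodule.dualAnnihilator_top]
      exact Subspace.dualAnnihilator_inj.mp h2
    have hAB' : IsCompl A' B' := by
      apply uni_isCompl_of_toSubmodule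
      rw [hA', hB']
      exact ⟨disjoint_iff.mpr hinf, codisjoint_iff.mpr hsup⟩
    have hfin : ∀ (C C' : Subrepresentation τ.dual) (D : Subrepresentation τ),
        D.toSubmodule = C.toSubmodule.dualCoannihilator → IsCompl C C' → D = ⊥ → C' = ⊥ := by
      intro C C' D hD hCC hbot
      have h3 : C.toSubmodule.dualCoannihilator = ⊥ := by
        rw [← hD, hbot]
        rfl
      have h4 : C.toSubmodule = ⊤ := by
        rw [← Subspace.dualCoannihilator_dualAnnihilator_eq (W := C.toSubmodule), h3,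
          Submodule.dualAnnihilator_bot]
      have h5 := (uni_isCompl_toSubmodule hCC).disjoint
      rw [h4, top_disjoint] at h5
      exact Subrepresentation.toSubmodule_injective h5
    rcases hi A' B' hAB' with h3 | h3
    · right
      exact hfin A B A' hA' hAB h3
    · left
      exact hfin B A B' hB' hAB.symm h3

/-- duality of the relative traces -/
theorem uni_trI_dual {H U : Type*} [Group H] [Finite H] [AddCommGroup U] [Module F U]
    [FiniteDimensional F U] (τ : Representation F H U) (h : LinearMap.id ∉ trI τ τ) :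
    LinearMap.id ∉ trI τ.dual τ.dual := by
  intro hid
  have hd : ∀ (g : H) (f : Module.Dual F U) (w : U), (τ.dual g f) w = f (τ g⁻¹ w) := by
    intro g f w
    rw [Representation.dual_apply]
    rfl
  have sep : ∀ a b : U, (∀ f : Module.Dual F U, f a = f b) → a = b := by
    intro a b hab
    exact (Module.evalEquiv F U).injective (LinearMap.ext hab)
  -- the transpose
  have tr : ∀ θ : Module.Dual F U →ₗ[F] Module.Dual F U, ∃ η : U →ₗ[F] U,
      ∀ (f : Module.Dual F U) (w : U), f (η w) = θ f w := by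
    intro θ
    refine ⟨(Module.evalEquiv F U).symm.toLinearMap ∘ₗ θ.dualMap ∘ₗ
      (Module.evalEquiv F U).toLinearMap, ?_⟩
    intro f w
    show f ((Module.evalEquiv F U).symm (θ.dualMap (Module.evalEquiv F U w))) = θ f w
    rw [Module.apply_evalEquiv_symm_apply]
    rfl
  have key : ∀ θ ∈ trI τ.dual τ.dual, ∃ η ∈ trI τ τ, ∀ (f : Module.Dual F U) (w : U),
      f (η w) = θ f w := by
    intro θ hθ
    induction hθ using Submodule.span_induction with
    | mem x hx =>
      obtain ⟨R, hR, θ₀, hθ₀, rfl⟩ := hx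
      obtain ⟨η₀, hη₀⟩ := tr θ₀
      have heq : ∀ r ∈ R, η₀ ∘ₗ τ r = τ r ∘ₗ η₀ := by
        intro r hr
        ext w
        apply sep
        intro f
        simp only [LinearMap.comp_apply]
        rw [hη₀]
        have h1 : f (τ r (η₀ w)) = (τ.dual r⁻¹ f) (η₀ w) := by rw [hd, inv_inv]
        rw [h1, hη₀]
        have h2 := LinearMap.congr_fun (hθ₀ r⁻¹ (R.inv_mem hr)) f
        simp only [LinearMap.comp_apply] at h2
        rw [h2, hd, inv_inv]
      refine ⟨relTr τ τ R η₀, Submodule.subset_span ⟨R, hR, η₀, heq, rfl⟩, ?_⟩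
      intro f w
      have : Fintype (H ⧸ R) := Fintype.ofFinite _
      unfold relTr
      rw [finsum_eq_sum_of_fintype, finsum_eq_sum_of_fintype, LinearMap.sum_apply,
        LinearMap.sum_apply, LinearMap.sum_apply, map_sum]
      apply Finset.sum_congr rfl
      intro x _
      simp only [LinearMap.comp_apply]
      rw [hd]
      have h1 : f (τ x.out (η₀ (τ x.out⁻¹ w))) = (τ.dual x.out⁻¹ f) (η₀ (τ x.out⁻¹ w)) := by
        rw [hd, inv_inv]
      rw [h1, hη₀]
    | zero => exact ⟨0, Submodule.zero_mem _, fun f w => by simp⟩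
    | add x y _ _ hx hy =>
      obtain ⟨a, ha, ha'⟩ := hx
      obtain ⟨b, hb, hb'⟩ := hy
      refine ⟨a + b, Submodule.add_mem _ ha hb, fun f w => ?_⟩
      rw [LinearMap.add_apply, map_add, ha', hb', LinearMap.add_apply, LinearMap.add_apply]
    | smul c x _ hx =>
      obtain ⟨a, ha, ha'⟩ := hx
      refine ⟨c • a, Submodule.smul_mem _ c ha, fun f w => ?_⟩
      rw [LinearMap.smul_apply, map_smul, ha', LinearMap.smul_apply, LinearMap.smul_apply]
  obtain ⟨η, hη, hη'⟩ := key _ hid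
  apply h
  have : η = LinearMap.id := by
    ext w
    apply sep
    intro f
    rw [hη']
    rfl
  rwa [← this]

/-- If the dual of `ρ` is a twist of `ρ` by an automorphism of `G` then the dual of the source is a
twist of the source by an automorphism of the vertex. -/
theorem dual_source [IsAlgClosed F] [FiniteDimensional F V] [FiniteDimensional F W] [Finite G]
    (ρ : Representation F G V) (hρ : ρ.IsIrreducible) (Q : Subgroup G)
    (σ : Representation F Q W) (h : IsVertexSource ρ Q σ) (φ : G ≃* G)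
    (e : ρ.dual.Equiv (ρ.comp φ.toMonoidHom)) :
    ∃ ψ : Q ≃* Q, Nonempty (σ.dual.Equiv (σ.comp ψ.toMonoidHom)) := by
  classical
  obtain ⟨α, β, hα, hβ, hβα⟩ := source_split ρ hρ Q σ h
  obtain ⟨α₀, β₀, hα₀, hβ₀, htr⟩ := (isSummand_ind_iff ρ Q σ).mp h.source
  have hdV : ∀ (g : G) (f : Module.Dual F V) (w : V), (ρ.dual g f) w = f (ρ g⁻¹ w) := by
    intro g f w
    rw [Representation.dual_apply]
    rfl
  have hdW : ∀ (g : Q) (f : Module.Dual F W) (w : W), (σ.dual g f) w = f (σ g⁻¹ w) := by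
    intro g f w
    rw [Representation.dual_apply]
    rfl
  have he : ∀ (g : G) (f : Module.Dual F V), e (ρ.dual g f) = ρ (φ g) (e f) := by
    intro g f
    exact LinearMap.congr_fun (e.isIntertwining' g) f
  have hes : ∀ (g : G) (v : V), e.symm (ρ (φ g) v) = ρ.dual g (e.symm v) := by
    intro g v
    exact LinearMap.congr_fun (e.symm.isIntertwining' g) v
  have hee : ∀ v : V, e (e.symm v) = v := fun v => e.toLinearEquiv.apply_symm_apply v
  have hee' : ∀ f : Module.Dual F V, e.symm (e f) = f := fun v => e.toLinearEquiv.symm_apply_apply v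
  set Q₂ : Subgroup G := Q.comap φ.toMonoidHom with hQ₂
  set κ : Q₂ →* Q := φ.toMonoidHom.subgroupComap Q with hκ
  have hκv : ∀ q : Q₂, ((κ q : Q) : G) = φ (q : G) := fun q => rfl
  set σ₂ : Representation F Q₂ W := σ.comp κ with hσ₂
  set E : Module.Dual F V →ₗ[F] V := e.toLinearMap with hE
  set E' : V →ₗ[F] Module.Dual F V := e.symm.toLinearMap with hE'
  have key := uniq ρ.dual Q Q₂ σ.dual σ₂ (uni_indec_dual h.indec)
    (uni_trI_dual σ (source_not_mem ρ hρ Q σ h)) β.dualMap α.dualMap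
    (by
      intro q
      ext f v
      show (σ.dual q f) (β v) = (ρ.dual (q : G) (f ∘ₗ β)) v
      rw [hdW, hdV]
      have := LinearMap.congr_fun (hβ q⁻¹) v
      simp only [LinearMap.comp_apply] at this
      show f (σ q⁻¹ (β v)) = f (β (ρ ((q : G))⁻¹ v))
      rw [← this]
      rfl)
    (by
      intro q
      ext f w
      show (ρ.dual (q : G) f) (α w) = (σ.dual q (f ∘ₗ α)) w
      rw [hdW, hdV]
      have := LinearMap.congr_fun (hα q⁻¹) w
      simp only [LinearMap.comp_apply] at this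
      show f (ρ ((q : G))⁻¹ (α w)) = f (α (σ q⁻¹ w))
      rw [this]
      rfl)
    (by
      ext f w
      show f (β (α w)) = f w
      have := LinearMap.congr_fun hβα w
      simp only [LinearMap.comp_apply, LinearMap.id_apply] at this
      rw [this])
    (E' ∘ₗ α₀) (β₀ ∘ₗ E)
    (by
      intro q
      ext w
      show (e.symm (α₀ (σ (κ q) w))) _ = (ρ.dual (q : G) (e.symm (α₀ w))) _
      have := LinearMap.congr_fun (hα₀ (κ q)) w
      simp only [LinearMap.comp_apply] at this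
      rw [this, ← hes]
      rfl)
    (by
      intro q
      ext f
      show β₀ (e (ρ.dual (q : G) f)) = σ (κ q) (β₀ (e f))
      have := LinearMap.congr_fun (hβ₀ (κ q)) (e f)
      simp only [LinearMap.comp_apply] at this
      rw [← this, he]
      rfl)
    (by
      have hC : ∀ r ∈ Q, (α₀ ∘ₗ β₀) ∘ₗ ρ r = ρ r ∘ₗ (α₀ ∘ₗ β₀) := by
        intro r hr
        ext v
        have h1 := LinearMap.congr_fun (hβ₀ ⟨r, hr⟩) v
        have h2 := LinearMap.congr_fun (hα₀ ⟨r, hr⟩) (β₀ v)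
        simp only [LinearMap.comp_apply] at h1 h2
        show α₀ (β₀ (ρ r v)) = ρ r (α₀ (β₀ v))
        have h3 : β₀ (ρ r v) = σ ⟨r, hr⟩ (β₀ v) := h1
        rw [h3, h2]
        rfl
      have hrel : ∀ a b : G, QuotientGroup.leftRel Q₂ a b ↔ QuotientGroup.leftRel Q (φ a) (φ b) := by
        intro a b
        rw [QuotientGroup.leftRel_apply, QuotientGroup.leftRel_apply, hQ₂, Subgroup.mem_comap]
        show φ (a⁻¹ * b) ∈ Q ↔ _
        rw [map_mul, map_inv]
      let Φ : G ⧸ Q₂ ≃ G ⧸ Q := Quotient.congr φ.toEquiv hrel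
      have hΦ : ∀ a : G, Φ (a : G ⧸ Q₂) = ((φ a : G) : G ⧸ Q) := fun a => rfl
      have hs : ∀ y : G ⧸ Q, ((φ (Φ.symm y).out : G) : G ⧸ Q) = y := by
        intro y
        rw [← hΦ, QuotientGroup.out_eq', Equiv.apply_symm_apply]
      have h4 := relTr_eq_section ρ ρ Q (α₀ ∘ₗ β₀) hC (fun y => φ (Φ.symm y).out) hs
      rw [htr] at h4
      have : Fintype (G ⧸ Q) := Fintype.ofFinite _
      have : Fintype (G ⧸ Q₂) := Fintype.ofFinite _
      rw [finsum_eq_sum_of_fintype] at h4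
      unfold relTr
      rw [finsum_eq_sum_of_fintype]
      apply LinearMap.ext
      intro f
      rw [LinearMap.sum_apply]
      have h5 : ∀ x : G ⧸ Q₂, (ρ.dual x.out ∘ₗ ((E' ∘ₗ α₀) ∘ₗ (β₀ ∘ₗ E)) ∘ₗ ρ.dual x.out⁻¹) f =
          e.symm ((ρ (φ x.out) ∘ₗ (α₀ ∘ₗ β₀) ∘ₗ ρ (φ x.out)⁻¹) (e f)) := by
        intro x
        show ρ.dual x.out (e.symm (α₀ (β₀ (e (ρ.dual x.out⁻¹ f))))) =
          e.symm (ρ (φ x.out) (α₀ (β₀ (ρ (φ x.out)⁻¹ (e f)))))
        rw [he, ← hes, map_inv]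
      rw [Finset.sum_congr rfl (fun x _ => h5 x), ← map_sum]
      have h6 : ∑ x : G ⧸ Q₂, (ρ (φ x.out) ∘ₗ (α₀ ∘ₗ β₀) ∘ₗ ρ (φ x.out)⁻¹) (e f) = e f := by
        have h7 := LinearMap.congr_fun h4 (e f)
        rw [LinearMap.sum_apply, LinearMap.id_apply] at h7
        conv_rhs => rw [h7]
        rw [← Equiv.sum_comp Φ]
        apply Finset.sum_congr rfl
        intro x _
        simp only [Equiv.symm_apply_apply]
      rw [h6, hee']
      rfl)
  obtain ⟨g, hg, a, b, ha, hb, hba⟩ := key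
  have hinj : Function.Injective a := by
    intro x y hxy
    have h1 := LinearMap.congr_fun hba x
    have h2 := LinearMap.congr_fun hba y
    simp only [LinearMap.comp_apply, LinearMap.id_apply] at h1 h2
    rw [← h1, ← h2, hxy]
  have hbij : Function.Bijective a := by
    refine ⟨hinj, ?_⟩
    exact (LinearMap.injective_iff_surjective_of_finrank_eq_finrank
      Subspace.dual_finrank_eq).mp hinj
  have hg' : ∀ q : Q, φ (g⁻¹ * (q : G) * g) ∈ Q := fun q => hg q
  let ψ₀ : Q →* Q :=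
    { toFun := fun q => ⟨φ (g⁻¹ * (q : G) * g), hg' q⟩
      map_one' := by
        apply Subtype.ext
        simp
      map_mul' := by
        intro x y
        apply Subtype.ext
        show φ (g⁻¹ * (((x : G)) * (y : G)) * g) = φ (g⁻¹ * (x : G) * g) * φ (g⁻¹ * (y : G) * g)
        rw [← map_mul]
        congr 1
        group }
  have hψinj : Function.Injective ψ₀ := by
    intro x y hxy
    have h1 : φ (g⁻¹ * (x : G) * g) = φ (g⁻¹ * (y : G) * g) := congrArg Subtype.val hxy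
    have h2 := φ.injective h1
    apply Subtype.ext
    have h3 := mul_right_cancel h2
    exact mul_left_cancel h3
  have hψbij : Function.Bijective ψ₀ := Finite.injective_iff_bijective.mp hψinj
  refine ⟨MulEquiv.ofBijective ψ₀ hψbij, ⟨Representation.Equiv.mk (LinearEquiv.ofBijective a hbij) ?_⟩⟩
  intro q
  ext f
  have h1 := LinearMap.congr_fun (ha q) f
  simp only [LinearMap.comp_apply] at h1
  show a (σ.dual q f) = σ (ψ₀ q) (a f)
  rw [h1]
  rfl

end Pool.Agent.KFV
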