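import Mathlib
import Pool.Agent.KFV.Defs

open Representation

namespace Pool.Agent.KFV

/-- The span of the relative traces from the subgroups of order two of a Klein four group. -/
def trK {F : Type*} [Field F] {P V W : Type*} [Group P] [AddCommGroup V] [Module F V]
    [AddCommGroup W] [Module F W] (σ : Representation F P V) (τ : Representation F P W) :
    Submodule F (V →ₗ[F] W) :=
  Submodule.span F {f | ∃ r q : P, r ≠ 1 ∧ ∃ θ : V →ₗ[F] W, θ ∘ₗ σ r = τ r ∘ₗ θ ∧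
    f = θ + τ q ∘ₗ θ ∘ₗ σ q⁻¹}

section Pencil

variable {F : Type*} [Field F]
variable {U W : Type*} [AddCommGroup U] [Module F U] [AddCommGroup W] [Module F W]

/-- The pencil `(X, Y)` is indecomposable, in terms of idempotents. -/
def PInd (X Y : U →ₗ[F] W) : Prop :=
  ∀ (e : U →ₗ[F] U) (f : W →ₗ[F] W), e ∘ₗ e = e → f ∘ₗ f = f → X ∘ₗ e = f ∘ₗ X →
    Y ∘ₗ e = f ∘ₗ Y → (e = 0 ∧ f = 0) ∨ (e = LinearMap.id ∧ f = LinearMap.id)

/-- A null vector of degree `n` of the pencil: `X v 0 = 0`, `X v (i+1) = Y v i`, `Y v n = 0`,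
`v n ≠ 0`. -/
def IsNull (X Y : U →ₗ[F] W) (n : ℕ) (v : ℕ → U) : Prop :=
  X (v 0) = 0 ∧ (∀ i < n, X (v (i + 1)) = Y (v i)) ∧ Y (v n) = 0 ∧ v n ≠ 0

/-- The lower triangular map `(u, w) ↦ (α u, γ u + β w)`. -/
def blk (α : U →ₗ[F] U) (β : W →ₗ[F] W) (γ : U →ₗ[F] W) : (U × W) →ₗ[F] (U × W) :=
  LinearMap.prod (α ∘ₗ LinearMap.fst F U W) (γ ∘ₗ LinearMap.fst F U W + β ∘ₗ LinearMap.snd F U W)

/-- The nilpotent shift `e_i ↦ e_(i+1)` on `F^n`. -/
def shift (F : Type*) [Field F] (n : ℕ) : (Fin n → F) →ₗ[F] (Fin n → F) where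
  toFun v := fun j => if h : (j : ℕ) = 0 then 0 else v ⟨j - 1, by omega⟩
  map_add' := by
    intro v w
    ext j
    by_cases h : (j : ℕ) = 0 <;> simp [h]
  map_smul' := by
    intro c v
    ext j
    by_cases h : (j : ℕ) = 0 <;> simp [h]

end Pencil

end Pool.Agent.KFV
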