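import Mathlib
import Pool.Agent.KFV.Defs
import Pool.Agent.KFV.PDefs
import Pool.Agent.KFV.TRA

open Representation

namespace Pool.Agent.KFV

variable {F : Type*} [Field F]
variable {P V W : Type*} [Group P] [AddCommGroup V] [Module F V] [AddCommGroup W] [Module F W]

section kfg

/-- conjugation of a linear map -/
private def kcj (σ : Representation F P V) (τ : Representation F P W) (x : P) (θ : V →ₗ[F] W) :
    V →ₗ[F] W := τ x ∘ₗ θ ∘ₗ σ x⁻¹

private lemma kcj_one (σ : Representation F P V) (τ : Representation F P W) (θ : V →ₗ[F] W) :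
    kcj σ τ 1 θ = θ := by
  unfold kcj
  rw [inv_one, map_one, map_one]
  rfl

private lemma kcj_mul (σ : Representation F P V) (τ : Representation F P W) (x y : P)
    (θ : V →ₗ[F] W) : kcj σ τ (x * y) θ = kcj σ τ x (kcj σ τ y θ) := by
  unfold kcj
  rw [mul_inv_rev, map_mul, map_mul]
  rfl

private lemma kcj_add (σ : Representation F P V) (τ : Representation F P W) (x : P)
    (θ θ' : V →ₗ[F] W) : kcj σ τ x (θ + θ') = kcj σ τ x θ + kcj σ τ x θ' := by
  unfold kcj
  rw [LinearMap.add_comp, LinearMap.comp_add]

private lemma kcj_eqv (σ : Representation F P V) (τ : Representation F P W) (x : P)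
    (θ : V →ₗ[F] W) : θ ∘ₗ σ x = τ x ∘ₗ θ ↔ kcj σ τ x θ = θ := by
  unfold kcj
  constructor
  · intro h
    rw [← LinearMap.comp_assoc, ← h, LinearMap.comp_assoc]
    have : σ x ∘ₗ σ x⁻¹ = LinearMap.id := by
      have h1 := map_mul σ x x⁻¹
      rw [mul_inv_cancel, map_one] at h1
      exact h1.symm
    rw [this, LinearMap.comp_id]
  · intro h
    conv_lhs => rw [← h]
    have : σ x⁻¹ ∘ₗ σ x = LinearMap.id := by
      have h1 := map_mul σ x⁻¹ x
      rw [inv_mul_cancel, map_one] at h1
      exact h1.symm
    rw [LinearMap.comp_assoc, LinearMap.comp_assoc, this, LinearMap.comp_id]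

/-- the subgroup `{1, r}` -/
private def kR [IsKleinFour P] (r : P) : Subgroup P where
  carrier := {x | x = 1 ∨ x = r}
  mul_mem' := by
    rintro a b (rfl | rfl) (rfl | rfl)
    · left; exact mul_one _
    · right; exact one_mul _
    · right; exact mul_one _
    · left; exact IsKleinFour.mul_self _
  one_mem' := Or.inl rfl
  inv_mem' := by
    intro x hx
    rw [IsKleinFour.inv_eq_self]
    exact hx

private lemma relTr_two [IsKleinFour P] (σ : Representation F P V) (τ : Representation F P W)
    (R : Subgroup P) (r q : P) (hr : r ≠ 1) (hR : ∀ x, x ∈ R ↔ x = 1 ∨ x = r) (hq : q ∉ R)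
    (θ : V →ₗ[F] W) (hθ : ∀ x ∈ R, θ ∘ₗ σ x = τ x ∘ₗ θ) :
    relTr σ τ R θ = θ + kcj σ τ q θ := by
  classical
  have hq1 : q ≠ 1 := fun h => hq (by rw [h]; exact R.one_mem)
  have hqr : q ≠ r := fun h => hq ((hR q).2 (Or.inr h))
  have hcl : ∀ y : P, y ∉ R → (QuotientGroup.mk q : P ⧸ R) = QuotientGroup.mk y := by
    intro y hy
    rw [QuotientGroup.eq, IsKleinFour.inv_eq_self]
    have hy1 : y ≠ 1 := fun h => hy (by rw [h]; exact R.one_mem)
    have hyr : y ≠ r := fun h => hy ((hR y).2 (Or.inr h))
    by_cases h : y = q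
    · rw [h, IsKleinFour.mul_self]
      exact R.one_mem
    · have h1 : y = q * r := IsKleinFour.eq_mul_of_ne_all hq1 hr hqr hy1 h hyr
      rw [h1, ← mul_assoc, IsKleinFour.mul_self, one_mul]
      exact (hR r).2 (Or.inr rfl)
  have hne : (QuotientGroup.mk q : P ⧸ R) ≠ QuotientGroup.mk 1 := by
    intro h
    rw [QuotientGroup.eq, mul_one, inv_mem_iff] at h
    exact hq h
  let s : P ⧸ R → P := fun x => if x = QuotientGroup.mk 1 then 1 else q
  have hs : ∀ x, (s x : P ⧸ R) = x := by
    intro x
    obtain ⟨y, rfl⟩ := QuotientGroup.mk_surjective x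
    by_cases h : (QuotientGroup.mk y : P ⧸ R) = QuotientGroup.mk 1
    · simp only [s, if_pos h]
      exact h.symm
    · simp only [s, if_neg h]
      apply hcl
      intro hy
      apply h
      rw [QuotientGroup.eq, mul_one]
      exact R.inv_mem hy
  rw [relTr_eq_section σ τ R θ hθ s hs]
  let e : Bool → P ⧸ R := fun b => if b then QuotientGroup.mk q else QuotientGroup.mk 1
  have he : Function.Bijective e := by
    constructor
    · intro a b h
      cases a <;> cases b <;> simp only [e, Bool.false_eq_true, if_true, if_false] at h ⊢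
      · exact absurd h.symm hne
      · exact absurd h hne
    · intro x
      obtain ⟨y, rfl⟩ := QuotientGroup.mk_surjective x
      by_cases hy : y ∈ R
      · refine ⟨false, ?_⟩
        simp only [e, Bool.false_eq_true, if_false]
        rw [QuotientGroup.eq, inv_one, one_mul]
        exact hy
      · refine ⟨true, ?_⟩
        simp only [e, if_true]
        exact hcl y hy
  rw [← finsum_eq_of_bijective (f := fun b : Bool => kcj σ τ (if b then q else 1) θ) e he]
  · rw [finsum_eq_sum_of_fintype, Fintype.sum_bool]
    simp only [Bool.false_eq_true, if_true, if_false]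
    rw [kcj_one, add_comm]
  · intro b
    cases b
    · simp only [e, s, Bool.false_eq_true, if_false, if_true]
      rfl
    · simp only [e, s, if_true, if_neg hne]
      rfl

private lemma relTr_bot (σ : Representation F P V) (τ : Representation F P W)
    (θ : V →ₗ[F] W) : relTr σ τ ⊥ θ = ∑ᶠ x : P, kcj σ τ x θ := by
  unfold relTr
  refine finsum_eq_of_bijective (fun x : P ⧸ (⊥ : Subgroup P) => x.out) ?_ (fun x => rfl)
  constructor
  · intro x y h
    have h1 : x.out = y.out := h
    rw [← x.out_eq, ← y.out_eq, h1]
  · intro y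
    refine ⟨QuotientGroup.mk y, ?_⟩
    have h1 : (QuotientGroup.mk ((QuotientGroup.mk y : P ⧸ (⊥ : Subgroup P)).out) : P ⧸ (⊥ : Subgroup P))
        = QuotientGroup.mk y := QuotientGroup.out_eq' _
    rw [QuotientGroup.eq, Subgroup.mem_bot, inv_mul_eq_one] at h1
    exact h1

end kfg

/-- For a Klein four group in characteristic two the span of all relative traces from proper
subgroups is the span of the relative traces from the subgroups of order two.  (If `q ∈ {1, r}`
then `θ + τ q θ σ q⁻¹ = 2 θ = 0`; the relative trace from the trivial subgroup is the relative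
trace from `{1, r}` of `θ + τ r θ σ r⁻¹`.) -/
theorem trI_eq_trK [CharP F 2] [IsKleinFour P] (σ : Representation F P V)
    (τ : Representation F P W) : trI σ τ = trK σ τ := by
  classical
  have hcomm : ∀ a b : P, a * b = b * a := mul_comm_of_exponent_two IsKleinFour.exponent_two
  apply le_antisymm
  · unfold trI
    rw [Submodule.span_le]
    rintro f ⟨R, hR, θ, hθ, rfl⟩
    obtain ⟨q, hq⟩ : ∃ q, q ∉ R := by
      by_contra h
      push Not at h
      exact hR ((Subgroup.eq_top_iff' R).2 h)
    by_cases hbot : ∃ r ∈ R, r ≠ 1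
    · obtain ⟨r, hrR, hr⟩ := hbot
      have hRr : ∀ x, x ∈ R ↔ x = 1 ∨ x = r := by
        intro x
        constructor
        · intro hx
          by_contra h
          push Not at h
          apply hq
          have h1 : q = r * x := by
            refine IsKleinFour.eq_mul_of_ne_all hr h.1 (Ne.symm h.2) ?_ ?_ ?_
            · rintro rfl; exact hq R.one_mem
            · rintro rfl; exact hq hrR
            · rintro rfl; exact hq hx
          rw [h1]
          exact R.mul_mem hrR hx
        · rintro (rfl | rfl)
          · exact R.one_mem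
          · exact hrR
      rw [SetLike.mem_coe, relTr_two σ τ R r q hr hRr hq θ hθ]
      exact Submodule.subset_span ⟨r, q, hr, θ, hθ r hrR, rfl⟩
    · push Not at hbot
      have hRb : R = ⊥ := by
        rw [Subgroup.eq_bot_iff_forall]
        exact hbot
      subst hRb
      have hq1 : q ≠ 1 := by
        rintro rfl; exact hq (Subgroup.one_mem _)
      haveI : Fintype P := @Fintype.ofFinite P IsKleinFour.instFinite
      obtain ⟨r, hr⟩ : ∃ r : P, r ∉ ({1, q} : Finset P) := by
        by_contra h
        push Not at h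
        have h1 : (Finset.univ : Finset P) ⊆ {1, q} := fun x _ => h x
        have h2 := Finset.card_le_card h1
        rw [Finset.card_univ, IsKleinFour.card_four'] at h2
        have h3 : ({1, q} : Finset P).card ≤ 2 := Finset.card_le_two
        omega
      rw [Finset.mem_insert, Finset.mem_singleton, not_or] at hr
      obtain ⟨hr1, hrq⟩ := hr
      have hsum : ∑ᶠ x : P, kcj σ τ x θ = (θ + kcj σ τ r θ) + kcj σ τ q (θ + kcj σ τ r θ) := by
        rw [finsum_eq_sum_of_fintype, ← IsKleinFour.eq_finset_univ hq1 hr1 (Ne.symm hrq)]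
        have n1 : q * r ∉ ({q, r, 1} : Finset P) := by
          rw [Finset.mem_insert, Finset.mem_insert, Finset.mem_singleton]
          rintro (h | h | h)
          · exact hr1 (mul_eq_left.1 h)
          · exact hq1 (mul_eq_right.1 h)
          · rw [mul_eq_one_iff_eq_inv, IsKleinFour.inv_eq_self] at h
            exact hrq h.symm
        have n2 : q ∉ ({r, 1} : Finset P) := by
          rw [Finset.mem_insert, Finset.mem_singleton]
          rintro (h | h)
          · exact hrq h.symm
          · exact hq1 h
        have n3 : r ∉ ({1} : Finset P) := by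
          rw [Finset.mem_singleton]
          exact hr1
        rw [Finset.sum_insert n1, Finset.sum_insert n2, Finset.sum_insert n3, Finset.sum_singleton,
          kcj_one, kcj_add, kcj_mul]
        abel
      rw [SetLike.mem_coe, relTr_bot, hsum]
      refine Submodule.subset_span ⟨r, q, hr1, θ + kcj σ τ r θ, ?_, rfl⟩
      rw [kcj_eqv, kcj_add, ← kcj_mul, IsKleinFour.mul_self, kcj_one, add_comm]
  · unfold trK
    rw [Submodule.span_le]
    rintro f ⟨r, q, hr, θ, hθ, rfl⟩
    rw [SetLike.mem_coe]
    have h2 : ∀ θ' : V →ₗ[F] W, θ' + θ' = 0 := by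
      intro θ'
      have : (2 : F) • θ' = 0 := by
        have h3 : (2 : F) = 0 := by exact_mod_cast CharP.cast_eq_zero F 2
        rw [h3, zero_smul]
      rw [two_smul] at this
      exact this
    by_cases hq1 : q = 1
    · subst hq1
      have : τ 1 ∘ₗ θ ∘ₗ σ 1⁻¹ = θ := kcj_one σ τ θ
      rw [this, h2]
      exact Submodule.zero_mem _
    by_cases hqr : q = r
    · subst hqr
      have : τ q ∘ₗ θ ∘ₗ σ q⁻¹ = θ := (kcj_eqv σ τ q θ).1 hθ
      rw [this, h2]
      exact Submodule.zero_mem _
    have hqR : q ∉ kR r := by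
      rintro (h | h)
      · exact hq1 h
      · exact hqr h
    have hθR : ∀ x ∈ kR r, θ ∘ₗ σ x = τ x ∘ₗ θ := by
      rintro x (rfl | rfl)
      · rw [kcj_eqv, kcj_one]
      · exact hθ
    refine Submodule.subset_span ⟨kR r, ?_, θ, hθR, ?_⟩
    · intro h
      apply hqR
      rw [h]
      trivial
    · rw [relTr_two σ τ (kR r) r q hr (fun x => Iff.rfl) hqR θ hθR]
      rfl

end Pool.Agent.KFV
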