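import Mathlib
import Pool.Agent.KFV.Defs
import Pool.Agent.KFV.TRA

open Representation

namespace Pool.Agent.KFV

variable {F : Type*} [Field F]
variable {P P' P'' V V' V'' : Type*} [Group P] [Group P'] [Group P''] [AddCommGroup V]
  [Module F V] [AddCommGroup V'] [Module F V'] [AddCommGroup V''] [Module F V'']

/-- `PairEquiv` in terms of elements. -/
private theorem pairEquiv_iff (σ : Representation F P V) (σ' : Representation F P' V') :
    PairEquiv σ σ' ↔ ∃ (φ : P ≃* P') (e : V ≃ₗ[F] V'), ∀ p v, e (σ p v) = σ' (φ p) (e v) := by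
  constructor
  · rintro ⟨φ, ⟨e⟩⟩
    refine ⟨φ, e.toLinearEquiv, fun p v => ?_⟩
    exact congrArg (fun g : V →ₗ[F] V' => g v) (e.toIntertwiningMap.isIntertwining' p)
  · rintro ⟨φ, e, he⟩
    exact ⟨φ, ⟨Representation.Equiv.mk e fun p => LinearMap.ext fun v => he p v⟩⟩

theorem PairEquiv.refl (σ : Representation F P V) : PairEquiv σ σ :=
  (pairEquiv_iff σ σ).2 ⟨MulEquiv.refl P, LinearEquiv.refl F V, fun _ _ => rfl⟩

theorem PairEquiv.symm {σ : Representation F P V} {σ' : Representation F P' V'}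
    (h : PairEquiv σ σ') : PairEquiv σ' σ := by
  rw [pairEquiv_iff] at h ⊢
  obtain ⟨φ, e, he⟩ := h
  refine ⟨φ.symm, e.symm, fun p v => ?_⟩
  apply e.injective
  rw [e.apply_symm_apply, he, φ.apply_symm_apply, e.apply_symm_apply]

theorem PairEquiv.trans {σ : Representation F P V} {σ' : Representation F P' V'}
    {σ'' : Representation F P'' V''} (h : PairEquiv σ σ') (h' : PairEquiv σ' σ'') :
    PairEquiv σ σ'' := by
  rw [pairEquiv_iff] at h h' ⊢
  obtain ⟨φ, e, he⟩ := h
  obtain ⟨φ', e', he'⟩ := h'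
  refine ⟨φ.trans φ', e.trans e', fun p v => ?_⟩
  rw [LinearEquiv.trans_apply, LinearEquiv.trans_apply, he, he', MulEquiv.trans_apply]

theorem PairEquiv.dual {σ : Representation F P V} {σ' : Representation F P' V'}
    (h : PairEquiv σ σ') : PairEquiv σ.dual σ'.dual := by
  have h2 := h.symm
  rw [pairEquiv_iff] at h2 ⊢
  obtain ⟨φ, e, he⟩ := h2
  refine ⟨φ.symm, e.dualMap, fun p ξ => ?_⟩
  apply LinearMap.ext
  intro v
  change ξ (σ p⁻¹ (e v)) = ξ (e (σ' (φ.symm p)⁻¹ v))
  rw [he, map_inv φ, φ.apply_symm_apply]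

/-- Transport of the span of the relative traces. -/
private theorem trI_transport [Finite P] {W W' : Type*} [AddCommGroup W] [Module F W]
    [AddCommGroup W'] [Module F W']
    (σ : Representation F P V) (τ : Representation F P W) (σ' : Representation F P' V')
    (τ' : Representation F P' W') (φ : P ≃* P') (e : V ≃ₗ[F] V') (d : W ≃ₗ[F] W')
    (he : ∀ p v, e (σ p v) = σ' (φ p) (e v)) (hd : ∀ p w, d (τ p w) = τ' (φ p) (d w))
    (f : V →ₗ[F] W) (hf : f ∈ trI σ τ) :
    d.toLinearMap ∘ₗ f ∘ₗ e.symm.toLinearMap ∈ trI σ' τ' := by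
  have : Finite P' := Finite.of_equiv P φ.toEquiv
  have hes : ∀ p v, e.symm (σ' (φ p) v) = σ p (e.symm v) := by
    intro p v
    apply e.injective
    rw [e.apply_symm_apply, he, e.apply_symm_apply]
  unfold trI at hf
  induction hf using Submodule.span_induction with
  | mem f hf =>
    obtain ⟨R, hR, θ, hθ, rfl⟩ := hf
    have hθ1 : ∀ r ∈ R, ∀ v, θ (σ r v) = τ r (θ v) := fun r hr v =>
      congrArg (fun g : V →ₗ[F] W => g v) (hθ r hr)
    set R' : Subgroup P' := R.map φ.toMonoidHom with hR'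
    set θ' : V' →ₗ[F] W' := d.toLinearMap ∘ₗ θ ∘ₗ e.symm.toLinearMap with hθ'
    have hθ2 : ∀ r ∈ R', θ' ∘ₗ σ' r = τ' r ∘ₗ θ' := by
      rintro _ ⟨r, hr, rfl⟩
      apply LinearMap.ext
      intro v
      change d (θ (e.symm (σ' (φ r) v))) = τ' (φ r) (d (θ (e.symm v)))
      rw [hes, hθ1 r hr, hd]
    have hmemiff : ∀ x y : P, (QuotientGroup.mk x : P ⧸ R) = QuotientGroup.mk y ↔
        (QuotientGroup.mk (φ x) : P' ⧸ R') = QuotientGroup.mk (φ y) := by
      intro x y
      rw [QuotientGroup.eq, QuotientGroup.eq, ← map_inv, ← map_mul]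
      constructor
      · intro h; exact ⟨_, h, rfl⟩
      · rintro ⟨z, hz, hz'⟩
        have : z = x⁻¹ * y := φ.injective hz'
        rwa [← this]
    -- the bijection of the cosets
    let b : P ⧸ R ≃ P' ⧸ R' :=
      Equiv.ofBijective (fun x => (QuotientGroup.mk (φ x.out) : P' ⧸ R')) (by
        constructor
        · intro x y hxy
          have h1 := (hmemiff x.out y.out).2 hxy
          rwa [QuotientGroup.out_eq', QuotientGroup.out_eq'] at h1
        · intro y
          refine ⟨QuotientGroup.mk (φ.symm y.out), ?_⟩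
          have h1 : (QuotientGroup.mk ((QuotientGroup.mk (φ.symm y.out) : P ⧸ R).out) : P ⧸ R) =
              QuotientGroup.mk (φ.symm y.out) := QuotientGroup.out_eq' _
          have h2 := (hmemiff _ _).1 h1
          rw [φ.apply_symm_apply, QuotientGroup.out_eq'] at h2
          exact h2)
    have hb : ∀ x : P ⧸ R, (QuotientGroup.mk (φ x.out) : P' ⧸ R') = b x := fun x => rfl
    have h1 : relTr σ' τ' R' θ' =
        ∑ᶠ x : P' ⧸ R', τ' (φ (b.symm x).out) ∘ₗ θ' ∘ₗ σ' (φ (b.symm x).out)⁻¹ := by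
      apply relTr_eq_section σ' τ' R' θ' hθ2 (fun x => φ (b.symm x).out)
      intro x
      rw [hb, b.apply_symm_apply]
    have h2 : relTr σ' τ' R' θ' =
        ∑ᶠ x : P ⧸ R, τ' (φ x.out) ∘ₗ θ' ∘ₗ σ' (φ x.out)⁻¹ := by
      rw [h1]
      exact finsum_comp_equiv b.symm (f := fun x : P ⧸ R =>
        τ' (φ x.out) ∘ₗ θ' ∘ₗ σ' (φ x.out)⁻¹)
    have h3 : d.toLinearMap ∘ₗ relTr σ τ R θ ∘ₗ e.symm.toLinearMap = relTr σ' τ' R' θ' := by
      rw [h2]
      have : Fintype (P ⧸ R) := Fintype.ofFinite _
      unfold relTr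
      rw [finsum_eq_sum_of_fintype, finsum_eq_sum_of_fintype]
      apply LinearMap.ext
      intro v
      simp only [LinearMap.comp_apply, LinearMap.sum_apply, LinearEquiv.coe_coe, map_sum]
      refine Finset.sum_congr rfl fun x _ => ?_
      rw [hd, hθ', ← map_inv φ]
      simp only [LinearMap.comp_apply, LinearEquiv.coe_coe]
      rw [hes]
    rw [h3]
    refine Submodule.subset_span ⟨R', ?_, θ', hθ2, rfl⟩
    intro h
    apply hR
    rw [eq_top_iff]
    intro x _
    have hx : φ x ∈ R' := by rw [h]; trivial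
    obtain ⟨y, hy, hxy⟩ := hx
    have : y = x := φ.injective hxy
    rwa [← this]
  | zero =>
    rw [LinearMap.zero_comp, LinearMap.comp_zero]
    exact Submodule.zero_mem _
  | add f g _ _ hf hg =>
    rw [LinearMap.add_comp, LinearMap.comp_add]
    exact Submodule.add_mem _ hf hg
  | smul c f _ hf =>
    rw [LinearMap.smul_comp, LinearMap.comp_smul]
    exact Submodule.smul_mem _ c hf

/-- Transport of indecomposability. -/
private theorem indec_transport (σ : Representation F P V) (σ' : Representation F P' V')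
    (φ : P ≃* P') (e : V ≃ₗ[F] V') (he : ∀ p v, e (σ p v) = σ' (φ p) (e v)) (h : Indec σ) :
    Indec σ' := by
  obtain ⟨h1, h2⟩ := h
  refine ⟨e.symm.toEquiv.nontrivial, fun A' B' hAB => ?_⟩
  let pull : Subrepresentation σ' → Subrepresentation σ := fun C =>
    { toSubmodule := C.toSubmodule.comap e.toLinearMap
      apply_mem_toSubmodule := by
        intro g v hv
        rw [Submodule.mem_comap, LinearEquiv.coe_coe] at hv ⊢
        rw [he]
        exact C.apply_mem_toSubmodule (φ g) hv }
  have hpull : ∀ (C : Subrepresentation σ') v, v ∈ (pull C).toSubmodule ↔ e v ∈ C.toSubmodule :=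
    fun C v => Iff.rfl
  have hbot : ∀ C : Subrepresentation σ', pull C = ⊥ → C = ⊥ := by
    intro C hC
    apply Subrepresentation.toSubmodule_injective
    have h3 : (⊥ : Subrepresentation σ').toSubmodule = ⊥ := rfl
    rw [h3, eq_bot_iff]
    intro v hv
    have h4 : e.symm v ∈ (pull C).toSubmodule := by
      rw [hpull, e.apply_symm_apply]; exact hv
    rw [hC] at h4
    have h5 : e.symm v = 0 := (Submodule.mem_bot F).1 h4
    rw [Submodule.mem_bot]
    have h6 := congrArg e h5
    rwa [e.apply_symm_apply, map_zero] at h6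
  have hAB' : IsCompl (pull A') (pull B') := by
    have hd : A'.toSubmodule ⊓ B'.toSubmodule = ⊥ := by
      have := hAB.inf_eq_bot
      rw [← Subrepresentation.toSubmodule_inf, this]; rfl
    have hs : A'.toSubmodule ⊔ B'.toSubmodule = ⊤ := by
      have := hAB.sup_eq_top
      rw [← Subrepresentation.toSubmodule_sup, this]; rfl
    refine IsCompl.of_eq ?_ ?_
    · apply Subrepresentation.toSubmodule_injective
      rw [Subrepresentation.toSubmodule_inf]
      have h3 : (⊥ : Subrepresentation σ).toSubmodule = ⊥ := rfl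
      rw [h3, eq_bot_iff]
      rintro v ⟨hv1, hv2⟩
      have h4 : e v ∈ A'.toSubmodule ⊓ B'.toSubmodule := ⟨hv1, hv2⟩
      rw [hd, Submodule.mem_bot] at h4
      rw [Submodule.mem_bot]
      exact e.map_eq_zero_iff.1 h4
    · apply Subrepresentation.toSubmodule_injective
      rw [Subrepresentation.toSubmodule_sup]
      have h3 : (⊤ : Subrepresentation σ).toSubmodule = ⊤ := rfl
      rw [h3, eq_top_iff]
      intro v _
      have h4 : e v ∈ A'.toSubmodule ⊔ B'.toSubmodule := by rw [hs]; trivial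
      obtain ⟨a, ha, b, hb, hab⟩ := Submodule.mem_sup.1 h4
      refine Submodule.mem_sup.2 ⟨e.symm a, ?_, e.symm b, ?_, ?_⟩
      · rw [hpull, e.apply_symm_apply]; exact ha
      · rw [hpull, e.apply_symm_apply]; exact hb
      · rw [← map_add, hab, e.symm_apply_apply]
  rcases h2 _ _ hAB' with h3 | h3
  · exact Or.inl (hbot _ h3)
  · exact Or.inr (hbot _ h3)

/-- The local condition is invariant under equivalence of pairs. -/
theorem LocCond.congr [Finite P] {σ : Representation F P V} {σ' : Representation F P' V'}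
    (h : PairEquiv σ σ') (hσ : LocCond σ) : LocCond σ' := by
  rw [pairEquiv_iff] at h
  obtain ⟨φ, e, he⟩ := h
  have hfin : Finite P' := Finite.of_equiv P φ.toEquiv
  have hes : ∀ p v, e.symm (σ' p v) = σ (φ.symm p) (e.symm v) := by
    intro p v
    apply e.injective
    rw [e.apply_symm_apply, he, φ.apply_symm_apply, e.apply_symm_apply]
  refine ⟨indec_transport σ σ' φ e he hσ.indec, ?_, ?_⟩
  · intro hid
    apply hσ.not_mem
    have h1 := trI_transport σ' σ' σ σ φ.symm e.symm e.symm hes hes _ hid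
    have h2 : e.symm.toLinearMap ∘ₗ LinearMap.id ∘ₗ e.symm.symm.toLinearMap =
        (LinearMap.id : V →ₗ[F] V) := by
      apply LinearMap.ext
      intro v
      exact e.symm_apply_apply v
    rwa [h2] at h1
  · intro u' hu' hc'
    set u : V →ₗ[F] V := e.symm.toLinearMap ∘ₗ u' ∘ₗ e.toLinearMap with hu
    have huv : ∀ v, u v = e.symm (u' (e v)) := fun v => rfl
    have hu'v : ∀ p v, u' (σ' p v) = σ' p (u' v) := fun p v =>
      congrArg (fun g : V' →ₗ[F] V' => g v) (hu' p)
    have hueqv : Eqv σ σ u := by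
      intro p
      apply LinearMap.ext
      intro v
      change u (σ p v) = σ p (u v)
      rw [huv, huv, he, hu'v, hes, φ.symm_apply_apply]
    have hcen : Central σ u := by
      intro ψ θ hθ
      have hθv : ∀ p v, θ (σ p v) = σ (ψ p) (θ v) := fun p v =>
        congrArg (fun g : V →ₗ[F] V => g v) (hθ p)
      set ψ' : P' ≃* P' := (φ.symm.trans ψ).trans φ with hψ'
      have hψ'v : ∀ p, ψ' p = φ (ψ (φ.symm p)) := fun p => rfl
      set θ' : V' →ₗ[F] V' := e.toLinearMap ∘ₗ θ ∘ₗ e.symm.toLinearMap with hθ'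
      have hθ'v : ∀ v, θ' v = e (θ (e.symm v)) := fun v => rfl
      have h1 : Eqv σ' (σ'.comp ψ'.toMonoidHom) θ' := by
        intro p
        apply LinearMap.ext
        intro v
        change θ' (σ' p v) = σ' (ψ' p) (θ' v)
        rw [hθ'v, hθ'v, hes, hθv, he, hψ'v]
      have h2 := hc' ψ' θ' h1
      have h3 := trI_transport σ' (σ'.comp ψ'.toMonoidHom) σ (σ.comp ψ.toMonoidHom) φ.symm
        e.symm e.symm hes (by
          intro p v
          change e.symm (σ' (ψ' p) v) = σ (ψ (φ.symm p)) (e.symm v)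
          rw [hes, hψ'v, φ.symm_apply_apply]) _ h2
      have h4 : e.symm.toLinearMap ∘ₗ (u' ∘ₗ θ' - θ' ∘ₗ u') ∘ₗ e.symm.symm.toLinearMap =
          u ∘ₗ θ - θ ∘ₗ u := by
        apply LinearMap.ext
        intro v
        change e.symm (u' (θ' (e v)) - θ' (u' (e v))) = u (θ v) - θ (u v)
        rw [map_sub, hθ'v, hθ'v, huv, huv, e.symm_apply_apply, e.symm_apply_apply]
      rwa [h4] at h3
    obtain ⟨c, hc⟩ := hσ.scalar u hueqv hcen
    refine ⟨c, ?_⟩
    have h1 := trI_transport σ σ σ' σ' φ e e he he _ hc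
    have h2 : e.toLinearMap ∘ₗ (u - c • LinearMap.id) ∘ₗ e.symm.toLinearMap =
        u' - c • LinearMap.id := by
      apply LinearMap.ext
      intro v
      change e (u (e.symm v) - c • e.symm v) = u' v - c • v
      rw [map_sub, map_smul, huv, e.apply_symm_apply, e.apply_symm_apply]
    rwa [h2] at h1

/-- The bidual of a finite-dimensional representation. -/
theorem pairEquiv_dual_dual [FiniteDimensional F V] (σ : Representation F P V) :
    PairEquiv σ σ.dual.dual := by
  rw [pairEquiv_iff]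
  refine ⟨MulEquiv.refl P, Module.evalEquiv F V, fun p v => ?_⟩
  apply LinearMap.ext
  intro ξ
  change ξ (σ p v) = ξ (σ (p⁻¹)⁻¹ v)
  rw [inv_inv]

end Pool.Agent.KFV
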