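import Mathlib
import Pool.Agent.KFV.Defs
import Pool.Agent.KFV.PDefs
import Pool.Agent.KFV.CNG

open Representation

namespace Pool.Agent.KFV

variable {F : Type*} [Field F]
variable {U W U' W' : Type*} [AddCommGroup U] [Module F U] [AddCommGroup W] [Module F W]
  [AddCommGroup U'] [Module F U'] [AddCommGroup W'] [Module F W']

theorem pen_one [CharP F 2] (X Y : U →ₗ[F] W) : pen X Y 1 = 0 := by
  simp [pen]

theorem pen_mul [CharP F 2] (X Y : U →ₗ[F] W) (k l : K4) :
    pen X Y (k * l) = pen X Y k + pen X Y l := by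
  ext v
  simp only [pen, toAdd_mul, Prod.fst_add, Prod.snd_add, map_add, add_smul,
    LinearMap.add_apply]
  abel

theorem pen_comp [CharP F 2] (X Y : U →ₗ[F] W) (g : U' →ₗ[F] U) (k : K4) :
    pen (X ∘ₗ g) (Y ∘ₗ g) k = pen X Y k ∘ₗ g := by
  ext v
  simp [pen]

theorem comp_pen [CharP F 2] (X Y : U →ₗ[F] W) (g : W →ₗ[F] W') (k : K4) :
    pen (g ∘ₗ X) (g ∘ₗ Y) k = g ∘ₗ pen X Y k := by
  ext v
  simp [pen]

theorem pencilRep_apply [CharP F 2] (X Y : U →ₗ[F] W) (k : K4) (x : U × W) :
    pencilRep X Y k x = (x.1, x.2 + pen X Y k x.1) := by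
  ext <;> simp [pencilRep]

theorem K4_inv (k : K4) : k⁻¹ = k := by
  revert k
  decide

/-- The subrepresentations `range e × range f` and `ker e × ker f` are complementary. -/
theorem pInd_of_indec [CharP F 2] (X Y : U →ₗ[F] W) (h : Indec (pencilRep X Y)) : PInd X Y := by
  intro e f he hf hX hY
  have hpen : ∀ (k : K4) (v : U), pen X Y k (e v) = f (pen X Y k v) := by
    intro k v
    have h1 := pen_comp X Y e k
    rw [hX, hY, comp_pen] at h1
    exact (LinearMap.congr_fun h1 v).symm
  have he' : ∀ v, e (e v) = e v := fun v => LinearMap.congr_fun he v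
  have hf' : ∀ v, f (f v) = f v := fun v => LinearMap.congr_fun hf v
  let A : Subrepresentation (pencilRep X Y) :=
    { toSubmodule := (LinearMap.range e).prod (LinearMap.range f)
      apply_mem_toSubmodule := by
        rintro g ⟨v, w⟩ ⟨⟨v', hv⟩, ⟨w', hw⟩⟩
        simp only at hv hw
        subst hv
        subst hw
        rw [pencilRep_apply]
        refine ⟨⟨v', rfl⟩, ⟨w' + pen X Y g v', ?_⟩⟩
        simp only [map_add]
        rw [hpen] }
  let B : Subrepresentation (pencilRep X Y) :=
    { toSubmodule := (LinearMap.ker e).prod (LinearMap.ker f)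
      apply_mem_toSubmodule := by
        rintro g ⟨v, w⟩ ⟨hv, hw⟩
        simp only [SetLike.mem_coe, LinearMap.mem_ker] at hv hw
        rw [pencilRep_apply]
        refine ⟨hv, ?_⟩
        simp only [SetLike.mem_coe, LinearMap.mem_ker, map_add]
        rw [hw, ← hpen, hv, map_zero, add_zero] }
  have hcompl : IsCompl A B := by
    constructor
    · rw [disjoint_iff]
      apply Subrepresentation.toSubmodule_injective
      rw [Subrepresentation.toSubmodule_inf]
      change (LinearMap.range e).prod (LinearMap.range f) ⊓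
        (LinearMap.ker e).prod (LinearMap.ker f) = ⊥
      rw [eq_bot_iff]
      rintro ⟨v, w⟩ ⟨⟨⟨v', hv⟩, ⟨w', hw⟩⟩, ⟨hv2, hw2⟩⟩
      simp only [SetLike.mem_coe, LinearMap.mem_ker] at hv hw hv2 hw2
      rw [Submodule.mem_bot]
      ext
      · change v = 0
        rw [← hv, ← he' v', hv, hv2]
      · change w = 0
        rw [← hw, ← hf' w', hw, hw2]
    · rw [codisjoint_iff]
      apply Subrepresentation.toSubmodule_injective
      rw [Subrepresentation.toSubmodule_sup]
      change (LinearMap.range e).prod (LinearMap.range f) ⊔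
        (LinearMap.ker e).prod (LinearMap.ker f) = ⊤
      rw [eq_top_iff]
      rintro ⟨v, w⟩ -
      rw [Submodule.mem_sup]
      refine ⟨(e v, f w), ⟨⟨v, rfl⟩, ⟨w, rfl⟩⟩, (v - e v, w - f w), ⟨?_, ?_⟩, ?_⟩
      · simp [he']
      · simp [hf']
      · simp
  rcases h.2 A B hcompl with h1 | h1
  · left
    have h2 : (LinearMap.range e).prod (LinearMap.range f) = ⊥ :=
      congrArg Subrepresentation.toSubmodule h1
    constructor
    · ext v
      have h3 : ((e v, 0) : U × W) ∈ (LinearMap.range e).prod (LinearMap.range f) :=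
        ⟨⟨v, rfl⟩, ⟨0, map_zero _⟩⟩
      rw [h2, Submodule.mem_bot] at h3
      exact congrArg Prod.fst h3
    · ext w
      have h3 : ((0, f w) : U × W) ∈ (LinearMap.range e).prod (LinearMap.range f) :=
        ⟨⟨0, map_zero _⟩, ⟨w, rfl⟩⟩
      rw [h2, Submodule.mem_bot] at h3
      exact congrArg Prod.snd h3
  · right
    have h2 : (LinearMap.ker e).prod (LinearMap.ker f) = ⊥ :=
      congrArg Subrepresentation.toSubmodule h1
    constructor
    · ext v
      have h3 : ((v - e v, 0) : U × W) ∈ (LinearMap.ker e).prod (LinearMap.ker f) := by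
        refine ⟨?_, ?_⟩
        · simp [he']
        · simp
      rw [h2, Submodule.mem_bot] at h3
      exact (sub_eq_zero.mp (congrArg Prod.fst h3)).symm
    · ext w
      have h3 : ((0, w - f w) : U × W) ∈ (LinearMap.ker e).prod (LinearMap.ker f) := by
        refine ⟨?_, ?_⟩
        · simp
        · simp [hf']
      rw [h2, Submodule.mem_bot] at h3
      exact (sub_eq_zero.mp (congrArg Prod.snd h3)).symm

theorem dualMap_inj {f g : U →ₗ[F] W} (h : f.dualMap = g.dualMap) : f = g := by
  ext v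
  rw [← sub_eq_zero, ← Module.forall_dual_apply_eq_zero_iff F]
  intro φ
  have h1 := LinearMap.congr_fun (LinearMap.congr_fun h φ) v
  simp only [LinearMap.dualMap_apply] at h1
  rw [map_sub, h1, sub_self]

theorem exists_dualMap [FiniteDimensional F U] [FiniteDimensional F W]
    (e : Module.Dual F W →ₗ[F] Module.Dual F U) : ∃ e' : U →ₗ[F] W, e'.dualMap = e := by
  refine ⟨(Module.evalEquiv F W).symm.toLinearMap ∘ₗ e.dualMap ∘ₗ
    (Module.evalEquiv F U).toLinearMap, ?_⟩
  ext φ w
  rw [LinearMap.dualMap_apply]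
  have h1 : φ ((Module.evalEquiv F W).symm (e.dualMap (Module.evalEquiv F U w))) =
      (e.dualMap (Module.evalEquiv F U w)) φ := by
    conv_rhs => rw [← (Module.evalEquiv F W).apply_symm_apply (e.dualMap (Module.evalEquiv F U w))]
    rfl
  exact h1

theorem pInd_dual [FiniteDimensional F U] [FiniteDimensional F W] (X Y : U →ₗ[F] W)
    (h : PInd X Y) : PInd X.dualMap Y.dualMap := by
  intro e f he hf hX hY
  obtain ⟨e', rfl⟩ := exists_dualMap e
  obtain ⟨f', rfl⟩ := exists_dualMap f
  rw [LinearMap.dualMap_comp_dualMap] at he hf hX hY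
  rw [LinearMap.dualMap_comp_dualMap] at hX hY
  have he' := dualMap_inj he
  have hf' := dualMap_inj hf
  have hX' := dualMap_inj hX
  have hY' := dualMap_inj hY
  rcases h f' e' hf' he' hX'.symm hY'.symm with ⟨h1, h2⟩ | ⟨h1, h2⟩
  · left
    rw [h1, h2]
    constructor <;> · ext; simp
  · right
    rw [h1, h2]
    constructor <;> · ext; simp

/-- Isomorphic pencils give equivalent pairs. -/
theorem pairEquiv_of_iso [CharP F 2] (X Y : U →ₗ[F] W) (X' Y' : U' →ₗ[F] W') (e : U ≃ₗ[F] U')
    (f : W ≃ₗ[F] W') (hX : f.toLinearMap ∘ₗ X = X' ∘ₗ e.toLinearMap)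
    (hY : f.toLinearMap ∘ₗ Y = Y' ∘ₗ e.toLinearMap) :
    PairEquiv (pencilRep X Y) (pencilRep X' Y') := by
  refine ⟨MulEquiv.refl _, ⟨Representation.Equiv.mk (e.prodCongr f) ?_⟩⟩
  intro g
  have h1 : f.toLinearMap ∘ₗ pen X Y g = pen X' Y' g ∘ₗ e.toLinearMap := by
    rw [← comp_pen, hX, hY, pen_comp]
  have h2 : ∀ v, f (pen X Y g v) = pen X' Y' g (e v) := fun v => LinearMap.congr_fun h1 v
  apply LinearMap.ext
  rintro ⟨v, w⟩
  change (e.prodCongr f) (pencilRep X Y g (v, w)) = pencilRep X' Y' g ((e.prodCongr f) (v, w))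
  rw [pencilRep_apply, pencilRep_apply]
  simp [h2]

/-- Exchange of the two generators. -/
theorem pairEquiv_swap [CharP F 2] (X Y : U →ₗ[F] W) :
    PairEquiv (pencilRep X Y) (pencilRep Y X) := by
  refine ⟨AddEquiv.toMultiplicative (AddEquiv.prodComm : ZMod 2 × ZMod 2 ≃+ ZMod 2 × ZMod 2),
    ⟨Representation.Equiv.mk (LinearEquiv.refl F (U × W)) ?_⟩⟩
  intro g
  apply LinearMap.ext
  rintro ⟨v, w⟩
  change pencilRep X Y g (v, w) = pencilRep Y X (AddEquiv.toMultiplicative
    (AddEquiv.prodComm : ZMod 2 × ZMod 2 ≃+ ZMod 2 × ZMod 2) g) (v, w)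
  rw [pencilRep_apply, pencilRep_apply]
  simp only [pen, LinearMap.add_apply]
  rw [add_comm ((ZMod.castHom (dvd_refl 2) F (Multiplicative.toAdd g).1 • X) v)]
  rfl

/-- The generators `a, a b` in place of `a, b`. -/
theorem pairEquiv_shear [CharP F 2] (X Y : U →ₗ[F] W) :
    PairEquiv (pencilRep X Y) (pencilRep X (X + Y)) := by
  have hz : ∀ a b : ZMod 2, a + b + b = a := by decide
  let φ : ZMod 2 × ZMod 2 ≃+ ZMod 2 × ZMod 2 :=
    { toFun := fun x => (x.1 + x.2, x.2)
      invFun := fun x => (x.1 + x.2, x.2)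
      left_inv := fun x => by ext <;> simp [hz]
      right_inv := fun x => by ext <;> simp [hz]
      map_add' := fun x y => by
        ext
        · simp only [Prod.fst_add, Prod.snd_add]
          abel
        · simp }
  refine ⟨AddEquiv.toMultiplicative φ, ⟨Representation.Equiv.mk (LinearEquiv.refl F (U × W)) ?_⟩⟩
  intro g
  apply LinearMap.ext
  rintro ⟨v, w⟩
  change pencilRep X Y g (v, w) = pencilRep X (X + Y) (AddEquiv.toMultiplicative φ g) (v, w)
  rw [pencilRep_apply, pencilRep_apply]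
  have h2 : ∀ u : W, u + u = 0 := by
    intro u
    rw [← two_smul F u, CharTwo.two_eq_zero, zero_smul]
  have h1 : pen X Y g v = pen X (X + Y) (AddEquiv.toMultiplicative φ g) v := by
    change ((ZMod.castHom (dvd_refl 2) F (Multiplicative.toAdd g).1 • X +
      ZMod.castHom (dvd_refl 2) F (Multiplicative.toAdd g).2 • Y) : U →ₗ[F] W) v =
      ((ZMod.castHom (dvd_refl 2) F ((Multiplicative.toAdd g).1 + (Multiplicative.toAdd g).2) • X +
      ZMod.castHom (dvd_refl 2) F (Multiplicative.toAdd g).2 • (X + Y)) : U →ₗ[F] W) v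
    simp only [LinearMap.add_apply, LinearMap.smul_apply, map_add, add_smul, smul_add]
    have := h2 (ZMod.castHom (dvd_refl 2) F (Multiplicative.toAdd g).2 • X v)
    calc _ = ZMod.castHom (dvd_refl 2) F (Multiplicative.toAdd g).1 • X v +
        (ZMod.castHom (dvd_refl 2) F (Multiplicative.toAdd g).2 • X v +
        ZMod.castHom (dvd_refl 2) F (Multiplicative.toAdd g).2 • X v) +
        ZMod.castHom (dvd_refl 2) F (Multiplicative.toAdd g).2 • Y v := by rw [this, add_zero]
      _ = _ := by abel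
  rw [h1]

/-- The dual of the representation of a pencil. -/
theorem pairEquiv_dual_pencil [CharP F 2] (X Y : U →ₗ[F] W) :
    PairEquiv (pencilRep X Y).dual (pencilRep X.dualMap Y.dualMap) := by
  let e : Module.Dual F (U × W) ≃ₗ[F] Module.Dual F W × Module.Dual F U :=
    { toFun := fun ψ => (ψ ∘ₗ LinearMap.inr F U W, ψ ∘ₗ LinearMap.inl F U W)
      map_add' := fun ψ χ => by ext <;> simp
      map_smul' := fun c ψ => by ext <;> simp
      invFun := fun p => p.1 ∘ₗ LinearMap.snd F U W + p.2 ∘ₗ LinearMap.fst F U W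
      left_inv := fun ψ => by
        apply LinearMap.ext
        rintro ⟨u, w⟩
        change ψ (0, w) + ψ (u, 0) = ψ (u, w)
        rw [← map_add]
        simp
      right_inv := fun p => by ext <;> simp }
  refine ⟨MulEquiv.refl _, ⟨Representation.Equiv.mk e ?_⟩⟩
  intro g
  apply LinearMap.ext
  intro ψ
  change e ((pencilRep X Y).dual g ψ) = pencilRep X.dualMap Y.dualMap g (e ψ)
  rw [pencilRep_apply]
  have h0 : (pencilRep X Y).dual g ψ = ψ ∘ₗ pencilRep X Y g := by
    have : (pencilRep X Y).dual g ψ = ψ ∘ₗ pencilRep X Y g⁻¹ := rfl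
    rw [this, K4_inv]
  have h1 : pen X.dualMap Y.dualMap g = (pen X Y g).dualMap := by
    ext φ v
    simp [pen]
  rw [h0, h1]
  ext v
  · change ψ (pencilRep X Y g (0, v)) = ψ (0, v)
    rw [pencilRep_apply]
    simp
  · change ψ (pencilRep X Y g (v, 0)) = ψ (v, 0) + ψ (0, pen X Y g v)
    rw [pencilRep_apply, ← map_add]
    simp

/-- Precomposition of the representation of a pencil with an automorphism. -/
theorem pencilRep_comp [CharP F 2] (X Y : U →ₗ[F] W) (φ : K4 ≃* K4) :
    (pencilRep X Y).comp φ.toMonoidHom =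
      pencilRep (pen X Y (φ (Multiplicative.ofAdd (1, 0))))
        (pen X Y (φ (Multiplicative.ofAdd (0, 1)))) := by
  have hk : ∀ k : K4, k = 1 ∨ k = Multiplicative.ofAdd (1, 0) ∨ k = Multiplicative.ofAdd (0, 1) ∨
      k = Multiplicative.ofAdd (1, 0) * Multiplicative.ofAdd (0, 1) := by decide
  have hpa : ∀ (Z T : U →ₗ[F] W), pen Z T (Multiplicative.ofAdd (1, 0)) = Z := by
    intro Z T
    ext v
    simp [pen]
  have hpb : ∀ (Z T : U →ₗ[F] W), pen Z T (Multiplicative.ofAdd (0, 1)) = T := by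
    intro Z T
    ext v
    simp [pen]
  have key : ∀ k : K4, pen X Y (φ k) = pen (pen X Y (φ (Multiplicative.ofAdd (1, 0))))
      (pen X Y (φ (Multiplicative.ofAdd (0, 1)))) k := by
    intro k
    rcases hk k with rfl | rfl | rfl | rfl
    · rw [map_one, pen_one, pen_one]
    · rw [hpa]
    · rw [hpb]
    · rw [map_mul, pen_mul, pen_mul, hpa, hpb]
  apply MonoidHom.ext
  intro k
  apply LinearMap.ext
  intro x
  change pencilRep X Y (φ k) x = _
  rw [pencilRep_apply, pencilRep_apply, key]

end Pool.Agent.KFV
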