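import Mathlib
import Pool.Agent.KFV.PDefs
import Pool.Agent.KFV.TRA
import Pool.Agent.KFV.KFG
import Pool.Agent.KFV.PEN

open Representation

namespace Pool.Agent.KFV

variable {F : Type*} [Field F] [CharP F 2]
variable {U W : Type*} [AddCommGroup U] [Module F U] [AddCommGroup W] [Module F W]

/-- The first generator of the Klein four group. -/
def ga : K4 := Multiplicative.ofAdd (1, 0)

/-- The second generator of the Klein four group. -/
def gb : K4 := Multiplicative.ofAdd (0, 1)

theorem pen_ga (X Y : U →ₗ[F] W) : pen X Y ga = X := by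
  ext v
  simp [pen, ga]

theorem pen_gb (X Y : U →ₗ[F] W) : pen X Y gb = Y := by
  ext v
  simp [pen, gb]

omit [CharP F 2] in
theorem blk_apply (α : U →ₗ[F] U) (β : W →ₗ[F] W) (γ : U →ₗ[F] W) (x : U × W) :
    blk α β γ x = (α x.1, γ x.1 + β x.2) := rfl

theorem eqv_blk (X Y X' Y' : U →ₗ[F] W) (α : U →ₗ[F] U) (β : W →ₗ[F] W) (γ : U →ₗ[F] W)
    (hX : β ∘ₗ X = X' ∘ₗ α) (hY : β ∘ₗ Y = Y' ∘ₗ α) :
    Eqv (pencilRep X Y) (pencilRep X' Y') (blk α β γ) := by
  intro g
  have h1 : β ∘ₗ pen X Y g = pen X' Y' g ∘ₗ α := by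
    rw [← comp_pen, hX, hY, pen_comp]
  have h2 : ∀ v, β (pen X Y g v) = pen X' Y' g (α v) := fun v => LinearMap.congr_fun h1 v
  apply LinearMap.ext
  rintro ⟨v, w⟩
  rw [LinearMap.comp_apply, LinearMap.comp_apply, pencilRep_apply, pencilRep_apply, blk_apply,
    blk_apply]
  simp only [map_add, h2]
  rw [add_assoc]

/-- If `X` is surjective every equivariant map is lower triangular. -/
theorem exists_blk_of_eqv (X Y X' Y' : U →ₗ[F] W) (hX : Function.Surjective X)
    (θ : (U × W) →ₗ[F] (U × W)) (hθ : Eqv (pencilRep X Y) (pencilRep X' Y') θ) :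
    ∃ (α : U →ₗ[F] U) (β : W →ₗ[F] W) (γ : U →ₗ[F] W), θ = blk α β γ ∧
      β ∘ₗ X = X' ∘ₗ α ∧ β ∘ₗ Y = Y' ∘ₗ α := by
  have hg : ∀ (g : K4) (u : U), θ (0, pen X Y g u) = (0, pen X' Y' g (θ (u, 0)).1) := by
    intro g u
    have h1 := LinearMap.congr_fun (hθ g) (u, 0)
    rw [LinearMap.comp_apply, LinearMap.comp_apply, pencilRep_apply, pencilRep_apply] at h1
    simp only [zero_add] at h1
    have h2 : ((u, pen X Y g u) : U × W) = (u, 0) + (0, pen X Y g u) := by simp
    rw [h2, map_add] at h1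
    have h3 : θ (0, pen X Y g u) = ((θ (u, 0)).1, (θ (u, 0)).2 + pen X' Y' g (θ (u, 0)).1) -
        θ (u, 0) := by
      rw [← h1]
      abel
    rw [h3]
    ext
    · simp
    · simp
  have ha : ∀ u, θ (0, X u) = (0, X' (θ (u, 0)).1) := by
    intro u
    have := hg ga u
    rwa [pen_ga, pen_ga] at this
  have hb : ∀ u, θ (0, Y u) = (0, Y' (θ (u, 0)).1) := by
    intro u
    have := hg gb u
    rwa [pen_gb, pen_gb] at this
  refine ⟨LinearMap.fst F U W ∘ₗ θ ∘ₗ LinearMap.inl F U W,
    LinearMap.snd F U W ∘ₗ θ ∘ₗ LinearMap.inr F U W,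
    LinearMap.snd F U W ∘ₗ θ ∘ₗ LinearMap.inl F U W, ?_, ?_, ?_⟩
  · apply LinearMap.ext
    rintro ⟨u, w⟩
    rw [blk_apply]
    obtain ⟨u', rfl⟩ := hX w
    have h1 : ((u, X u') : U × W) = (u, 0) + (0, X u') := by simp
    rw [h1, map_add, ha u']
    simp only [LinearMap.comp_apply, LinearMap.inl_apply, LinearMap.inr_apply,
      LinearMap.fst_apply, LinearMap.snd_apply, Prod.fst_add, Prod.snd_add, add_zero, zero_add]
    rw [ha u']
    ext
    · simp
    · simp
  · ext u
    simp only [LinearMap.comp_apply, LinearMap.inl_apply, LinearMap.inr_apply,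
      LinearMap.fst_apply, LinearMap.snd_apply]
    rw [ha u]
  · ext u
    simp only [LinearMap.comp_apply, LinearMap.inl_apply, LinearMap.inr_apply,
      LinearMap.fst_apply, LinearMap.snd_apply]
    rw [hb u]

theorem two_zero (w : W) (F : Type*) [Field F] [CharP F 2] [Module F W] : w + w = 0 := by
  rw [← two_smul F w, CharTwo.two_eq_zero, zero_smul]

theorem tr_mem_aux (X Y X' Y' : U →ₗ[F] W) (α : U →ₗ[F] U) (β : W →ₗ[F] W) (r q : K4)
    (hr : r ≠ 1) (h : β ∘ₗ pen X Y r = pen X' Y' r ∘ₗ α) :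
    blk 0 0 (pen X' Y' q ∘ₗ α + β ∘ₗ pen X Y q) ∈ trI (pencilRep X Y) (pencilRep X' Y') := by
  rw [trI_eq_trK]
  apply Submodule.subset_span
  refine ⟨r, q, hr, blk α β 0, ?_, ?_⟩
  · have h2 : ∀ v, β (pen X Y r v) = pen X' Y' r (α v) := fun v => LinearMap.congr_fun h v
    apply LinearMap.ext
    rintro ⟨v, w⟩
    rw [LinearMap.comp_apply, LinearMap.comp_apply, pencilRep_apply, pencilRep_apply, blk_apply,
      blk_apply]
    simp only [map_add, h2, LinearMap.zero_apply, zero_add]
  · apply LinearMap.ext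
    rintro ⟨v, w⟩
    rw [LinearMap.add_apply, LinearMap.comp_apply, LinearMap.comp_apply, K4_inv,
      pencilRep_apply, pencilRep_apply, blk_apply, blk_apply, blk_apply]
    simp only [LinearMap.zero_apply, zero_add, LinearMap.add_apply, LinearMap.comp_apply,
      map_add, add_zero, Prod.mk_add_mk]
    have h1 := two_zero (α v) F
    have h2 := two_zero (β w) F
    ext
    · exact h1.symm
    · change _ = β w + (β w + β (pen X Y q v) + pen X' Y' q (α v))
      calc pen X' Y' q (α v) + β (pen X Y q v) =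
          (β w + β w) + (pen X' Y' q (α v) + β (pen X Y q v)) := by rw [h2, zero_add]
        _ = _ := by abel

/-- The relative trace from the subgroup generated by the first generator of `blk α β 0`. -/
theorem tr_a_mem (X Y X' Y' : U →ₗ[F] W) (α : U →ₗ[F] U) (β : W →ₗ[F] W)
    (h : β ∘ₗ X = X' ∘ₗ α) :
    blk 0 0 (Y' ∘ₗ α + β ∘ₗ Y) ∈ trI (pencilRep X Y) (pencilRep X' Y') := by
  have h1 := tr_mem_aux X Y X' Y' α β ga gb (by decide) (by rw [pen_ga, pen_ga]; exact h)
  rwa [pen_gb, pen_gb] at h1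

/-- The relative trace from the subgroup generated by the second generator of `blk α β 0`. -/
theorem tr_b_mem (X Y X' Y' : U →ₗ[F] W) (α : U →ₗ[F] U) (β : W →ₗ[F] W)
    (h : β ∘ₗ Y = Y' ∘ₗ α) :
    blk 0 0 (X' ∘ₗ α + β ∘ₗ X) ∈ trI (pencilRep X Y) (pencilRep X' Y') := by
  have h1 := tr_mem_aux X Y X' Y' α β gb ga (by decide) (by rw [pen_gb, pen_gb]; exact h)
  rwa [pen_ga, pen_ga] at h1

/-- The operator `b ↦ Y' b + X' b Λ` with `Λ = c + N`, `X' = s11 + s12 Λ`, `Y' = s21 + s22 Λ` is
`s21 + s22 c + s11 c + s12 c²` plus a nilpotent operator (characteristic two). -/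
theorem op_bijective (N : Module.End F U) (hN : IsNilpotent N) (c s11 s12 s21 s22 : F)
    (h0 : s21 + s22 * c + s11 * c + s12 * c ^ 2 ≠ 0) :
    Function.Bijective (fun b : Module.End F U =>
      (s21 • (1 : Module.End F U) + s22 • (c • 1 + N)) * b +
        (s11 • (1 : Module.End F U) + s12 • (c • 1 + N)) * b * (c • 1 + N)) := by
  let L : Module.End F (Module.End F U) := LinearMap.mulLeft F N
  let R : Module.End F (Module.End F U) := LinearMap.mulRight F N
  have hL : IsNilpotent L := (LinearMap.isNilpotent_mulLeft_iff F N).mpr hN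
  have hR : IsNilpotent R := (LinearMap.isNilpotent_mulRight_iff F N).mpr hN
  have hLR : Commute L R := LinearMap.commute_mulLeft_right N N
  let T : Module.End F (Module.End F U) :=
    (s22 + s12 * c) • L + ((s11 + s12 * c) • R + s12 • (L * R))
  have hT : IsNilpotent T := by
    have h1 : IsNilpotent ((s22 + s12 * c) • L) := hL.smul _
    have h2 : IsNilpotent ((s11 + s12 * c) • R) := hR.smul _
    have h3 : IsNilpotent (s12 • (L * R)) := (hLR.isNilpotent_mul_right hL).smul _
    have hRLR : Commute R (L * R) := (hLR.symm.mul_right (Commute.refl R))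
    have hLLR : Commute L (L * R) := ((Commute.refl L).mul_right hLR)
    have c1 : Commute ((s11 + s12 * c) • R) (s12 • (L * R)) :=
      (hRLR.smul_left _).smul_right _
    have c2 : Commute ((s22 + s12 * c) • L) ((s11 + s12 * c) • R + s12 • (L * R)) :=
      ((hLR.smul_left _).smul_right _).add_right ((hLLR.smul_left _).smul_right _)
    exact c2.isNilpotent_add h1 (c1.isNilpotent_add h2 h3)
  set h := s21 + s22 * c + s11 * c + s12 * c ^ 2 with hh
  have hu : IsUnit (h • (1 : Module.End F (Module.End F U)) + T) := by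
    have hu1 : IsUnit (h • (1 : Module.End F (Module.End F U))) := by
      rw [← Algebra.algebraMap_eq_smul_one]
      exact (IsUnit.mk0 h h0).map _
    have := (hT.isUnit_add_left_of_commute hu1 ?_)
    · exact this
    · exact (Commute.one_right T).smul_right _
  have hb := (Module.End.isUnit_iff _).mp hu
  have he : (fun b : Module.End F U =>
      (s21 • (1 : Module.End F U) + s22 • (c • 1 + N)) * b +
        (s11 • (1 : Module.End F U) + s12 • (c • 1 + N)) * b * (c • 1 + N)) =
      ⇑(h • (1 : Module.End F (Module.End F U)) + T) := by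
    funext b
    have h1 : T b = (s22 + s12 * c) • (N * b) + ((s11 + s12 * c) • (b * N) +
        s12 • (N * (b * N))) := rfl
    rw [LinearMap.add_apply, LinearMap.smul_apply, Module.End.one_apply, h1, hh]
    simp only [add_mul, mul_add, smul_mul_assoc, mul_smul_comm, one_mul, mul_one, smul_add,
      mul_assoc]
    module
  rw [he]
  exact hb

/-- If `φ` moves the parameter `c` then every map equivariant up to `φ` is a sum of relative
traces. -/
theorem eqv_mem_trI (N : U →ₗ[F] U) (hN : IsNilpotent (N : Module.End F U))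
    (c s11 s12 s21 s22 : F) (h0 : s21 + s22 * c + s11 * c + s12 * c ^ 2 ≠ 0)
    (θ : (U × U) →ₗ[F] (U × U))
    (hθ : Eqv (pencilRep LinearMap.id (c • LinearMap.id + N))
      (pencilRep (s11 • LinearMap.id + s12 • (c • LinearMap.id + N))
        (s21 • LinearMap.id + s22 • (c • LinearMap.id + N))) θ) :
    θ ∈ trI (pencilRep LinearMap.id (c • LinearMap.id + N))
      (pencilRep (s11 • LinearMap.id + s12 • (c • LinearMap.id + N))
        (s21 • LinearMap.id + s22 • (c • LinearMap.id + N))) := by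
  obtain ⟨α, β, γ, rfl, h1, h2⟩ := exists_blk_of_eqv _ _ _ _ Function.surjective_id θ hθ
  have hbij := op_bijective (N : Module.End F U) hN c s11 s12 s21 s22 h0
  rw [LinearMap.comp_id] at h1
  subst h1
  have hα : α = 0 := by
    apply hbij.1
    change (s21 • LinearMap.id + s22 • (c • LinearMap.id + N)) ∘ₗ α +
      ((s11 • LinearMap.id + s12 • (c • LinearMap.id + N)) ∘ₗ α) ∘ₗ (c • LinearMap.id + N) = _
    rw [h2, two_zero _ F]
    simp
  subst hα
  obtain ⟨b, hb⟩ := hbij.2 γ
  have h3 := tr_a_mem LinearMap.id (c • LinearMap.id + N)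
    (s11 • LinearMap.id + s12 • (c • LinearMap.id + N))
    (s21 • LinearMap.id + s22 • (c • LinearMap.id + N)) b
    ((s11 • LinearMap.id + s12 • (c • LinearMap.id + N)) ∘ₗ b) (LinearMap.comp_id _)
  have h4 : (s21 • LinearMap.id + s22 • (c • LinearMap.id + N)) ∘ₗ b +
      ((s11 • LinearMap.id + s12 • (c • LinearMap.id + N)) ∘ₗ b) ∘ₗ (c • LinearMap.id + N) = γ :=
    hb
  rw [h4] at h3
  rw [LinearMap.comp_zero]
  exact h3

end Pool.Agent.KFV
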