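import Mathlib
import Pool.Agent.KFV.Defs

open Representation

namespace Pool.Agent.KFV

section density

variable (F : Type*) [Field F] [IsAlgClosed F] {R : Type*} [Ring R] [Algebra F R]
variable {V W : Type*} [AddCommGroup V] [Module F V] [Module R V] [IsScalarTower F R V]
variable [AddCommGroup W] [Module F W] [Module R W] [IsScalarTower F R W]

/-- A pair of nonisomorphic simple modules, finite dimensional over an algebraically closed field:
every endomorphism of their sum is a pair of scalars. -/
theorem end_prod_scalars [FiniteDimensional F V] [FiniteDimensional F W]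
    [IsSimpleModule R V] [IsSimpleModule R W] (hne : IsEmpty (V ≃ₗ[R] W))
    (φ : Module.End R (V × W)) :
    ∃ a b : F, ∀ v w, φ (v, w) = (a • v, b • w) := by
  have z12 : ∀ f : V →ₗ[R] W, f = 0 := fun f => by
    rcases f.bijective_or_eq_zero with h | h
    · exact (hne.false (LinearEquiv.ofBijective f h)).elim
    · exact h
  have z21 : ∀ f : W →ₗ[R] V, f = 0 := fun f => by
    rcases f.bijective_or_eq_zero with h | h
    · exact (hne.false (LinearEquiv.ofBijective f h).symm).elim
    · exact h
  obtain ⟨a, ha⟩ := (IsSimpleModule.algebraMap_end_bijective_of_isAlgClosed (A := R) (V := V)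
    F).2 ((LinearMap.fst R V W).comp (φ.comp (LinearMap.inl R V W)))
  obtain ⟨b, hb⟩ := (IsSimpleModule.algebraMap_end_bijective_of_isAlgClosed (A := R) (V := W)
    F).2 ((LinearMap.snd R V W).comp (φ.comp (LinearMap.inr R V W)))
  have h12 := z12 ((LinearMap.snd R V W).comp (φ.comp (LinearMap.inl R V W)))
  have h21 := z21 ((LinearMap.fst R V W).comp (φ.comp (LinearMap.inr R V W)))
  refine ⟨a, b, fun v w => ?_⟩
  have e1 : (v, w) = LinearMap.inl R V W v + LinearMap.inr R V W w := by simp
  have ha' := LinearMap.congr_fun ha v
  have hb' := LinearMap.congr_fun hb w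
  have h12' := LinearMap.congr_fun h12 v
  have h21' := LinearMap.congr_fun h21 w
  simp only [LinearMap.comp_apply, LinearMap.fst_apply, LinearMap.snd_apply,
    Module.algebraMap_end_apply, LinearMap.zero_apply] at ha' hb' h12' h21'
  rw [e1, map_add]
  refine Prod.ext ?_ ?_
  · rw [Prod.fst_add, ← ha', h21', add_zero]
  · rw [Prod.snd_add, ← hb', h12', zero_add]

theorem isSemisimpleModule_prod [IsSemisimpleModule R V] [IsSemisimpleModule R W] :
    IsSemisimpleModule R (V × W) := by
  have h := IsSemisimpleModule.sup (IsSemisimpleModule.range (LinearMap.inl R V W))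
    (IsSemisimpleModule.range (LinearMap.inr R V W))
  rw [LinearMap.sup_range_inl_inr] at h
  exact (Submodule.topEquiv (R := R) (M := V × W)).isSemisimpleModule_iff.mp h

/-- Two nonisomorphic simple modules, finite dimensional over an algebraically closed field: some
element of the algebra acts as a prescribed linear map on the first and as zero on the second. -/
theorem exists_smul_eq [FiniteDimensional F V] [FiniteDimensional F W]
    [IsSimpleModule R V] [IsSimpleModule R W] (hne : IsEmpty (V ≃ₗ[R] W)) (P : V →ₗ[F] V) :
    ∃ r : R, (∀ v : V, r • v = P v) ∧ (∀ w : W, r • w = 0) := by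
  classical
  have := isSemisimpleModule_prod (R := R) (V := V) (W := W)
  let f : Module.End (Module.End R (V × W)) (V × W) :=
    { toFun := fun x => (P x.1, 0)
      map_add' := fun x y => by simp
      map_smul' := fun φ x => by
        obtain ⟨a, b, hab⟩ := end_prod_scalars F hne φ
        obtain ⟨v, w⟩ := x
        simp only [RingHom.id_apply, Module.End.smul_def]
        rw [hab, hab]
        simp }
  let bV := Module.finBasis F V
  let bW := Module.finBasis F W
  obtain ⟨r, hr⟩ := jacobson_density f
    (Finset.univ.image (fun i => ((bV i, 0) : V × W)) ∪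
      Finset.univ.image (fun j => ((0, bW j) : V × W)))
  have h1 : DistribSMul.toLinearMap F V r = P := by
    refine bV.ext fun i => ?_
    have h := hr (bV i, 0) (Finset.mem_union_left _ (Finset.mem_image_of_mem _ (Finset.mem_univ i)))
    exact (congrArg Prod.fst h).symm
  have h2 : DistribSMul.toLinearMap F W r = 0 := by
    refine bW.ext fun j => ?_
    have h := hr (0, bW j) (Finset.mem_union_right _
      (Finset.mem_image_of_mem _ (Finset.mem_univ j)))
    exact (congrArg Prod.snd h).symm
  exact ⟨r, fun v => LinearMap.congr_fun h1 v, fun w => LinearMap.congr_fun h2 w⟩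

end density

variable {F : Type*} [Field F]
variable {G V W : Type*} [Group G] [AddCommGroup V] [Module F V] [AddCommGroup W] [Module F W]

theorem trace_asAlgebraHom_eq (ρ : Representation F G V) (ρ' : Representation F G W)
    (ht : ∀ g, LinearMap.trace F V (ρ g) = LinearMap.trace F W (ρ' g)) (r : MonoidAlgebra F G) :
    LinearMap.trace F V (ρ.asAlgebraHom r) = LinearMap.trace F W (ρ'.asAlgebraHom r) := by
  induction r using MonoidAlgebra.induction_linear with
  | zero => simp
  | add x y hx hy => rw [map_add, map_add, map_add, map_add, hx, hy]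
  | single g t => rw [asAlgebraHom_single, asAlgebraHom_single, map_smul, map_smul, ht]

/-- Irreducible representations over an algebraically closed field (of any characteristic) are
determined by their traces.  If they are not isomorphic, then by Schur's lemma every endomorphism
of the representation on `V × W` is `(v, w) ↦ (a v, b w)` with scalars `a, b`; by
`jacobson_density` for the semisimple `MonoidAlgebra F G`-module `V × W` some `r` acts on `V` as a
projection of rank one and on `W` as zero, but the traces of `r` on `V` and on `W` are equal. -/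
theorem equiv_of_trace [IsAlgClosed F] [FiniteDimensional F V] [FiniteDimensional F W]
    (ρ : Representation F G V) (ρ' : Representation F G W) (h : ρ.IsIrreducible)
    (h' : ρ'.IsIrreducible)
    (ht : ∀ g, LinearMap.trace F V (ρ g) = LinearMap.trace F W (ρ' g)) :
    Nonempty (ρ.Equiv ρ') := by
  by_contra hcon
  have s1 : IsSimpleModule (MonoidAlgebra F G) ρ.asModule :=
    (irreducible_iff_isSimpleModule_asModule ρ).mp h
  have s2 : IsSimpleModule (MonoidAlgebra F G) ρ'.asModule :=
    (irreducible_iff_isSimpleModule_asModule ρ').mp h'
  have hne : IsEmpty (ρ.asModule ≃ₗ[MonoidAlgebra F G] ρ'.asModule) := by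
    refine ⟨fun e => hcon ?_⟩
    let f : IntertwiningMap ρ ρ' := (IntertwiningMap.equivLinearMapAsModule ρ ρ').symm e.toLinearMap
    have hf : Function.Bijective f := e.bijective
    exact ⟨f.ofBijective hf⟩
  have hnt : Nontrivial V := by
    have := IsSimpleModule.nontrivial (MonoidAlgebra F G) ρ.asModule
    exact this
  have hfr : 0 < Module.finrank F V := Module.finrank_pos
  let b := Module.finBasis F V
  let i0 : Fin (Module.finrank F V) := ⟨0, hfr⟩
  let P : V →ₗ[F] V := (b.coord i0).smulRight (b i0)
  have htr : LinearMap.trace F V P = 1 := by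
    rw [LinearMap.trace_smulRight]
    simp
  obtain ⟨r, hr1, hr2⟩ := exists_smul_eq (V := ρ.asModule) (W := ρ'.asModule) F hne
    (show ρ.asModule →ₗ[F] ρ.asModule from P)
  have e1 : ρ.asAlgebraHom r = P := by
    ext v
    have := hr1 (ρ.asModuleEquiv.symm v)
    have h2 := ρ.asModuleEquiv_map_smul r (ρ.asModuleEquiv.symm v)
    rw [this, LinearEquiv.apply_symm_apply] at h2
    exact h2.symm
  have e2 : ρ'.asAlgebraHom r = 0 := by
    ext v
    have := hr2 (ρ'.asModuleEquiv.symm v)
    have h2 := ρ'.asModuleEquiv_map_smul r (ρ'.asModuleEquiv.symm v)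
    rw [this, LinearEquiv.apply_symm_apply, map_zero] at h2
    exact h2.symm
  have := trace_asAlgebraHom_eq ρ ρ' ht r
  rw [e1, e2, htr, map_zero] at this
  exact one_ne_zero this

end Pool.Agent.KFV
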