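import Mathlib
import Pool.Agent.KFV.PDefs
import Pool.Agent.KFV.BLK

open Representation

namespace Pool.Agent.KFV

variable {F : Type*} [Field F] [CharP F 2]

/-! ### The shift -/

section Shift

omit [CharP F 2]

theorem shift_pow (n k : ℕ) (v : Fin n → F) (j : Fin n) :
    (((shift F n : Module.End F (Fin n → F)) ^ k) v) j =
      if h : k ≤ (j : ℕ) then v ⟨j - k, by omega⟩ else 0 := by
  induction k generalizing v j with
  | zero => simp
  | succ k ih =>
    rw [pow_succ, Module.End.mul_apply, ih]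
    by_cases h : k ≤ (j : ℕ)
    · rw [dif_pos h]
      change (shift F n v) ⟨j - k, _⟩ = _
      by_cases h2 : k + 1 ≤ (j : ℕ)
      · rw [dif_pos h2]
        have h3 : ¬ ((j : ℕ) - k = 0) := by omega
        simp only [shift, LinearMap.coe_mk, AddHom.coe_mk, dif_neg h3]
        congr 1
      · rw [dif_neg h2]
        have h3 : ((j : ℕ) - k = 0) := by omega
        simp only [shift, LinearMap.coe_mk, AddHom.coe_mk, dif_pos h3]
    · rw [dif_neg h, dif_neg (by omega)]

theorem shift_nilpotent (n : ℕ) : IsNilpotent (shift F n : Module.End F (Fin n → F)) := by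
  refine ⟨n, ?_⟩
  ext v j
  rw [LinearMap.comp_apply, shift_pow]
  simp [not_le.2 j.2]

end Shift

/-! ### Automorphisms of the Klein four group -/

theorem zmod_two_cases (x : ZMod 2) : x = 0 ∨ x = 1 := by revert x; decide

theorem pair_cases (p q : ZMod 2 × ZMod 2) (h1 : p ≠ 0) (h2 : q ≠ 0) (h3 : p ≠ q) :
    ((p = (1, 0) ∧ q = (0, 1)) ∨ (p = (0, 1) ∧ q = (1, 0)) ∨ (p = (1, 0) ∧ q = (1, 1)) ∨
      (p = (1, 1) ∧ q = (0, 1)) ∨ (p = (0, 1) ∧ q = (1, 1)) ∨ (p = (1, 1) ∧ q = (1, 0))) := by
  obtain ⟨a, b⟩ := p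
  obtain ⟨c, d⟩ := q
  rcases zmod_two_cases a with rfl | rfl <;> rcases zmod_two_cases b with rfl | rfl <;>
    rcases zmod_two_cases c with rfl | rfl <;> rcases zmod_two_cases d with rfl | rfl <;>
    simp_all

theorem aut_cases (φ : K4 ≃* K4) : ∃ p q : ZMod 2 × ZMod 2,
    φ (Multiplicative.ofAdd (1, 0)) = Multiplicative.ofAdd p ∧
    φ (Multiplicative.ofAdd (0, 1)) = Multiplicative.ofAdd q ∧
    ((p = (1, 0) ∧ q = (0, 1)) ∨ (p = (0, 1) ∧ q = (1, 0)) ∨ (p = (1, 0) ∧ q = (1, 1)) ∨
      (p = (1, 1) ∧ q = (0, 1)) ∨ (p = (0, 1) ∧ q = (1, 1)) ∨ (p = (1, 1) ∧ q = (1, 0))) := by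
  refine ⟨Multiplicative.toAdd (φ (Multiplicative.ofAdd (1, 0))),
    Multiplicative.toAdd (φ (Multiplicative.ofAdd (0, 1))), rfl, rfl, ?_⟩
  have h1 : Multiplicative.toAdd (φ (Multiplicative.ofAdd (1, 0))) ≠ (0 : ZMod 2 × ZMod 2) := by
    intro h
    have : φ (Multiplicative.ofAdd ((1, 0) : ZMod 2 × ZMod 2)) = 1 := h
    rw [map_eq_one_iff φ φ.injective] at this
    have h2 : ((1, 0) : ZMod 2 × ZMod 2) = 0 := this
    revert h2; decide
  have h2 : Multiplicative.toAdd (φ (Multiplicative.ofAdd (0, 1))) ≠ (0 : ZMod 2 × ZMod 2) := by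
    intro h
    have : φ (Multiplicative.ofAdd ((0, 1) : ZMod 2 × ZMod 2)) = 1 := h
    rw [map_eq_one_iff φ φ.injective] at this
    have h2 : ((0, 1) : ZMod 2 × ZMod 2) = 0 := this
    revert h2; decide
  have h3 : Multiplicative.toAdd (φ (Multiplicative.ofAdd (1, 0))) ≠
      Multiplicative.toAdd (φ (Multiplicative.ofAdd (0, 1))) := by
    intro h
    have := φ.injective (Multiplicative.toAdd.injective h)
    have h2 : ((1, 0) : ZMod 2 × ZMod 2) = (0, 1) := this
    revert h2; decide
  exact pair_cases _ _ h1 h2 h3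

/-! ### The functional -/

section Functional

variable {U : Type*} [AddCommGroup U] [Module F U]

/-- The component `U → W` of an endomorphism of `U × W`. -/
def corner (θ : (U × U) →ₗ[F] (U × U)) : U →ₗ[F] U :=
  LinearMap.snd F U U ∘ₗ θ ∘ₗ LinearMap.inl F U U

/-- The functional `θ ↦ trace (M ∘ corner θ)`. -/
noncomputable def funT (M : U →ₗ[F] U) (θ : (U × U) →ₗ[F] (U × U)) : F :=
  LinearMap.trace F U (M ∘ₗ corner θ)

omit [CharP F 2] in
theorem funT_add (M : U →ₗ[F] U) (θ θ' : (U × U) →ₗ[F] (U × U)) :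
    funT M (θ + θ') = funT M θ + funT M θ' := by
  unfold funT corner
  rw [← map_add]
  congr 1
  ext u
  simp

omit [CharP F 2] in
theorem funT_smul (M : U →ₗ[F] U) (a : F) (θ : (U × U) →ₗ[F] (U × U)) :
    funT M (a • θ) = a • funT M θ := by
  unfold funT corner
  rw [← map_smul]
  congr 1
  ext u
  simp

omit [CharP F 2] in
theorem funT_id (M : U →ₗ[F] U) : funT M LinearMap.id = 0 := by
  unfold funT corner
  have : M ∘ₗ (LinearMap.snd F U U ∘ₗ LinearMap.id ∘ₗ LinearMap.inl F U U) = 0 := by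
    ext u
    simp
  rw [this, map_zero]

omit [CharP F 2] in
theorem funT_blk (M α β γ : U →ₗ[F] U) : funT M (blk α β γ) = LinearMap.trace F U (M ∘ₗ γ) := by
  unfold funT corner
  congr 1
  ext u
  simp [blk]

theorem mod_add_self {X : Type*} [AddCommGroup X] [Module F X] (x : X) : x + x = 0 := by
  rw [← two_smul F, CharTwo.two_eq_zero, zero_smul]

/-- The trace identity behind the vanishing. -/
theorem trace_identity (M Q R α β δ : Module.End F U) (hMQ : Commute M Q) (hMR : Commute M R)
    (hQR : Commute Q R) (c1 : δ * R = 0) (c2 : β * R = R * α) (c3 : R * δ = 0)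
    (hR : (∃ L, R * L = 1 ∧ L * R = 1) ∨ M = R) :
    LinearMap.trace F U (M * (β * Q + Q * α + Q * (δ * Q))) = 0 := by
  have key : LinearMap.trace F U (M * (β * Q)) = LinearMap.trace F U (M * (Q * α)) ∧
      M * (Q * (δ * Q)) = 0 := by
    rcases hR with ⟨L, hL1, hL2⟩ | rfl
    · have hδ : δ = 0 := by
        calc δ = δ * (R * L) := by rw [hL1, mul_one]
          _ = 0 := by rw [← mul_assoc, c1, zero_mul]
      have hβ : β = R * α * L := by
        calc β = β * (R * L) := by rw [hL1, mul_one]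
          _ = R * α * L := by rw [← mul_assoc, c2]
      constructor
      · have h1 : L * (Q * M) * R = Q * M := by
          rw [mul_assoc, mul_assoc, hMR.eq, ← mul_assoc Q R M, hQR.eq, mul_assoc R Q M, ← mul_assoc,
            hL2, one_mul]
        have e1 : M * (β * Q) = (M * R) * (α * (L * Q)) := by
          rw [hβ]; simp only [mul_assoc]
        rw [e1, LinearMap.trace_mul_comm]
        have e2 : α * (L * Q) * (M * R) = α * (Q * M) := by
          rw [← h1]; simp only [mul_assoc]
        rw [e2, ← LinearMap.trace_mul_comm, ← hMQ.eq, mul_assoc]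
      · rw [hδ]; simp
    · constructor
      · have e1 : LinearMap.trace F U (M * (β * Q)) = LinearMap.trace F U (β * (Q * M)) := by
          rw [LinearMap.trace_mul_comm, mul_assoc]
        have e2 : β * (Q * M) = M * (α * Q) := by
          rw [← hMQ.eq, ← mul_assoc, c2, mul_assoc]
        have e3 : LinearMap.trace F U (M * (Q * α)) = LinearMap.trace F U (Q * (M * α)) := by
          rw [← mul_assoc, hMQ.eq, mul_assoc]
        rw [e1, e2, e3, LinearMap.trace_mul_comm F Q, mul_assoc]
      · calc M * (Q * (δ * Q)) = (M * Q) * (δ * Q) := by rw [mul_assoc]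
          _ = Q * (M * δ) * Q := by rw [hMQ.eq]; simp only [mul_assoc]
          _ = 0 := by rw [c3]; simp
  rw [mul_add, mul_add, key.2, add_zero, map_add, key.1]
  exact CharTwo.add_self_eq_zero _

/-- `funT M` vanishes on the traces if `M` commutes with `Λ` and every nonzero element of the
plane spanned by `1` and `Λ` over the prime field is invertible, or `M = Λ` is singular. -/
theorem funT_trK (M Λ : U →ₗ[F] U) (hM : M ∘ₗ Λ = Λ ∘ₗ M)
    (h1 : ∃ L : U →ₗ[F] U, L ∘ₗ (LinearMap.id + Λ) = LinearMap.id ∧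
      (LinearMap.id + Λ) ∘ₗ L = LinearMap.id)
    (h2 : (∃ L : U →ₗ[F] U, L ∘ₗ Λ = LinearMap.id ∧ Λ ∘ₗ L = LinearMap.id) ∨ M = Λ)
    (θ : (U × U) →ₗ[F] (U × U))
    (hθ : θ ∈ trK (pencilRep LinearMap.id Λ) (pencilRep LinearMap.id Λ)) : funT M θ = 0 := by
  induction hθ using Submodule.span_induction with
  | zero =>
    have := funT_smul M 0 (0 : (U × U) →ₗ[F] (U × U))
    simpa using this
  | add x y _ _ hx hy => rw [funT_add, hx, hy, add_zero]
  | smul a x _ hx => rw [funT_smul, hx, smul_zero]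
  | mem x hx =>
    obtain ⟨r, q, hr, θ, hcomm, rfl⟩ := hx
    set R := pen LinearMap.id Λ r with hR
    set Q := pen LinearMap.id Λ q with hQ
    -- blocks
    set α : U →ₗ[F] U := LinearMap.fst F U U ∘ₗ θ ∘ₗ LinearMap.inl F U U with hα
    set β : U →ₗ[F] U := LinearMap.snd F U U ∘ₗ θ ∘ₗ LinearMap.inr F U U with hβ
    set γ : U →ₗ[F] U := LinearMap.snd F U U ∘ₗ θ ∘ₗ LinearMap.inl F U U with hγ
    set δ : U →ₗ[F] U := LinearMap.fst F U U ∘ₗ θ ∘ₗ LinearMap.inr F U U with hδ
    have hθ : ∀ u w, θ (u, w) = (α u + δ w, γ u + β w) := by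
      intro u w
      have e1 : θ (u, w) = θ (u, 0) + θ (0, w) := by rw [← map_add]; simp
      rw [e1]
      rfl
    have hinv : q⁻¹ = q := by
      have : ∀ k : K4, k⁻¹ = k := fun k => by
        obtain ⟨a, b⟩ : ZMod 2 × ZMod 2 := Multiplicative.toAdd k
        exact IsKleinFour.inv_eq_self k
      exact this q
    have hpr : ∀ (k : K4) (u w : U), pencilRep (LinearMap.id : U →ₗ[F] U) Λ k (u, w) =
        (u, w + pen LinearMap.id Λ k u) := by
      intro k u w
      simp [pencilRep]
    have hc : ∀ u w, θ (u, w + R u) = (α u + δ w, γ u + β w + R (α u + δ w)) := by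
      intro u w
      have e1 := congrArg (fun f => f (u, w)) hcomm
      simp only [LinearMap.comp_apply] at e1
      rw [hpr, hθ u w, hpr] at e1
      exact e1
    have c1 : δ ∘ₗ R = 0 := by
      ext u
      have e1 := hc u 0
      rw [hθ] at e1
      have e2 := congrArg Prod.fst e1
      simp only [zero_add, map_zero, add_zero] at e2
      simpa using e2
    have c2 : β ∘ₗ R = R ∘ₗ α := by
      ext u
      have e1 := hc u 0
      rw [hθ] at e1
      have e2 := congrArg Prod.snd e1
      simp only [zero_add, map_zero, add_zero] at e2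
      simpa using e2
    have c3 : R ∘ₗ δ = 0 := by
      ext w
      have e1 := hc 0 w
      rw [hθ] at e1
      have e2 := congrArg Prod.snd e1
      simp only [zero_add, map_zero, add_zero] at e2
      simpa using e2.symm
    have hcor : corner (θ + pencilRep LinearMap.id Λ q ∘ₗ θ ∘ₗ pencilRep LinearMap.id Λ q⁻¹) =
        β ∘ₗ Q + Q ∘ₗ α + Q ∘ₗ δ ∘ₗ Q := by
      ext u
      rw [hinv]
      simp only [corner, LinearMap.comp_apply, LinearMap.add_apply, LinearMap.inl_apply,
        LinearMap.snd_apply]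
      rw [hpr q u 0, zero_add, hθ u 0, hθ u (pen LinearMap.id Λ q u), hpr]
      simp only [Prod.snd_add, map_zero, add_zero, map_add]
      have h0 : γ u + γ u = 0 := mod_add_self (F := F) (γ u)
      calc γ u + (γ u + β (Q u) + (Q (α u) + Q (δ (Q u)))) =
          (γ u + γ u) + (β (Q u) + Q (α u) + Q (δ (Q u))) := by abel
        _ = _ := by rw [h0, zero_add]
    have hpen : ∀ k : K4, ∃ a b : F, pen (LinearMap.id : U →ₗ[F] U) Λ k =
        a • LinearMap.id + b • Λ := fun k => ⟨_, _, rfl⟩
    have hcomM : ∀ k : K4, Commute (M : Module.End F U) (pen LinearMap.id Λ k) := by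
      intro k
      obtain ⟨a, b, hab⟩ := hpen k
      rw [hab]
      have h3 : Commute (M : Module.End F U) Λ := hM
      exact ((Commute.one_right (M : Module.End F U)).smul_right a).add_right (h3.smul_right b)
    have hcomQR : Commute (Q : Module.End F U) R := by
      obtain ⟨a, b, hab⟩ := hpen q
      obtain ⟨a', b', hab'⟩ := hpen r
      rw [hQ, hR, hab, hab']
      have h3 : Commute (a • (1 : Module.End F U) + b • (Λ : Module.End F U)) Λ :=
        ((Commute.one_left (Λ : Module.End F U)).smul_left a).add_left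
          ((Commute.refl (Λ : Module.End F U)).smul_left b)
      exact ((Commute.one_right _).smul_right a').add_right (h3.smul_right b')
    unfold funT
    rw [hcor]
    refine trace_identity M Q R α β δ (hcomM q) (hcomM r) hcomQR c1 c2 c3 ?_
    obtain ⟨L1, hL1, hL1'⟩ := h1
    have hrc : R = LinearMap.id ∨ R = Λ ∨ R = LinearMap.id + Λ := by
      rcases hp : Multiplicative.toAdd r with ⟨a, b⟩
      have hR' : R = ZMod.castHom (dvd_refl 2) F a • LinearMap.id +
          ZMod.castHom (dvd_refl 2) F b • Λ := by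
        rw [hR]; unfold pen; rw [hp]
      rcases zmod_two_cases a with rfl | rfl <;> rcases zmod_two_cases b with rfl | rfl
      · exact absurd (Multiplicative.toAdd.injective hp) hr
      · right; left; rw [hR']; simp
      · left; rw [hR']; simp
      · right; right; rw [hR']; simp
    rcases hrc with h3 | h3 | h3
    · exact Or.inl ⟨1, by rw [h3]; rfl, by rw [h3]; rfl⟩
    · rcases h2 with ⟨L, hL, hL'⟩ | h2
      · exact Or.inl ⟨L, by rw [h3]; exact hL', by rw [h3]; exact hL⟩
      · exact Or.inr (by rw [h2, h3])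
    · exact Or.inl ⟨L1, by rw [h3]; exact hL1', by rw [h3]; exact hL1⟩

end Functional

/-! ### The central element -/

section Central

variable {n : ℕ}

/-- The coordinate functionals. -/
def coo (n i : ℕ) : (Fin n → F) →ₗ[F] F :=
  if h : i < n then LinearMap.proj ⟨i, h⟩ else 0

omit [CharP F 2] in
theorem coo_zero_shift (v : Fin n → F) : coo n 0 (shift F n v) = 0 := by
  unfold coo
  split_ifs with h
  · simp [shift]
  · rfl

omit [CharP F 2] in
theorem coo_one_shift (hn : 2 ≤ n) (v : Fin n → F) : coo n 1 (shift F n v) = coo n 0 v := by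
  unfold coo
  rw [dif_pos (by omega), dif_pos (by omega)]
  simp [shift]

/-- The vector shifted back. -/
def tail' (n : ℕ) (v : Fin n → F) : Fin n → F := fun j =>
  if h : (j : ℕ) + 1 < n then v ⟨j + 1, h⟩ else 0

/-- The first basis vector. -/
def e0 (F : Type*) [Field F] (n : ℕ) : Fin n → F := fun j => if (j : ℕ) = 0 then 1 else 0

omit [CharP F 2] in
theorem eq_e0_add (v : Fin n → F) : v = coo n 0 v • e0 F n + shift F n (tail' n v) := by
  ext j
  have hn : 0 < n := by have := j.2; omega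
  unfold coo
  rw [dif_pos hn]
  by_cases h : (j : ℕ) = 0
  · have hj : j = ⟨0, hn⟩ := Fin.ext h
    subst hj
    simp [shift, e0]
  · simp only [shift, e0, tail', Pi.add_apply, Pi.smul_apply, LinearMap.coe_mk, AddHom.coe_mk,
      dif_neg h, if_neg h, smul_zero, zero_add, LinearMap.proj_apply]
    have h2 : (j : ℕ) - 1 + 1 < n := by have := j.2; omega
    rw [dif_pos h2]
    congr 1
    ext
    simp only
    omega

omit [CharP F 2] in
theorem coo_zero_tail (hn : 2 ≤ n) (v : Fin n → F) : coo n 0 (tail' n v) = coo n 1 v := by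
  unfold coo tail'
  rw [dif_pos (by omega), dif_pos (by omega)]
  simp only [LinearMap.proj_apply]
  rw [dif_pos (by omega)]

omit [CharP F 2] in
theorem coo_zero_e0 (hn : 1 ≤ n) : coo n 0 (e0 F n) = 1 := by
  unfold coo
  rw [dif_pos (by omega)]
  simp [e0]

omit [CharP F 2] in
theorem coo_one_e0 : coo n 1 (e0 F n) = 0 := by
  unfold coo
  split_ifs with h
  · simp [e0]
  · rfl

/-- The submodule computation: `e0 ⊗ (ε₀ + ε₁)` commutes with `α, β` modulo the traces. -/
theorem central_mem (hn : 2 ≤ n) (s12 x0 y : F) (S : Submodule F ((Fin n → F) →ₗ[F] (Fin n → F)))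
    (hxy : x0 * y = 1) (hx3 : x0 ^ 3 = 1)
    (hS : ∀ b : (Fin n → F) →ₗ[F] (Fin n → F),
      y • (shift F n ∘ₗ b) + (x0 • b + s12 • (shift F n ∘ₗ b)) ∘ₗ shift F n ∈ S)
    (hκ : 1 + x0 + x0 ^ 2 * s12 = 0 ∨
      (∀ b : (Fin n → F) →ₗ[F] (Fin n → F), b ∘ₗ shift F n = 0 → b ∈ S))
    (α β : (Fin n → F) →ₗ[F] (Fin n → F))
    (hβ : β = x0 • α + s12 • (shift F n ∘ₗ α))
    (hα : β ∘ₗ shift F n = y • (shift F n ∘ₗ α)) :
    ((coo n 0 + coo n 1).smulRight (e0 F n)) ∘ₗ α -
      β ∘ₗ ((coo n 0 + coo n 1).smulRight (e0 F n)) ∈ S := by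
  have hx0 : x0 ≠ 0 := fun h => by rw [h] at hxy; simp at hxy
  have hy : y = x0 ^ 2 := by
    apply mul_left_cancel₀ hx0
    rw [hxy, ← hx3]
    ring
  set N := shift F n with hN
  set a0 := coo n 0 (α (e0 F n)) with ha0
  set a1 := coo n 1 (α (e0 F n)) with ha1
  have hβv : ∀ v, β v = x0 • α v + s12 • N (α v) := by intro v; rw [hβ]; rfl
  have hαv : ∀ v, β (N v) = y • N (α v) := fun v => congrArg (fun f => f v) hα
  have b0 : ∀ v, coo n 0 (β v) = x0 * coo n 0 (α v) := by
    intro v
    rw [hβv, map_add, map_smul, map_smul, coo_zero_shift]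
    simp
  have b1 : ∀ v, coo n 1 (β v) = x0 * coo n 1 (α v) + s12 * coo n 0 (α v) := by
    intro v
    rw [hβv, map_add, map_smul, map_smul, coo_one_shift hn]
    simp
  have c0 : ∀ v, coo n 0 (α (N v)) = 0 := by
    intro v
    have h1 := b0 (N v)
    rw [hαv, map_smul, coo_zero_shift, smul_zero] at h1
    rcases mul_eq_zero.1 h1.symm with h | h
    · exact absurd h hx0
    · exact h
  have c1 : ∀ v, coo n 1 (α (N v)) = x0 * coo n 0 (α v) := by
    intro v
    have h1 := b1 (N v)
    rw [hαv, map_smul, coo_one_shift hn, c0, mul_zero, add_zero, smul_eq_mul] at h1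
    apply mul_left_cancel₀ hx0
    rw [← h1, hy]
    ring
  have d0 : ∀ v, coo n 0 (α v) = a0 * coo n 0 v := by
    intro v
    conv_lhs => rw [eq_e0_add v]
    rw [map_add, map_add, map_smul, map_smul, c0, add_zero, smul_eq_mul, mul_comm]
  have d1 : ∀ v, coo n 1 (α v) = a1 * coo n 0 v + x0 * a0 * coo n 1 v := by
    intro v
    conv_lhs => rw [eq_e0_add v]
    rw [map_add, map_add, map_smul, map_smul, c1, d0, coo_zero_tail hn, smul_eq_mul]
    ring
  set z := β (e0 F n) with hz
  have z0 : coo n 0 z = x0 * a0 := b0 _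
  have z1 : coo n 1 z = x0 * a1 + s12 * a0 := b1 _
  set z' := tail' n z with hz'
  set z'' := tail' n z' with hz''
  have hz1 : z = coo n 0 z • e0 F n + N z' := eq_e0_add z
  have hz2 : z' = coo n 1 z • e0 F n + N z'' := by
    rw [← coo_zero_tail hn z]
    exact eq_e0_add z'
  -- elements of S
  have S1 : ∀ w, (coo n 0).smulRight (N w) ∈ S := by
    intro w
    have h1 := hS ((coo n 0).smulRight w)
    have h2 : y • (N ∘ₗ (coo n 0).smulRight w) + (x0 • (coo n 0).smulRight w +
        s12 • (N ∘ₗ (coo n 0).smulRight w)) ∘ₗ N = y • (coo n 0).smulRight (N w) := by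
      refine LinearMap.ext fun v => ?_
      simp only [LinearMap.add_apply, LinearMap.smul_apply, LinearMap.comp_apply,
        LinearMap.smulRight_apply, coo_zero_shift, zero_smul, smul_zero, map_zero, add_zero,
        map_smul, hN]
    rw [h2] at h1
    have h3 := S.smul_mem x0 h1
    rwa [smul_smul, hxy, one_smul] at h3
  have S2 : ∀ w, (coo n 1).smulRight (N w) + (x0 ^ 2) • (coo n 0).smulRight w ∈ S := by
    intro w
    have h1 := hS ((coo n 1).smulRight w)
    have h3 := S.sub_mem (S.smul_mem x0 h1) (S.smul_mem (x0 * s12) (S1 w))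
    have h2 : x0 • (y • (N ∘ₗ (coo n 1).smulRight w) + (x0 • (coo n 1).smulRight w +
        s12 • (N ∘ₗ (coo n 1).smulRight w)) ∘ₗ N) - (x0 * s12) • (coo n 0).smulRight (N w) =
        (coo n 1).smulRight (N w) + (x0 ^ 2) • (coo n 0).smulRight w := by
      refine LinearMap.ext fun v => ?_
      simp only [LinearMap.add_apply, LinearMap.smul_apply, LinearMap.comp_apply,
        LinearMap.smulRight_apply, coo_one_shift hn, map_smul, LinearMap.sub_apply, hN]
      have h4 : x0 • y • (coo n 1 v) • (shift F n) w = (coo n 1 v) • (shift F n) w := by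
        rw [smul_smul, hxy, one_smul]
      rw [smul_add, h4]
      module
    rwa [h2] at h3
  -- the decomposition
  have hcoef : a0 + a1 - x0 * a0 + x0 ^ 2 * (x0 * a1 + s12 * a0) = a0 * (1 + x0 + x0 ^ 2 * s12) := by
    have h2 : (2 : F) = 0 := CharTwo.two_eq_zero
    linear_combination (a1) * hx3 + (a1 - x0 * a0) * h2
  have hD : ((coo n 0 + coo n 1).smulRight (e0 F n)) ∘ₗ α -
      β ∘ₗ ((coo n 0 + coo n 1).smulRight (e0 F n)) =
      (a0 * (1 + x0 + x0 ^ 2 * s12)) • (coo n 0).smulRight (e0 F n) -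
        (coo n 0).smulRight (N z') -
        ((coo n 1).smulRight (N z') + (x0 ^ 2) • (coo n 0).smulRight z') +
        (x0 ^ 2) • (coo n 0).smulRight (N z'') := by
    rw [← hcoef]
    refine LinearMap.ext fun v => ?_
    have e1 : β (e0 F n) = (x0 * a0) • e0 F n + N z' := by
      rw [← z0]; exact hz1
    have e2 : (coo n 0 v) • z' = (coo n 0 v) • ((x0 * a1 + s12 * a0) • e0 F n + N z'') := by
      rw [← z1]; exact congrArg _ hz2
    simp only [LinearMap.add_apply, LinearMap.smul_apply, LinearMap.comp_apply,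
      LinearMap.smulRight_apply, map_smul, LinearMap.sub_apply, d0, d1]
    rw [e1, e2]
    module
  rw [hD]
  refine S.add_mem (S.sub_mem (S.sub_mem ?_ (S1 _)) (S2 _)) (S.smul_mem _ (S1 _))
  rcases hκ with h | h
  · rw [h, mul_zero, zero_smul]; exact S.zero_mem
  · apply S.smul_mem
    apply h
    refine LinearMap.ext fun v => ?_
    simp only [LinearMap.comp_apply, LinearMap.smulRight_apply, coo_zero_shift, zero_smul,
      LinearMap.zero_apply, hN]


omit [CharP F 2] in
theorem blk_zero_comp {U : Type*} [AddCommGroup U] [Module F U] (α β γ υ : U →ₗ[F] U) :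
    blk 0 0 υ ∘ₗ blk α β γ - blk α β γ ∘ₗ blk 0 0 υ = blk 0 0 (υ ∘ₗ α - β ∘ₗ υ) := by
  refine LinearMap.ext fun x => ?_
  simp [blk]

/-- The linear map `γ ↦ blk 0 0 γ`. -/
def blkL (F U : Type*) [Field F] [AddCommGroup U] [Module F U] :
    (U →ₗ[F] U) →ₗ[F] ((U × U) →ₗ[F] (U × U)) where
  toFun γ := blk 0 0 γ
  map_add' := by
    intro γ γ'
    refine LinearMap.ext fun x => ?_
    simp [blk]
  map_smul' := by
    intro c γ
    refine LinearMap.ext fun x => ?_
    simp [blk]

/-- The commutation if the parameter is moved. -/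
theorem comm_of_ne {U : Type*} [AddCommGroup U] [Module F U] (N : U →ₗ[F] U)
    (hN : IsNilpotent (N : Module.End F U)) (c s11 s12 s21 s22 : F)
    (h0 : s21 + s22 * c + s11 * c + s12 * c ^ 2 ≠ 0) (υ : U →ₗ[F] U)
    (θ : (U × U) →ₗ[F] (U × U))
    (hθ : Eqv (pencilRep LinearMap.id (c • LinearMap.id + N))
      (pencilRep (s11 • LinearMap.id + s12 • (c • LinearMap.id + N))
        (s21 • LinearMap.id + s22 • (c • LinearMap.id + N))) θ) :
    blk 0 0 υ ∘ₗ θ - θ ∘ₗ blk 0 0 υ ∈ trI (pencilRep LinearMap.id (c • LinearMap.id + N))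
      (pencilRep (s11 • LinearMap.id + s12 • (c • LinearMap.id + N))
        (s21 • LinearMap.id + s22 • (c • LinearMap.id + N))) := by
  obtain ⟨α, β, γ, rfl, hX, hY⟩ := exists_blk_of_eqv _ _ _ _ Function.surjective_id θ hθ
  apply eqv_mem_trI N hN c s11 s12 s21 s22 h0
  rw [blk_zero_comp]
  exact eqv_blk _ _ _ _ _ _ _ (by simp) (by simp)

/-- The commutation if the parameter is fixed. -/
theorem comm_of_eq (hn : 2 ≤ n) (c s11 s12 s21 s22 : F)
    (h0 : s21 + s22 * c + s11 * c + s12 * c ^ 2 = 0)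
    (h1 : (s11 + s12 * c) * (s22 + c * s12) = 1) (h3 : (s11 + s12 * c) ^ 3 = 1)
    (hκ : 1 + (s11 + s12 * c) + (s11 + s12 * c) ^ 2 * s12 = 0 ∨ c = 0)
    (θ : ((Fin n → F) × (Fin n → F)) →ₗ[F] ((Fin n → F) × (Fin n → F)))
    (hθ : Eqv (pencilRep LinearMap.id (c • LinearMap.id + shift F n))
      (pencilRep (s11 • LinearMap.id + s12 • (c • LinearMap.id + shift F n))
        (s21 • LinearMap.id + s22 • (c • LinearMap.id + shift F n))) θ) :
    blk 0 0 ((coo n 0 + coo n 1).smulRight (e0 F n)) ∘ₗ θ -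
      θ ∘ₗ blk 0 0 ((coo n 0 + coo n 1).smulRight (e0 F n)) ∈
      trI (pencilRep LinearMap.id (c • LinearMap.id + shift F n))
      (pencilRep (s11 • LinearMap.id + s12 • (c • LinearMap.id + shift F n))
        (s21 • LinearMap.id + s22 • (c • LinearMap.id + shift F n))) := by
  obtain ⟨α, β, γ, rfl, hX, hY⟩ := exists_blk_of_eqv _ _ _ _ Function.surjective_id θ hθ
  rw [blk_zero_comp]
  have h2 : (2 : F) = 0 := CharTwo.two_eq_zero
  have hβv : ∀ v, β v = (s11 + s12 * c) • α v + s12 • shift F n (α v) := by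
    intro v
    have e1 := LinearMap.congr_fun hX v
    simp only [LinearMap.comp_apply, LinearMap.id_apply, LinearMap.add_apply,
      LinearMap.smul_apply] at e1
    rw [e1]
    module
  have hs21 : s21 = (s22 + s11 + s12 * c) * c := by linear_combination h0 - c * (s22 + s11 + s12 * c) * h2
  refine (Submodule.mem_comap (f := blkL F (Fin n → F))).1 ?_
  refine central_mem hn s12 (s11 + s12 * c) (s22 + c * s12) _ h1 h3 ?_ ?_ α β ?_ ?_
  · intro b
    rw [Submodule.mem_comap]
    have e1 := tr_a_mem (LinearMap.id : (Fin n → F) →ₗ[F] (Fin n → F))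
      (c • LinearMap.id + shift F n)
      (s11 • LinearMap.id + s12 • (c • LinearMap.id + shift F n))
      (s21 • LinearMap.id + s22 • (c • LinearMap.id + shift F n)) b
      ((s11 • LinearMap.id + s12 • (c • LinearMap.id + shift F n)) ∘ₗ b) rfl
    convert e1 using 1
    change blk 0 0 _ = _
    congr 1
    refine LinearMap.ext fun v => ?_
    simp only [LinearMap.comp_apply, LinearMap.id_apply, LinearMap.add_apply,
      LinearMap.smul_apply, map_add, map_smul, hs21]
    have e3 : (2 : F) • ((s22 + s11 + s12 * c) * c) • b v = 0 := by rw [h2, zero_smul]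
    linear_combination (norm := module) -e3
  · rcases hκ with h | h
    · exact Or.inl h
    · right
      intro b hb
      rw [Submodule.mem_comap]
      have e1 := tr_b_mem (LinearMap.id : (Fin n → F) →ₗ[F] (Fin n → F))
        (c • LinearMap.id + shift F n)
        (s11 • LinearMap.id + s12 • (c • LinearMap.id + shift F n))
        (s21 • LinearMap.id + s22 • (c • LinearMap.id + shift F n)) 0 b (by
          rw [h, LinearMap.comp_add, hb]; simp)
      convert e1 using 1
      change blk 0 0 _ = _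
      congr 1
      simp
  · refine LinearMap.ext fun v => ?_
    rw [hβv]; rfl
  · refine LinearMap.ext fun v => ?_
    have e1 := LinearMap.congr_fun hY v
    simp only [LinearMap.comp_apply, LinearMap.id_apply, LinearMap.add_apply,
      LinearMap.smul_apply, map_add, map_smul] at e1
    simp only [LinearMap.comp_apply, LinearMap.smul_apply]
    rw [hβv v] at e1
    rw [hs21] at e1
    have e3 : (2 : F) • (c * s12) • shift F n (α v) = 0 := by rw [h2, zero_smul]
    have e4 : (2 : F) • (s22 * c) • α v = 0 := by rw [h2, zero_smul]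
    linear_combination (norm := module) e1 - e3 + e4


/-- The central element. -/
theorem central_u (hn : 2 ≤ n) (c : F) (hc : c ≠ 1) :
    Central (pencilRep (LinearMap.id : (Fin n → F) →ₗ[F] (Fin n → F)) (c • LinearMap.id + shift F n))
      (blk 0 0 ((coo n 0 + coo n 1).smulRight (e0 F n))) := by
  intro φ θ hθ
  have h2 : (2 : F) = 0 := CharTwo.two_eq_zero
  have hN : IsNilpotent (shift F n : Module.End F (Fin n → F)) := shift_nilpotent n
  rw [pencilRep_comp] at hθ ⊢
  obtain ⟨p, q, hp, hq, hpq⟩ := aut_cases φ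
  rw [hp, hq] at hθ ⊢
  have key : ∀ s11 s12 s21 s22 : F,
      pen (LinearMap.id : (Fin n → F) →ₗ[F] (Fin n → F)) (c • LinearMap.id + shift F n)
        (Multiplicative.ofAdd p) = s11 • LinearMap.id + s12 • (c • LinearMap.id + shift F n) →
      pen (LinearMap.id : (Fin n → F) →ₗ[F] (Fin n → F)) (c • LinearMap.id + shift F n)
        (Multiplicative.ofAdd q) = s21 • LinearMap.id + s22 • (c • LinearMap.id + shift F n) →
      (s21 + s22 * c + s11 * c + s12 * c ^ 2 = 0 →
        (s11 + s12 * c) * (s22 + c * s12) = 1 ∧ (s11 + s12 * c) ^ 3 = 1 ∧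
        (1 + (s11 + s12 * c) + (s11 + s12 * c) ^ 2 * s12 = 0 ∨ c = 0)) →
      blk 0 0 ((coo n 0 + coo n 1).smulRight (e0 F n)) ∘ₗ θ -
        θ ∘ₗ blk 0 0 ((coo n 0 + coo n 1).smulRight (e0 F n)) ∈
      trI (pencilRep LinearMap.id (c • LinearMap.id + shift F n))
        (pencilRep (pen LinearMap.id (c • LinearMap.id + shift F n) (Multiplicative.ofAdd p))
          (pen LinearMap.id (c • LinearMap.id + shift F n) (Multiplicative.ofAdd q))) := by
    intro s11 s12 s21 s22 e1 e2 e3
    rw [e1, e2] at hθ ⊢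
    by_cases h0 : s21 + s22 * c + s11 * c + s12 * c ^ 2 = 0
    · obtain ⟨h3, h4, h5⟩ := e3 h0
      exact comm_of_eq hn c s11 s12 s21 s22 h0 h3 h4 h5 θ hθ
    · exact comm_of_ne (shift F n) hN c s11 s12 s21 s22 h0 _ θ hθ
  have ca : (ZMod.castHom (dvd_refl 2) F) 0 = 0 := map_zero _
  have cb : (ZMod.castHom (dvd_refl 2) F) 1 = 1 := map_one _
  rcases hpq with ⟨rfl, rfl⟩ | ⟨rfl, rfl⟩ | ⟨rfl, rfl⟩ | ⟨rfl, rfl⟩ | ⟨rfl, rfl⟩ | ⟨rfl, rfl⟩
  · refine key 1 0 0 1 (by simp [pen]) (by simp [pen]) (fun _ => ⟨by ring, by ring, ?_⟩)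
    left
    linear_combination h2
  · refine key 0 1 1 0 (by simp [pen]) (by simp [pen]) (fun h => ?_)
    exfalso
    apply hc
    have h3 : (c - 1) ^ 2 = 0 := by linear_combination h - c * h2
    exact sub_eq_zero.1 (pow_eq_zero_iff (two_ne_zero) |>.1 h3)
  · refine key 1 0 1 1 (by simp [pen]) (by simp [pen]) (fun h => ?_)
    exfalso
    have h3 : (1 : F) = 0 := by linear_combination h - c * h2
    exact one_ne_zero h3
  · refine key 1 1 0 1 (by simp [pen]) (by simp [pen]) (fun h => ?_)
    have h3 : c ^ 2 = 0 := by linear_combination h - c * h2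
    have h4 : c = 0 := pow_eq_zero_iff (two_ne_zero) |>.1 h3
    subst h4
    exact ⟨by ring, by ring, Or.inr rfl⟩
  · refine key 0 1 1 1 (by simp [pen]) (by simp [pen]) (fun h => ?_)
    have h3 : c ^ 2 + c + 1 = 0 := by linear_combination h
    exact ⟨by linear_combination h3 - h2, by linear_combination (c - 1) * h3, Or.inl (by
      linear_combination h3)⟩
  · refine key 1 1 1 0 (by simp [pen]) (by simp [pen]) (fun h => ?_)
    have h3 : c ^ 2 + c + 1 = 0 := by linear_combination h
    refine ⟨by linear_combination h3 - h2, ?_, Or.inl (by linear_combination h3 + (c+1) * h2)⟩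
    linear_combination (c + 2) * h3 - h2


/-! ### The computation -/

omit [CharP F 2] in
theorem isUnit_smul_add {U : Type*} [AddCommGroup U] [Module F U] (N : Module.End F U)
    (hN : IsNilpotent N) (a : F) (ha : a ≠ 0) :
    ∃ L : U →ₗ[F] U, L ∘ₗ (a • LinearMap.id + N) = LinearMap.id ∧
      (a • LinearMap.id + N) ∘ₗ L = LinearMap.id := by
  have h1 : IsUnit (a • (1 : Module.End F U)) := by
    refine ⟨⟨a • 1, a⁻¹ • 1, ?_, ?_⟩, rfl⟩
    · rw [smul_mul_smul_comm, mul_one, mul_inv_cancel₀ ha, one_smul]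
    · rw [smul_mul_smul_comm, mul_one, inv_mul_cancel₀ ha, one_smul]
  have h2 : IsUnit (a • (1 : Module.End F U) + N) :=
    IsNilpotent.isUnit_add_left_of_commute hN h1 ((Commute.one_right N).smul_right a)
  obtain ⟨v, hv⟩ := h2
  refine ⟨(↑v⁻¹ : Module.End F U), ?_, ?_⟩
  · have h3 := v.inv_mul
    rw [hv] at h3
    exact h3
  · have h3 := v.mul_inv
    rw [hv] at h3
    exact h3

theorem eqv_u (Λ υ : (Fin n → F) →ₗ[F] (Fin n → F)) :
    Eqv (pencilRep LinearMap.id Λ) (pencilRep LinearMap.id Λ) (blk 0 0 υ) :=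
  eqv_blk _ _ _ _ _ _ _ (by simp) (by simp)

theorem trI_eq_trK' {V W : Type*} [AddCommGroup V] [Module F V] [AddCommGroup W] [Module F W]
    (σ : Representation F K4 V) (τ : Representation F K4 W) : trI σ τ = trK σ τ := by
  exact trI_eq_trK σ τ

end Central

variable {n : ℕ}


omit [CharP F 2] in
theorem blk_sub_smul_id (υ : (Fin n → F) →ₗ[F] (Fin n → F)) (M : (Fin n → F) →ₗ[F] (Fin n → F)) (d : F)
    (h : funT M (blk 0 0 υ - d • LinearMap.id) = 0) : LinearMap.trace F _ (M ∘ₗ υ) = 0 := by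
  have h1 : blk 0 0 υ - d • LinearMap.id = blk 0 0 υ + (-d) • LinearMap.id := by
    module
  rw [h1, funT_add, funT_smul, funT_id, smul_zero, add_zero, funT_blk] at h
  exact h

/-- Invertibility of `1 + Λ`. -/
theorem one_add_inv (c : F) (hc : c ≠ 1) :
    ∃ L : (Fin n → F) →ₗ[F] (Fin n → F),
      L ∘ₗ (LinearMap.id + (c • LinearMap.id + shift F n)) = LinearMap.id ∧
      (LinearMap.id + (c • LinearMap.id + shift F n)) ∘ₗ L = LinearMap.id := by
  have h1 : (1 : F) + c ≠ 0 := by
    intro h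
    apply hc
    have h2 : (2 : F) = 0 := CharTwo.two_eq_zero
    linear_combination h - h2
  obtain ⟨L, hL⟩ := isUnit_smul_add (shift F n) (shift_nilpotent n) (1 + c) h1
  refine ⟨L, ?_⟩
  have h3 : (LinearMap.id + (c • LinearMap.id + shift F n) : (Fin n → F) →ₗ[F] (Fin n → F)) =
      (1 + c) • LinearMap.id + shift F n := by
    module
  rw [h3]
  exact hL

/-- The case `n ≥ 2`. -/
theorem not_locCond_of_two_le (hn : 2 ≤ n) (c : F) (hc : c ≠ 1)
    (h : LocCond (pencilRep (LinearMap.id : (Fin n → F) →ₗ[F] (Fin n → F))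
      (c • LinearMap.id + shift F n))) : False := by
  obtain ⟨d, hd⟩ := h.scalar _ (eqv_u _ _) (central_u hn c hc)
  rw [trI_eq_trK'] at hd
  have h1 := funT_trK (shift F n) (c • LinearMap.id + shift F n) (by
    rw [LinearMap.comp_add, LinearMap.add_comp, LinearMap.comp_smul, LinearMap.smul_comp]; rfl)
    (one_add_inv c hc) (by
      by_cases h0 : c = 0
      · right; rw [h0, zero_smul, zero_add]
      · left; exact isUnit_smul_add (shift F n) (shift_nilpotent n) c h0) _ hd
  have h2 := blk_sub_smul_id _ _ d h1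
  have h3 : shift F n ∘ₗ (coo n 0 + coo n 1).smulRight (e0 F n) =
      (coo n 0 + coo n 1).smulRight (shift F n (e0 F n)) := by
    refine LinearMap.ext fun v => ?_
    simp
  rw [h3, LinearMap.trace_smulRight, LinearMap.add_apply, coo_zero_shift, coo_one_shift hn,
    coo_zero_e0 (by omega), zero_add] at h2
  exact one_ne_zero h2


omit [CharP F 2] in
theorem shift_one : shift F 1 = 0 := by
  refine LinearMap.ext fun v => ?_
  ext j
  have : (j : ℕ) = 0 := by omega
  simp [shift]

/-- The case `n = 1`, `c = 0`: the identity is a relative trace. -/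
theorem id_mem_of_zero {U : Type*} [AddCommGroup U] [Module F U] :
    (LinearMap.id : (U × U) →ₗ[F] (U × U)) ∈
      trK (pencilRep (LinearMap.id : U →ₗ[F] U) 0) (pencilRep LinearMap.id 0) := by
  refine Submodule.subset_span ⟨Multiplicative.ofAdd (0, 1), Multiplicative.ofAdd (1, 0), by decide,
    LinearMap.inl F U U ∘ₗ LinearMap.snd F U U + LinearMap.inr F U U ∘ₗ LinearMap.snd F U U, ?_, ?_⟩
  · refine LinearMap.ext fun x => ?_
    simp [pencilRep_apply, pen]
  · rw [K4_inv]
    refine LinearMap.ext fun x => ?_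
    obtain ⟨u, w⟩ := x
    have h1 : w + (w + u) = u := by
      rw [← add_assoc, mod_add_self (F := F) w, zero_add]
    have h2 : w + (w + u + (w + u)) = w := by
      rw [mod_add_self (F := F) (w + u), add_zero]
    simp [pencilRep_apply, pen, h1, h2]

/-- The case `n = 1`, `c ≠ 0`. -/
theorem central_one (c : F) (hc : c ≠ 1) (h0 : c ≠ 0) (h3 : c ^ 2 + c + 1 ≠ 0)
    {U : Type*} [AddCommGroup U] [Module F U] :
    Central (pencilRep (LinearMap.id : U →ₗ[F] U) (c • LinearMap.id)) (blk 0 0 LinearMap.id) := by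
  intro φ θ hθ
  have h2 : (2 : F) = 0 := CharTwo.two_eq_zero
  rw [pencilRep_comp] at hθ ⊢
  obtain ⟨p, q, hp, hq, hpq⟩ := aut_cases φ
  rw [hp, hq] at hθ ⊢
  have key : ∀ s11 s12 s21 s22 : F,
      pen (LinearMap.id : U →ₗ[F] U) (c • LinearMap.id)
        (Multiplicative.ofAdd p) = s11 • LinearMap.id + s12 • (c • LinearMap.id + 0) →
      pen (LinearMap.id : U →ₗ[F] U) (c • LinearMap.id)
        (Multiplicative.ofAdd q) = s21 • LinearMap.id + s22 • (c • LinearMap.id + 0) →
      s21 + s22 * c + s11 * c + s12 * c ^ 2 ≠ 0 →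
      blk 0 0 LinearMap.id ∘ₗ θ - θ ∘ₗ blk 0 0 LinearMap.id ∈
      trI (pencilRep LinearMap.id (c • LinearMap.id))
        (pencilRep (pen LinearMap.id (c • LinearMap.id) (Multiplicative.ofAdd p))
          (pen LinearMap.id (c • LinearMap.id) (Multiplicative.ofAdd q))) := by
    intro s11 s12 s21 s22 e1 e2 e3
    rw [e1, e2] at hθ ⊢
    have e4 : c • LinearMap.id = c • LinearMap.id + (0 : U →ₗ[F] U) := by rw [add_zero]
    have e5 := comm_of_ne (0 : U →ₗ[F] U) IsNilpotent.zero c s11 s12 s21 s22 e3 LinearMap.id θ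
      (by rw [← e4]; rwa [← e4] at hθ)
    rw [← e4] at e5 ⊢
    exact e5
  rcases hpq with ⟨rfl, rfl⟩ | ⟨rfl, rfl⟩ | ⟨rfl, rfl⟩ | ⟨rfl, rfl⟩ | ⟨rfl, rfl⟩ | ⟨rfl, rfl⟩
  · obtain ⟨α, β, γ, rfl, hX, hY⟩ := exists_blk_of_eqv _ _ _ _ Function.surjective_id θ hθ
    rw [blk_zero_comp]
    have h4 : β = α := by
      have h5 := hX
      simp [pen] at h5
      exact h5
    have h6 : blk 0 0 (LinearMap.id ∘ₗ α - β ∘ₗ LinearMap.id) = (0 : (U × U) →ₗ[F] (U × U)) := by
      rw [h4]
      refine LinearMap.ext fun x => ?_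
      simp [blk]
    rw [h6]
    exact Submodule.zero_mem _
  · refine key 0 1 1 0 (by simp [pen]) (by simp [pen]) (fun h => ?_)
    apply hc
    have h3 : (c - 1) ^ 2 = 0 := by linear_combination h - c * h2
    exact sub_eq_zero.1 (pow_eq_zero_iff (two_ne_zero) |>.1 h3)
  · refine key 1 0 1 1 (by simp [pen]) (by simp [pen]) (fun h => ?_)
    have h3 : (1 : F) = 0 := by linear_combination h - c * h2
    exact one_ne_zero h3
  · refine key 1 1 0 1 (by simp [pen]) (by simp [pen]) (fun h => ?_)
    have h3 : c ^ 2 = 0 := by linear_combination h - c * h2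
    exact h0 (pow_eq_zero_iff (two_ne_zero) |>.1 h3)
  · refine key 0 1 1 1 (by simp [pen]) (by simp [pen]) (fun h => h3 ?_)
    linear_combination h
  · refine key 1 1 1 0 (by simp [pen]) (by simp [pen]) (fun h => h3 ?_)
    linear_combination h

/-- The only regular indecomposable representation which satisfies the local condition is the
two-dimensional one with parameter a primitive cube root of unity. -/
theorem locCond_regular (n : ℕ) (c : F) (hc : c ≠ 1)
    (h : LocCond (pencilRep (LinearMap.id : (Fin n → F) →ₗ[F] (Fin n → F))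
      (c • LinearMap.id + shift F n))) : n = 1 ∧ c ^ 2 + c + 1 = 0 := by
  by_cases hn : 2 ≤ n
  · exact (not_locCond_of_two_le hn c hc h).elim
  have hn' : n = 0 ∨ n = 1 := by omega
  rcases hn' with rfl | rfl
  · exfalso
    have h1 := h.indec.1
    exact not_subsingleton _ (inferInstance : Subsingleton ((Fin 0 → F) × (Fin 0 → F)))
  refine ⟨rfl, ?_⟩
  rw [shift_one, add_zero] at h
  by_contra h3
  by_cases h0 : c = 0
  · apply h.not_mem
    rw [h0, zero_smul, trI_eq_trK']
    exact id_mem_of_zero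
  obtain ⟨d, hd⟩ := h.scalar _ (eqv_u _ LinearMap.id) (central_one c hc h0 h3)
  rw [trI_eq_trK'] at hd
  have h1 := funT_trK LinearMap.id (c • LinearMap.id) rfl (by
    have := one_add_inv (n := 1) c hc
    rwa [shift_one, add_zero] at this) (by
      left
      have := isUnit_smul_add (0 : (Fin 1 → F) →ₗ[F] (Fin 1 → F)) IsNilpotent.zero c h0
      rwa [add_zero] at this) _ hd
  have h2 := blk_sub_smul_id _ _ d h1
  rw [LinearMap.id_comp, LinearMap.trace_id] at h2
  simp at h2

end Pool.Agent.KFV
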