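import Mathlib
import Pool.Agent.KFV.Defs
import Pool.Agent.KFV.HIG
import Pool.Agent.KFV.TRA
import Pool.Agent.KFV.ORB
import Pool.Agent.KFV.FIT
import Pool.Agent.KFV.MAI
import Pool.Agent.KFV.UNI

open Representation

namespace Pool.Agent.KFV

variable {F : Type*} [Field F]
variable {G V W V' W' : Type*} [Group G] [AddCommGroup V] [Module F V] [AddCommGroup W]
  [Module F W] [AddCommGroup V'] [Module F V'] [AddCommGroup W'] [Module F W']

/-- `dual_source` of `UNI` with two different representations: the same proof, with `α₀`, `β₀`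
belonging to `(ρ', σ')`. -/
theorem dual_source_gen [IsAlgClosed F] [FiniteDimensional F V] [FiniteDimensional F W]
    [FiniteDimensional F W'] [Finite G]
    (ρ : Representation F G V) (hρ : ρ.IsIrreducible) (Q : Subgroup G)
    (σ : Representation F Q W) (h : IsVertexSource ρ Q σ)
    (ρ' : Representation F G V') (σ' : Representation F Q W')
    (h' : IsSummand ρ' (ind Q.subtype σ')) (hd : Module.finrank F W' = Module.finrank F W)
    (φ : G ≃* G) (e : ρ.dual.Equiv (ρ'.comp φ.toMonoidHom)) :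
    ∃ ψ : Q ≃* Q, Nonempty (σ.dual.Equiv (σ'.comp ψ.toMonoidHom)) := by
  classical
  obtain ⟨α, β, hα, hβ, hβα⟩ := source_split ρ hρ Q σ h
  obtain ⟨α₀, β₀, hα₀, hβ₀, htr⟩ := (isSummand_ind_iff ρ' Q σ').mp h'
  have hdV : ∀ (g : G) (f : Module.Dual F V) (w : V), (ρ.dual g f) w = f (ρ g⁻¹ w) := by
    intro g f w
    rw [Representation.dual_apply]
    rfl
  have hdW : ∀ (g : Q) (f : Module.Dual F W) (w : W), (σ.dual g f) w = f (σ g⁻¹ w) := by
    intro g f w
    rw [Representation.dual_apply]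
    rfl
  have he : ∀ (g : G) (f : Module.Dual F V), e (ρ.dual g f) = ρ' (φ g) (e f) := by
    intro g f
    exact LinearMap.congr_fun (e.isIntertwining' g) f
  have hes : ∀ (g : G) (v : V'), e.symm (ρ' (φ g) v) = ρ.dual g (e.symm v) := by
    intro g v
    exact LinearMap.congr_fun (e.symm.isIntertwining' g) v
  have hee : ∀ v : V', e (e.symm v) = v := fun v => e.toLinearEquiv.apply_symm_apply v
  have hee' : ∀ f : Module.Dual F V, e.symm (e f) = f := fun v => e.toLinearEquiv.symm_apply_apply v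
  set Q₂ : Subgroup G := Q.comap φ.toMonoidHom with hQ₂
  set κ : Q₂ →* Q := φ.toMonoidHom.subgroupComap Q with hκ
  have hκv : ∀ q : Q₂, ((κ q : Q) : G) = φ (q : G) := fun q => rfl
  set σ₂ : Representation F Q₂ W' := σ'.comp κ with hσ₂
  set E : Module.Dual F V →ₗ[F] V' := e.toLinearMap with hE
  set E' : V' →ₗ[F] Module.Dual F V := e.symm.toLinearMap with hE'
  have key := uniq ρ.dual Q Q₂ σ.dual σ₂ (uni_indec_dual h.indec)
    (uni_trI_dual σ (source_not_mem ρ hρ Q σ h)) β.dualMap α.dualMap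
    (by
      intro q
      ext f v
      show (σ.dual q f) (β v) = (ρ.dual (q : G) (f ∘ₗ β)) v
      rw [hdW, hdV]
      have := LinearMap.congr_fun (hβ q⁻¹) v
      simp only [LinearMap.comp_apply] at this
      show f (σ q⁻¹ (β v)) = f (β (ρ ((q : G))⁻¹ v))
      rw [← this]
      rfl)
    (by
      intro q
      ext f w
      show (ρ.dual (q : G) f) (α w) = (σ.dual q (f ∘ₗ α)) w
      rw [hdW, hdV]
      have := LinearMap.congr_fun (hα q⁻¹) w
      simp only [LinearMap.comp_apply] at this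
      show f (ρ ((q : G))⁻¹ (α w)) = f (α (σ q⁻¹ w))
      rw [this]
      rfl)
    (by
      ext f w
      show f (β (α w)) = f w
      have := LinearMap.congr_fun hβα w
      simp only [LinearMap.comp_apply, LinearMap.id_apply] at this
      rw [this])
    (E' ∘ₗ α₀) (β₀ ∘ₗ E)
    (by
      intro q
      ext w
      show (e.symm (α₀ (σ' (κ q) w))) _ = (ρ.dual (q : G) (e.symm (α₀ w))) _
      have := LinearMap.congr_fun (hα₀ (κ q)) w
      simp only [LinearMap.comp_apply] at this
      rw [this, ← hes]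
      rfl)
    (by
      intro q
      ext f
      show β₀ (e (ρ.dual (q : G) f)) = σ' (κ q) (β₀ (e f))
      have := LinearMap.congr_fun (hβ₀ (κ q)) (e f)
      simp only [LinearMap.comp_apply] at this
      rw [← this, he]
      rfl)
    (by
      have hC : ∀ r ∈ Q, (α₀ ∘ₗ β₀) ∘ₗ ρ' r = ρ' r ∘ₗ (α₀ ∘ₗ β₀) := by
        intro r hr
        ext v
        have h1 := LinearMap.congr_fun (hβ₀ ⟨r, hr⟩) v
        have h2 := LinearMap.congr_fun (hα₀ ⟨r, hr⟩) (β₀ v)
        simp only [LinearMap.comp_apply] at h1 h2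
        show α₀ (β₀ (ρ' r v)) = ρ' r (α₀ (β₀ v))
        have h3 : β₀ (ρ' r v) = σ' ⟨r, hr⟩ (β₀ v) := h1
        rw [h3, h2]
        rfl
      have hrel : ∀ a b : G, QuotientGroup.leftRel Q₂ a b ↔ QuotientGroup.leftRel Q (φ a) (φ b) := by
        intro a b
        rw [QuotientGroup.leftRel_apply, QuotientGroup.leftRel_apply, hQ₂, Subgroup.mem_comap]
        show φ (a⁻¹ * b) ∈ Q ↔ _
        rw [map_mul, map_inv]
      let Φ : G ⧸ Q₂ ≃ G ⧸ Q := Quotient.congr φ.toEquiv hrel
      have hΦ : ∀ a : G, Φ (a : G ⧸ Q₂) = ((φ a : G) : G ⧸ Q) := fun a => rfl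
      have hs : ∀ y : G ⧸ Q, ((φ (Φ.symm y).out : G) : G ⧸ Q) = y := by
        intro y
        rw [← hΦ, QuotientGroup.out_eq', Equiv.apply_symm_apply]
      have h4 := relTr_eq_section ρ' ρ' Q (α₀ ∘ₗ β₀) hC (fun y => φ (Φ.symm y).out) hs
      rw [htr] at h4
      have : Fintype (G ⧸ Q) := Fintype.ofFinite _
      have : Fintype (G ⧸ Q₂) := Fintype.ofFinite _
      rw [finsum_eq_sum_of_fintype] at h4
      unfold relTr
      rw [finsum_eq_sum_of_fintype]
      apply LinearMap.ext
      intro f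
      rw [LinearMap.sum_apply]
      have h5 : ∀ x : G ⧸ Q₂, (ρ.dual x.out ∘ₗ ((E' ∘ₗ α₀) ∘ₗ (β₀ ∘ₗ E)) ∘ₗ ρ.dual x.out⁻¹) f =
          e.symm ((ρ' (φ x.out) ∘ₗ (α₀ ∘ₗ β₀) ∘ₗ ρ' (φ x.out)⁻¹) (e f)) := by
        intro x
        show ρ.dual x.out (e.symm (α₀ (β₀ (e (ρ.dual x.out⁻¹ f))))) =
          e.symm (ρ' (φ x.out) (α₀ (β₀ (ρ' (φ x.out)⁻¹ (e f)))))
        rw [he, ← hes, map_inv]
      rw [Finset.sum_congr rfl (fun x _ => h5 x), ← map_sum]
      have h6 : ∑ x : G ⧸ Q₂, (ρ' (φ x.out) ∘ₗ (α₀ ∘ₗ β₀) ∘ₗ ρ' (φ x.out)⁻¹) (e f) = e f := by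
        have h7 := LinearMap.congr_fun h4 (e f)
        rw [LinearMap.sum_apply, LinearMap.id_apply] at h7
        conv_rhs => rw [h7]
        rw [← Equiv.sum_comp Φ]
        apply Finset.sum_congr rfl
        intro x _
        simp only [Equiv.symm_apply_apply]
      rw [h6, hee']
      rfl)
  obtain ⟨g, hg, a, b, ha, hb, hba⟩ := key
  have hinj : Function.Injective a := by
    intro x y hxy
    have h1 := LinearMap.congr_fun hba x
    have h2 := LinearMap.congr_fun hba y
    simp only [LinearMap.comp_apply, LinearMap.id_apply] at h1 h2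
    rw [← h1, ← h2, hxy]
  have hbij : Function.Bijective a := by
    refine ⟨hinj, ?_⟩
    exact (LinearMap.injective_iff_surjective_of_finrank_eq_finrank
      (Subspace.dual_finrank_eq.trans hd.symm)).mp hinj
  have hg' : ∀ q : Q, φ (g⁻¹ * (q : G) * g) ∈ Q := fun q => hg q
  let ψ₀ : Q →* Q :=
    { toFun := fun q => ⟨φ (g⁻¹ * (q : G) * g), hg' q⟩
      map_one' := by
        apply Subtype.ext
        simp
      map_mul' := by
        intro x y
        apply Subtype.ext
        show φ (g⁻¹ * (((x : G)) * (y : G)) * g) = φ (g⁻¹ * (x : G) * g) * φ (g⁻¹ * (y : G) * g)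
        rw [← map_mul]
        congr 1
        group }
  have hψinj : Function.Injective ψ₀ := by
    intro x y hxy
    have h1 : φ (g⁻¹ * (x : G) * g) = φ (g⁻¹ * (y : G) * g) := congrArg Subtype.val hxy
    have h2 := φ.injective h1
    apply Subtype.ext
    have h3 := mul_right_cancel h2
    exact mul_left_cancel h3
  have hψbij : Function.Bijective ψ₀ := Finite.injective_iff_bijective.mp hψinj
  refine ⟨MulEquiv.ofBijective ψ₀ hψbij, ⟨Representation.Equiv.mk (LinearEquiv.ofBijective a hbij) ?_⟩⟩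
  intro q
  ext f
  have h1 := LinearMap.congr_fun (ha q) f
  simp only [LinearMap.comp_apply] at h1
  show a (σ.dual q f) = σ' (ψ₀ q) (a f)
  rw [h1]
  rfl

end Pool.Agent.KFV
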