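import Mathlib
import Pool.Agent.KFV.Defs
import Pool.Agent.KFV.PDefs
import Pool.Agent.KFV.HIG
import Pool.Agent.KFV.TRA
import Pool.Agent.KFV.KFG
import Pool.Agent.KFV.CNG
import Pool.Agent.KFV.PEN

open Representation

namespace Pool.Agent.KFV

/-- The field with four elements inside `F`. -/
theorem exn_field (F : Type*) [Field F] [IsAlgClosed F] [CharP F 2] (ω : F)
    (hω : ω ^ 2 + ω + 1 = 0) :
    ∃ (K : Type) (_ : Field K) (_ : Finite K) (_ : CharP K 2) (ι : K →+* F) (ζ : K),
      Nat.card K = 4 ∧ ι ζ = ω := by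
  have h2F : ∀ x : F, x + x = 0 := fun x => CharTwo.add_self_eq_zero x
  let _ : Algebra (ZMod 2) F := ZMod.algebra F 2
  let K := GaloisField 2 2
  have hK : Nat.card K = 4 := by
    have := GaloisField.card 2 2 (by norm_num)
    rw [this]
    norm_num
  have hfin : Finite K := Nat.finite_of_card_ne_zero (by rw [hK]; norm_num)
  let ι : K →ₐ[ZMod 2] F := IsAlgClosed.lift
  have h2K : ∀ x : K, x + x = 0 := fun x => CharTwo.add_self_eq_zero x
  -- an element different from 0 and 1
  obtain ⟨x, hx0, hx1⟩ : ∃ x : K, x ≠ 0 ∧ x ≠ 1 := by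
    by_contra hcon
    push Not at hcon
    have h1 : (Set.univ : Set K) ⊆ ({0, 1} : Set K) := by
      intro x _
      by_cases hx : x = 0
      · exact Or.inl hx
      · exact Or.inr (hcon x hx)
    have h2 : Nat.card K ≤ 2 := by
      rw [← Set.ncard_univ]
      refine (Set.ncard_le_ncard h1 (Set.toFinite _)).trans ?_
      exact (Set.ncard_insert_le _ _).trans (by rw [Set.ncard_singleton])
    omega
  have hx4 : x ^ 4 = x := by
    have : Fintype K := Fintype.ofFinite K
    have h1 := FiniteField.pow_card x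
    rwa [← Nat.card_eq_fintype_card, hK] at h1
  have hx3 : x ^ 2 + x + 1 = 0 := by
    have h1 : x * (x - 1) * (x ^ 2 + x + 1) = 0 := by
      have : x * (x - 1) * (x ^ 2 + x + 1) = x ^ 4 - x := by ring
      rw [this, hx4, sub_self]
    rcases mul_eq_zero.mp h1 with h2 | h2
    · rcases mul_eq_zero.mp h2 with h3 | h3
      · exact absurd h3 hx0
      · exact absurd (sub_eq_zero.mp h3) hx1
    · exact h2
  have hι : (ι x) ^ 2 + ι x + 1 = 0 := by
    have := congrArg ι hx3
    simpa using this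
  have hprod : (ι x - ω) * (ι x - (ω + 1)) = 0 := by
    have h20 : (2 : F) = 0 := CharTwo.two_eq_zero
    linear_combination hι + hω - (ι x + ι x * ω + 1) * h20
  rcases mul_eq_zero.mp hprod with h1 | h1
  · exact ⟨K, inferInstance, hfin, inferInstance, ι.toRingHom, x, hK, sub_eq_zero.mp h1⟩
  · refine ⟨K, inferInstance, hfin, inferInstance, ι.toRingHom, x + 1, hK, ?_⟩
    show ι (x + 1) = ω
    rw [map_add, map_one, sub_eq_zero.mp h1, add_assoc, h2F, add_zero]

section

variable {F : Type*} [Field F] {K : Type} [Field K]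

/-- The natural representation. -/
def exnRep (ι : K →+* F) : Representation F (Matrix.SpecialLinearGroup (Fin 2) K) (F × F) where
  toFun g := LinearMap.prod (ι (g.1 0 0) • LinearMap.fst F F F + ι (g.1 0 1) • LinearMap.snd F F F)
    (ι (g.1 1 0) • LinearMap.fst F F F + ι (g.1 1 1) • LinearMap.snd F F F)
  map_one' := by
    ext <;> simp
  map_mul' := by
    intro g h
    ext <;> simp [Matrix.mul_apply, Fin.sum_univ_two]

theorem exnRep_apply (ι : K →+* F) (g : Matrix.SpecialLinearGroup (Fin 2) K) (v : F × F) :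
    exnRep ι g v = (ι (g.1 0 0) * v.1 + ι (g.1 0 1) * v.2, ι (g.1 1 0) * v.1 + ι (g.1 1 1) * v.2) :=
  rfl

/-- A lower unitriangular matrix. -/
def exnL (c : K) : Matrix.SpecialLinearGroup (Fin 2) K := ⟨!![1, 0; c, 1], by simp⟩

theorem exnL_00 (c : K) : (exnL c).1 0 0 = 1 := rfl
theorem exnL_01 (c : K) : (exnL c).1 0 1 = 0 := rfl
theorem exnL_10 (c : K) : (exnL c).1 1 0 = c := rfl
theorem exnL_11 (c : K) : (exnL c).1 1 1 = 1 := rfl

theorem exn_ext {g h : Matrix.SpecialLinearGroup (Fin 2) K} (h00 : g.1 0 0 = h.1 0 0)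
    (h01 : g.1 0 1 = h.1 0 1) (h10 : g.1 1 0 = h.1 1 0) (h11 : g.1 1 1 = h.1 1 1) : g = h := by
  apply Subtype.ext
  ext i j
  fin_cases i <;> fin_cases j
  · exact h00
  · exact h01
  · exact h10
  · exact h11

theorem exn_mul (g h : Matrix.SpecialLinearGroup (Fin 2) K) (i j : Fin 2) :
    (g * h).1 i j = g.1 i 0 * h.1 0 j + g.1 i 1 * h.1 1 j := by
  have : (g * h).1 = g.1 * h.1 := rfl
  rw [this, Matrix.mul_apply, Fin.sum_univ_two]

theorem exn_det (g : Matrix.SpecialLinearGroup (Fin 2) K) :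
    g.1 0 0 * g.1 1 1 - g.1 0 1 * g.1 1 0 = 1 := by
  have h := g.2
  rwa [Matrix.det_fin_two] at h

theorem exn_inv (g : Matrix.SpecialLinearGroup (Fin 2) K) :
    (g⁻¹).1 0 0 = g.1 1 1 ∧ (g⁻¹).1 0 1 = -g.1 0 1 ∧ (g⁻¹).1 1 0 = -g.1 1 0 ∧
      (g⁻¹).1 1 1 = g.1 0 0 := by
  rw [Matrix.SpecialLinearGroup.SL2_inv_expl]
  exact ⟨rfl, rfl, rfl, rfl⟩

/-- The lower unitriangular matrices. -/
def exnLow : Multiplicative K →* Matrix.SpecialLinearGroup (Fin 2) K where
  toFun c := exnL (Multiplicative.toAdd c)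
  map_one' := by
    apply exn_ext <;> simp [exnL]
  map_mul' := by
    intro a b
    apply exn_ext <;> rw [exn_mul] <;> simp [exnL_00, exnL_01, exnL_10, exnL_11, add_comm]

theorem exnLow_inj : Function.Injective (exnLow (K := K)) := by
  intro a b hab
  have h1 : (exnL (Multiplicative.toAdd a)).1 1 0 = (exnL (Multiplicative.toAdd b)).1 1 0 :=
    congrArg (fun g : Matrix.SpecialLinearGroup (Fin 2) K => g.1 1 0) hab
  rw [exnL_10, exnL_10] at h1
  exact Multiplicative.toAdd.injective h1

theorem exn_mem_range (g : Matrix.SpecialLinearGroup (Fin 2) K) :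
    g ∈ (exnLow (K := K)).range ↔ g.1 0 1 = 0 ∧ g.1 1 1 = 1 := by
  constructor
  · rintro ⟨c, rfl⟩
    exact ⟨rfl, rfl⟩
  · rintro ⟨h1, h2⟩
    refine ⟨Multiplicative.ofAdd (g.1 1 0), ?_⟩
    have hdet := exn_det g
    rw [h1, h2] at hdet
    apply exn_ext
    · show (1 : K) = g.1 0 0
      linear_combination -hdet
    · exact h1.symm
    · rfl
    · exact h2.symm

/-- the cosets of the lower unitriangular subgroup are the nonzero vectors -/
theorem exn_index [Finite K] (hK : Nat.card K = 4) :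
    Nat.card (Matrix.SpecialLinearGroup (Fin 2) K ⧸ (exnLow (K := K)).range) = 15 := by
  classical
  let f : Matrix.SpecialLinearGroup (Fin 2) K → {v : K × K // v ≠ 0} := fun g =>
    ⟨(g.1 0 1, g.1 1 1), by
      intro h
      have h1 : g.1 0 1 = 0 := congrArg Prod.fst h
      have h2 : g.1 1 1 = 0 := congrArg Prod.snd h
      have := exn_det g
      rw [h1, h2] at this
      simp at this⟩
  have hf : ∀ g h : Matrix.SpecialLinearGroup (Fin 2) K, f g = f h ↔
      g⁻¹ * h ∈ (exnLow (K := K)).range := by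
    intro g h
    obtain ⟨i00, i01, i10, i11⟩ := exn_inv g
    have hdg := exn_det g
    have hdh := exn_det h
    rw [exn_mem_range, exn_mul, exn_mul, i00, i01, i10, i11]
    constructor
    · intro hfe
      have h1 : g.1 0 1 = h.1 0 1 := congrArg (fun v => v.1.1) hfe
      have h2 : g.1 1 1 = h.1 1 1 := congrArg (fun v => v.1.2) hfe
      rw [← h1, ← h2]
      constructor
      · ring
      · linear_combination hdg
    · rintro ⟨h1, h2⟩
      apply Subtype.ext
      apply Prod.ext
      · show g.1 0 1 = h.1 0 1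
        linear_combination (-g.1 0 0) * h1 - g.1 0 1 * h2 + h.1 0 1 * hdg
      · show g.1 1 1 = h.1 1 1
        linear_combination (-g.1 1 0) * h1 - g.1 1 1 * h2 + h.1 1 1 * hdg
  have hsurj : Function.Surjective f := by
    rintro ⟨⟨b, d⟩, hv⟩
    by_cases hd : d = 0
    · have hb : b ≠ 0 := by
        rintro rfl
        apply hv
        rw [hd]
        rfl
      refine ⟨⟨!![0, b; -b⁻¹, d], ?_⟩, ?_⟩
      · rw [Matrix.det_fin_two]
        simp [hb]
      · rfl
    · refine ⟨⟨!![d⁻¹, b; 0, d], ?_⟩, ?_⟩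
      · rw [Matrix.det_fin_two]
        simp [hd]
      · rfl
  let F' : (Matrix.SpecialLinearGroup (Fin 2) K ⧸ (exnLow (K := K)).range) → {v : K × K // v ≠ 0} :=
    Quotient.lift f (fun g h hgh => (hf g h).mpr (QuotientGroup.leftRel_apply.mp hgh))
  have hbij : Function.Bijective F' := by
    constructor
    · intro x y hxy
      obtain ⟨g, rfl⟩ := QuotientGroup.mk_surjective x
      obtain ⟨h, rfl⟩ := QuotientGroup.mk_surjective y
      exact QuotientGroup.eq.mpr ((hf g h).mp hxy)
    · intro v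
      obtain ⟨g, hg⟩ := hsurj v
      exact ⟨(g : _ ⧸ _), hg⟩
  rw [Nat.card_congr (Equiv.ofBijective F' hbij)]
  have : Fintype K := Fintype.ofFinite K
  rw [Nat.card_eq_fintype_card, Fintype.card_subtype_compl, Fintype.card_prod,
    Fintype.card_subtype_eq, ← Nat.card_eq_fintype_card, hK]

theorem exn_low_apply (ι : K →+* F) (c : K) (v : F × F) :
    exnRep ι (exnL c) v = (v.1, ι c * v.1 + v.2) := by
  rw [exnRep_apply, exnL_00, exnL_01, exnL_10, exnL_11]
  simp

theorem exn_fix (ι : K →+* F) (A : Submodule F (F × F))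
    (hA : ∀ v ∈ A, exnRep ι (exnL 1) v ∈ A) (h0 : A ≠ ⊥) : ((0, 1) : F × F) ∈ A := by
  obtain ⟨v, hv, hv0⟩ := Submodule.exists_mem_ne_zero_of_ne_bot h0
  by_cases h1 : v.1 = 0
  · have h2 : v.2 ≠ 0 := by
      intro h
      exact hv0 (Prod.ext h1 h)
    have h3 : ((0, 1) : F × F) = v.2⁻¹ • v := by
      ext <;> simp [h1, h2]
    rw [h3]
    exact A.smul_mem _ hv
  · have h2 := A.sub_mem (hA v hv) hv
    have h3 : ((0, 1) : F × F) = v.1⁻¹ • (exnRep ι (exnL 1) v - v) := by
      rw [exn_low_apply]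
      ext <;> simp [h1]
    rw [h3]
    exact A.smul_mem _ h2

theorem exn_irr (ι : K →+* F) : (exnRep ι).IsIrreducible := by
  have hne : (⊥ : Subrepresentation (exnRep ι)) ≠ ⊤ := by
    intro h
    have h1 : ((0, 1) : F × F) ∈ (⊤ : Submodule F (F × F)) := trivial
    have h2 : (⊥ : Submodule F (F × F)) = ⊤ := congrArg Subrepresentation.toSubmodule h
    rw [← h2, Submodule.mem_bot] at h1
    exact one_ne_zero (congrArg Prod.snd h1)
  refine { exists_pair_ne := ⟨⊥, ⊤, hne⟩, eq_bot_or_eq_top := ?_ }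
  intro A
  by_cases hA : A = ⊥
  · exact Or.inl hA
  · right
    have hA' : A.toSubmodule ≠ ⊥ := by
      intro h
      exact hA (Subrepresentation.toSubmodule_injective h)
    have h1 : ((0, 1) : F × F) ∈ A.toSubmodule :=
      exn_fix ι A.toSubmodule (fun v hv => A.apply_mem_toSubmodule (exnL 1) hv) hA'
    let s : Matrix.SpecialLinearGroup (Fin 2) K := ⟨!![0, 1; -1, 0], by simp⟩
    have h2 : exnRep ι s ((0, 1) : F × F) = (1, 0) := by
      rw [exnRep_apply]
      simp [s]
    have h3 := A.apply_mem_toSubmodule s h1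
    rw [h2] at h3
    apply Subrepresentation.toSubmodule_injective
    show A.toSubmodule = ⊤
    rw [eq_top_iff]
    intro v _
    have h4 : v = v.1 • ((1, 0) : F × F) + v.2 • ((0, 1) : F × F) := by
      ext <;> simp
    rw [h4]
    exact A.toSubmodule.add_mem (A.toSubmodule.smul_mem _ h3) (A.toSubmodule.smul_mem _ h1)

theorem exn_dual (ι : K →+* F) : Nonempty ((exnRep ι).dual.Equiv (exnRep ι)) := by
  let B : F × F →ₗ[F] Module.Dual F (F × F) := LinearMap.mk₂ F (fun v w => v.1 * w.2 - v.2 * w.1)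
    (by intro a b c; simp; ring) (by intro c a b; simp; ring) (by intro a b c; simp; ring)
    (by intro c a b; simp; ring)
  have hB : ∀ v w : F × F, B v w = v.1 * w.2 - v.2 * w.1 := fun v w => rfl
  have hinj : Function.Injective B := by
    rw [injective_iff_map_eq_zero]
    intro v hv
    have h1 := LinearMap.congr_fun hv ((0, 1) : F × F)
    have h2 := LinearMap.congr_fun hv ((1, 0) : F × F)
    rw [hB] at h1 h2
    simp at h1 h2
    exact Prod.ext h1 h2
  have hbij : Function.Bijective B := by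
    refine ⟨hinj, ?_⟩
    exact (LinearMap.injective_iff_surjective_of_finrank_eq_finrank
      Subspace.dual_finrank_eq.symm).mp hinj
  refine ⟨(Representation.Equiv.mk (LinearEquiv.ofBijective B hbij) ?_).symm⟩
  intro g
  apply LinearMap.ext
  intro v
  apply LinearMap.ext
  intro w
  show B (exnRep ι g v) w = ((exnRep ι).dual g (B v)) w
  rw [Representation.dual_apply]
  show B (exnRep ι g v) w = B v (exnRep ι g⁻¹ w)
  rw [hB, hB, exnRep_apply, exnRep_apply]
  obtain ⟨i00, i01, i10, i11⟩ := exn_inv g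
  rw [i00, i01, i10, i11]
  simp only [map_neg]
  ring

end

/-- The natural representation of `SL(2,4)`: simple, self-dual, with vertex a Sylow two-subgroup
and source `natRep ω`.  `SL(2,4)` acts transitively on the `15` nonzero vectors of the plane over
the field with four elements and `Q` is the stabiliser of `e_1`: the index is odd, so the relative
trace of the identity from `Q` is the identity; every endomorphism commuting with a nontrivial
element of `Q` commutes with `Q`, so relative traces from proper subgroups of `Q` to `Q` vanish. -/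
theorem exists_natural (F : Type*) [Field F] [IsAlgClosed F] [CharP F 2] (ω : F)
    (hω : ω ^ 2 + ω + 1 = 0) :
    ∃ (G : Type) (_ : Group G) (_ : Finite G) (ρ : Representation F G (F × F)) (Q : Subgroup G),
      ρ.IsIrreducible ∧ Nonempty (ρ.dual.Equiv ρ) ∧ IsKleinFour Q ∧
      IsVertexSource ρ Q (ρ.comp Q.subtype) ∧ PairEquiv (ρ.comp Q.subtype) (natRep ω) := by
  classical
  obtain ⟨K, _, _, _, ι, ζ, hK, hζ⟩ := exn_field F ω hω
  have h2K : ∀ x : K, x + x = 0 := fun x => CharTwo.add_self_eq_zero x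
  have h20 : (2 : F) = 0 := CharTwo.two_eq_zero
  have hζ2 : ζ ^ 2 + ζ + 1 = 0 := by
    apply ι.injective
    rw [map_add, map_add, map_pow, hζ, map_one, map_zero, hω]
  set G := Matrix.SpecialLinearGroup (Fin 2) K with hG
  have hfinG : Finite G := inferInstance
  set ρ : Representation F G (F × F) := exnRep ι with hρ
  set Q : Subgroup G := (exnLow (K := K)).range with hQ
  -- the additive isomorphism
  let h₀ : ZMod 2 × ZMod 2 →+ K :=
    { toFun := fun p => ZMod.castHom (dvd_refl 2) K p.1 + ZMod.castHom (dvd_refl 2) K p.2 * ζ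
      map_zero' := by simp
      map_add' := by
        intro p q
        simp only [Prod.fst_add, Prod.snd_add, map_add]
        ring }
  have h₀inj : Function.Injective h₀ := by
    rw [injective_iff_map_eq_zero]
    rintro ⟨i, j⟩ h
    have h1 : ZMod.castHom (dvd_refl 2) K i + ZMod.castHom (dvd_refl 2) K j * ζ = 0 := h
    have hcase : ∀ i : ZMod 2, i = 0 ∨ i = 1 := by decide
    rcases hcase i with hi | hi <;> rcases hcase j with hj | hj
    · rw [hi, hj]; rfl
    · exfalso
      rw [hi, hj, map_zero, map_one, zero_add, one_mul] at h1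
      rw [h1] at hζ2
      simp at hζ2
    · exfalso
      rw [hi, hj, map_zero, map_one, zero_mul, add_zero] at h1
      exact one_ne_zero h1
    · exfalso
      rw [hi, hj, map_one, one_mul] at h1
      have : ζ = -1 := by linear_combination h1
      rw [this] at hζ2
      have h5 : (1 : K) = 0 := by linear_combination hζ2
      exact one_ne_zero h5
  have h₀bij : Function.Bijective h₀ := by
    have : Fintype K := Fintype.ofFinite K
    rw [Fintype.bijective_iff_injective_and_card]
    refine ⟨h₀inj, ?_⟩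
    rw [← Nat.card_eq_fintype_card (α := K), hK, Fintype.card_prod, ZMod.card]
  let e₁ : ZMod 2 × ZMod 2 ≃+ K := AddEquiv.ofBijective h₀ h₀bij
  let e₂ : K4 ≃* Multiplicative K := AddEquiv.toMultiplicative e₁
  let e₃ : Multiplicative K ≃* Q := MonoidHom.ofInjective exnLow_inj
  let φ : Q ≃* K4 := (e₂.trans e₃).symm
  -- the relative trace of the identity
  have htr : relTr ρ ρ Q (LinearMap.id ∘ₗ LinearMap.id) = LinearMap.id := by
    have h1 : relTr ρ ρ Q (LinearMap.id ∘ₗ LinearMap.id) =
        ∑ᶠ x : G ⧸ Q, (LinearMap.id : F × F →ₗ[F] F × F) := by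
      unfold relTr
      apply finsum_congr
      intro x
      have h2 : ρ x.out * ρ x.out⁻¹ = 1 := by rw [← map_mul, mul_inv_cancel, map_one]
      exact h2
    have : Fintype (G ⧸ Q) := Fintype.ofFinite _
    rw [h1, finsum_eq_sum_of_fintype, Finset.sum_const, Finset.card_univ,
      ← Nat.card_eq_fintype_card, exn_index hK]
    rw [← Nat.cast_smul_eq_nsmul F]
    have h3 : ((15 : ℕ) : F) = 1 := by
      push_cast
      linear_combination 7 * h20
    rw [h3, one_smul]
  have hrel : RelProj ρ Q := by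
    unfold RelProj
    rw [isSummand_ind_iff]
    exact ⟨LinearMap.id, LinearMap.id, fun q => rfl, fun q => rfl, htr⟩
  have hqform : ∀ q : Q, ∃ c : K, (q : G) = exnL c := by
    rintro ⟨q, c, rfl⟩
    exact ⟨Multiplicative.toAdd c, rfl⟩
  have hkl : IsKleinFour Q := by
    have h1 : IsKleinFour K4 := inferInstance
    refine ⟨?_, ?_⟩
    · rw [Nat.card_congr φ.toEquiv]
      exact h1.card_four
    · rw [Monoid.exponent_eq_of_mulEquiv φ]
      exact h1.exponent_two
  have hK0 : trK (ρ.comp Q.subtype) (ρ.comp Q.subtype) = ⊥ := by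
    unfold trK
    rw [Submodule.span_eq_bot]
    rintro f ⟨r, q, hr, θ, hθ, rfl⟩
    obtain ⟨c, hc⟩ := hqform r
    obtain ⟨d, hd⟩ := hqform q
    have hc0 : c ≠ 0 := by
      rintro rfl
      apply hr
      apply Subtype.ext
      rw [hc]
      exact exn_ext rfl rfl rfl rfl
    have hιc : ι c ≠ 0 := by
      intro h
      exact hc0 (ι.injective (by rw [h, map_zero]))
    have h1 : ∀ v : F × F, θ (v.1, ι c * v.1 + v.2) = ((θ v).1, ι c * (θ v).1 + (θ v).2) := by
      intro v
      have h2 : θ (ρ (r : G) v) = ρ (r : G) (θ v) := LinearMap.congr_fun hθ v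
      rw [hc, hρ, exn_low_apply, exn_low_apply] at h2
      exact h2
    have h3 : ∀ v : F × F, θ ((0, v.1) : F × F) = (0, (θ v).1) := by
      intro v
      have h4 := h1 v
      have e1 : ((v.1, ι c * v.1 + v.2) : F × F) = ι c • ((0, v.1) : F × F) + v := by
        ext <;> simp
      rw [e1, map_add, map_smul] at h4
      have e2 : ι c • θ ((0, v.1) : F × F) = ι c • ((0, (θ v).1) : F × F) := by
        have h5 : ι c • θ ((0, v.1) : F × F) = ((θ v).1, ι c * (θ v).1 + (θ v).2) - θ v := by
          rw [← h4]; abel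
        rw [h5]
        ext <;> simp
      exact smul_right_injective _ hιc e2
    have h6 : ∀ (b : K) (v : F × F), θ (ρ (exnL b) v) = ρ (exnL b) (θ v) := by
      intro b v
      rw [hρ, exn_low_apply, exn_low_apply]
      have e1 : ((v.1, ι b * v.1 + v.2) : F × F) = ι b • ((0, v.1) : F × F) + v := by
        ext <;> simp
      rw [e1, map_add, map_smul, h3]
      ext <;> simp
    have h7 : (ρ.comp Q.subtype) q ∘ₗ θ ∘ₗ (ρ.comp Q.subtype) q⁻¹ = θ := by
      apply LinearMap.ext
      intro v
      show ρ (q : G) (θ (ρ ((q⁻¹ : Q) : G) v)) = θ v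
      rw [hd, ← h6]
      congr 1
      have h8 : ρ (exnL d) * ρ ((q⁻¹ : Q) : G) = 1 := by
        rw [← hd, ← map_mul]
        simp
      exact LinearMap.congr_fun h8 v
    rw [h7]
    apply LinearMap.ext
    intro v
    show θ v + θ v = 0
    rw [← two_smul F, h20, zero_smul]
  have hmin : ∀ R : Subgroup G, RelProj ρ R → R ≤ Q → Q ≤ R := by
    intro R hR hRQ
    by_contra hcon
    unfold RelProj at hR
    rw [isSummand_ind_iff] at hR
    obtain ⟨α, β, hα, hβ, htr'⟩ := hR
    have hR' : R.subgroupOf Q ≠ ⊤ := by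
      intro h
      exact hcon (Subgroup.subgroupOf_eq_top.mp h)
    have hθ : ∀ r ∈ R, (α ∘ₗ β) ∘ₗ ρ r = ρ r ∘ₗ (α ∘ₗ β) := by
      intro r hr
      apply LinearMap.ext
      intro v
      have h1 : β (ρ r v) = ρ r (β v) := LinearMap.congr_fun (hβ ⟨r, hr⟩) v
      have h2 : α (ρ r (β v)) = ρ r (α (β v)) := LinearMap.congr_fun (hα ⟨r, hr⟩) (β v)
      show α (β (ρ r v)) = ρ r (α (β v))
      rw [h1, h2]
    have hθ' : ∀ r ∈ R.subgroupOf Q, (α ∘ₗ β) ∘ₗ (ρ.comp Q.subtype) r =
        (ρ.comp Q.subtype) r ∘ₗ (α ∘ₗ β) := by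
      intro r hr
      exact hθ (r : G) (Subgroup.mem_subgroupOf.mp hr)
    have h3 := relTr_trans ρ ρ Q (R.subgroupOf Q) (α ∘ₗ β) hθ'
    have h4 : relTr (ρ.comp Q.subtype) (ρ.comp Q.subtype) (R.subgroupOf Q) (α ∘ₗ β) = 0 := by
      have h5 : relTr (ρ.comp Q.subtype) (ρ.comp Q.subtype) (R.subgroupOf Q) (α ∘ₗ β) ∈
          trI (ρ.comp Q.subtype) (ρ.comp Q.subtype) :=
        Submodule.subset_span ⟨R.subgroupOf Q, hR', α ∘ₗ β, hθ', rfl⟩
      rw [trI_eq_trK, hK0, Submodule.mem_bot] at h5
      exact h5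
    rw [h4, Subgroup.subgroupOf_map_subtype, inf_eq_left.mpr hRQ, htr'] at h3
    have h6 : relTr ρ ρ Q (0 : F × F →ₗ[F] F × F) = 0 := by
      unfold relTr
      have h9 : ∀ x : G ⧸ Q, ρ x.out ∘ₗ (0 : F × F →ₗ[F] F × F) ∘ₗ ρ x.out⁻¹ = 0 := by
        intro x
        rw [LinearMap.zero_comp, LinearMap.comp_zero]
      rw [finsum_congr h9, finsum_zero]
    rw [h6] at h3
    have h7 := LinearMap.congr_fun h3 ((0, 1) : F × F)
    have h8 : (0 : F) = 1 := congrArg Prod.snd h7
    exact zero_ne_one h8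
  have hind : Indec (ρ.comp Q.subtype) := by
    refine ⟨inferInstance, ?_⟩
    intro A B hAB
    by_contra hcon
    push Not at hcon
    have hq1 : exnL (1 : K) ∈ Q := ⟨Multiplicative.ofAdd 1, rfl⟩
    have key : ∀ A : Subrepresentation (ρ.comp Q.subtype), A ≠ ⊥ → ((0, 1) : F × F) ∈ A.toSubmodule := by
      intro A hA
      apply exn_fix ι
      · intro v hv
        exact A.apply_mem_toSubmodule (⟨exnL 1, hq1⟩ : Q) hv
      · intro h
        exact hA (Subrepresentation.toSubmodule_injective h)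
    have h1 := key A hcon.1
    have h2 := key B hcon.2
    have h3 : ((0, 1) : F × F) ∈ (A ⊓ B).toSubmodule := ⟨h1, h2⟩
    rw [disjoint_iff.mp hAB.disjoint] at h3
    have h4 : ((0, 1) : F × F) ∈ (⊥ : Submodule F (F × F)) := h3
    rw [Submodule.mem_bot] at h4
    exact one_ne_zero (congrArg Prod.snd h4)
  refine ⟨G, inferInstance, hfinG, ρ, Q, exn_irr ι, exn_dual ι, hkl, ⟨⟨hrel, ?_⟩, hind, hrel⟩, ?_⟩
  · intro R hR hRQ
    exact hmin R hR hRQ
  · refine ⟨φ, ⟨Representation.Equiv.mk (LinearEquiv.refl F (F × F)) ?_⟩⟩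
    intro q
    apply LinearMap.ext
    intro v
    obtain ⟨k, rfl⟩ := φ.symm.surjective q
    show ρ ((φ.symm k : Q) : G) v = natRep ω (φ (φ.symm k)) v
    rw [MulEquiv.apply_symm_apply]
    have h1 : ((φ.symm k : Q) : G) = exnL (h₀ (Multiplicative.toAdd k)) := rfl
    rw [h1, hρ, exn_low_apply]
    have h2 : ∀ i : ZMod 2, ι (ZMod.castHom (dvd_refl 2) K i) = ZMod.castHom (dvd_refl 2) F i := by
      intro i
      have h3 : ι.comp (ZMod.castHom (dvd_refl 2) K) = ZMod.castHom (dvd_refl 2) F :=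
        Subsingleton.elim _ _
      exact congrArg (fun f : ZMod 2 →+* F => f i) h3
    have h4 : ι (h₀ (Multiplicative.toAdd k)) =
        ZMod.castHom (dvd_refl 2) F (Multiplicative.toAdd k).1 +
          ZMod.castHom (dvd_refl 2) F (Multiplicative.toAdd k).2 * ω := by
      show ι (ZMod.castHom (dvd_refl 2) K (Multiplicative.toAdd k).1 +
        ZMod.castHom (dvd_refl 2) K (Multiplicative.toAdd k).2 * ζ) = _
      rw [map_add, map_mul, h2, h2, hζ]
    rw [h4]
    show _ = v + (((0 : F), pen LinearMap.id (ω • LinearMap.id) k v.1) : F × F)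
    have h5 : pen (LinearMap.id : F →ₗ[F] F) (ω • LinearMap.id) k v.1 =
        ZMod.castHom (dvd_refl 2) F (Multiplicative.toAdd k).1 * v.1 +
          ZMod.castHom (dvd_refl 2) F (Multiplicative.toAdd k).2 * (ω * v.1) := rfl
    rw [h5]
    ext
    · simp
    · show _ = v.2 + _
      ring

end Pool.Agent.KFV
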