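import Mathlib
import Pool.Agent.KFV.PDefs

open Representation

namespace Pool.Agent.KFV

variable {F : Type*} [Field F] [CharP F 2]
variable {U W : Type*} [AddCommGroup U] [Module F U] [AddCommGroup W] [Module F W]

section Aux

omit [CharP F 2]

/-- The null vector extended by zero to all integers. -/
def kfuZ (n : ℕ) (v : ℕ → U) (m : ℤ) : U := if 0 ≤ m ∧ m ≤ n then v m.toNat else 0

omit [Module F U] in
theorem kfuZ_neg (n : ℕ) (v : ℕ → U) (m : ℤ) (hm : m < 0) : kfuZ n v m = 0 := by
  unfold kfuZ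
  rw [if_neg]
  omega

omit [Module F U] in
theorem kfuZ_gt (n : ℕ) (v : ℕ → U) (m : ℤ) (hm : (n : ℤ) < m) : kfuZ n v m = 0 := by
  unfold kfuZ
  rw [if_neg]
  omega

omit [Module F U] in
theorem kfuZ_nat (n : ℕ) (v : ℕ → U) (m : ℕ) (hm : m ≤ n) : kfuZ n v (m : ℤ) = v m := by
  unfold kfuZ
  rw [if_pos]
  · simp
  · omega

theorem kfuZ_step (X Y : U →ₗ[F] W) (n : ℕ) (v : ℕ → U) (hv : IsNull X Y n v) (m : ℤ) :
    X (kfuZ n v (m + 1)) = Y (kfuZ n v m) := by
  obtain ⟨h0, hs, hn, -⟩ := hv
  rcases lt_trichotomy m (-1) with h | h | h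
  · rw [kfuZ_neg _ _ _ (by omega), kfuZ_neg _ _ _ (by omega), map_zero, map_zero]
  · subst h
    rw [kfuZ_neg _ _ (-1) (by omega), map_zero]
    have : kfuZ n v (-1 + 1) = v 0 := kfuZ_nat n v 0 (by omega)
    rw [this, h0]
  · obtain ⟨k, rfl⟩ := Int.eq_ofNat_of_zero_le (show 0 ≤ m by omega)
    rcases lt_trichotomy k n with hk | hk | hk
    · rw [show ((k : ℤ) + 1) = ((k + 1 : ℕ) : ℤ) by push_cast; ring,
        kfuZ_nat _ _ _ (by omega), kfuZ_nat _ _ _ (by omega)]
      exact hs k hk
    · subst hk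
      rw [kfuZ_gt _ _ _ (by omega), kfuZ_nat _ _ _ (le_refl _), hn, map_zero]
    · rw [kfuZ_gt _ _ _ (by omega), kfuZ_gt _ _ _ (by omega), map_zero, map_zero]

/-- The linear algebra core: a solution of the homogeneous system has trace zero. -/
theorem kfu_core (X Y : U →ₗ[F] W) (n : ℕ) (hn : 1 ≤ n) (v : ℕ → U) (hv : IsNull X Y n v)
    (hmin : ∀ m < n, ∀ w : ℕ → U, ¬ IsNull X Y m w)
    (a : ℕ → U) (ha0 : a 0 = 0) (han : a n = 0) (c : ℕ → ℕ → F)
    (h : ∀ j < n, X (a (j + 1)) - Y (a j) + ∑ i ∈ Finset.range n, c i j • X (v (i + 1)) = 0) :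
    ∑ i ∈ Finset.range n, c i i = 0 := by
  by_contra hκ
  let w : ℕ → U := fun k => a k + ∑ i ∈ Finset.range n, ∑ l ∈ Finset.range n,
    (c i l * ((if l < k then 1 else 0) - (if i < l then 1 else 0))) •
      kfuZ n v ((k : ℤ) + i - l)
  have hw0 : w 0 = 0 := by
    simp only [w, ha0, zero_add]
    apply Finset.sum_eq_zero
    intro i _
    apply Finset.sum_eq_zero
    intro l _
    by_cases hil : i < l
    · rw [kfuZ_neg _ _ _ (by push_cast; omega), smul_zero]
    · simp [hil]
  have hstep : ∀ k < n, X (w (k + 1)) = Y (w k) := by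
    intro k hk
    have h1 : X (w (k + 1)) = X (a (k + 1)) + ∑ i ∈ Finset.range n, ∑ l ∈ Finset.range n,
        (c i l * ((if l < k + 1 then 1 else 0) - (if i < l then 1 else 0))) •
          Y (kfuZ n v ((k : ℤ) + i - l)) := by
      simp only [w, map_add, map_sum, map_smul]
      congr 1
      refine Finset.sum_congr rfl fun i _ => Finset.sum_congr rfl fun l _ => ?_
      rw [← kfuZ_step X Y n v hv, show ((k + 1 : ℕ) : ℤ) + i - l = (k : ℤ) + i - l + 1 by
        push_cast; ring]
    have h2 : Y (w k) = Y (a k) + ∑ i ∈ Finset.range n, ∑ l ∈ Finset.range n,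
        (c i l * ((if l < k then 1 else 0) - (if i < l then 1 else 0))) •
          Y (kfuZ n v ((k : ℤ) + i - l)) := by
      simp only [w, map_add, map_sum, map_smul]
    have h3 : X (w (k + 1)) - Y (w k) = X (a (k + 1)) - Y (a k) +
        ∑ i ∈ Finset.range n, c i k • X (v (i + 1)) := by
      rw [h1, h2, add_sub_add_comm, ← Finset.sum_sub_distrib]
      congr 1
      refine Finset.sum_congr rfl fun i hi => ?_
      rw [← Finset.sum_sub_distrib]
      have hterm : ∀ l ∈ Finset.range n,
          (c i l * ((if l < k + 1 then 1 else 0) - (if i < l then 1 else 0))) •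
            Y (kfuZ n v ((k : ℤ) + i - l)) -
          (c i l * ((if l < k then 1 else 0) - (if i < l then 1 else 0))) •
            Y (kfuZ n v ((k : ℤ) + i - l)) =
          if l = k then c i k • X (v (i + 1)) else 0 := by
        intro l _
        rw [← sub_smul]
        by_cases hl : l = k
        · subst hl
          have : X (v (i + 1)) = Y (kfuZ n v (i : ℤ)) := by
            rw [kfuZ_nat _ _ _ (by have := Finset.mem_range.mp hi; omega)]
            exact hv.2.1 i (Finset.mem_range.mp hi)
          rw [if_pos rfl, this, show ((l : ℤ) + i - l) = i by ring]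
          congr 1
          rw [if_pos (Nat.lt_succ_self l), if_neg (lt_irrefl l)]
          ring
        · rw [if_neg hl]
          have : (if l < k + 1 then (1 : F) else 0) = if l < k then 1 else 0 := by
            by_cases hlk : l < k
            · rw [if_pos hlk, if_pos (by omega)]
            · rw [if_neg hlk, if_neg (by omega)]
          rw [this, sub_self, zero_smul]
      rw [Finset.sum_congr rfl hterm, Finset.sum_ite_eq' (Finset.range n) k]
      rw [if_pos (Finset.mem_range.mpr hk)]
    rw [h k hk] at h3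
    exact sub_eq_zero.mp h3
  have hwn : w n = (∑ i ∈ Finset.range n, c i i) • v n := by
    simp only [w, han, zero_add]
    rw [Finset.sum_smul]
    refine Finset.sum_congr rfl fun i hi => ?_
    have hterm : ∀ l ∈ Finset.range n,
        (c i l * ((if l < n then 1 else 0) - (if i < l then 1 else 0))) •
          kfuZ n v ((n : ℤ) + i - l) = if l = i then c i i • v n else 0 := by
      intro l hl
      rw [if_pos (Finset.mem_range.mp hl)]
      rcases lt_trichotomy l i with h1 | h1 | h1
      · rw [if_neg (by omega), if_neg (by omega), kfuZ_gt _ _ _ (by omega), smul_zero]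
      · subst h1
        rw [if_neg (by omega), if_pos rfl, show ((n : ℤ) + l - l) = n by ring,
          kfuZ_nat _ _ _ (le_refl _), sub_zero, mul_one]
      · rw [if_pos h1, if_neg (by omega), sub_self, mul_zero, zero_smul]
    rw [Finset.sum_congr rfl hterm, Finset.sum_ite_eq' (Finset.range n) i, if_pos hi]
  apply hmin (n - 1) (by omega) (fun k => w (k + 1))
  refine ⟨?_, ?_, ?_, ?_⟩
  · change X (w (0 + 1)) = 0
    rw [hstep 0 (by omega), hw0, map_zero]
  · intro i hi
    exact hstep (i + 1) (by omega)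
  · change Y (w (n - 1 + 1)) = 0
    rw [Nat.sub_add_cancel hn, hwn, map_smul, hv.2.2.1, smul_zero]
  · change w (n - 1 + 1) ≠ 0
    rw [Nat.sub_add_cancel hn, hwn]
    exact smul_ne_zero hκ hv.2.2.2

end Aux

/-- The key of the splitting: for a null vector of minimal degree `n ≥ 1` there are functionals
`p j` on `W` (`j < n`) with `p j ∘ X = p (j+1) ∘ Y` and `p j (X (v (i+1))) = 1` for `i = j`, `0`
otherwise.

Proof (Fredholm alternative).  Put `v i = 0` for `i > n`.  The system is linear in
`p ∈ (W*)^n`.  If it has no solution there are `u 1, ..., u (n-1) ∈ U` (put `u 0 = u n = 0`) and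
`c i j ∈ F` with `∑ i, c i i ≠ 0` and, for `s j = ∑ i, c i j • v (i+1)`,
`X (u (j+1) + s j) = Y (u j)` for all `j < n`.
Put `t k = u (k+1) + ∑ l ≤ k, ∑ i, c i l • v (i + 1 + k - l)`; then `X (t 0) = 0`,
`X (t k) = Y (t (k-1))` and `t (n-1) = κ • v n + ∑ m ≥ 1, d m • v (n - m)` with
`κ = ∑ i, c i i` and `d m = ∑ (l - i = m), c i l`.
Put `z k = ∑ 1 ≤ m ≤ k+1, d m • v (k+1-m)`; then `X (z 0) = 0`, `X (z k) = Y (z (k-1))`, and
`t - z` is a null vector of degree `n - 1` with last term `κ • v n ≠ 0`. -/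
theorem exists_functionals [FiniteDimensional F U] [FiniteDimensional F W]
    (X Y : U →ₗ[F] W) (n : ℕ) (hn : 1 ≤ n) (v : ℕ → U) (hv : IsNull X Y n v)
    (hmin : ∀ m < n, ∀ w : ℕ → U, ¬ IsNull X Y m w) :
    ∃ p : ℕ → Module.Dual F W, (∀ j, j + 1 < n → (p j) ∘ₗ X = (p (j + 1)) ∘ₗ Y) ∧
      ∀ i < n, ∀ j < n, p j (X (v (i + 1))) = if i = j then 1 else 0 := by
  classical
  let Φ : (Fin n → U) × (Fin n → Fin n → F) →ₗ[F] (Fin n → W) :=
    LinearMap.pi fun j : Fin n =>
      (if h : (j : ℕ) + 1 < n then X ∘ₗ LinearMap.proj (⟨(j : ℕ) + 1, h⟩ : Fin n) ∘ₗ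
          LinearMap.fst F (Fin n → U) (Fin n → Fin n → F) else 0) -
      (if 1 ≤ (j : ℕ) then Y ∘ₗ LinearMap.proj j ∘ₗ
          LinearMap.fst F (Fin n → U) (Fin n → Fin n → F) else 0) +
      ∑ i : Fin n, (LinearMap.toSpanSingleton F W (X (v ((i : ℕ) + 1)))) ∘ₗ
        (LinearMap.proj j : (Fin n → F) →ₗ[F] F) ∘ₗ
        (LinearMap.proj i : (Fin n → Fin n → F) →ₗ[F] (Fin n → F)) ∘ₗ
        LinearMap.snd F (Fin n → U) (Fin n → Fin n → F)
  have hΦ : ∀ a c j, Φ (a, c) j =
      (if h : (j : ℕ) + 1 < n then X (a ⟨(j : ℕ) + 1, h⟩) else 0) -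
      (if 1 ≤ (j : ℕ) then Y (a j) else 0) + ∑ i : Fin n, c i j • X (v ((i : ℕ) + 1)) := by
    intro a c j
    simp only [Φ, LinearMap.pi_apply, LinearMap.add_apply, LinearMap.sub_apply,
      LinearMap.sum_apply, LinearMap.comp_apply, LinearMap.snd_apply, LinearMap.proj_apply,
      LinearMap.toSpanSingleton_apply]
    congr 2
    · split_ifs <;> rfl
    · split_ifs <;> rfl
  let τ : Module.Dual F ((Fin n → U) × (Fin n → Fin n → F)) :=
    ∑ i : Fin n, (LinearMap.proj i : (Fin n → F) →ₗ[F] F) ∘ₗ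
        (LinearMap.proj i : (Fin n → Fin n → F) →ₗ[F] (Fin n → F)) ∘ₗ
        LinearMap.snd F (Fin n → U) (Fin n → Fin n → F)
  have hτ : ∀ a c, τ (a, c) = ∑ i, c i i := by
    intro a c
    simp [τ, LinearMap.sum_apply]
  have hker : τ ∈ (LinearMap.ker Φ).dualAnnihilator := by
    rw [Submodule.mem_dualAnnihilator]
    rintro ⟨a, c⟩ hac
    rw [LinearMap.mem_ker] at hac
    rw [hτ]
    let a' : ℕ → U := fun k => if h : 1 ≤ k ∧ k < n then a ⟨k, h.2⟩ else 0
    let c' : ℕ → ℕ → F := fun i j => if h : i < n ∧ j < n then c ⟨i, h.1⟩ ⟨j, h.2⟩ else 0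
    have key := kfu_core X Y n hn v hv hmin a' (by simp [a']) (by simp [a']) c' ?_
    · rw [Finset.sum_range] at key
      rw [← key]
      refine Finset.sum_congr rfl fun i _ => ?_
      simp [c']
    · intro j hj
      have h1 := congrFun hac ⟨j, hj⟩
      rw [hΦ] at h1
      simp only [Pi.zero_apply] at h1
      rw [Finset.sum_range, ← h1]
      congr 2
      · by_cases h : j + 1 < n
        · simp [a', h]
        · simp [a', h]
      · by_cases h : 1 ≤ j
        · simp [a', h, hj]
        · simp [a', h]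
      · funext i
        simp [c', hj]
  rw [← LinearMap.range_dualMap_eq_dualAnnihilator_ker] at hker
  obtain ⟨P, hP⟩ := hker
  have hP' : ∀ a c, P (Φ (a, c)) = ∑ i, c i i := by
    intro a c
    rw [← hτ a c, ← hP]
    rfl
  refine ⟨fun j => if h : j < n then P ∘ₗ LinearMap.single F (fun _ : Fin n => W) ⟨j, h⟩ else 0,
    ?_, ?_⟩
  · intro j hj
    have hj' : j < n := by omega
    simp only [hj, hj', dite_true]
    ext u
    have h1 := hP' (Pi.single ⟨j + 1, hj⟩ u) 0
    have h2 : Φ (Pi.single ⟨j + 1, hj⟩ u, 0) =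
        Pi.single (⟨j, hj'⟩ : Fin n) (X u) - Pi.single (⟨j + 1, hj⟩ : Fin n) (Y u) := by
      funext k
      rw [hΦ]
      simp only [Pi.zero_apply, zero_smul, Finset.sum_const_zero, add_zero, Pi.sub_apply]
      congr 1
      · by_cases hk : k = ⟨j, hj'⟩
        · subst hk
          simp [hj]
        · rw [Pi.single_eq_of_ne hk]
          split_ifs with h
          · rw [Pi.single_eq_of_ne, map_zero]
            intro hc
            apply hk
            ext
            have := congrArg Fin.val hc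
            simp only at this
            simpa using this
          · rfl
      · by_cases hk : k = ⟨j + 1, hj⟩
        · subst hk
          simp
        · rw [Pi.single_eq_of_ne hk, Pi.single_eq_of_ne hk, map_zero]
          simp
    rw [h2, map_sub] at h1
    simp only [Pi.zero_apply, Finset.sum_const_zero] at h1
    simpa [LinearMap.comp_apply] using sub_eq_zero.mp h1
  · intro i hi j hj
    simp only [hj, dite_true]
    have h1 := hP' 0 (Pi.single ⟨i, hi⟩ (Pi.single ⟨j, hj⟩ 1))
    have h2 : Φ (0, Pi.single ⟨i, hi⟩ (Pi.single ⟨j, hj⟩ 1)) =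
        Pi.single (⟨j, hj⟩ : Fin n) (X (v (i + 1))) := by
      funext k
      rw [hΦ]
      simp only [Pi.zero_apply, map_zero, dite_eq_ite, ite_self, sub_zero, zero_add]
      rw [Finset.sum_eq_single ⟨i, hi⟩]
      · simp only [Pi.single_eq_same]
        by_cases hk : k = ⟨j, hj⟩
        · subst hk
          simp
        · rw [Pi.single_eq_of_ne hk, Pi.single_eq_of_ne hk, zero_smul]
      · intro b _ hb
        rw [Pi.single_eq_of_ne hb]
        simp
      · intro hcon
        exact absurd (Finset.mem_univ _) hcon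
    rw [h2] at h1
    rw [LinearMap.comp_apply, LinearMap.single_apply, h1]
    by_cases hij : i = j
    · subst hij
      rw [if_pos rfl, Finset.sum_eq_single ⟨i, hi⟩]
      · simp
      · intro b _ hb
        rw [Pi.single_eq_of_ne hb]
        simp
      · intro hcon
        exact absurd (Finset.mem_univ _) hcon
    · rw [if_neg hij]
      apply Finset.sum_eq_zero
      intro b _
      by_cases hb : b = ⟨i, hi⟩
      · subst hb
        rw [Pi.single_eq_same, Pi.single_eq_of_ne]
        intro hc
        exact hij (congrArg Fin.val hc)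
      · rw [Pi.single_eq_of_ne hb]
        simp

end Pool.Agent.KFV
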