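import Mathlib
import Pool.Agent.KFV.PDefs

open Representation Polynomial

namespace Pool.Agent.KFV

variable {F : Type*} [Field F] [CharP F 2]
variable {U W : Type*} [AddCommGroup U] [Module F U] [AddCommGroup W] [Module F W]

omit [CharP F 2] in
theorem knu_endo [Infinite F] [FiniteDimensional F U] (A B : U →ₗ[F] U)
    (h : ∀ t : F, ¬ Function.Bijective (A + t • B)) :
    ∃ (n : ℕ) (v : ℕ → U), IsNull A B n v := by
  classical
  let b := Module.finBasis F U
  let MA := LinearMap.toMatrix b b A
  let MB := LinearMap.toMatrix b b B
  let M : Matrix (Fin (Module.finrank F U)) (Fin (Module.finrank F U)) F[X] :=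
    fun i j => C (MA i j) - X * C (MB i j)
  have hdet : M.det = 0 := by
    apply Polynomial.funext
    intro t
    have h1 : eval t M.det = (M.map (evalRingHom t)).det := by
      rw [← coe_evalRingHom, RingHom.map_det]
      rfl
    have h2 : M.map (evalRingHom t) = LinearMap.toMatrix b b (A + (-t) • B) := by
      ext i j
      change eval t (C (MA i j) - X * C (MB i j)) = _
      simp [MA, MB, LinearMap.toMatrix_apply, sub_eq_add_neg]
      ring
    rw [h1, h2, LinearMap.det_toMatrix, eval_zero]
    by_contra hne
    apply h (-t)
    exact (LinearMap.equivOfDetNeZero _ hne).bijective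
  obtain ⟨w, hw0, hw⟩ := Matrix.exists_mulVec_eq_zero_iff.mpr hdet
  let v : ℕ → U := fun i => ∑ j, (w j).coeff i • b j
  have hrepr : ∀ i j, b.repr (v i) j = (w j).coeff i := by
    intro i j
    simp only [v, map_sum, map_smul, Module.Basis.repr_self]
    simp [Finsupp.single_apply]
  have hA : ∀ (T : U →ₗ[F] U) i r, b.repr (T (v i)) r
      = ∑ j, LinearMap.toMatrix b b T r j * (w j).coeff i := by
    intro T i r
    rw [← LinearMap.toMatrix_mulVec_repr b b T (v i)]
    simp only [Matrix.mulVec, dotProduct, hrepr]
  have hrow : ∀ r, ∑ j, (C (MA r j) - X * C (MB r j)) * w j = 0 := by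
    intro r
    have := congrFun hw r
    simpa [Matrix.mulVec, dotProduct, M] using this
  have h0 : A (v 0) = 0 := by
    apply b.repr.injective
    ext r
    rw [hA]
    have := congrArg (fun p => coeff p 0) (hrow r)
    simp only [finsetSum_coeff, sub_mul, coeff_sub, coeff_zero, mul_assoc, coeff_C_mul,
      coeff_X_mul_zero, sub_zero] at this
    simpa using this
  have hs : ∀ i, A (v (i + 1)) = B (v i) := by
    intro i
    apply b.repr.injective
    ext r
    rw [hA, hA]
    have := congrArg (fun p => coeff p (i + 1)) (hrow r)
    simp only [finsetSum_coeff, sub_mul, coeff_sub, coeff_zero, mul_assoc, coeff_C_mul,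
      coeff_X_mul] at this
    rw [Finset.sum_sub_distrib] at this
    exact sub_eq_zero.mp this
  -- the top coefficient
  have hne : ∃ i, v i ≠ 0 := by
    by_contra hcon
    push Not at hcon
    apply hw0
    funext j
    ext i
    rw [← hrepr, hcon i]
    simp
  have hbound : ∀ i, v i ≠ 0 → i ≤ Finset.univ.sup (fun j => (w j).natDegree) := by
    intro i hi
    by_contra hlt
    push Not at hlt
    apply hi
    simp only [v]
    apply Finset.sum_eq_zero
    intro j _
    rw [coeff_eq_zero_of_natDegree_lt, zero_smul]
    exact lt_of_le_of_lt (Finset.le_sup (f := fun j => (w j).natDegree) (Finset.mem_univ j)) hlt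
  obtain ⟨i0, hi0⟩ := hne
  let n := Nat.findGreatest (fun i => v i ≠ 0) (Finset.univ.sup (fun j => (w j).natDegree))
  have hn : v n ≠ 0 := Nat.findGreatest_spec (P := fun i => v i ≠ 0) (hbound i0 hi0) hi0
  have hn1 : v (n + 1) = 0 := by
    by_contra hcon
    have := Nat.le_findGreatest (P := fun i => v i ≠ 0) (hbound _ hcon) hcon
    exact absurd this (by simp [n])
  refine ⟨n, v, h0, fun i _ => hs i, ?_, hn⟩
  rw [← hs n, hn1, map_zero]

/-- If the pencil is not injective at any point of the affine line then it has a null vector.
Choose bases; pad by zero rows if `finrank W < finrank U` to get a square matrix over `F[X]` with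
determinant zero (in the second case the determinant has infinitely many roots), use
`Matrix.exists_mulVec_eq_zero_iff` over `F[X]` and compare coefficients; `n` is the degree of the
polynomial vector. -/
theorem exists_null [Infinite F] [FiniteDimensional F U] [FiniteDimensional F W]
    (X Y : U →ₗ[F] W) (h : Module.finrank F W < Module.finrank F U ∨
      (Module.finrank F W = Module.finrank F U ∧
        ∀ t : F, ¬ Function.Bijective (X + t • Y))) :
    ∃ (n : ℕ) (v : ℕ → U), IsNull X Y n v := by
  classical
  have hle : Module.finrank F W ≤ Module.finrank F U := by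
    rcases h with h | h
    · exact h.le
    · exact h.1.le
  let bU := Module.finBasis F U
  let bW := Module.finBasis F W
  let j : W →ₗ[F] U := bW.constr F (fun i => bU (Fin.castLE hle i))
  have hj : Function.Injective j := by
    have hli : LinearIndependent F (fun i => j (bW i)) := by
      have : (fun i => j (bW i)) = bU ∘ (Fin.castLE hle) := by
        funext i
        simp [j]
      rw [this]
      exact bU.linearIndependent.comp _ (Fin.castLE_injective hle)
    intro x y hxy
    apply bW.repr.injective
    have h1 : ∀ z : W, j z = ∑ i, bW.repr z i • j (bW i) := by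
      intro z
      conv_lhs => rw [← bW.sum_repr z]
      rw [map_sum]
      exact Finset.sum_congr rfl fun i _ => map_smul _ _ _
    have h3 : ∑ i, (bW.repr x i - bW.repr y i) • j (bW i) = 0 := by
      simp only [sub_smul, Finset.sum_sub_distrib]
      rw [← h1, ← h1, hxy, sub_self]
    ext i
    exact sub_eq_zero.mp (Fintype.linearIndependent_iff.mp hli _ h3 i)
  have hend : ∀ t : F, ¬ Function.Bijective ((j ∘ₗ X) + t • (j ∘ₗ Y)) := by
    intro t hb
    have he : (j ∘ₗ X) + t • (j ∘ₗ Y) = j ∘ₗ (X + t • Y) := by
      ext u
      simp
    rw [he] at hb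
    rcases h with h | ⟨heq, h⟩
    · have hsur : Function.Surjective j := by
        intro u
        obtain ⟨x, hx⟩ := hb.2 u
        exact ⟨(X + t • Y) x, hx⟩
      have := LinearMap.finrank_le_finrank_of_surjective hsur
      omega
    · apply h t
      have hinj : Function.Injective (X + t • Y) := by
        intro x y hxy
        apply hb.1
        simp [LinearMap.comp_apply, hxy]
      exact ⟨hinj, (LinearMap.injective_iff_surjective_of_finrank_eq_finrank heq.symm).mp hinj⟩
  obtain ⟨n, v, h0, hs, hn, hne⟩ := knu_endo (j ∘ₗ X) (j ∘ₗ Y) hend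
  refine ⟨n, v, hj (by simpa using h0), fun i hi => hj (by simpa using hs i hi),
    hj (by simpa using hn), hne⟩

end Pool.Agent.KFV
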