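import Mathlib
import Pool.Agent.KFV.PDefs
import Pool.Agent.KFV.PEN
import Pool.Agent.KFV.KNU
import Pool.Agent.KFV.KFU

open Representation

namespace Pool.Agent.KFV

variable {F : Type*} [Field F] [CharP F 2]
variable {U W : Type*} [AddCommGroup U] [Module F U] [AddCommGroup W] [Module F W]

/-- An indecomposable pencil with a null vector is the zigzag pencil.  Proof: take a null vector
of minimal degree `n` (`n ≥ 1` because of `hk`) and the functionals `p`;
`r u = (p 0 (Y u), p 0 (X u), ..., p (n-1) (X u))`, `r' w = (p 0 w, ..., p (n-1) w)` is a morphism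
to the zigzag pencil, with section `e_i ↦ v i`, `f_i ↦ X (v (i+1))`; the composite idempotent is
not zero, hence the identity by `PInd`. -/
theorem zig_of_null [FiniteDimensional F U] [FiniteDimensional F W]
    (X Y : U →ₗ[F] W) (h : PInd X Y) (hk : LinearMap.ker X ⊓ LinearMap.ker Y = ⊥)
    (hnull : ∃ (n : ℕ) (v : ℕ → U), IsNull X Y n v) :
    ∃ (n : ℕ) (e : U ≃ₗ[F] (Fin (n + 1) → F)) (f : W ≃ₗ[F] (Fin n → F)),
      f.toLinearMap ∘ₗ X = LinearMap.funLeft F F Fin.succ ∘ₗ e.toLinearMap ∧
      f.toLinearMap ∘ₗ Y = LinearMap.funLeft F F Fin.castSucc ∘ₗ e.toLinearMap := by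
  classical
  let n := Nat.find hnull
  obtain ⟨v, hv⟩ : ∃ v : ℕ → U, IsNull X Y n v := Nat.find_spec hnull
  have hmin : ∀ m < n, ∀ w : ℕ → U, ¬ IsNull X Y m w := fun m hm w hw =>
    Nat.find_min hnull hm ⟨w, hw⟩
  have hn : 1 ≤ n := by
    by_contra hcon
    have hn0 : n = 0 := by omega
    rw [hn0] at hv
    obtain ⟨h0, -, h1, h2⟩ := hv
    apply h2
    have : v 0 ∈ LinearMap.ker X ⊓ LinearMap.ker Y := ⟨h0, h1⟩
    rw [hk, Submodule.mem_bot] at this
    exact this
  clear_value n
  obtain ⟨p, hp1, hp2⟩ := exists_functionals X Y n hn v hv hmin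
  obtain ⟨hv0, hvs, hvn, hvne⟩ := hv
  let r : U →ₗ[F] (Fin (n + 1) → F) := LinearMap.pi fun i : Fin (n + 1) =>
    if (i : ℕ) = 0 then p 0 ∘ₗ Y else p ((i : ℕ) - 1) ∘ₗ X
  let r' : W →ₗ[F] (Fin n → F) := LinearMap.pi fun j : Fin n => p (j : ℕ)
  let s : (Fin (n + 1) → F) →ₗ[F] U := ∑ i : Fin (n + 1),
    (LinearMap.toSpanSingleton F U (v (i : ℕ))) ∘ₗ (LinearMap.proj i)
  let s' : (Fin n → F) →ₗ[F] W := ∑ i : Fin n,
    (LinearMap.toSpanSingleton F W (X (v ((i : ℕ) + 1)))) ∘ₗ (LinearMap.proj i)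
  have hs : ∀ x, s x = ∑ i : Fin (n + 1), x i • v (i : ℕ) := by
    intro x
    simp [s, LinearMap.sum_apply]
  have hs' : ∀ x, s' x = ∑ i : Fin n, x i • X (v ((i : ℕ) + 1)) := by
    intro x
    simp [s', LinearMap.sum_apply]
  have hr0 : ∀ u (i : Fin (n + 1)), (i : ℕ) = 0 → r u i = p 0 (Y u) := by
    intro u i hi
    simp only [r, LinearMap.pi_apply]
    rw [if_pos hi]
    rfl
  have hr1 : ∀ u (i : Fin (n + 1)), (i : ℕ) ≠ 0 → r u i = p ((i : ℕ) - 1) (X u) := by
    intro u i hi
    simp only [r, LinearMap.pi_apply]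
    rw [if_neg hi]
    rfl
  have hr' : ∀ w j, r' w j = p (j : ℕ) w := fun w j => rfl
  -- morphisms
  have hrX : ∀ u (j : Fin n), r' (X u) j = r u j.succ := by
    intro u j
    rw [hr', hr1 _ _ (by simp)]
    simp
  have hrY : ∀ u (j : Fin n), r' (Y u) j = r u j.castSucc := by
    intro u j
    rw [hr']
    by_cases hj : (j : ℕ) = 0
    · rw [hr0 _ _ (by simpa using hj), hj]
    · rw [hr1 _ _ (by simpa using hj)]
      have h1 := hp1 ((j : ℕ) - 1) (by omega)
      have h2 := LinearMap.congr_fun h1 u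
      simp only [LinearMap.comp_apply] at h2
      rw [show (j : ℕ) - 1 + 1 = j by omega] at h2
      rw [← h2]
      rfl
  have hsX : ∀ x, X (s x) = s' (fun j => x j.succ) := by
    intro x
    rw [hs, hs', map_sum, Fin.sum_univ_succ]
    simp [hv0]
  have hsY : ∀ x, Y (s x) = s' (fun j => x j.castSucc) := by
    intro x
    rw [hs, hs', map_sum, Fin.sum_univ_castSucc]
    have : ∀ i : Fin n, Y (x i.castSucc • v (i.castSucc : ℕ)) =
        x i.castSucc • X (v ((i : ℕ) + 1)) := by
      intro i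
      rw [map_smul, hvs i i.2]
      rfl
    rw [Finset.sum_congr rfl fun i _ => this i]
    simp [hvn]
  have hrs' : ∀ y, r' (s' y) = y := by
    intro y
    funext j
    rw [hr', hs', map_sum, Finset.sum_eq_single j]
    · rw [map_smul, hp2 j j.2 j j.2]
      simp
    · intro i _ hij
      rw [map_smul, hp2 i i.2 j j.2, if_neg (fun hc => hij (Fin.ext hc)), smul_zero]
    · intro hc
      exact absurd (Finset.mem_univ _) hc
  have hYv : ∀ i (_ : i ≤ n), p 0 (Y (v i)) = if i = 0 then 1 else 0 := by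
    intro i hi
    rcases Nat.lt_or_ge i n with hin | hin
    · rw [← hvs i hin, hp2 i hin 0 (by omega)]
    · have : i = n := by omega
      subst this
      rw [hvn, map_zero, if_neg (by omega)]
  have hXv : ∀ i (_ : i ≤ n) k (_ : k < n), p k (X (v i)) = if i = k + 1 then 1 else 0 := by
    intro i hi k hk
    rcases Nat.eq_zero_or_pos i with hi0 | hi0
    · subst hi0
      rw [hv0, map_zero, if_neg (by omega)]
    · obtain ⟨i', rfl⟩ : ∃ i', i = i' + 1 := ⟨i - 1, by omega⟩
      rw [hp2 i' (by omega) k hk]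
      simp
  have hrs : ∀ x, r (s x) = x := by
    intro x
    funext k
    have hkey : ∀ i : Fin (n + 1), r (v (i : ℕ)) k = if i = k then 1 else 0 := by
      intro i
      have hi : (i : ℕ) ≤ n := by omega
      by_cases hk0 : (k : ℕ) = 0
      · rw [hr0 _ _ hk0, hYv _ hi]
        by_cases hik : i = k
        · rw [if_pos (by rw [hik]; exact hk0), if_pos hik]
        · rw [if_neg (fun hc => hik (Fin.ext (by omega))), if_neg hik]
      · rw [hr1 _ _ hk0, hXv _ hi _ (by omega)]
        by_cases hik : i = k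
        · rw [if_pos (by rw [hik]; omega), if_pos hik]
        · rw [if_neg (fun hc => hik (Fin.ext (by omega))), if_neg hik]
    rw [hs, map_sum, Finset.sum_apply, Finset.sum_eq_single k]
    · rw [map_smul, Pi.smul_apply, hkey, if_pos rfl]
      simp
    · intro i _ hik
      rw [map_smul, Pi.smul_apply, hkey, if_neg hik, smul_zero]
    · intro hc
      exact absurd (Finset.mem_univ _) hc
  have hXe : X ∘ₗ (s ∘ₗ r) = (s' ∘ₗ r') ∘ₗ X := by
    ext u
    exact (hsX (r u)).trans (congrArg s' (funext fun j => (hrX u j).symm))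
  have hYe : Y ∘ₗ (s ∘ₗ r) = (s' ∘ₗ r') ∘ₗ Y := by
    ext u
    exact (hsY (r u)).trans (congrArg s' (funext fun j => (hrY u j).symm))
  have hee : (s ∘ₗ r) ∘ₗ (s ∘ₗ r) = s ∘ₗ r := by
    ext u
    simp only [LinearMap.comp_apply, hrs]
  have hff : (s' ∘ₗ r') ∘ₗ (s' ∘ₗ r') = s' ∘ₗ r' := by
    ext u
    simp only [LinearMap.comp_apply, hrs']
  rcases h _ _ hee hff hXe hYe with ⟨h1, -⟩ | ⟨h1, h2⟩
  · exfalso
    have h3 : s (fun _ => 1) = 0 := by
      have := LinearMap.congr_fun h1 (s (fun _ => 1))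
      simp only [LinearMap.comp_apply, hrs, LinearMap.zero_apply] at this
      exact this
    have h4 := hrs (fun _ => 1)
    rw [h3, map_zero] at h4
    exact zero_ne_one (congrFun h4 0)
  · refine ⟨n, { r with
        invFun := s
        left_inv := fun u => LinearMap.congr_fun h1 u
        right_inv := hrs },
      { r' with
        invFun := s'
        left_inv := fun u => LinearMap.congr_fun h2 u
        right_inv := hrs' }, ?_, ?_⟩
    · ext u j
      exact hrX u j
    · ext u j
      exact hrY u j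

/-- Kronecker's theorem for indecomposable pencils.  If `finrank W < finrank U`, or the dimensions
are equal and no `X + t Y` is bijective: `exists_null`, `zig_of_null`, `pairEquiv_of_iso`.  If
`finrank U < finrank W`: the same for the dual pencil (`pInd_dual`; `ker X.dualMap ⊓
ker Y.dualMap = ⊥` follows from `hr`), then `pairEquiv_dual_pencil` and the bidual. -/
theorem kronecker [Infinite F] [FiniteDimensional F U] [FiniteDimensional F W]
    (X Y : U →ₗ[F] W) (h : PInd X Y) (hk : LinearMap.ker X ⊓ LinearMap.ker Y = ⊥)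
    (hr : LinearMap.range X ⊔ LinearMap.range Y = ⊤) :
    (∃ n : ℕ, PairEquiv (pencilRep X Y) (zigRep F n)) ∨
    (∃ n : ℕ, PairEquiv (pencilRep X Y) (zigRep F n).dual) ∨
    (Module.finrank F U = Module.finrank F W ∧ ∃ t : F, Function.Bijective (X + t • Y)) := by
  by_cases hbij : Module.finrank F U = Module.finrank F W ∧
      ∃ t : F, Function.Bijective (X + t • Y)
  · exact Or.inr (Or.inr hbij)
  rcases Nat.lt_or_ge (Module.finrank F U) (Module.finrank F W) with hlt | hge
  · right
    left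
    have hk' : LinearMap.ker X.dualMap ⊓ LinearMap.ker Y.dualMap = ⊥ := by
      rw [eq_bot_iff]
      rintro φ ⟨h1, h2⟩
      simp only [SetLike.mem_coe, LinearMap.mem_ker] at h1 h2
      rw [Submodule.mem_bot]
      ext w
      have hw : w ∈ LinearMap.range X ⊔ LinearMap.range Y := by
        rw [hr]
        trivial
      obtain ⟨_, ⟨a, rfl⟩, _, ⟨b, rfl⟩, rfl⟩ := Submodule.mem_sup.mp hw
      have h3 := LinearMap.congr_fun h1 a
      have h4 := LinearMap.congr_fun h2 b
      simp only [LinearMap.dualMap_apply, LinearMap.zero_apply] at h3 h4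
      rw [map_add, h3, h4]
      simp
    obtain ⟨n, e, f, h1, h2⟩ := zig_of_null X.dualMap Y.dualMap (pInd_dual X Y h) hk'
      (exists_null _ _ (Or.inl (by rwa [Subspace.dual_finrank_eq, Subspace.dual_finrank_eq])))
    refine ⟨n, ?_⟩
    have h3 : PairEquiv (pencilRep X.dualMap Y.dualMap) (zigRep F n) :=
      pairEquiv_of_iso _ _ _ _ e f h1 h2
    exact (pairEquiv_dual_dual (pencilRep X Y)).trans
      (((pairEquiv_dual_pencil X Y).trans h3).dual)
  · left
    have hn : ∃ (n : ℕ) (v : ℕ → U), IsNull X Y n v := by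
      apply exists_null
      rcases Nat.lt_or_ge (Module.finrank F W) (Module.finrank F U) with h1 | h1
      · exact Or.inl h1
      · right
        have heq : Module.finrank F W = Module.finrank F U := le_antisymm hge h1
        refine ⟨heq, fun t ht => hbij ⟨heq.symm, t, ht⟩⟩
    obtain ⟨n, e, f, h1, h2⟩ := zig_of_null X Y h hk hn
    exact ⟨n, pairEquiv_of_iso _ _ _ _ e f h1 h2⟩

end Pool.Agent.KFV
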