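import Mathlib
import Pool.Agent.KFV.Defs
import Pool.Agent.KFV.PDefs
import Pool.Agent.KFV.PEN

open Representation

namespace Pool.Agent.KFV

variable {F : Type*} [Field F] [CharP F 2]
variable {U W : Type*} [AddCommGroup U] [Module F U] [AddCommGroup W] [Module F W]

omit [CharP F 2] in
private theorem shift_apply_zero (n : ℕ) (v : Fin n → F) (j : Fin n) (h : (j : ℕ) = 0) :
    shift F n v j = 0 := by
  simp [shift, h]

omit [CharP F 2] in
private theorem shift_apply_succ (n : ℕ) (v : Fin n → F) (j : ℕ) (h : j + 1 < n) :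
    shift F n v ⟨j + 1, h⟩ = v ⟨j, by omega⟩ := by
  simp [shift]

/-- A nilpotent endomorphism `N` whose only commuting idempotents are `0` and `1` is a single
nilpotent Jordan block. -/
theorem exists_shift [FiniteDimensional F U] (N : U →ₗ[F] U) (hN : IsNilpotent (N : Module.End F U))
    (hind : ∀ e : U →ₗ[F] U, e ∘ₗ e = e → e ∘ₗ N = N ∘ₗ e → e = 0 ∨ e = LinearMap.id) :
    ∃ (n : ℕ) (g : U ≃ₗ[F] (Fin n → F)), g.toLinearMap ∘ₗ N = shift F n ∘ₗ g.toLinearMap := by
  classical
  have hex : ∃ k, (N : Module.End F U) ^ k = 0 := hN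
  obtain ⟨k, hk0, hkmin⟩ : ∃ k, (N : Module.End F U) ^ k = 0 ∧
      ∀ j < k, (N : Module.End F U) ^ j ≠ 0 :=
    ⟨Nat.find hex, Nat.find_spec hex, fun j hj => Nat.find_min hex hj⟩
  rcases Nat.eq_zero_or_pos k with hk | hk
  · subst hk
    have h1 : ∀ u : U, u = 0 := by
      intro u
      have := congrArg (fun f : Module.End F U => f u) hk0
      simpa using this
    have : Subsingleton U := ⟨fun a b => by rw [h1 a, h1 b]⟩
    refine ⟨0, ⟨0, 0, fun u => Subsingleton.elim _ _, fun v => Subsingleton.elim _ _⟩, ?_⟩
    ext u i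
    exact i.elim0
  · obtain ⟨m, rfl⟩ : ∃ m, k = m + 1 := ⟨k - 1, by omega⟩
    have hm : (N : Module.End F U) ^ m ≠ 0 := hkmin m (by omega)
    obtain ⟨e0, he0⟩ : ∃ e0 : U, ((N : Module.End F U) ^ m) e0 ≠ 0 := by
      by_contra hcon
      push Not at hcon
      exact hm (LinearMap.ext hcon)
    obtain ⟨f0, hf0⟩ : ∃ f0 : Module.Dual F U, f0 (((N : Module.End F U) ^ m) e0) ≠ 0 := by
      by_contra hcon
      push Not at hcon
      exact he0 ((Module.forall_dual_apply_eq_zero_iff F _).1 hcon)
    obtain ⟨f, hf⟩ : ∃ f : Module.Dual F U, f (((N : Module.End F U) ^ m) e0) = 1 :=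
      ⟨(f0 (((N : Module.End F U) ^ m) e0))⁻¹ • f0, by
        rw [LinearMap.smul_apply, smul_eq_mul, inv_mul_cancel₀ hf0]⟩
    have hbig : ∀ j, m + 1 ≤ j → ((N : Module.End F U) ^ j) = 0 := by
      intro j hj
      exact pow_eq_zero_of_le hj hk0
    -- the two maps
    let r : U →ₗ[F] (Fin (m + 1) → F) :=
      LinearMap.pi fun i => f ∘ₗ ((N : Module.End F U) ^ (m - (i : ℕ)))
    let s : (Fin (m + 1) → F) →ₗ[F] U :=
      ∑ i : Fin (m + 1), (LinearMap.toSpanSingleton F U (((N : Module.End F U) ^ (i : ℕ)) e0)) ∘ₗ
        LinearMap.proj i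
    have hr : ∀ u i, r u i = f (((N : Module.End F U) ^ (m - (i : ℕ))) u) := fun u i => rfl
    have hs : ∀ v, s v = ∑ i : Fin (m + 1), v i • (((N : Module.End F U) ^ (i : ℕ)) e0) := by
      intro v
      simp only [s, LinearMap.sum_apply, LinearMap.comp_apply, LinearMap.proj_apply,
        LinearMap.toSpanSingleton_apply]
    have hrN : r ∘ₗ N = shift F (m + 1) ∘ₗ r := by
      ext u i
      rw [LinearMap.comp_apply, LinearMap.comp_apply, hr]
      obtain ⟨i, hi⟩ := i
      cases i with
      | zero =>
        rw [shift_apply_zero _ _ _ rfl]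
        have h1 : ((N : Module.End F U) ^ (m - 0)) (N u) = ((N : Module.End F U) ^ (m + 1)) u := by
          rw [Nat.sub_zero, pow_succ]; rfl
        show f (((N : Module.End F U) ^ (m - 0)) (N u)) = 0
        rw [h1, hk0, LinearMap.zero_apply, map_zero]
      | succ i =>
        rw [shift_apply_succ _ _ _ hi, hr]
        show f (((N : Module.End F U) ^ (m - (i + 1))) (N u)) =
          f (((N : Module.End F U) ^ (m - i)) u)
        have h1 : ((N : Module.End F U) ^ (m - i)) u =
            ((N : Module.End F U) ^ (m - (i + 1))) (N u) := by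
          have h2 : m - i = (m - (i + 1)) + 1 := by omega
          rw [h2, pow_succ]; rfl
        rw [h1]
    have hsN : s ∘ₗ shift F (m + 1) = N ∘ₗ s := by
      apply LinearMap.ext
      intro v
      rw [LinearMap.comp_apply, LinearMap.comp_apply, hs, hs, map_sum, Fin.sum_univ_succ,
        shift_apply_zero _ _ _ rfl, zero_smul, zero_add, Fin.sum_univ_castSucc (n := m)]
      have h1 : N (v (Fin.last m) • ((N : Module.End F U) ^ ((Fin.last m : Fin (m + 1)) : ℕ)) e0)
          = 0 := by
        rw [map_smul, Fin.val_last]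
        have : N (((N : Module.End F U) ^ m) e0) = ((N : Module.End F U) ^ (m + 1)) e0 := by
          rw [pow_succ']; rfl
        rw [this, hk0, LinearMap.zero_apply, smul_zero]
      rw [h1, add_zero]
      refine Finset.sum_congr rfl fun i _ => ?_
      have h2 : shift F (m + 1) v i.succ = v i.castSucc :=
        shift_apply_succ (m + 1) v (i : ℕ) (by have := i.2; omega)
      rw [h2, map_smul, Fin.val_succ, Fin.val_castSucc, pow_succ']
      rfl
    -- the composite is injective
    have hinj : Function.Injective (r ∘ₗ s) := by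
      rw [← LinearMap.ker_eq_bot, LinearMap.ker_eq_bot']
      intro v hv
      by_contra hne
      have hex2 : ∃ j, ∃ h : j < m + 1, v ⟨j, h⟩ ≠ 0 := by
        by_contra hcon
        push Not at hcon
        exact hne (funext fun i => hcon i i.2)
      obtain ⟨hj, hvj⟩ := Nat.find_spec hex2
      have hmin := fun i (hi : i < Nat.find hex2) => Nat.find_min hex2 hi
      set j := Nat.find hex2 with hjdef
      have h0 := congrFun hv ⟨j, hj⟩
      rw [LinearMap.comp_apply, hr, hs, map_sum, map_sum, Pi.zero_apply,
        Finset.sum_eq_single ⟨j, hj⟩] at h0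
      · rw [map_smul, map_smul] at h0
        have h1 : ((N : Module.End F U) ^ (m - j)) (((N : Module.End F U) ^ j) e0) =
            ((N : Module.End F U) ^ m) e0 := by
          have h2 : m = (m - j) + j := by omega
          conv_rhs => rw [h2, pow_add]
          rfl
        change v ⟨j, hj⟩ • f (((N : Module.End F U) ^ (m - j)) (((N : Module.End F U) ^ j) e0)) = 0
          at h0
        rw [h1, hf, smul_eq_mul, mul_one] at h0
        exact hvj h0
      · intro i _ hij
        rw [map_smul, map_smul]
        rcases lt_or_gt_of_ne (fun h => hij (Fin.ext h) : (i : ℕ) ≠ j) with h | h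
        · have := hmin i h
          push Not at this
          rw [this i.2, zero_smul]
        · have h1 : ((N : Module.End F U) ^ (m - j)) (((N : Module.End F U) ^ (i : ℕ)) e0) =
              ((N : Module.End F U) ^ ((m - j) + i)) e0 := by
            rw [pow_add]; rfl
          change v i • f (((N : Module.End F U) ^ (m - j)) (((N : Module.End F U) ^ (i : ℕ)) e0)) = 0
          rw [h1, hbig _ (by omega), LinearMap.zero_apply, map_zero, smul_zero]
      · intro h
        exact absurd (Finset.mem_univ _) h
    let A : (Fin (m + 1) → F) ≃ₗ[F] (Fin (m + 1) → F) :=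
      LinearEquiv.ofInjectiveEndo (r ∘ₗ s) hinj
    have hA : ∀ v, A v = r (s v) := fun v => rfl
    have hA2 : ∀ v, r (s (A.symm v)) = v := fun v => by rw [← hA, A.apply_symm_apply]
    have hAS : ∀ v, A (shift F (m + 1) v) = shift F (m + 1) (A v) := by
      intro v
      rw [hA, hA]
      have h1 := congrArg (fun g : (Fin (m + 1) → F) →ₗ[F] U => g v) hsN
      have h2 := congrArg (fun g : U →ₗ[F] (Fin (m + 1) → F) => g (s v)) hrN
      simp only [LinearMap.comp_apply] at h1 h2
      rw [h1, h2]
    have hAS' : ∀ v, A.symm (shift F (m + 1) v) = shift F (m + 1) (A.symm v) := by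
      intro v
      apply A.injective
      rw [A.apply_symm_apply, hAS, A.apply_symm_apply]
    have hsN' : ∀ v, s (shift F (m + 1) v) = N (s v) := fun v =>
      congrArg (fun g : (Fin (m + 1) → F) →ₗ[F] U => g v) hsN
    have hrN' : ∀ u, r (N u) = shift F (m + 1) (r u) := fun u =>
      congrArg (fun g : U →ₗ[F] (Fin (m + 1) → F) => g u) hrN
    have key := hind (s ∘ₗ A.symm.toLinearMap ∘ₗ r)
      (by
        apply LinearMap.ext
        intro u
        simp only [LinearMap.comp_apply, LinearEquiv.coe_coe]
        rw [hA2])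
      (by
        apply LinearMap.ext
        intro u
        simp only [LinearMap.comp_apply, LinearEquiv.coe_coe]
        rw [hrN', hAS', hsN'])
    rcases key with key | key
    · exfalso
      have h1 : ∀ v, v = (0 : Fin (m + 1) → F) := by
        intro v
        have h2 := congrArg (fun g : U →ₗ[F] U => r (g (s v))) key
        simp only [LinearMap.comp_apply, LinearEquiv.coe_coe, LinearMap.zero_apply, map_zero] at h2
        rw [hA2] at h2
        exact hinj (by rw [LinearMap.comp_apply, h2, map_zero])
      have h2 := congrFun (h1 (fun _ => 1)) 0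
      simp at h2
    · have hleft : ∀ u, s (A.symm (r u)) = u := by
        intro u
        have h2 := congrArg (fun g : U →ₗ[F] U => g u) key
        simpa only [LinearMap.comp_apply, LinearEquiv.coe_coe, LinearMap.id_apply] using h2
      refine ⟨m + 1, { r with
        invFun := fun v => s (A.symm v)
        left_inv := hleft
        right_inv := hA2 }, ?_⟩
      exact hrN

omit [CharP F 2] in
/-- Fitting: an endomorphism which is not injective and whose only commuting idempotents are `0`
and `1` is nilpotent. -/
private theorem nilpotent_of_not_injective [FiniteDimensional F U] (T : Module.End F U)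
    (hT : ¬ Function.Injective T)
    (hind : ∀ e : U →ₗ[F] U, e ∘ₗ e = e → e ∘ₗ T = T ∘ₗ e → e = 0 ∨ e = LinearMap.id) :
    IsNilpotent T := by
  obtain ⟨k, hk⟩ := Filter.eventually_atTop.1 (LinearMap.eventually_isCompl_ker_pow_range_pow T)
  have hc : IsCompl (LinearMap.ker (T ^ (k + 1))) (LinearMap.range (T ^ (k + 1))) :=
    hk (k + 1) (by omega)
  set e := (LinearMap.ker (T ^ (k + 1))).projection _ hc with he
  have hidem : e ∘ₗ e = e := Submodule.isIdempotentElem_projection hc
  have hcomm : e ∘ₗ T = T ∘ₗ e := by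
    apply LinearMap.ext
    intro u
    rw [LinearMap.comp_apply, LinearMap.comp_apply]
    have hTk : ∀ x, (T ^ (k + 1)) (T x) = T ((T ^ (k + 1)) x) := by
      intro x
      have : T ^ (k + 1) * T = T * T ^ (k + 1) := by rw [← pow_succ, ← pow_succ']
      exact congrArg (fun g : Module.End F U => g x) this
    have h1 : e u ∈ LinearMap.ker (T ^ (k + 1)) := Submodule.projection_apply_mem hc u
    have h2 : u - e u ∈ LinearMap.range (T ^ (k + 1)) := Submodule.sub_projection_mem hc u
    have h3 : T (e u) ∈ LinearMap.ker (T ^ (k + 1)) := by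
      rw [LinearMap.mem_ker] at h1 ⊢
      rw [hTk, h1, map_zero]
    have h4 : T (u - e u) ∈ LinearMap.range (T ^ (k + 1)) := by
      obtain ⟨x, hx⟩ := h2
      exact ⟨T x, by rw [hTk, hx]⟩
    have h5 : T u = T (e u) + T (u - e u) := by rw [← map_add, add_sub_cancel]
    rw [h5, map_add, (Submodule.projection_eq_self_iff hc _).2 h3,
      (Submodule.projection_apply_eq_zero_iff hc).2 h4, add_zero]
  rcases hind e hidem hcomm with h | h
  · exfalso
    apply hT
    rw [← LinearMap.ker_eq_bot, LinearMap.ker_eq_bot']
    intro u hu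
    have h1 : u ∈ LinearMap.ker (T ^ (k + 1)) := by
      rw [LinearMap.mem_ker, pow_succ]
      change (T ^ k) (T u) = 0
      rw [hu, map_zero]
    have h2 := (Submodule.projection_eq_self_iff hc _).2 h1
    rw [← he, h, LinearMap.zero_apply] at h2
    exact h2.symm
  · refine ⟨k + 1, LinearMap.ext fun u => ?_⟩
    have h1 : e u ∈ LinearMap.ker (T ^ (k + 1)) := Submodule.projection_apply_mem hc u
    rw [h, LinearMap.id_apply, LinearMap.mem_ker] at h1
    rw [h1, LinearMap.zero_apply]

omit [CharP F 2] in
/-- The idempotents of `E⁻¹ Y` for an indecomposable pencil `(X, Y)` with `E = X + t Y`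
bijective. -/
private theorem idem_of_pInd (X Y : U →ₗ[F] W) (h : PInd X Y) (t : F) (E : U ≃ₗ[F] W)
    (hE : ∀ u, E u = X u + t • Y u) (e : U →ₗ[F] U) (he : e ∘ₗ e = e)
    (hc : ∀ u, e (E.symm (Y u)) = E.symm (Y (e u))) : e = 0 ∨ e = LinearMap.id := by
  have hY : Y ∘ₗ e = (E.toLinearMap ∘ₗ e ∘ₗ E.symm.toLinearMap) ∘ₗ Y := by
    apply LinearMap.ext
    intro u
    simp only [LinearMap.comp_apply, LinearEquiv.coe_coe]
    rw [hc, E.apply_symm_apply]
  have hX : X ∘ₗ e = (E.toLinearMap ∘ₗ e ∘ₗ E.symm.toLinearMap) ∘ₗ X := by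
    apply LinearMap.ext
    intro u
    simp only [LinearMap.comp_apply, LinearEquiv.coe_coe]
    have h1 : X u = E u - t • Y u := by rw [hE]; abel
    have h2 : X (e u) = E (e u) - t • Y (e u) := by rw [hE]; abel
    rw [h1, map_sub, map_sub, E.symm_apply_apply, map_smul, map_smul, hc, map_sub, map_smul,
      E.apply_symm_apply, h2]
  have hf : (E.toLinearMap ∘ₗ e ∘ₗ E.symm.toLinearMap) ∘ₗ
      (E.toLinearMap ∘ₗ e ∘ₗ E.symm.toLinearMap) = E.toLinearMap ∘ₗ e ∘ₗ E.symm.toLinearMap := by
    apply LinearMap.ext
    intro w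
    simp only [LinearMap.comp_apply, LinearEquiv.coe_coe]
    rw [E.symm_apply_apply]
    exact congrArg E (congrArg (fun g : U →ₗ[F] U => g (E.symm w)) he)
  rcases h e _ he hf hX hY with h1 | h1
  · exact Or.inl h1.1
  · exact Or.inr h1.1

omit [CharP F 2] in
private theorem pInd_swap (X Y : U →ₗ[F] W) (h : PInd X Y) : PInd Y X :=
  fun e f he hf h1 h2 => h e f he hf h2 h1

omit [CharP F 2] in
/-- A linear endomorphism of a nonzero finite-dimensional space over an algebraically closed field
whose only commuting idempotents are `0` and `1` is a scalar plus a nilpotent map. -/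
private theorem exists_scalar_add_nilpotent [IsAlgClosed F] [FiniteDimensional F U]
    (L : U →ₗ[F] U)
    (hind : ∀ e : U →ₗ[F] U, e ∘ₗ e = e → (∀ u, e (L u) = L (e u)) → e = 0 ∨ e = LinearMap.id) :
    ∃ (c : F) (N : U →ₗ[F] U), IsNilpotent (N : Module.End F U) ∧ L = c • LinearMap.id + N := by
  rcases subsingleton_or_nontrivial U with hU | hU
  · refine ⟨0, 0, IsNilpotent.zero, ?_⟩
    apply LinearMap.ext
    intro u
    exact Subsingleton.elim _ _
  · obtain ⟨c, hc⟩ := Module.End.exists_eigenvalue (K := F) (V := U) L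
    obtain ⟨v, hv⟩ := hc.exists_hasEigenvector
    refine ⟨c, L - c • LinearMap.id, ?_, ?_⟩
    · apply nilpotent_of_not_injective
      · intro hinj
        apply hv.2
        apply hinj
        rw [map_zero, LinearMap.sub_apply, LinearMap.smul_apply, LinearMap.id_apply,
          hv.apply_eq_smul, sub_self]
      · intro e he hcomm
        apply hind e he
        intro u
        have h1 := congrArg (fun g : U →ₗ[F] U => g u) hcomm
        simp only [LinearMap.comp_apply, LinearMap.sub_apply, LinearMap.smul_apply,
          LinearMap.id_apply, map_sub, map_smul] at h1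
        exact sub_left_injective h1
    · abel

/-- Normal form of an indecomposable pencil with `X` bijective. -/
private theorem normal_of_bij [IsAlgClosed F] [FiniteDimensional F U]
    (X Y : U →ₗ[F] W) (h : PInd X Y) (hX : Function.Bijective X) :
    ∃ (n : ℕ) (c : F), PairEquiv (pencilRep X Y)
      (pencilRep (LinearMap.id : (Fin n → F) →ₗ[F] (Fin n → F))
        (c • LinearMap.id + shift F n)) := by
  set E : U ≃ₗ[F] W := LinearEquiv.ofBijective X hX with hE
  have hEX : ∀ u, E u = X u := fun u => rfl
  have hind := idem_of_pInd X Y h 0 E (fun u => by rw [hEX, zero_smul, add_zero])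
  obtain ⟨c, N, hN, hL⟩ := exists_scalar_add_nilpotent (E.symm.toLinearMap ∘ₗ Y)
    (fun e he hc => hind e he hc)
  have hL' : ∀ u, E.symm (Y u) = c • u + N u := fun u =>
    congrArg (fun g : U →ₗ[F] U => g u) hL
  obtain ⟨n, g, hg⟩ := exists_shift N hN (fun e he hc => hind e he (fun u => by
    have h1 := congrArg (fun g : U →ₗ[F] U => g u) hc
    simp only [LinearMap.comp_apply] at h1
    rw [hL', hL', map_add, map_smul, h1]))
  have hg' : ∀ u, g (N u) = shift F n (g u) := fun u =>
    congrArg (fun k : U →ₗ[F] (Fin n → F) => k u) hg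
  refine ⟨n, c, pairEquiv_of_iso X Y _ _ g (E.symm.trans g) ?_ ?_⟩
  · apply LinearMap.ext
    intro u
    simp only [LinearMap.comp_apply, LinearEquiv.coe_coe, LinearEquiv.trans_apply,
      LinearMap.id_apply]
    rw [← hEX, E.symm_apply_apply]
  · apply LinearMap.ext
    intro u
    simp only [LinearMap.comp_apply, LinearEquiv.coe_coe, LinearEquiv.trans_apply,
      LinearMap.id_apply, LinearMap.add_apply, LinearMap.smul_apply]
    rw [hL', map_add, map_smul, hg']

/-- Normal form of a regular indecomposable pencil. -/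
theorem regular_normal [IsAlgClosed F] [FiniteDimensional F U] [FiniteDimensional F W]
    (X Y : U →ₗ[F] W) (h : PInd X Y) (t : F) (ht : Function.Bijective (X + t • Y)) :
    ∃ (n : ℕ) (c : F), c ≠ 1 ∧ PairEquiv (pencilRep X Y)
      (pencilRep (LinearMap.id : (Fin n → F) →ₗ[F] (Fin n → F))
        (c • LinearMap.id + shift F n)) := by
  obtain ⟨n, c, hc⟩ : ∃ (n : ℕ) (c : F), PairEquiv (pencilRep X Y)
      (pencilRep (LinearMap.id : (Fin n → F) →ₗ[F] (Fin n → F))
        (c • LinearMap.id + shift F n)) := by
    set E : U ≃ₗ[F] W := LinearEquiv.ofBijective (X + t • Y) ht with hE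
    have hEX : ∀ u, E u = X u + t • Y u := fun u => rfl
    obtain ⟨c, N, hN, hL⟩ := exists_scalar_add_nilpotent (E.symm.toLinearMap ∘ₗ Y)
      (idem_of_pInd X Y h t E hEX)
    have hL' : ∀ u, E.symm (Y u) = c • u + N u := fun u =>
      congrArg (fun g : U →ₗ[F] U => g u) hL
    have hYL : Y = E.toLinearMap ∘ₗ (c • LinearMap.id + N) := by
      apply LinearMap.ext
      intro u
      simp only [LinearMap.comp_apply, LinearEquiv.coe_coe, LinearMap.add_apply,
        LinearMap.smul_apply, LinearMap.id_apply]
      rw [← hL', E.apply_symm_apply]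
    have hXL : X = E.toLinearMap ∘ₗ ((1 - t * c) • LinearMap.id - t • N) := by
      apply LinearMap.ext
      intro u
      have h1 : X u = E u - t • Y u := by rw [hEX]; abel
      have h2 : Y u = E (c • u + N u) := by rw [← hL', E.apply_symm_apply]
      simp only [LinearMap.comp_apply, LinearEquiv.coe_coe, LinearMap.sub_apply,
        LinearMap.smul_apply, LinearMap.id_apply]
      rw [h1, h2, ← map_smul, ← map_sub]
      congr 1
      rw [smul_add, smul_smul, sub_smul, one_smul]
      abel
    -- a scalar plus a nilpotent map is bijective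
    have hunit : ∀ (a : F) (M : U →ₗ[F] U), a ≠ 0 → IsNilpotent (M : Module.End F U) →
        Function.Bijective (E.toLinearMap ∘ₗ (a • LinearMap.id + M)) := by
      intro a M ha hM
      have h1 : IsUnit ((a • (1 : Module.End F U)) + M) := by
        apply IsNilpotent.isUnit_add_left_of_commute hM
        · exact (isUnit_one (M := Module.End F U)).smul (Units.mk0 a ha)
        · exact (Commute.one_right _).smul_right _
      have h2 : Function.Bijective ((a • (1 : Module.End F U)) + M : Module.End F U) :=
        (Module.End.isUnit_iff _).1 h1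
      exact E.bijective.comp h2
    by_cases h0 : 1 - t * c = 0
    · have hc0 : c ≠ 0 := by
        rintro rfl
        rw [mul_zero, sub_zero] at h0
        exact one_ne_zero h0
      have hY : Function.Bijective Y := by
        rw [hYL]; exact hunit c N hc0 hN
      obtain ⟨n, c', hc'⟩ := normal_of_bij Y X (pInd_swap X Y h) hY
      exact ⟨n, c', (pairEquiv_swap X Y).trans hc'⟩
    · have hX : Function.Bijective X := by
        rw [hXL, sub_eq_add_neg]
        refine hunit _ _ h0 ?_
        rw [← neg_smul]
        exact hN.smul _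
      exact normal_of_bij X Y h hX
  by_cases h1 : c = 1
  · refine ⟨n, 0, zero_ne_one, hc.trans ?_⟩
    have h2 := pairEquiv_shear (LinearMap.id : (Fin n → F) →ₗ[F] (Fin n → F))
      (c • LinearMap.id + shift F n)
    have h3 : (LinearMap.id : (Fin n → F) →ₗ[F] (Fin n → F)) + (c • LinearMap.id + shift F n) =
        (0 : F) • LinearMap.id + shift F n := by
      rw [h1, one_smul, zero_smul, zero_add, ← add_assoc]
      have h4 : (LinearMap.id : (Fin n → F) →ₗ[F] (Fin n → F)) + LinearMap.id = 0 := by
        rw [← two_smul F, CharTwo.two_eq_zero, zero_smul]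
      rw [h4, zero_add]
    rw [h3] at h2
    exact h2
  · exact ⟨n, c, h1, hc⟩

end Pool.Agent.KFV
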