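import Mathlib
import Pool.Agent.KFV.Defs
import Pool.Agent.KFV.CNG
import Pool.Agent.KFV.PEN

open Representation

namespace Pool.Agent.KFV

theorem sdu_inv_finrank {F P P' V V' : Type*} [Field F] [Group P] [Group P'] [AddCommGroup V]
    [Module F V] [AddCommGroup V'] [Module F V'] {σ : Representation F P V}
    {σ' : Representation F P' V'} (h : PairEquiv σ σ') :
    Module.finrank F (invariants σ) = Module.finrank F (invariants σ') := by
  obtain ⟨φ, ⟨e⟩⟩ := h
  have he : ∀ g v, e.toLinearEquiv (σ g v) = σ' (φ g) (e.toLinearEquiv v) := by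
    intro g v
    exact LinearMap.congr_fun (e.isIntertwining' g) v
  have hmap : (invariants σ).map e.toLinearEquiv.toLinearMap = invariants σ' := by
    ext w
    rw [Submodule.mem_map, mem_invariants]
    constructor
    · rintro ⟨v, hv, rfl⟩ g
      rw [mem_invariants] at hv
      obtain ⟨g', rfl⟩ := φ.surjective g
      change σ' (φ g') (e.toLinearEquiv v) = e.toLinearEquiv v
      rw [← he, hv]
    · intro hw
      refine ⟨e.toLinearEquiv.symm w, ?_, e.toLinearEquiv.apply_symm_apply w⟩
      rw [mem_invariants]
      intro g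
      apply e.toLinearEquiv.injective
      rw [he, e.toLinearEquiv.apply_symm_apply, hw]
  rw [← hmap]
  exact (LinearEquiv.finrank_map_eq e.toLinearEquiv _).symm

variable {F : Type*} [Field F] [CharP F 2]

theorem sdu_mem_inv {U W : Type*} [AddCommGroup U] [Module F U] [AddCommGroup W] [Module F W]
    (X Y : U →ₗ[F] W) (x : U × W) :
    x ∈ invariants (pencilRep X Y) ↔ X x.1 = 0 ∧ Y x.1 = 0 := by
  rw [mem_invariants]
  have hact : ∀ k : K4, pencilRep X Y k x = (x.1, x.2 + pen X Y k x.1) := by
    intro k
    ext <;> simp [pencilRep]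
  constructor
  · intro h
    have h1 := h (Multiplicative.ofAdd (1, 0))
    have h2 := h (Multiplicative.ofAdd (0, 1))
    rw [hact] at h1 h2
    have h1' := congrArg Prod.snd h1
    have h2' := congrArg Prod.snd h2
    simp only [pen, toAdd_ofAdd, map_one, map_zero, one_smul, zero_smul, add_zero, zero_add,
      add_eq_left] at h1' h2'
    exact ⟨h1', h2'⟩
  · rintro ⟨h1, h2⟩ k
    rw [hact]
    have : pen X Y k x.1 = 0 := by
      simp [pen, h1, h2]
    rw [this, add_zero]

theorem sdu_finrank_inv {U W : Type*} [AddCommGroup U] [Module F U] [AddCommGroup W] [Module F W]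
    (X Y : U →ₗ[F] W) (hXY : ∀ v, X v = 0 → Y v = 0 → v = 0) :
    Module.finrank F (invariants (pencilRep X Y)) = Module.finrank F W := by
  let f : invariants (pencilRep X Y) →ₗ[F] W := (LinearMap.snd F U W) ∘ₗ (Submodule.subtype _)
  have hf : Function.Bijective f := by
    constructor
    · rintro ⟨x, hx⟩ ⟨y, hy⟩ hxy
      rw [sdu_mem_inv] at hx hy
      have h1 : x.1 = 0 := hXY _ hx.1 hx.2
      have h2 : y.1 = 0 := hXY _ hy.1 hy.2
      apply Subtype.ext
      exact Prod.ext (h1.trans h2.symm) hxy
    · intro w
      refine ⟨⟨(0, w), ?_⟩, rfl⟩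
      rw [sdu_mem_inv]
      simp
  exact (LinearEquiv.ofBijective f hf).finrank_eq

/-- The zigzag representations of dimension greater than one are not equivalent to their duals
(the fixed spaces have dimensions `n` and `n + 1`). -/
theorem zig_not_selfdual (n : ℕ) (h : PairEquiv (zigRep F n) (zigRep F n).dual) : n = 0 := by
  by_contra hn
  have h' := sdu_inv_finrank (h.trans (pairEquiv_dual_pencil _ _))
  have e1 : Module.finrank F (invariants (zigRep F n)) = n := by
    rw [zigRep, sdu_finrank_inv]
    · simp
    · intro v h1 h2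
      funext j
      rw [Pi.zero_apply]
      have h1' : ∀ i : Fin n, v i.succ = 0 := fun i => congrFun h1 i
      have h2' : ∀ i : Fin n, v i.castSucc = 0 := fun i => congrFun h2 i
      rcases Fin.eq_zero_or_eq_succ j with hj | ⟨i, hj⟩
      · rw [hj]
        exact h2' ⟨0, Nat.pos_of_ne_zero hn⟩
      · rw [hj]
        exact h1' i
  have e2 : Module.finrank F (invariants (pencilRep (LinearMap.funLeft F F (Fin.succ (n := n))).dualMap
      (LinearMap.funLeft F F (Fin.castSucc (n := n))).dualMap)) = n + 1 := by
    rw [sdu_finrank_inv]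
    · rw [Subspace.dual_finrank_eq]
      simp
    · intro v h1 _
      have hs := LinearMap.funLeft_surjective_of_injective F F (Fin.succ (n := n))
        (Fin.succ_injective n)
      apply LinearMap.ext
      intro w
      obtain ⟨u, rfl⟩ := hs w
      exact LinearMap.congr_fun h1 u
  rw [e1, e2] at h'
  omega

/-- The zigzag representation with `n = 0` is the trivial one. -/
theorem zig_zero : PairEquiv (zigRep F 0) (Representation.trivial F K4 F) := by
  refine ⟨MulEquiv.refl _, ⟨Representation.Equiv.mk ?_ ?_⟩⟩
  · exact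
      { toFun := fun x => x.1 0
        invFun := fun c => (fun _ => c, 0)
        map_add' := fun _ _ => rfl
        map_smul' := fun _ _ => rfl
        left_inv := by
          rintro ⟨v, w⟩
          refine Prod.ext ?_ (Subsingleton.elim _ _)
          funext i
          have hi : i = 0 := Fin.ext (by omega)
          rw [hi]
        right_inv := fun _ => rfl }
  · intro g
    apply LinearMap.ext
    rintro ⟨v, w⟩
    simp [zigRep, pencilRep]

theorem nat_not_trivial (ω : F) :
    ¬ PairEquiv (natRep ω) (Representation.trivial F K4 F) := by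
  rintro ⟨φ, ⟨e⟩⟩
  have h := e.toLinearEquiv.finrank_eq
  rw [Module.finrank_prod, Module.finrank_self] at h
  omega

theorem nat_unique (ω ω' : F) (h : ω ^ 2 + ω + 1 = 0) (h' : ω' ^ 2 + ω' + 1 = 0) :
    PairEquiv (natRep ω) (natRep ω') := by
  have h2 : (2 : F) = 0 := CharTwo.two_eq_zero
  have hp : (ω' + ω) * (ω' + ω + 1) = 0 := by
    linear_combination h + h' + (ω * ω' - 1) * h2
  rcases mul_eq_zero.1 hp with h0 | h0
  · have : ω' = ω := by linear_combination h0 - ω * h2
    rw [this]
    exact PairEquiv.refl _
  · have : ω' = 1 + ω := by linear_combination h0 - (ω + 1) * h2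
    have hs := pairEquiv_shear (LinearMap.id : F →ₗ[F] F) (ω • LinearMap.id)
    have e : (LinearMap.id : F →ₗ[F] F) + ω • LinearMap.id = ω' • LinearMap.id := by
      rw [this, add_smul, one_smul]
    rw [e] at hs
    exact hs

end Pool.Agent.KFV
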