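import Mathlib
import Pool.Agent.KFV.Defs
import Pool.Agent.KFV.TRA
import Pool.Agent.KFV.KFG
import Pool.Agent.KFV.FIT
import Pool.Agent.KFV.CNG
import Pool.Agent.KFV.PEN

open Representation

namespace Pool.Agent.KFV

variable {F : Type*} [Field F] [CharP F 2]
variable {P L : Type*} [Group P] [AddCommGroup L] [Module F L]

omit [CharP F 2] in
theorem str_sum_bot {M : Type*} [AddCommMonoid M] [Fintype P] (f : P → M) :
    ∑ᶠ x : P ⧸ (⊥ : Subgroup P), f x.out = ∑ g, f g := by
  have h : ∀ x : P ⧸ (⊥ : Subgroup P), x.out = QuotientGroup.quotientBot.toEquiv x := by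
    intro x
    conv_rhs => rw [← Quotient.out_eq x]
    rfl
  simp_rw [h]
  rw [finsum_comp_equiv (QuotientGroup.quotientBot.toEquiv) (f := f), finsum_eq_sum_of_fintype]

omit [CharP F 2] in
theorem str_norm_mul [Fintype P] (σ : Representation F P L) (g : P) (v : L) :
    ∑ h, σ h (σ g v) = ∑ h, σ h v := by
  have : ∀ h, σ h (σ g v) = σ (h * g) v := by
    intro h
    rw [map_mul]; rfl
  simp_rw [this]
  exact Fintype.sum_equiv (Equiv.mulRight g) _ _ (fun _ => rfl)

omit [CharP F 2] in
theorem str_trace [Fintype P] (σ : Representation F P L) (f : L →ₗ[F] F) (v w : L) :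
    ∑ h, σ h (relTr σ σ ⊥ (f.smulRight v) w) = f (∑ h, σ h w) • ∑ h, σ h v := by
  have h1 : relTr σ σ ⊥ (f.smulRight v) w = ∑ g, f (σ g⁻¹ w) • σ g v := by
    unfold relTr
    rw [str_sum_bot (fun g : P => σ g ∘ₗ f.smulRight v ∘ₗ σ g⁻¹)]
    rw [LinearMap.sum_apply]
    apply Finset.sum_congr rfl
    intro g _
    simp
  have h2 : ∑ h, σ h (relTr σ σ ⊥ (f.smulRight v) w) = ∑ g, f (σ g⁻¹ w) • ∑ h, σ h v := by
    rw [h1]
    simp_rw [map_sum, map_smul]
    rw [Finset.sum_comm]
    apply Finset.sum_congr rfl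
    intro g _
    rw [← Finset.smul_sum, str_norm_mul]
  have h3 : ∑ g : P, σ g⁻¹ w = ∑ h, σ h w :=
    Fintype.sum_equiv (Equiv.inv P) _ _ (fun _ => rfl)
  rw [h2, ← Finset.sum_smul, ← h3, map_sum]

omit [CharP F 2] in
theorem str_norm_zero [Fintype P] [Nontrivial P] [FiniteDimensional F L]
    (σ : Representation F P L) (h : Indec σ) (hid : LinearMap.id ∉ trI σ σ) (v : L) :
    ∑ h, σ h v = 0 := by
  by_contra hv
  obtain ⟨f, hf⟩ : ∃ f : L →ₗ[F] F, f (∑ h, σ h v) ≠ 0 := by
    by_contra hn
    push Not at hn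
    exact hv ((Module.forall_dual_apply_eq_zero_iff F _).1 hn)
  set θ := relTr σ σ ⊥ (f.smulRight v) with hθ
  have hR : ∀ r ∈ (⊥ : Subgroup P), (f.smulRight v) ∘ₗ σ r = σ r ∘ₗ (f.smulRight v) := by
    intro r hr
    rw [Subgroup.mem_bot.1 hr, map_one]
    rfl
  have heqv : Eqv σ σ θ := relTr_eqv σ σ ⊥ _ hR
  have hmem : θ ∈ trI σ σ := Submodule.subset_span ⟨⊥, bot_ne_top, _, hR, rfl⟩
  have hpow : ∀ k : ℕ, ∑ h, σ h ((θ ^ k) v) = (f (∑ h, σ h v)) ^ k • ∑ h, σ h v := by
    intro k
    induction k with
    | zero => simp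
    | succ k ih =>
      rw [pow_succ' θ k, Module.End.mul_apply, hθ, str_trace, ← hθ, ih, map_smul, smul_eq_mul,
        pow_succ]
  rcases Indec.bijective_or_nilpotent h θ heqv with hb | ⟨k, hk⟩
  · apply hid
    set e := LinearEquiv.ofBijective θ hb with he
    have hes : Eqv σ σ e.symm.toLinearMap := by
      intro g
      ext w
      obtain ⟨u, rfl⟩ := e.surjective w
      simp only [LinearMap.comp_apply, LinearEquiv.coe_coe, LinearEquiv.symm_apply_apply]
      rw [LinearEquiv.symm_apply_eq]
      have := LinearMap.congr_fun (heqv g) u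
      exact this.symm
    have h1 := comp_mem_trI σ σ σ θ e.symm.toLinearMap hes hmem
    have h2 : e.symm.toLinearMap ∘ₗ θ = LinearMap.id := by
      ext w
      exact e.symm_apply_apply w
    rwa [h2] at h1
  · have h1 := hpow k
    rw [hk] at h1
    simp only [LinearMap.zero_apply, map_zero, Finset.sum_const_zero] at h1
    exact smul_ne_zero (pow_ne_zero k hf) hv h1.symm

theorem str_neg (F : Type*) [Field F] [CharP F 2] {L : Type*} [AddCommGroup L] [Module F L]
    (x : L) : -x = x := by
  have h : (-1 : F) = 1 := CharTwo.neg_eq 1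
  calc -x = (-1 : F) • x := by simp
    _ = x := by rw [h, one_smul]

/-- Step 1: the product of the two operators `σ a - 1` and `σ b - 1` is zero.  Otherwise choose
`v` and a functional `f` with `f (X Y v) = 1` and `f v = f (X v) = f (Y v) = 0`; the map
`w ↦ ∑ q, f (σ q⁻¹ w) • σ q v` is a sum of relative traces from the trivial subgroup, it maps `v`
to `σ (a b) v` and so on, hence it is not nilpotent and therefore bijective
(`Indec.bijective_or_nilpotent`), so `id ∈ trI`. -/
theorem prod_eq_zero [IsKleinFour P] [FiniteDimensional F L] (σ : Representation F P L)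
    (h : Indec σ) (hid : LinearMap.id ∉ trI σ σ) (a b : P) (v : L) :
    σ a (σ b v) - σ a v - σ b v + v = 0 := by
  classical
  haveI : Finite P := IsKleinFour.instFinite
  letI : Fintype P := Fintype.ofFinite P
  haveI : Nontrivial P := by
    rw [← Fintype.one_lt_card_iff_nontrivial, IsKleinFour.card_four']
    norm_num
  by_cases ha : a = 1
  · subst ha
    simp
  by_cases hb : b = 1
  · subst hb
    simp
  by_cases hab : a = b
  · subst hab
    have h1 : σ a (σ a v) = v := by
      have : σ a (σ a v) = σ (a * a) v := by rw [map_mul]; rfl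
      rw [this, IsKleinFour.mul_self, map_one]
      rfl
    have h2 : σ a v + σ a v = 0 := by
      nth_rewrite 1 [← str_neg F (σ a v)]
      exact neg_add_cancel _
    have h3 : v + v = 0 := by
      nth_rewrite 1 [← str_neg F v]
      exact neg_add_cancel _
    rw [h1]
    calc v - σ a v - σ a v + v = (v + v) - (σ a v + σ a v) := by abel
      _ = 0 := by rw [h2, h3, sub_zero]
  · have h1 := str_norm_zero σ h hid v
    rw [← IsKleinFour.eq_finset_univ ha hb hab] at h1
    have hm : a * b ∉ ({a, b, 1} : Finset P) := by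
      simp only [Finset.mem_insert, Finset.mem_singleton, mul_eq_left, mul_eq_right, not_or]
      refine ⟨hb, ha, fun h2 => hab ?_⟩
      rw [mul_eq_one_iff_eq_inv, IsKleinFour.inv_eq_self] at h2
      exact h2
    have hm2 : a ∉ ({b, 1} : Finset P) := by
      simp [hab, ha]
    have hm3 : b ∉ ({1} : Finset P) := by simp [hb]
    rw [Finset.sum_insert hm, Finset.sum_insert hm2, Finset.sum_insert hm3, Finset.sum_singleton,
      map_one] at h1
    have h2 : σ (a * b) v = σ a (σ b v) := by rw [map_mul]; rfl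
    rw [h2] at h1
    have h3 : (1 : Module.End F L) v = v := rfl
    rw [h3] at h1
    calc σ a (σ b v) - σ a v - σ b v + v = σ a (σ b v) + -(σ a v) + -(σ b v) + v := by abel
      _ = σ a (σ b v) + σ a v + σ b v + v := by rw [str_neg F (σ a v), str_neg F (σ b v)]
      _ = 0 := by rw [← h1]; abel

/-- The action of the whole group in terms of the two operators. -/
theorem str_action [IsKleinFour P] [FiniteDimensional F L] (σ : Representation F P L)
    (h : Indec σ) (hid : LinearMap.id ∉ trI σ σ) (φ : P ≃* K4) (X Y : L →ₗ[F] L)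
    (hX : X = σ (φ.symm (Multiplicative.ofAdd (1, 0))) - LinearMap.id)
    (hY : Y = σ (φ.symm (Multiplicative.ofAdd (0, 1))) - LinearMap.id) (k : K4) (v : L) :
    σ (φ.symm k) v = v + pen X Y k v := by
  have h1 : ∀ x y : ZMod 2, σ (φ.symm (Multiplicative.ofAdd (x, y))) v =
      v + pen X Y (Multiplicative.ofAdd (x, y)) v := by
    intro x y
    have hx : x = 0 ∨ x = 1 := by fin_cases x; exacts [Or.inl rfl, Or.inr rfl]
    have hy : y = 0 ∨ y = 1 := by fin_cases y; exacts [Or.inl rfl, Or.inr rfl]
    rcases hx with rfl | rfl <;> rcases hy with rfl | rfl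
    · have e : (Multiplicative.ofAdd ((0 : ZMod 2), (0 : ZMod 2)) : K4) = 1 := rfl
      rw [e, map_one, map_one]
      simp [pen]
    · simp [pen, hY]
    · simp [pen, hX]
    · have e : (Multiplicative.ofAdd ((1 : ZMod 2), (1 : ZMod 2)) : K4) =
          Multiplicative.ofAdd (1, 0) * Multiplicative.ofAdd (0, 1) := rfl
      have e2 : pen X Y (Multiplicative.ofAdd ((1 : ZMod 2), (1 : ZMod 2))) v = X v + Y v := by
        simp [pen]
      rw [e2, e, map_mul, map_mul, Module.End.mul_apply, hX, hY]
      have := prod_eq_zero σ h hid (φ.symm (Multiplicative.ofAdd (1, 0)))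
        (φ.symm (Multiplicative.ofAdd (0, 1))) v
      simp only [LinearMap.sub_apply, LinearMap.id_apply]
      have h3 : v + v = 0 := by
        nth_rewrite 1 [← str_neg F v]
        exact neg_add_cancel _
      generalize σ (φ.symm (Multiplicative.ofAdd (1, 0)))
        (σ (φ.symm (Multiplicative.ofAdd (0, 1))) v) = A at this ⊢
      generalize σ (φ.symm (Multiplicative.ofAdd (1, 0))) v = B at this ⊢
      generalize σ (φ.symm (Multiplicative.ofAdd (0, 1))) v = C at this ⊢
      have h4 : A = B + C - v := by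
        have : A - (B + C - v) = 0 := by rw [← this]; abel
        exact sub_eq_zero.1 this
      rw [h4]
      abel
  exact h1 (Multiplicative.toAdd k).1 (Multiplicative.toAdd k).2

/-- Structure of an indecomposable representation of a Klein four group which is not relatively
projective: it is trivial, or it comes from a pencil `(X, Y)` with `ker X ∩ ker Y = 0` and
`range X + range Y` everything.  (Fixed space `S`, `T = range + range ≤ S`; if `T ≠ S` a
complement of a line of `S` outside `T` gives a trivial direct summand.) -/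
theorem exists_pencil [IsKleinFour P] [FiniteDimensional F L] (σ : Representation F P L)
    (h : Indec σ) (hid : LinearMap.id ∉ trI σ σ) :
    PairEquiv σ (zigRep F 0) ∨
    ∃ (m n : ℕ) (X Y : (Fin m → F) →ₗ[F] (Fin n → F)), LinearMap.ker X ⊓ LinearMap.ker Y = ⊥ ∧
      LinearMap.range X ⊔ LinearMap.range Y = ⊤ ∧ PairEquiv σ (pencilRep X Y) := by
  obtain ⟨φ⟩ := IsKleinFour.nonempty_mulEquiv (G₁ := P) (G₂ := K4)
  set a := φ.symm (Multiplicative.ofAdd (1, 0)) with ha
  set b := φ.symm (Multiplicative.ofAdd (0, 1)) with hb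
  set X0 : L →ₗ[F] L := σ a - LinearMap.id with hX0
  set Y0 : L →ₗ[F] L := σ b - LinearMap.id with hY0
  have hact := str_action σ h hid φ X0 Y0 hX0 hY0
  have hprod : ∀ (c d : P) (v : L), (σ c - LinearMap.id : L →ₗ[F] L)
      ((σ d - LinearMap.id : L →ₗ[F] L) v) = 0 := by
    intro c d v
    have := prod_eq_zero σ h hid c d v
    simp only [LinearMap.sub_apply, LinearMap.id_apply, map_sub]
    rw [← this]
    abel
  have hXX : ∀ v, X0 (X0 v) = 0 := hprod a a
  have hXY : ∀ v, X0 (Y0 v) = 0 := hprod a b
  have hYX : ∀ v, Y0 (X0 v) = 0 := hprod b a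
  have hYY : ∀ v, Y0 (Y0 v) = 0 := hprod b b
  have hact' : ∀ (g : P) (v : L), σ g v = v + pen X0 Y0 (φ g) v := by
    intro g v
    have := hact (φ g) v
    rwa [MulEquiv.symm_apply_apply] at this
  set S : Submodule F L := LinearMap.ker X0 ⊓ LinearMap.ker Y0 with hS
  set T : Submodule F L := LinearMap.range X0 ⊔ LinearMap.range Y0 with hT
  have hTS : T ≤ S := by
    refine sup_le ?_ ?_
    · rintro _ ⟨v, rfl⟩
      exact ⟨hXX v, hYX v⟩
    · rintro _ ⟨v, rfl⟩
      exact ⟨hXY v, hYY v⟩
  have hpenT : ∀ (k : K4) (v : L), pen X0 Y0 k v ∈ T := by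
    intro k v
    exact Submodule.add_mem _
      (Submodule.smul_mem _ _ (Submodule.mem_sup_left ⟨v, rfl⟩))
      (Submodule.smul_mem _ _ (Submodule.mem_sup_right ⟨v, rfl⟩))
  by_cases hST : S ≤ T
  · right
    obtain ⟨C, hC⟩ := Submodule.exists_isCompl S
    set eC := (Module.finBasis F C).equivFun with heC
    set eS := (Module.finBasis F S).equivFun with heS
    have hr : ∀ Z : L →ₗ[F] L, LinearMap.range Z ≤ T → ∀ c : C, Z c ∈ S := fun Z hZ c =>
      hTS (hZ ⟨c, rfl⟩)
    set X' : C →ₗ[F] S := (X0.comp C.subtype).codRestrict S (hr X0 le_sup_left) with hX'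
    set Y' : C →ₗ[F] S := (Y0.comp C.subtype).codRestrict S (hr Y0 le_sup_right) with hY'
    refine ⟨Module.finrank F C, Module.finrank F S, eS.toLinearMap ∘ₗ X' ∘ₗ eC.symm.toLinearMap,
      eS.toLinearMap ∘ₗ Y' ∘ₗ eC.symm.toLinearMap, ?_, ?_, ?_⟩
    · rw [eq_bot_iff]
      rintro u ⟨hu1, hu2⟩
      have h1 : X' (eC.symm u) = 0 := by
        have : eS (X' (eC.symm u)) = 0 := hu1
        exact (LinearEquiv.map_eq_zero_iff eS).1 this
      have h2 : Y' (eC.symm u) = 0 := by
        have : eS (Y' (eC.symm u)) = 0 := hu2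
        exact (LinearEquiv.map_eq_zero_iff eS).1 this
      have h3 : ((eC.symm u : C) : L) ∈ S := by
        refine ⟨?_, ?_⟩
        · exact congrArg Subtype.val h1
        · exact congrArg Subtype.val h2
      have h4 : ((eC.symm u : C) : L) ∈ S ⊓ C := ⟨h3, (eC.symm u).2⟩
      rw [hC.inf_eq_bot, Submodule.mem_bot] at h4
      have h5 : eC.symm u = 0 := Subtype.ext h4
      rw [Submodule.mem_bot]
      exact (LinearEquiv.map_eq_zero_iff eC.symm).1 h5
    · rw [eq_top_iff]
      rintro w -
      have hw : ((eS.symm w : S) : L) ∈ T := hST (eS.symm w).2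
      obtain ⟨p1, ⟨p, rfl⟩, q1, ⟨q, rfl⟩, hpq⟩ := Submodule.mem_sup.1 hw
      have hdec : ∀ p : L, ∃ c : C, ∃ s : S, (c : L) + s = p := by
        intro p
        have : p ∈ C ⊔ S := by rw [hC.symm.sup_eq_top]; trivial
        obtain ⟨c, hc, s, hs, hcs⟩ := Submodule.mem_sup.1 this
        exact ⟨⟨c, hc⟩, ⟨s, hs⟩, hcs⟩
      obtain ⟨c, s, hcs⟩ := hdec p
      obtain ⟨d, t, hdt⟩ := hdec q
      have h1 : X0 p = X0 c := by
        rw [← hcs, map_add]
        have : X0 (s : L) = 0 := s.2.1
        rw [this, add_zero]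
      have h2 : Y0 q = Y0 d := by
        rw [← hdt, map_add]
        have : Y0 (t : L) = 0 := t.2.2
        rw [this, add_zero]
      have h3 : X' c + Y' d = eS.symm w := by
        apply Subtype.ext
        rw [← hpq, h1, h2]
        rfl
      refine Submodule.mem_sup.2 ⟨_, ⟨eC c, rfl⟩, _, ⟨eC d, rfl⟩, ?_⟩
      simp only [LinearMap.comp_apply, LinearEquiv.coe_coe, LinearEquiv.symm_apply_apply]
      rw [← map_add, h3, LinearEquiv.apply_symm_apply]
    · set e : L ≃ₗ[F] (Fin (Module.finrank F C) → F) × (Fin (Module.finrank F S) → F) :=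
        (Submodule.prodEquivOfIsCompl C S hC.symm).symm ≪≫ₗ (eC.prodCongr eS) with he
      refine ⟨φ, ⟨Representation.Equiv.mk e ?_⟩⟩
      intro g
      apply LinearMap.ext
      intro v
      obtain ⟨⟨c, s⟩, rfl⟩ := (Submodule.prodEquivOfIsCompl C S hC.symm).surjective v
      have h1 : Submodule.prodEquivOfIsCompl C S hC.symm (c, s) = (c : L) + s := by simp
      have hXs : X0 (s : L) = 0 := s.2.1
      have hYs : Y0 (s : L) = 0 := s.2.2
      have h2 : σ g ((c : L) + s) = Submodule.prodEquivOfIsCompl C S hC.symm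
          (c, s + pen X' Y' (φ g) c) := by
        rw [hact']
        simp only [Submodule.coe_prodEquivOfIsCompl', pen, LinearMap.add_apply,
          LinearMap.smul_apply, map_add, hXs, hYs, Submodule.coe_add, Submodule.coe_smul]
        have h3 : ((X' c : S) : L) = X0 c := rfl
        have h4 : ((Y' c : S) : L) = Y0 c := rfl
        rw [h3, h4, smul_zero, smul_zero]
        abel
      have h5 : e.toLinearMap (σ g (Submodule.prodEquivOfIsCompl C S hC.symm (c, s))) =
          (eC c, eS (s + pen X' Y' (φ g) c)) := by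
        rw [h1, h2]
        simp [he]
      have h6 : e.toLinearMap (Submodule.prodEquivOfIsCompl C S hC.symm (c, s)) =
          (eC c, eS s) := by
        simp [he]
      rw [LinearMap.comp_apply, LinearMap.comp_apply, h5, h6]
      have h7 : ((pencilRep (eS.toLinearMap ∘ₗ X' ∘ₗ eC.symm.toLinearMap)
          (eS.toLinearMap ∘ₗ Y' ∘ₗ eC.symm.toLinearMap)).comp φ.toMonoidHom) g (eC c, eS s) =
          (eC c, eS s) + ((0, pen (eS.toLinearMap ∘ₗ X' ∘ₗ eC.symm.toLinearMap)
          (eS.toLinearMap ∘ₗ Y' ∘ₗ eC.symm.toLinearMap) (φ g) (eC c)) :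
            (Fin (Module.finrank F C) → F) × (Fin (Module.finrank F S) → F)) := rfl
      rw [h7]
      simp [pen]
  · left
    obtain ⟨s, hsS, hsT⟩ := SetLike.not_le_iff_exists.1 hST
    obtain ⟨g, hgs, hgT⟩ := Submodule.exists_le_ker_of_notMem hsT
    have hAmem : ∀ (p : P) ⦃v : L⦄, v ∈ LinearMap.ker g → σ p v ∈ LinearMap.ker g := by
      intro p v hv
      rw [hact']
      exact Submodule.add_mem _ hv (hgT (hpenT _ _))
    have hfix : ∀ (p : P) (v : L), v ∈ S → σ p v = v := by
      intro p v hv
      have h1 : X0 v = 0 := hv.1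
      have h2 : Y0 v = 0 := hv.2
      rw [hact']
      simp [pen, h1, h2]
    have hBmem : ∀ (p : P) ⦃v : L⦄, v ∈ Submodule.span F {s} → σ p v ∈ Submodule.span F {s} := by
      intro p v hv
      obtain ⟨c, rfl⟩ := Submodule.mem_span_singleton.1 hv
      rw [map_smul, hfix p s hsS]
      exact hv
    let A : Subrepresentation σ := ⟨LinearMap.ker g, hAmem⟩
    let B : Subrepresentation σ := ⟨Submodule.span F {s}, hBmem⟩
    have hAB : IsCompl A B := by
      constructor
      · rw [disjoint_iff]
        apply Subrepresentation.toSubmodule_injective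
        change LinearMap.ker g ⊓ Submodule.span F {s} = ⊥
        rw [eq_bot_iff]
        rintro v ⟨hv1, hv2⟩
        obtain ⟨c, rfl⟩ := Submodule.mem_span_singleton.1 hv2
        have : c * g s = 0 := by
          have : g (c • s) = 0 := hv1
          rwa [map_smul, smul_eq_mul] at this
        rcases mul_eq_zero.1 this with h1 | h1
        · rw [h1, zero_smul]; exact Submodule.zero_mem _
        · exact absurd h1 hgs
      · rw [codisjoint_iff]
        apply Subrepresentation.toSubmodule_injective
        change LinearMap.ker g ⊔ Submodule.span F {s} = ⊤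
        rw [eq_top_iff]
        rintro v -
        refine Submodule.mem_sup.2 ⟨v - (g v / g s) • s, ?_, (g v / g s) • s,
          Submodule.smul_mem _ _ (Submodule.mem_span_singleton_self s), by abel⟩
        rw [LinearMap.mem_ker, map_sub, map_smul, smul_eq_mul, div_mul_cancel₀ _ hgs, sub_self]
    have hker : LinearMap.ker g = ⊥ := by
      rcases h.2 A B hAB with h1 | h1
      · exact congrArg Subrepresentation.toSubmodule h1
      · exfalso
        have h2 : Submodule.span F {s} = ⊥ := congrArg Subrepresentation.toSubmodule h1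
        have h3 : s = 0 := by
          have := Submodule.mem_span_singleton_self (R := F) s
          rwa [h2, Submodule.mem_bot] at this
        rw [h3, map_zero] at hgs
        exact hgs rfl
    let e0 : L →ₗ[F] (Fin (0 + 1) → F) × (Fin 0 → F) :=
      LinearMap.prod (LinearMap.pi fun _ => g) 0
    have he0 : Function.Bijective e0 := by
      constructor
      · rw [← LinearMap.ker_eq_bot, eq_bot_iff]
        intro v hv
        have h1 : e0 v = 0 := hv
        have h2 : g v = 0 := congrFun (congrArg Prod.fst h1) 0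
        have h3 : v ∈ LinearMap.ker g := h2
        rwa [hker] at h3
      · rintro ⟨u, w⟩
        refine ⟨(u 0 / g s) • s, ?_⟩
        apply Prod.ext
        · funext i
          have hi : i = 0 := Subsingleton.elim (α := Fin 1) _ _
          subst hi
          change g ((u 0 / g s) • s) = u 0
          rw [map_smul, smul_eq_mul, div_mul_cancel₀ _ hgs]
        · exact Subsingleton.elim _ _
    refine ⟨φ, ⟨Representation.Equiv.mk (LinearEquiv.ofBijective e0 he0) ?_⟩⟩
    intro p
    apply LinearMap.ext
    intro v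
    have h1 : σ p v = v := by
      have h2 : pen X0 Y0 (φ p) v ∈ LinearMap.ker g := hgT (hpenT _ _)
      rw [hker, Submodule.mem_bot] at h2
      rw [hact', h2, add_zero]
    rw [LinearMap.comp_apply, LinearMap.comp_apply, h1]
    apply Prod.ext
    · change _ = _ + (0 : Fin (0 + 1) → F)
      rw [add_zero]
      rfl
    · exact Subsingleton.elim _ _

end Pool.Agent.KFV
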