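import Mathlib
import Pool.Agent.KFV.PDefs
import Pool.Agent.KFV.MAI
import Pool.Agent.KFV.UNI
import Pool.Agent.KFV.CNG
import Pool.Agent.KFV.PEN
import Pool.Agent.KFV.STR
import Pool.Agent.KFV.KZI
import Pool.Agent.KFV.REG
import Pool.Agent.KFV.CEN
import Pool.Agent.KFV.SDU
import Pool.Agent.KFV.EXT
import Pool.Agent.KFV.EXN

open Representation

namespace Pool.Agent.KFV

universe u v w z

/-- The regular pencil of size one. -/
theorem pairEquiv_natRep {F : Type*} [Field F] [CharP F 2] (c : F) :
    PairEquiv (pencilRep (LinearMap.id : (Fin 1 → F) →ₗ[F] (Fin 1 → F))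
      (c • LinearMap.id + shift F 1)) (natRep c) := by
  rw [shift_one, add_zero]
  refine pairEquiv_of_iso _ _ _ _ (LinearEquiv.funUnique (Fin 1) F F)
    (LinearEquiv.funUnique (Fin 1) F F) ?_ ?_
  · refine LinearMap.ext fun v => ?_
    simp
  · refine LinearMap.ext fun v => ?_
    simp

/-- The list of possible sources. -/
theorem sources_klein (F : Type u) [Field F] [IsAlgClosed F] [CharP F 2] (G : Type v) [Group G]
    [Finite G] (V : Type w) [AddCommGroup V] [Module F V] [FiniteDimensional F V]
    (ρ : Representation F G V) (hρ : ρ.IsIrreducible) (Q : Subgroup G) [IsKleinFour Q]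
    (L : Type z) [AddCommGroup L] [Module F L] [FiniteDimensional F L]
    (σ : Representation F Q L) (h : IsVertexSource ρ Q σ) :
    (∃ ω : F, ω ^ 2 + ω + 1 = 0 ∧ PairEquiv σ (natRep ω)) ∨
      ∃ n : ℕ, PairEquiv σ (zigRep F n) ∨ PairEquiv σ (zigRep F n).dual := by
  have : Infinite F := IsAlgClosed.instInfinite
  have hloc : LocCond σ := source_locCond ρ hρ Q σ h
  rcases exists_pencil σ h.indec hloc.not_mem with h0 | ⟨m, n, X, Y, hk, hr, hXY⟩
  · exact Or.inr ⟨0, Or.inl h0⟩
  have hloc2 : LocCond (pencilRep X Y) := LocCond.congr hXY hloc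
  have hP : PInd X Y := pInd_of_indec X Y hloc2.indec
  rcases kronecker X Y hP hk hr with ⟨k, hk⟩ | ⟨k, hk⟩ | ⟨-, t, ht⟩
  · exact Or.inr ⟨k, Or.inl (hXY.trans hk)⟩
  · exact Or.inr ⟨k, Or.inr (hXY.trans hk)⟩
  · obtain ⟨k, c, hc, hE⟩ := regular_normal X Y hP t ht
    have hloc3 := LocCond.congr hE hloc2
    obtain ⟨rfl, hω⟩ := locCond_regular k c hc hloc3
    exact Or.inl ⟨c, hω, (hXY.trans hE).trans (pairEquiv_natRep c)⟩

/-- The dual of the trivial representation. -/
theorem pairEquiv_dual_trivial {F : Type*} [Field F] :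
    PairEquiv (Representation.trivial F K4 F).dual (Representation.trivial F K4 F) := by
  refine ⟨MulEquiv.refl _, ⟨Representation.Equiv.mk
    { toFun := fun f => f 1
      invFun := fun c => c • LinearMap.id
      map_add' := fun _ _ => rfl
      map_smul' := fun _ _ => rfl
      left_inv := fun f => by
        refine LinearMap.ext fun x => ?_
        have : f x = f (x • (1 : F)) := by simp
        rw [this, map_smul]
        simp [mul_comm]
      right_inv := fun c => by simp } ?_⟩⟩
  intro g
  refine LinearMap.ext fun f => ?_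
  simp only [Representation.dual_apply]
  rfl

/-- The sources of the simple modules whose dual is a twist. -/
theorem sources_klein_dual (F : Type u) [Field F] [IsAlgClosed F] [CharP F 2] (G : Type v)
    [Group G] [Finite G] (V : Type w) [AddCommGroup V] [Module F V] [FiniteDimensional F V]
    (ρ : Representation F G V) (hρ : ρ.IsIrreducible) (Q : Subgroup G) [IsKleinFour Q]
    (L : Type z) [AddCommGroup L] [Module F L] [FiniteDimensional F L]
    (σ : Representation F Q L) (h : IsVertexSource ρ Q σ)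
    (hd : ∃ φ : G ≃* G, Nonempty (ρ.dual.Equiv (ρ.comp φ.toMonoidHom))) :
    (∃ ω : F, ω ^ 2 + ω + 1 = 0 ∧ PairEquiv σ (natRep ω)) ∨
      PairEquiv σ (Representation.trivial F K4 F) := by
  rcases sources_klein F G V ρ hρ Q L σ h with h1 | ⟨n, h1⟩
  · exact Or.inl h1
  right
  obtain ⟨φ, ⟨e⟩⟩ := hd
  obtain ⟨ψ, hψ⟩ := dual_source ρ hρ Q σ h φ e
  have hdual : PairEquiv σ.dual σ := ⟨ψ, hψ⟩
  rcases h1 with h1 | h1
  · have h2 : PairEquiv (zigRep F n) (zigRep F n).dual :=
      h1.symm.trans (hdual.symm.trans h1.dual)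
    obtain rfl := zig_not_selfdual n h2
    exact h1.trans zig_zero
  · have h2 : PairEquiv (zigRep F n) (zigRep F n).dual :=
      (pairEquiv_dual_dual (zigRep F n)).trans (h1.symm.dual.trans (hdual.trans h1))
    obtain rfl := zig_not_selfdual n h2
    exact h1.trans (zig_zero.dual.trans pairEquiv_dual_trivial)

end Pool.Agent.KFV
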