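import Mathlib
import Pool.Agent.KFV.Defs

open Representation

namespace Pool.Agent.KFV

variable {F : Type*} [Field F] [CharP F 2]
variable {G V W : Type*} [Group G] [AddCommGroup V] [Module F V] [AddCommGroup W] [Module F W]

/-- The trace of the square of a matrix in characteristic two. -/
theorem frb_matrix_trace_sq {n : Type*} [Fintype n] [DecidableEq n] (A : Matrix n n F) :
    Matrix.trace (A * A) = (Matrix.trace A) ^ 2 := by
  classical
  have hadd : ∀ x : F, x + x = 0 := fun x => CharTwo.add_self_eq_zero x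
  have h1 : Matrix.trace (A * A) = ∑ q : n × n, A q.1 q.2 * A q.2 q.1 := by
    rw [Fintype.sum_prod_type]
    simp [Matrix.trace, Matrix.mul_apply]
  have h2 : (Matrix.trace A) ^ 2 = ∑ i, A i i ^ 2 := by
    rw [Matrix.trace]
    simp only [Matrix.diag_apply]
    exact sum_pow_char 2 _ _
  have h3 : (∑ q : n × n, A q.1 q.2 * A q.2 q.1) =
      ∑ q ∈ (Finset.univ : Finset n).offDiag, A q.1 q.2 * A q.2 q.1 +
        ∑ q ∈ (Finset.univ : Finset n).diag, A q.1 q.2 * A q.2 q.1 := by
    rw [← Finset.sum_union]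
    · congr 1
      ext q
      simp [em']
    · rw [disjoint_comm]
      exact Finset.disjoint_diag_offDiag _
  have h4 : ∑ q ∈ (Finset.univ : Finset n).offDiag, A q.1 q.2 * A q.2 q.1 = 0 := by
    refine Finset.sum_involution (fun q _ => q.swap) ?_ ?_ ?_ ?_
    · intro q _
      simp only [Prod.fst_swap, Prod.snd_swap]
      rw [mul_comm (A q.2 q.1)]
      exact hadd _
    · intro q hq _ h
      rw [Finset.mem_offDiag] at hq
      exact hq.2.2 (congrArg Prod.snd h)
    · intro q hq
      rw [Finset.mem_offDiag] at hq ⊢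
      exact ⟨hq.2.1, hq.1, fun h => hq.2.2 h.symm⟩
    · intro q _
      exact Prod.swap_swap q
  rw [h1, h2, h3, h4, zero_add, Finset.sum_diag]
  exact Finset.sum_congr rfl fun i _ => (sq (A i i)).symm

theorem frb_trace_sq [FiniteDimensional F V] (A : Module.End F V) :
    LinearMap.trace F V (A ^ 2) = (LinearMap.trace F V A) ^ 2 := by
  classical
  let b := Module.finBasis F V
  rw [LinearMap.trace_eq_matrix_trace F b, LinearMap.trace_eq_matrix_trace F b, sq,
    Module.End.mul_eq_comp, LinearMap.toMatrix_comp b b b, frb_matrix_trace_sq]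

/-- In characteristic two `trace (A ^ 2) = (trace A) ^ 2`: `∑ i j, A i j * A j i`, the terms with
`i ≠ j` cancel in pairs. -/
theorem trace_pow_two_pow [FiniteDimensional F V] (A : Module.End F V) (k : ℕ) :
    LinearMap.trace F V (A ^ (2 ^ k)) = (LinearMap.trace F V A) ^ (2 ^ k) := by
  induction k with
  | zero => simp
  | succ k ih => rw [pow_succ, pow_mul, frb_trace_sq, ih, pow_mul]

/-- Some power `g ^ (2 ^ k)` has odd order. -/
theorem exists_odd_pow [Finite G] (g : G) : ∃ k : ℕ, Odd (orderOf (g ^ (2 ^ k))) := by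
  have hn : orderOf g ≠ 0 := (orderOf_pos g).ne'
  obtain ⟨k, m, hm, h⟩ := Nat.exists_eq_two_pow_mul_odd hn
  refine ⟨k, ?_⟩
  rw [orderOf_pow_of_dvd (by positivity) (h ▸ Dvd.intro _ rfl), h,
    Nat.mul_div_cancel_left _ (by positivity)]
  exact hm

/-- The traces of two representations agree if they agree on the elements of odd order (the
Frobenius map of `F` is injective). -/
theorem trace_eq_of_odd [Finite G] [FiniteDimensional F V] [FiniteDimensional F W]
    (ρ : Representation F G V) (ρ' : Representation F G W)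
    (h : ∀ g : G, Odd (orderOf g) → LinearMap.trace F V (ρ g) = LinearMap.trace F W (ρ' g))
    (g : G) : LinearMap.trace F V (ρ g) = LinearMap.trace F W (ρ' g) := by
  obtain ⟨k, hk⟩ := exists_odd_pow g
  have h1 := h _ hk
  have h3 : ρ (g ^ 2 ^ k) = (ρ g) ^ 2 ^ k := map_pow ρ g _
  have h4 : ρ' (g ^ 2 ^ k) = (ρ' g) ^ 2 ^ k := map_pow ρ' g _
  rw [h3, h4, trace_pow_two_pow, trace_pow_two_pow] at h1
  have h2 : (LinearMap.trace F V (ρ g) - LinearMap.trace F W (ρ' g)) ^ (2 ^ k) = 0 := by
    rw [sub_pow_char_pow, h1, sub_self]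
  exact sub_eq_zero.1 (pow_eq_zero_iff (by positivity) |>.1 h2)

end Pool.Agent.KFV
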