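import Mathlib
import Pool.Agent.KFV.Defs
import Pool.Agent.KFV.HIG
import Pool.Agent.KFV.TRA

open Representation

namespace Pool.Agent.KFV

variable {F : Type*} [Field F]
variable {G V W : Type*} [Group G] [AddCommGroup V] [Module F V] [AddCommGroup W] [Module F W]

/-- The product of a representation with a character with values in the nonzero scalars. -/
def chRep (μ : G →* Fˣ) (ρ : Representation F G V) : Representation F G V where
  toFun g := (μ g : F) • ρ g
  map_one' := by
    rw [map_one μ, map_one ρ, Units.val_one, one_smul]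
  map_mul' g h := by
    rw [map_mul μ, map_mul ρ, Units.val_mul, smul_mul_smul_comm]

theorem chRep_apply (μ : G →* Fˣ) (ρ : Representation F G V) (g : G) (v : V) :
    chRep μ ρ g v = (μ g : F) • ρ g v := rfl

/-- In characteristic two a character is trivial on a Klein four group. -/
theorem ch_eq_one [CharP F 2] (μ : G →* Fˣ) (Q : Subgroup G) [IsKleinFour Q] (q : Q) :
    (μ (q : G) : F) = 1 := by
  have h1 : q * q = 1 := IsKleinFour.mul_self q
  have h2 : (q : G) * (q : G) = 1 := congrArg Subtype.val h1
  have h3 : (μ (q : G) : F) * (μ (q : G) : F) = 1 := by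
    rw [← Units.val_mul, ← map_mul, h2, map_one, Units.val_one]
  have h4 : ((μ (q : G) : F) - 1) ^ 2 = 0 := by
    have h5 : (2 : F) = 0 := CharTwo.two_eq_zero
    linear_combination h3 - ((μ (q : G) : F) - 1) * h5
  exact sub_eq_zero.1 (pow_eq_zero_iff (two_ne_zero) |>.1 h4)

theorem ch_summand [Finite G] [CharP F 2] (μ : G →* Fˣ) (ρ : Representation F G V)
    (Q : Subgroup G) [IsKleinFour Q] (σ : Representation F Q W)
    (h : IsSummand ρ (ind Q.subtype σ)) : IsSummand (chRep μ ρ) (ind Q.subtype σ) := by
  rw [isSummand_ind_iff] at h ⊢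
  obtain ⟨α, β, hα, hβ, h1⟩ := h
  have hq : ∀ q : Q, (chRep μ ρ) (q : G) = ρ (q : G) := by
    intro q
    refine LinearMap.ext fun v => ?_
    rw [chRep_apply, ch_eq_one μ Q q, one_smul]
  refine ⟨α, β, ?_, ?_, ?_⟩
  · intro q
    have h2 := hα q
    refine LinearMap.ext fun w => ?_
    have h3 := LinearMap.congr_fun h2 w
    change α (σ q w) = (chRep μ ρ) (q : G) (α w)
    rw [hq]
    exact h3
  · intro q
    have h2 := hβ q
    refine LinearMap.ext fun w => ?_
    have h3 := LinearMap.congr_fun h2 w
    change β ((chRep μ ρ) (q : G) w) = σ q (β w)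
    rw [hq]
    exact h3
  · rw [← h1]
    unfold relTr
    refine finsum_congr fun x => ?_
    refine LinearMap.ext fun v => ?_
    simp only [LinearMap.comp_apply, chRep_apply, map_smul, smul_smul]
    rw [← Units.val_mul, ← map_mul, inv_mul_cancel, map_one, Units.val_one, one_smul]

end Pool.Agent.KFV
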