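import Mathlib
import Pool.Agent.KFV.Defs

open Representation

namespace Pool.Agent.KFV

variable {F : Type*} [Field F]

/-- The vector space `V` with the scalar multiplication twisted by the field automorphism `τ`:
the scalar `c` acts on `Tw τ V` as `τ c` acts on `V`. -/
def Tw (_τ : F ≃+* F) (V : Type*) : Type _ := V

section

variable (τ : F ≃+* F) {V W : Type*} [AddCommGroup V] [Module F V] [AddCommGroup W] [Module F W]

/-- The additive group of the twisted space; a local instance only. -/
@[reducible] def twAddCommGroup : AddCommGroup (Tw τ V) := inferInstanceAs (AddCommGroup V)

attribute [local instance] twAddCommGroup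

/-- The twisted scalar multiplication; a local instance only. -/
@[reducible] def twModule : Module F (Tw τ V) := Module.compHom V (τ : F →+* F)

attribute [local instance] twModule

/-- A linear map, seen between the twisted spaces. -/
def twMap (f : V →ₗ[F] W) : Tw τ V →ₗ[F] Tw τ W where
  toFun v := f v
  map_add' v w := f.map_add v w
  map_smul' c v := f.map_smul (τ c) v

/-- The twist of a representation by a field automorphism: the same maps on `Tw τ V`. -/
def twRep {G : Type*} [Group G] (ρ : Representation F G V) : Representation F G (Tw τ V) where
  toFun g := twMap τ (ρ g)
  map_one' := by
    refine LinearMap.ext fun v => ?_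
    exact LinearMap.congr_fun ρ.map_one v
  map_mul' g h := by
    refine LinearMap.ext fun v => ?_
    exact LinearMap.congr_fun (ρ.map_mul g h) v

end

end Pool.Agent.KFV
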