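import Mathlib
import Pool.Agent.KFV.Defs
import Pool.Agent.KFV.TWD

open Representation

namespace Pool.Agent.KFV

attribute [local instance] twAddCommGroup twModule

variable {F : Type*} [Field F] (τ : F ≃+* F)
variable {G V W : Type*} [Group G] [AddCommGroup V] [Module F V] [AddCommGroup W] [Module F W]

/-! Elementary facts on the twist by a field automorphism.  A basis of `V` is a basis of `Tw τ V`;
the matrix of `twMap τ f` is the image of the matrix of `f` under `τ⁻¹`.  The subrepresentations
of `twRep τ ρ` are those of `ρ`. -/

theorem tw_smul (c : F) (v : V) : ((c • (show Tw τ V from v) : Tw τ V) : V) = τ c • v := rfl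

/-- A basis of `V` is a basis of `Tw τ V`. -/
noncomputable def twBasis {ι : Type*} (b : Module.Basis ι F V) : Module.Basis ι F (Tw τ V) :=
  Module.Basis.ofRepr
    { toFun := fun v => (b.repr (show V from v)).mapRange τ.symm (map_zero _)
      invFun := fun f => (show Tw τ V from b.repr.symm (f.mapRange τ (map_zero _)))
      map_add' := fun v w => by
        ext i
        show τ.symm (b.repr ((show V from v) + (show V from w)) i) = _
        rw [map_add]
        simp
      map_smul' := fun c v => by
        ext i
        show τ.symm (b.repr (τ c • (show V from v)) i) = c * τ.symm (b.repr (show V from v) i)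
        rw [map_smul, Finsupp.smul_apply, smul_eq_mul, map_mul, RingEquiv.symm_apply_apply]
      left_inv := fun v => by
        show b.repr.symm (((b.repr (show V from v)).mapRange τ.symm (map_zero _)).mapRange τ
          (map_zero _)) = v
        have : ((b.repr (show V from v)).mapRange τ.symm (map_zero _)).mapRange τ (map_zero _) =
            b.repr (show V from v) := by
          ext i
          simp
        rw [this]
        exact b.repr.symm_apply_apply v
      right_inv := fun f => by
        ext i
        show τ.symm (b.repr (b.repr.symm (f.mapRange τ (map_zero _))) i) = f i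
        rw [LinearEquiv.apply_symm_apply]
        simp }

theorem twBasis_repr {ι : Type*} (b : Module.Basis ι F V) (v : V) (i : ι) :
    (twBasis τ b).repr (show Tw τ V from v) i = τ.symm (b.repr v i) := rfl

theorem twBasis_apply {ι : Type*} (b : Module.Basis ι F V) (i : ι) :
    (twBasis τ b) i = (show Tw τ V from b i) := by
  classical
  apply (twBasis τ b).repr.injective
  rw [Module.Basis.repr_self]
  ext j
  rw [twBasis_repr, Module.Basis.repr_self, Finsupp.single_apply]
  split_ifs <;> simp

theorem tw_finiteDimensional [FiniteDimensional F V] : FiniteDimensional F (Tw τ V) :=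
  Module.Finite.of_basis (twBasis τ (Module.finBasis F V))

theorem tw_finrank : Module.finrank F (Tw τ V) = Module.finrank F V := by
  have b := Module.Free.chooseBasis F V
  rw [Module.finrank_eq_nat_card_basis b, Module.finrank_eq_nat_card_basis (twBasis τ b)]

theorem tw_trace [FiniteDimensional F V] (f : V →ₗ[F] V) :
    LinearMap.trace F (Tw τ V) (twMap τ f) = τ.symm (LinearMap.trace F V f) := by
  classical
  set b := Module.finBasis F V
  rw [LinearMap.trace_eq_matrix_trace F b f,
    LinearMap.trace_eq_matrix_trace F (twBasis τ b) (twMap τ f), Matrix.trace, Matrix.trace,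
    map_sum]
  refine Finset.sum_congr rfl fun i _ => ?_
  rw [Matrix.diag_apply, Matrix.diag_apply, LinearMap.toMatrix_apply, LinearMap.toMatrix_apply,
    twBasis_apply]
  rfl

/-- The subrepresentations of the twist. -/
def twSub (ρ : Representation F G V) :
    Subrepresentation ρ ≃o Subrepresentation (twRep τ ρ) where
  toFun A := ⟨{ carrier := {v : V | v ∈ A.toSubmodule}
                add_mem' := fun h h' => A.toSubmodule.add_mem h h'
                zero_mem' := A.toSubmodule.zero_mem
                smul_mem' := fun c _ h => A.toSubmodule.smul_mem (τ c) h },
    fun g _ h => A.apply_mem_toSubmodule g h⟩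
  invFun A := ⟨{ carrier := {v : V | (show Tw τ V from v) ∈ A.toSubmodule}
                 add_mem' := fun h h' => A.toSubmodule.add_mem h h'
                 zero_mem' := A.toSubmodule.zero_mem
                 smul_mem' := fun c v h => by
                  have h1 : ((τ.symm c) • (show Tw τ V from v) : Tw τ V) ∈ A.toSubmodule :=
                    A.toSubmodule.smul_mem (τ.symm c) h
                  have h2 : ((τ.symm c) • (show Tw τ V from v) : Tw τ V) = c • v := by
                    show τ (τ.symm c) • v = c • v
                    rw [RingEquiv.apply_symm_apply]
                  rw [h2] at h1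
                  exact h1 },
    fun g _ h => A.apply_mem_toSubmodule g h⟩
  left_inv _ := rfl
  right_inv _ := rfl
  map_rel_iff' := Iff.rfl

theorem tw_irreducible (ρ : Representation F G V) (h : ρ.IsIrreducible) :
    (twRep τ ρ).IsIrreducible := by
  have : IsSimpleOrder (Subrepresentation ρ) := h
  exact (twSub τ ρ).symm.isSimpleOrder

end Pool.Agent.KFV
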