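import Mathlib
import Pool.Agent.KFV.Defs
import Pool.Agent.KFV.PDefs
import Pool.Agent.KFV.TWD
import Pool.Agent.KFV.HIG
import Pool.Agent.KFV.TRA
import Pool.Agent.KFV.CNG
import Pool.Agent.KFV.PEN

open Representation

namespace Pool.Agent.KFV

attribute [local instance] twAddCommGroup twModule

variable {F : Type*} [Field F] (τ : F ≃+* F)
variable {G V W V' : Type*} [Group G] [AddCommGroup V] [Module F V] [AddCommGroup W] [Module F W]
  [AddCommGroup V'] [Module F V']

/-- `twMap` is additive. -/
def twHom : (V →ₗ[F] W) →+ (Tw τ V →ₗ[F] Tw τ W) where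
  toFun f := twMap τ f
  map_zero' := rfl
  map_add' _ _ := rfl

theorem tw_relTr [Finite G] (ρ : Representation F G V) (Q : Subgroup G) (θ : V →ₗ[F] V) :
    relTr (twRep τ ρ) (twRep τ ρ) Q (twMap τ θ) = twMap τ (relTr ρ ρ Q θ) := by
  have : Fintype (G ⧸ Q) := Fintype.ofFinite _
  have h : twMap τ (relTr ρ ρ Q θ) = twHom τ (relTr ρ ρ Q θ) := rfl
  rw [h]
  unfold relTr
  rw [finsum_eq_sum_of_fintype, finsum_eq_sum_of_fintype, map_sum]
  rfl

/-- A vertex-source type summand relation survives the twist: by `isSummand_ind_iff` it is a
relation between linear maps, to which `twMap` is applied. -/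
theorem tw_summand [Finite G] (ρ : Representation F G V) (Q : Subgroup G)
    (σ : Representation F Q W) (h : IsSummand ρ (ind Q.subtype σ)) :
    IsSummand (twRep τ ρ) (ind Q.subtype (twRep τ σ)) := by
  rw [isSummand_ind_iff] at h ⊢
  obtain ⟨α, β, hα, hβ, htr⟩ := h
  refine ⟨twMap τ α, twMap τ β, ?_, ?_, ?_⟩
  · intro g
    exact congrArg (twMap τ) (hα g)
  · intro g
    exact congrArg (twMap τ) (hβ g)
  · have h1 := tw_relTr τ ρ Q (α ∘ₗ β)
    rw [htr] at h1
    exact h1

/-- the twist of a linear equivalence -/
def twEquiv (e : V ≃ₗ[F] W) : Tw τ V ≃ₗ[F] Tw τ W where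
  toFun v := e v
  map_add' v w := e.map_add v w
  map_smul' c v := e.map_smul (τ c) v
  invFun w := e.symm w
  left_inv v := e.symm_apply_apply v
  right_inv w := e.apply_symm_apply w

theorem tw_pair {P P' : Type*} [Group P] [Group P'] (σ : Representation F P V)
    (σ' : Representation F P' V') (h : PairEquiv σ σ') :
    PairEquiv (twRep τ σ) (twRep τ σ') := by
  obtain ⟨φ, ⟨e⟩⟩ := h
  refine ⟨φ, ⟨Representation.Equiv.mk (twEquiv τ e.toLinearEquiv) ?_⟩⟩
  intro g
  refine LinearMap.ext fun v => ?_
  exact LinearMap.congr_fun (e.isIntertwining' g) v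

/-- `f ↦ τ⁻¹ ∘ f` identifies the twist of the dual with the dual of the twist. -/
theorem tw_dual {P : Type*} [Group P] (σ : Representation F P V) :
    PairEquiv (twRep τ σ.dual) (twRep τ σ).dual := by
  let e : Tw τ (Module.Dual F V) ≃ₗ[F] Module.Dual F (Tw τ V) :=
    { toFun := fun f =>
        { toFun := fun v => τ.symm ((show Module.Dual F V from f) v)
          map_add' := fun v w => by
            rw [← map_add τ.symm]
            exact congrArg τ.symm ((show Module.Dual F V from f).map_add v w)
          map_smul' := fun c v => by
            have h1 : (show Module.Dual F V from f) (τ c • (show V from v)) =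
                τ c * (show Module.Dual F V from f) v := (show Module.Dual F V from f).map_smul (τ c) v
            show τ.symm ((show Module.Dual F V from f) (τ c • (show V from v))) =
              c * τ.symm ((show Module.Dual F V from f) v)
            rw [h1, map_mul, RingEquiv.symm_apply_apply] }
      map_add' := fun f g => by
        refine LinearMap.ext fun v => ?_
        exact map_add τ.symm _ _
      map_smul' := fun c f => by
        refine LinearMap.ext fun v => ?_
        show τ.symm (τ c * (show Module.Dual F V from f) v) = c * τ.symm _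
        rw [map_mul, RingEquiv.symm_apply_apply]
      invFun := fun f => (show Tw τ (Module.Dual F V) from
        { toFun := fun v => τ (f (show Tw τ V from v))
          map_add' := fun v w => by
            rw [← map_add τ]
            exact congrArg τ (f.map_add (show Tw τ V from v) (show Tw τ V from w))
          map_smul' := fun c v => by
            have h1 : (show Tw τ V from c • v) = (τ.symm c) • (show Tw τ V from v) := by
              show c • v = τ (τ.symm c) • v
              rw [RingEquiv.apply_symm_apply]
            rw [h1, map_smul, smul_eq_mul, map_mul, RingEquiv.apply_symm_apply]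
            rfl })
      left_inv := fun f => by
        refine LinearMap.ext fun v => ?_
        exact τ.apply_symm_apply _
      right_inv := fun f => by
        refine LinearMap.ext fun v => ?_
        exact τ.symm_apply_apply _ }
  refine ⟨MulEquiv.refl P, ⟨Representation.Equiv.mk e ?_⟩⟩
  intro g
  refine LinearMap.ext fun f => ?_
  refine LinearMap.ext fun v => ?_
  rfl

/-- The zigzag representations are defined over the prime field: apply `τ⁻¹` to the
coordinates. -/
theorem tw_zig [CharP F 2] (n : ℕ) : PairEquiv (twRep τ (zigRep F n)) (zigRep F n) := by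
  have hc : ∀ z : ZMod 2, τ.symm (ZMod.castHom (dvd_refl 2) F z) = ZMod.castHom (dvd_refl 2) F z := by
    intro z
    exact congrFun (congrArg DFunLike.coe (RingHom.ext_zmod
      ((τ.symm : F →+* F).comp (ZMod.castHom (dvd_refl 2) F)) (ZMod.castHom (dvd_refl 2) F))) z
  let e : Tw τ ((Fin (n + 1) → F) × (Fin n → F)) ≃ₗ[F] (Fin (n + 1) → F) × (Fin n → F) :=
    { toFun := fun v => (fun i => τ.symm (Prod.fst v i), fun i => τ.symm (Prod.snd v i))
      map_add' := fun v w => by
        refine Prod.ext (funext fun i => ?_) (funext fun i => ?_)
        · exact map_add τ.symm _ _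
        · exact map_add τ.symm _ _
      map_smul' := fun c v => by
        refine Prod.ext (funext fun i => ?_) (funext fun i => ?_)
        · show τ.symm (τ c * Prod.fst v i) = c * τ.symm (Prod.fst v i)
          rw [map_mul, RingEquiv.symm_apply_apply]
        · show τ.symm (τ c * Prod.snd v i) = c * τ.symm (Prod.snd v i)
          rw [map_mul, RingEquiv.symm_apply_apply]
      invFun := fun v => (fun i => τ (v.1 i), fun i => τ (v.2 i))
      left_inv := fun v => by
        refine Prod.ext (funext fun i => ?_) (funext fun i => ?_)
        · exact τ.apply_symm_apply _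
        · exact τ.apply_symm_apply _
      right_inv := fun v => by
        refine Prod.ext (funext fun i => ?_) (funext fun i => ?_)
        · exact τ.symm_apply_apply _
        · exact τ.symm_apply_apply _ }
  refine ⟨MulEquiv.refl K4, ⟨Representation.Equiv.mk e ?_⟩⟩
  intro k
  refine LinearMap.ext fun v => ?_
  refine Prod.ext (funext fun i => ?_) (funext fun i => ?_)
  · show τ.symm (Prod.fst v i + 0) = τ.symm (Prod.fst v i) + 0
    rw [add_zero, add_zero]
  · show τ.symm (Prod.snd v i + (ZMod.castHom (dvd_refl 2) F (Multiplicative.toAdd k).1 *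
        Prod.fst v i.succ + ZMod.castHom (dvd_refl 2) F (Multiplicative.toAdd k).2 *
        Prod.fst v i.castSucc)) = τ.symm (Prod.snd v i) +
      (ZMod.castHom (dvd_refl 2) F (Multiplicative.toAdd k).1 * τ.symm (Prod.fst v i.succ) +
        ZMod.castHom (dvd_refl 2) F (Multiplicative.toAdd k).2 * τ.symm (Prod.fst v i.castSucc))
    rw [map_add, map_add, map_mul, map_mul, hc, hc]

end Pool.Agent.KFV
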