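import Mathlib
import Pool.Agent.KFV.FIN
import Pool.Agent.KFV.TWD
import Pool.Agent.KFV.TWI
import Pool.Agent.KFV.TWS
import Pool.Agent.KFV.TWC
import Pool.Agent.KFV.DSG
import Pool.Agent.KFV.BRA
import Pool.Agent.KFV.FRB

open Representation

namespace Pool.Agent.KFV

attribute [local instance] twAddCommGroup twModule

universe u v w z

/-- `e` is semilinear with respect to the automorphism `τ` of the field. -/
def SemiMap {F V : Type*} [Field F] [AddCommGroup V] [Module F V] (τ : F ≃+* F)
    (e : Module.Dual F V ≃+ V) : Prop :=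
  ∀ (c : F) (f : Module.Dual F V), e (c • f) = τ c • e f

/-- `e` carries the action of `g` on the dual space to `μ g` times the action of `φ g`. -/
def TwistMap {F G V : Type*} [Field F] [Group G] [AddCommGroup V] [Module F V]
    (ρ : Representation F G V) (φ : G ≃* G) (μ : G →* Fˣ) (e : Module.Dual F V ≃+ V) : Prop :=
  ∀ (g : G) (f : Module.Dual F V), e (f ∘ₗ ρ g⁻¹) = (μ g : F) • ρ (φ g) (e f)

/-- The dual of `ρ` is isomorphic to the product of a character `μ` and of the twist of `ρ` by an
automorphism `φ` of the group and an automorphism `τ` of the field: there is a bijective additive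
map `e` from the dual space to the space of `ρ` with `e (c f) = τ c (e f)` and
`e (g f) = μ g (φ g) (e f)`. -/
def DualConj {F G V : Type*} [Field F] [Group G] [AddCommGroup V] [Module F V]
    (ρ : Representation F G V) : Prop :=
  ∃ (φ : G ≃* G) (τ : F ≃+* F) (μ : G →* Fˣ) (e : Module.Dual F V ≃+ V),
    SemiMap τ e ∧ TwistMap ρ φ μ e

/-- The semilinear map as a linear equivalence onto the twist. -/
theorem exists_equiv_of_dualConj {F G V : Type*} [Field F] [Group G] [AddCommGroup V] [Module F V]
    (ρ : Representation F G V) (h : DualConj ρ) :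
    ∃ (φ : G ≃* G) (τ : F ≃+* F) (μ : G →* Fˣ),
      Nonempty (ρ.dual.Equiv ((chRep μ (twRep τ ρ)).comp φ.toMonoidHom)) := by
  obtain ⟨φ, τ, μ, e, he1, he2⟩ := h
  refine ⟨φ, τ, (Units.map (τ.symm : F →+* F).toMonoidHom).comp (μ.comp φ.symm.toMonoidHom),
    ⟨Representation.Equiv.mk
    { toFun := fun f => (e f : V)
      invFun := fun v => e.symm v
      map_add' := fun f f' => e.map_add f f'
      map_smul' := fun c f => he1 c f
      left_inv := fun f => e.symm_apply_apply f
      right_inv := fun v => e.apply_symm_apply v } ?_⟩⟩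
  intro g
  refine LinearMap.ext fun f => ?_
  have h1 : τ (τ.symm (μ (φ.symm (φ g)) : F)) = (μ g : F) := by
    rw [RingEquiv.apply_symm_apply, MulEquiv.symm_apply_apply]
  change e (ρ.dual g f) = τ (τ.symm (μ (φ.symm (φ g)) : F)) • ρ (φ g) (e f)
  rw [h1]
  exact he2 g f

theorem dualConj_of_equiv {F G V : Type*} [Field F] [Group G] [AddCommGroup V] [Module F V]
    (ρ : Representation F G V) (φ : G ≃* G) (τ : F ≃+* F)
    (e : ρ.dual.Equiv ((twRep τ ρ).comp φ.toMonoidHom)) : DualConj ρ := by
  refine ⟨φ, τ, 1,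
    { toFun := fun f => (e f : Tw τ V)
      invFun := fun v => e.toLinearEquiv.symm (v : Tw τ V)
      map_add' := fun f f' => e.toLinearEquiv.map_add f f'
      left_inv := fun f => e.toLinearEquiv.symm_apply_apply f
      right_inv := fun v => e.toLinearEquiv.apply_symm_apply v }, ?_, ?_⟩
  · intro c f
    exact e.toLinearEquiv.map_smul c f
  · intro g f
    rw [MonoidHom.one_apply, Units.val_one, one_smul]
    exact LinearMap.congr_fun (e.isIntertwining' g) f

/-- The sources of the simple modules whose dual is a conjugate. -/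
theorem sources_klein_conj (F : Type u) [Field F] [IsAlgClosed F] [CharP F 2] (G : Type v)
    [Group G] [Finite G] (V : Type w) [AddCommGroup V] [Module F V] [FiniteDimensional F V]
    (ρ : Representation F G V) (hρ : ρ.IsIrreducible) (Q : Subgroup G) [IsKleinFour Q]
    (L : Type z) [AddCommGroup L] [Module F L] [FiniteDimensional F L]
    (σ : Representation F Q L) (h : IsVertexSource ρ Q σ) (hd : DualConj ρ) :
    (∃ ω : F, ω ^ 2 + ω + 1 = 0 ∧ PairEquiv σ (natRep ω)) ∨
      PairEquiv σ (Representation.trivial F K4 F) := by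
  rcases sources_klein F G V ρ hρ Q L σ h with h1 | ⟨n, h1⟩
  · exact Or.inl h1
  right
  obtain ⟨φ, τ, μ, ⟨e⟩⟩ := exists_equiv_of_dualConj ρ hd
  have := tw_finiteDimensional (V := L) τ
  obtain ⟨ψ, hψ⟩ := dual_source_gen ρ hρ Q σ h (chRep μ (twRep τ ρ)) (twRep τ σ)
    (ch_summand μ (twRep τ ρ) Q (twRep τ σ) (tw_summand τ ρ Q σ h.source)) (tw_finrank τ) φ e
  have hdual : PairEquiv σ.dual (twRep τ σ) := ⟨ψ, hψ⟩
  rcases h1 with h1 | h1
  · have h2 : PairEquiv (zigRep F n) (zigRep F n).dual :=
      ((h1.symm.dual.trans (hdual.trans ((tw_pair τ _ _ h1).trans (tw_zig τ n))))).symm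
    obtain rfl := zig_not_selfdual n h2
    exact h1.trans zig_zero
  · have h3 : PairEquiv (twRep τ σ) (zigRep F n).dual :=
      (tw_pair τ _ _ h1).trans ((tw_dual τ _).trans (tw_zig τ n).dual)
    have h2 : PairEquiv (zigRep F n) (zigRep F n).dual :=
      (pairEquiv_dual_dual (zigRep F n)).trans (h1.symm.dual.trans (hdual.trans h3))
    obtain rfl := zig_not_selfdual n h2
    exact h1.trans (zig_zero.dual.trans pairEquiv_dual_trivial)

section Group

variable {F G V : Type*} [Field F] [Group G] [AddCommGroup V] [Module F V]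

theorem isIrreducible_of (ρ : Representation F G V) [Nontrivial V]
    (h : ∀ A : Subrepresentation ρ, A = ⊥ ∨ A = ⊤) : ρ.IsIrreducible := by
  have : Nontrivial (Subrepresentation ρ) := by
    refine ⟨⟨⊥, ⊤, fun hb => ?_⟩⟩
    have h1 := congrArg Subrepresentation.toSubmodule hb
    exact (bot_ne_top : (⊥ : Submodule F V) ≠ ⊤) h1
  exact { eq_bot_or_eq_top := h }

theorem eq_bot_or_eq_top (ρ : Representation F G V) (hρ : ρ.IsIrreducible) (A : Submodule F V)
    (hA : ∀ g, ∀ v ∈ A, ρ g v ∈ A) : A = ⊥ ∨ A = ⊤ := by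
  rcases IsSimpleOrder.eq_bot_or_eq_top (⟨A, fun g v hv => hA g v hv⟩ : Subrepresentation ρ) with
    h | h
  · exact Or.inl (congrArg Subrepresentation.toSubmodule h)
  · exact Or.inr (congrArg Subrepresentation.toSubmodule h)

theorem irreducible_comp (ρ : Representation F G V) (hρ : ρ.IsIrreducible) (φ : G ≃* G) :
    Representation.IsIrreducible (ρ.comp φ.toMonoidHom : Representation F G V) := by
  have := nontrivial_of_irreducible ρ hρ
  refine isIrreducible_of (ρ.comp φ.toMonoidHom : Representation F G V) fun A => ?_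
  have h1 : ∀ g, ∀ v ∈ A.toSubmodule, ρ g v ∈ A.toSubmodule := by
    intro g v hv
    have h2 := A.apply_mem_toSubmodule (φ.symm g) hv
    have h3 : (ρ.comp φ.toMonoidHom) (φ.symm g) v = ρ g v := by
      change ρ (φ (φ.symm g)) v = ρ g v
      rw [φ.apply_symm_apply]
    rwa [h3] at h2
  rcases eq_bot_or_eq_top ρ hρ A.toSubmodule h1 with h | h
  · exact Or.inl (Subrepresentation.toSubmodule_injective h)
  · exact Or.inr (Subrepresentation.toSubmodule_injective h)

theorem irreducible_dual [FiniteDimensional F V] (ρ : Representation F G V)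
    (hρ : ρ.IsIrreducible) : ρ.dual.IsIrreducible := by
  have := nontrivial_of_irreducible ρ hρ
  have : Nontrivial (Module.Dual F V) := by
    have h1 : 0 < Module.finrank F V := Module.finrank_pos
    apply Module.nontrivial_of_finrank_pos (R := F)
    rwa [Subspace.dual_finrank_eq]
  refine isIrreducible_of _ fun A => ?_
  have h1 : ∀ g, ∀ v ∈ A.toSubmodule.dualCoannihilator, ρ g v ∈ A.toSubmodule.dualCoannihilator := by
    intro g w hw
    rw [Submodule.mem_dualCoannihilator] at hw ⊢
    intro f hf
    have h1 := A.apply_mem_toSubmodule g⁻¹ hf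
    have h2 := hw _ h1
    have h3 : (ρ.dual g⁻¹ f) w = f (ρ g w) := by
      rw [Representation.dual_apply, inv_inv]
      rfl
    rwa [h3] at h2
  rcases eq_bot_or_eq_top ρ hρ _ h1 with h | h
  · right
    apply Subrepresentation.toSubmodule_injective
    rw [← Subspace.dualCoannihilator_dualAnnihilator_eq (W := A.toSubmodule), h,
      Submodule.dualAnnihilator_bot]
    rfl
  · left
    apply Subrepresentation.toSubmodule_injective
    rw [← Subspace.dualCoannihilator_dualAnnihilator_eq (W := A.toSubmodule), h,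
      Submodule.dualAnnihilator_top]
    rfl

theorem trace_dual [FiniteDimensional F V] (ρ : Representation F G V) (g : G) :
    LinearMap.trace F (Module.Dual F V) (ρ.dual g) = LinearMap.trace F V (ρ g⁻¹) := by
  rw [Representation.dual_apply, LinearMap.trace_transpose']

theorem trace_conj (ρ : Representation F G V) {g h : G} (hgh : IsConj g h) :
    LinearMap.trace F V (ρ g) = LinearMap.trace F V (ρ h) := by
  obtain ⟨c, rfl⟩ := isConj_iff.1 hgh
  have h1 : ρ (c * g * c⁻¹) = ρ c * ρ g * ρ c⁻¹ := by rw [map_mul ρ, map_mul ρ]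
  rw [h1, LinearMap.trace_mul_comm, ← mul_assoc, ← map_mul ρ, inv_mul_cancel, map_one ρ, one_mul]

/-- The hypothesis on the module follows from a hypothesis on the group. -/
theorem dualConj_of_group [IsAlgClosed F] [CharP F 2] [Finite G] [FiniteDimensional F V]
    (ρ : Representation F G V) (hρ : ρ.IsIrreducible) (φ : G ≃* G) (j : ℕ)
    (hφ : ∀ g : G, Odd (orderOf g) → IsConj (φ g) (g ^ 2 ^ j)⁻¹) : DualConj ρ := by
  have hF : ExpChar F 2 := ExpChar.prime Nat.prime_two
  have hP : PerfectRing F 2 := inferInstance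
  set τ : F ≃+* F := iterateFrobeniusEquiv F 2 j with hτ
  have := tw_finiteDimensional (V := V) τ
  have h1 : ∀ g : G, Odd (orderOf g) → LinearMap.trace F (Module.Dual F V) (ρ.dual g) =
      LinearMap.trace F (Tw τ V) (((twRep τ ρ).comp φ.toMonoidHom) g) := by
    intro g hg
    have h2 : ((twRep τ ρ).comp φ.toMonoidHom) g = twMap τ (ρ (φ g)) := rfl
    rw [h2, tw_trace, trace_dual, trace_conj ρ (hφ g hg), ← inv_pow, map_pow, trace_pow_two_pow,
      RingEquiv.eq_symm_apply]
    rfl
  obtain ⟨e⟩ := equiv_of_trace ρ.dual ((twRep τ ρ).comp φ.toMonoidHom) (irreducible_dual ρ hρ)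
    (irreducible_comp _ (tw_irreducible τ ρ hρ) φ) (trace_eq_of_odd _ _ h1)
  exact dualConj_of_equiv ρ φ τ e

end Group

/-- The whole Klein four group. -/
theorem isKleinFour_top : IsKleinFour (⊤ : Subgroup K4) where
  card_four := by
    rw [Nat.card_congr Subgroup.topEquiv.toEquiv]
    exact IsKleinFour.card_four
  exponent_two := by
    rw [Monoid.exponent_eq_of_mulEquiv Subgroup.topEquiv]
    exact IsKleinFour.exponent_two

end Pool.Agent.KFV
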