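import Mathlib
import Pool.Agent.KFV.FI2

open Representation

namespace Pool.Agent.KFV

universe u v w z

/-- `G` has an automorphism `φ` such that, for some `j`, the element `φ g` is conjugate to the
inverse of `g ^ (2 ^ j)` for all `g` of odd order. -/
def InvConj (G : Type*) [Group G] : Prop :=
  ∃ (φ : G ≃* G) (j : ℕ), ∀ g : G, Odd (orderOf g) → IsConj (φ g) (g ^ 2 ^ j)⁻¹

/-- `B` is a nondegenerate biadditive form on the space of `ρ`, linear in the second variable and
semilinear in the first one, and invariant when `g` acts by `μ g • ρ (φ g)` on the first variable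
and by `ρ g` on the second one. -/
structure TwistedForm {F G V : Type*} [Field F] [Group G] [AddCommGroup V] [Module F V]
    (ρ : Representation F G V) (φ : G ≃* G) (τ : F ≃+* F) (μ : G →* F) (B : V → V → F) :
    Prop where
  add_left : ∀ v v' w, B (v + v') w = B v w + B v' w
  add_right : ∀ v w w', B v (w + w') = B v w + B v w'
  smul_left : ∀ (c : F) (v w : V), B (τ c • v) w = c * B v w
  smul_right : ∀ (c : F) (v w : V), B v (c • w) = c * B v w
  invariant : ∀ (g : G) (v w : V), B (μ g • ρ (φ g) v) (ρ g w) = B v w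
  nondeg : ∀ v, v ≠ 0 → ∃ w, B v w ≠ 0

/-- The dual of `ρ` is isomorphic to the product of a one-dimensional representation and of a
twist of `ρ` by an automorphism of the group and an automorphism of the field. -/
def DualTwist {F G V : Type*} [Field F] [Group G] [AddCommGroup V] [Module F V]
    (ρ : Representation F G V) : Prop :=
  ∃ (φ : G ≃* G) (τ : F ≃+* F) (μ : G →* F) (B : V → V → F), TwistedForm ρ φ τ μ B

/-- `ρ` is self-dual: it carries a nondegenerate invariant bilinear form. -/
def SelfDual {F G V : Type*} [Field F] [Group G] [AddCommGroup V] [Module F V]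
    (ρ : Representation F G V) : Prop :=
  ∃ B : V → V → F, TwistedForm ρ (MulEquiv.refl G) (RingEquiv.refl F) 1 B

section Conversion

variable {F G V : Type*} [Field F] [Group G] [AddCommGroup V] [Module F V]

theorem selfDual_of_equiv (ρ : Representation F G V) (h : Nonempty (ρ.dual.Equiv ρ)) :
    SelfDual ρ := by
  obtain ⟨e⟩ := h
  refine ⟨fun v w => (e.toLinearEquiv.symm v) w, ?_, ?_, ?_, ?_, ?_, ?_⟩
  · intro v v' w
    rw [map_add]
    rfl
  · intro v w w'
    exact (e.toLinearEquiv.symm v).map_add w w'
  · intro c v w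
    change (e.toLinearEquiv.symm (c • v)) w = _
    rw [map_smul]
    rfl
  · intro c v w
    exact (e.toLinearEquiv.symm v).map_smul c w
  · intro g v w
    change (e.toLinearEquiv.symm ((1 : F) • ρ g v)) (ρ g w) = _
    rw [one_smul]
    have h1 : e.toLinearEquiv.symm (ρ g v) = ρ.dual g (e.toLinearEquiv.symm v) := by
      rw [LinearEquiv.symm_apply_eq]
      have := IntertwiningMap.isIntertwining _ _ e.toIntertwiningMap g (e.toLinearEquiv.symm v)
      have h2 : e.toLinearEquiv (ρ.dual g (e.toLinearEquiv.symm v)) =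
          ρ g (e.toLinearEquiv (e.toLinearEquiv.symm v)) := this
      rw [h2, LinearEquiv.apply_symm_apply]
    rw [h1]
    change (e.toLinearEquiv.symm v) (ρ g⁻¹ (ρ g w)) = _
    rw [← Module.End.mul_apply, ← map_mul, inv_mul_cancel, map_one, Module.End.one_apply]
  · intro v hv
    by_contra hcon
    push Not at hcon
    apply hv
    have h1 : e.toLinearEquiv.symm v = 0 := LinearMap.ext hcon
    have h2 := congrArg e.toLinearEquiv h1
    rwa [LinearEquiv.apply_symm_apply, map_zero] at h2

theorem dualConj_of_dualTwist [FiniteDimensional F V] (ρ : Representation F G V)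
    (h : DualTwist ρ) : DualConj ρ := by
  obtain ⟨φ, τ, μ, B, hB⟩ := h
  let T : V →+ Module.Dual F V :=
    { toFun := fun v =>
        { toFun := B v
          map_add' := hB.add_right v
          map_smul' := fun c w => hB.smul_right c v w }
      map_zero' := by
        refine LinearMap.ext fun w => ?_
        have h1 := hB.add_left 0 0 w
        rw [add_zero] at h1
        exact left_eq_add.1 h1
      map_add' := fun v v' => LinearMap.ext fun w => hB.add_left v v' w }
  have hT : ∀ v w, T v w = B v w := fun _ _ => rfl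
  have hsm : ∀ (c : F) (v : V), T (τ c • v) = c • T v := fun c v =>
    LinearMap.ext fun w => hB.smul_left c v w
  have hinj : Function.Injective T := by
    rw [injective_iff_map_eq_zero]
    intro v hv
    by_contra hne
    obtain ⟨w, hw⟩ := hB.nondeg v hne
    apply hw
    rw [← hT, hv]
    rfl
  let b := Module.finBasis F V
  have hli : LinearIndependent F fun i => T (b i) := by
    rw [Fintype.linearIndependent_iff]
    intro c hc i
    have h1 : T (∑ i, τ (c i) • b i) = 0 := by
      rw [map_sum, ← hc]
      exact Finset.sum_congr rfl fun i _ => hsm _ _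
    have h2 := (injective_iff_map_eq_zero T).1 hinj _ h1
    have h3 := Fintype.linearIndependent_iff.1 b.linearIndependent _ h2 i
    exact (map_eq_zero τ).1 h3
  have hspan := hli.span_eq_top_of_card_eq_finrank' (by
    rw [Subspace.dual_finrank_eq, Fintype.card_fin])
  let R : Submodule F (Module.Dual F V) :=
    { carrier := Set.range T
      add_mem' := by
        rintro _ _ ⟨v, rfl⟩ ⟨v', rfl⟩
        exact ⟨v + v', map_add T v v'⟩
      zero_mem' := ⟨0, map_zero T⟩
      smul_mem' := by
        rintro c _ ⟨v, rfl⟩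
        exact ⟨τ c • v, hsm c v⟩ }
  have hR : R = ⊤ := by
    rw [eq_top_iff, ← hspan, Submodule.span_le]
    rintro _ ⟨i, rfl⟩
    exact ⟨b i, rfl⟩
  have hsurj : Function.Surjective T := fun f => by
    have : f ∈ R := hR ▸ Submodule.mem_top
    exact this
  let E : V ≃+ Module.Dual F V := AddEquiv.ofBijective T ⟨hinj, hsurj⟩
  refine ⟨φ, τ, μ.toHomUnits, E.symm, ?_, ?_⟩
  · intro c f
    rw [AddEquiv.symm_apply_eq]
    change c • f = T (τ c • E.symm f)
    rw [hsm]
    exact congrArg (c • ·) (E.apply_symm_apply f).symm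
  · intro g f
    rw [AddEquiv.symm_apply_eq]
    change f ∘ₗ ρ g⁻¹ = T (((μ.toHomUnits g : Fˣ) : F) • ρ (φ g) (E.symm f))
    refine LinearMap.ext fun w => ?_
    rw [hT, MonoidHom.coe_toHomUnits]
    have h1 : w = ρ g (ρ g⁻¹ w) := by
      rw [← Module.End.mul_apply, ← map_mul, mul_inv_cancel, map_one, Module.End.one_apply]
    conv_rhs => rw [h1]
    rw [hB.invariant, ← hT]
    have h2 : T (E.symm f) = f := E.apply_symm_apply f
    rw [h2]
    rfl

end Conversion

theorem trivial_of_pairEquiv {F P L : Type*} [Field F] [Group P] [AddCommGroup L] [Module F L]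
    {σ : Representation F P L} (h : PairEquiv σ (Representation.trivial F K4 F)) :
    Module.finrank F L = 1 ∧ ∀ q x, σ q x = x := by
  obtain ⟨φ, ⟨e⟩⟩ := h
  refine ⟨e.toLinearEquiv.finrank_eq.trans (Module.finrank_self F), fun q x => ?_⟩
  apply e.toLinearEquiv.injective
  exact LinearMap.congr_fun (e.isIntertwining' q) x

theorem occurs_natRep (F : Type u) [Field F] [IsAlgClosed F] [CharP F 2] (ω : F)
    (hω : ω ^ 2 + ω + 1 = 0) :
    ∃ (G : Type) (_ : Group G) (_ : Finite G) (ρ : Representation F G (F × F)) (Q : Subgroup G),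
      ρ.IsIrreducible ∧ SelfDual ρ ∧ IsKleinFour Q ∧ IsVertexSource ρ Q (ρ.comp Q.subtype) ∧
      PairEquiv (ρ.comp Q.subtype) (natRep ω) := by
  obtain ⟨G, i1, i2, ρ, Q, h1, h2, h3, h4, h5⟩ := exists_natural F ω hω
  exact ⟨G, i1, i2, ρ, Q, h1, selfDual_of_equiv ρ h2, h3, h4, h5⟩

theorem occurs_trivial (F : Type u) [Field F] [IsAlgClosed F] [CharP F 2] :
    ∃ (G : Type) (_ : Group G) (_ : Finite G) (ρ : Representation F G F) (Q : Subgroup G),
      ρ.IsIrreducible ∧ SelfDual ρ ∧ IsKleinFour Q ∧ IsVertexSource ρ Q (ρ.comp Q.subtype) := by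
  obtain ⟨h1, h2, h3⟩ := exists_trivial F
  exact ⟨K4, inferInstance, inferInstance, Representation.trivial F K4 F, ⊤, h1,
    selfDual_of_equiv _ h2, isKleinFour_top, h3⟩

theorem sources_klein_duality (F : Type u) [Field F] [IsAlgClosed F] [CharP F 2] (G : Type v)
    [Group G] [Finite G] (V : Type w) [AddCommGroup V] [Module F V] [FiniteDimensional F V]
    (ρ : Representation F G V) (Q : Subgroup G) (L : Type z) [AddCommGroup L] [Module F L]
    [FiniteDimensional F L] (σ : Representation F Q L) (hρ : ρ.IsIrreducible)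
    (hQ : IsKleinFour Q) (h : IsVertexSource ρ Q σ) (hd : DualTwist ρ ∨ InvConj G) :
    (∃ ω : F, ω ^ 2 + ω + 1 = 0 ∧ PairEquiv σ (natRep ω)) ∨
      (Module.finrank F L = 1 ∧ ∀ q x, σ q x = x) := by
  have hd' : DualConj ρ := by
    rcases hd with hd | ⟨φ, j, hφ⟩
    · exact dualConj_of_dualTwist ρ hd
    · exact dualConj_of_group ρ hρ φ j hφ
  rcases sources_klein_conj F G V ρ hρ Q L σ h hd' with h1 | h1
  · exact Or.inl h1
  · exact Or.inr (trivial_of_pairEquiv h1)

end Pool.Agent.KFV
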